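import Mathlib

set_option autoImplicit false

open Matrix Finset

namespace Pool.Agent.Helper951.Perron

variable {V : Type*} [Fintype V] [DecidableEq V]

/-- existence of a maximiser of the quadratic form of a matrix on the unit sphere -/
lemma exists_max [Nonempty V] (M : Matrix V V ℝ) :
    ∃ y : V → ℝ, y ⬝ᵥ y = 1 ∧ ∀ z : V → ℝ, z ⬝ᵥ z = 1 → z ⬝ᵥ (M *ᵥ z) ≤ y ⬝ᵥ (M *ᵥ y) := by
  have hcont : Continuous (fun y : V → ℝ => y ⬝ᵥ (M *ᵥ y)) := by
    simp only [dotProduct, mulVec]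
    fun_prop
  have hcont2 : Continuous (fun y : V → ℝ => y ⬝ᵥ y) := by
    simp only [dotProduct]
    fun_prop
  have hcomp : IsCompact {y : V → ℝ | y ⬝ᵥ y = 1} := by
    apply Metric.isCompact_of_isClosed_isBounded
    · exact isClosed_eq hcont2 continuous_const
    · rw [Metric.isBounded_iff_subset_closedBall (0 : V → ℝ)]
      refine ⟨1, fun y hy => ?_⟩
      have hy' : y ⬝ᵥ y = 1 := hy
      rw [Metric.mem_closedBall, dist_zero_right, pi_norm_le_iff_of_nonneg zero_le_one]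
      intro i
      have h1 : y i * y i ≤ y ⬝ᵥ y := by
        simp only [dotProduct]
        exact Finset.single_le_sum (f := fun i => y i * y i)
          (fun j _ => mul_self_nonneg (y j)) (Finset.mem_univ i)
      rw [Real.norm_eq_abs]
      apply abs_le_of_sq_le_sq' _ zero_le_one |> abs_le.2
      rw [hy'] at h1
      nlinarith
  have hne : {y : V → ℝ | y ⬝ᵥ y = 1}.Nonempty := by
    obtain ⟨v⟩ := ‹Nonempty V›
    refine ⟨Pi.single v 1, ?_⟩
    simp
  obtain ⟨y, hy, hmax⟩ := hcomp.exists_isMaxOn hne hcont.continuousOn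
  exact ⟨y, hy, fun z hz => hmax hz⟩

lemma dot_self_nonneg (x : V → ℝ) : 0 ≤ x ⬝ᵥ x := by
  simp only [dotProduct]
  exact Finset.sum_nonneg (fun i _ => mul_self_nonneg (x i))

lemma dot_self_pos (x : V → ℝ) (hx : x ≠ 0) : 0 < x ⬝ᵥ x := by
  rcases (dot_self_nonneg x).lt_or_eq with h | h
  · exact h
  · exact absurd (dotProduct_self_eq_zero.1 h.symm) hx

lemma quad_le (M : Matrix V V ℝ) (lam : ℝ)
    (h : ∀ z : V → ℝ, z ⬝ᵥ z = 1 → z ⬝ᵥ (M *ᵥ z) ≤ lam) (z : V → ℝ) :
    z ⬝ᵥ (M *ᵥ z) ≤ lam * (z ⬝ᵥ z) := by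
  by_cases hz : z = 0
  · subst hz; simp
  · have hpos := dot_self_pos z hz
    set c : ℝ := (Real.sqrt (z ⬝ᵥ z))⁻¹ with hc
    have hs : Real.sqrt (z ⬝ᵥ z) ^ 2 = z ⬝ᵥ z := Real.sq_sqrt hpos.le
    have hsp : 0 < Real.sqrt (z ⬝ᵥ z) := Real.sqrt_pos.2 hpos
    have hc2 : c * c * (z ⬝ᵥ z) = 1 := by
      rw [hc]
      field_simp
      exact hs.symm
    have h1 := h (c • z) (by
      rw [smul_dotProduct, dotProduct_smul, smul_eq_mul, smul_eq_mul]
      linarith [hc2])
    rw [mulVec_smul, smul_dotProduct, dotProduct_smul, smul_eq_mul, smul_eq_mul] at h1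
    have h2 : 0 < c * c := by
      have : 0 < c := inv_pos.2 hsp
      positivity
    have h3 : c * c * (z ⬝ᵥ (M *ᵥ z)) ≤ c * c * (lam * (z ⬝ᵥ z)) := by
      calc c * c * (z ⬝ᵥ (M *ᵥ z)) = c * (c * (z ⬝ᵥ (M *ᵥ z))) := by ring
        _ ≤ lam := h1
        _ = lam * (c * c * (z ⬝ᵥ z)) := by rw [hc2]; ring
        _ = c * c * (lam * (z ⬝ᵥ z)) := by ring
    exact le_of_mul_le_mul_left h3 h2

/-- Perron-type statement: the largest value of the Rayleigh quotient of a graph is attained at a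
nonnegative eigenvector. -/
theorem perron [Nonempty V] (G : SimpleGraph V) [DecidableRel G.Adj] :
    ∃ (lam : ℝ) (x : V → ℝ), x ⬝ᵥ x = 1 ∧ (∀ v, 0 ≤ x v) ∧
      (∀ v, ∑ u ∈ G.neighborFinset v, x u = lam * x v) ∧
      ∀ y : V → ℝ, y ⬝ᵥ (G.adjMatrix ℝ *ᵥ y) ≤ lam * (y ⬝ᵥ y) := by
  obtain ⟨y, hy, hmax⟩ := exists_max (G.adjMatrix ℝ)
  set M := G.adjMatrix ℝ with hM
  set lam := y ⬝ᵥ (M *ᵥ y) with hlam
  have hq := quad_le M lam hmax
  let x : V → ℝ := fun v => |y v|
  have hx1 : x ⬝ᵥ x = 1 := by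
    rw [← hy]
    simp only [dotProduct, x]
    exact Finset.sum_congr rfl (fun i _ => by rw [abs_mul_abs_self])
  have hx2 : lam ≤ x ⬝ᵥ (M *ᵥ x) := by
    rw [hlam, hM, SimpleGraph.dotProduct_mulVec_adjMatrix, SimpleGraph.dotProduct_mulVec_adjMatrix]
    apply Finset.sum_le_sum
    intro i _
    apply Finset.sum_le_sum
    intro j _
    split_ifs
    · calc y i * y j ≤ |y i * y j| := le_abs_self _
        _ = |y i| * |y j| := abs_mul _ _
    · exact le_rfl
  have hx3 : x ⬝ᵥ (M *ᵥ x) = lam := le_antisymm (by have := hq x; rw [hx1] at this; linarith) hx2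
  -- eigenvector
  have hpsd : (lam • (1 : Matrix V V ℝ) - M).PosSemidef := by
    apply PosSemidef.of_dotProduct_mulVec_nonneg
    · unfold IsHermitian
      rw [conjTranspose_sub, conjTranspose_smul, conjTranspose_one]
      simp only [star_trivial, conjTranspose_eq_transpose_of_trivial]
      congr 1
      exact G.isSymm_adjMatrix
    · intro z
      simp only [star_trivial]
      rw [sub_mulVec, smul_mulVec, one_mulVec, dotProduct_sub, dotProduct_smul, smul_eq_mul]
      have := hq z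
      linarith
  have hz : star x ⬝ᵥ ((lam • (1 : Matrix V V ℝ) - M) *ᵥ x) = 0 := by
    simp only [star_trivial]
    rw [sub_mulVec, smul_mulVec, one_mulVec, dotProduct_sub, dotProduct_smul, smul_eq_mul, hx1,
      hx3]
    ring
  have hz2 := (hpsd.dotProduct_mulVec_zero_iff x).1 hz
  rw [sub_mulVec, smul_mulVec, one_mulVec, sub_eq_zero] at hz2
  refine ⟨lam, x, hx1, fun v => abs_nonneg _, fun v => ?_, hq⟩
  have := congrFun hz2 v
  rw [Pi.smul_apply, smul_eq_mul, hM, SimpleGraph.adjMatrix_mulVec_apply] at this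
  exact this.symm

end Pool.Agent.Helper951.Perron
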