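import Mathlib
import Pool.Agent.Helper951.Perron

set_option autoImplicit false

open Matrix Finset

namespace Pool.Agent.Helper951.Spec

open Pool.Agent.Helper951.Perron

open Classical in
/-- The spectral radius of a finite graph: the largest eigenvalue of its adjacency matrix. -/
noncomputable def specRad {V : Type*} [Fintype V] (G : SimpleGraph V) : ℝ :=
  sSup {μ : ℝ | Module.End.HasEigenvalue (Matrix.toLin' (G.adjMatrix ℝ)) μ}

variable {V : Type*} [Fintype V] [DecidableEq V]

lemma specRad_inst (G : SimpleGraph V) (d1 d1' : DecidableEq V) (d2 d2' : DecidableRel G.Adj) :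
    sSup {μ : ℝ | Module.End.HasEigenvalue
      (@Matrix.toLin' ℝ _ V V d1 _ (@SimpleGraph.adjMatrix ℝ V G d2 _ _)) μ} =
    sSup {μ : ℝ | Module.End.HasEigenvalue
      (@Matrix.toLin' ℝ _ V V d1' _ (@SimpleGraph.adjMatrix ℝ V G d2' _ _)) μ} := by
  rw [Subsingleton.elim d1 d1', Subsingleton.elim d2 d2']

lemma specRad_eq_sSup (G : SimpleGraph V) [DecidableRel G.Adj] :
    specRad G = sSup {μ : ℝ | Module.End.HasEigenvalue (Matrix.toLin' (G.adjMatrix ℝ)) μ} := by
  unfold specRad
  exact specRad_inst G _ _ _ _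

lemma eigen_of_sum (G : SimpleGraph V) [DecidableRel G.Adj] (lam : ℝ) (x : V → ℝ) (hx : x ≠ 0)
    (hev : ∀ v, ∑ u ∈ G.neighborFinset v, x u = lam * x v) :
    Module.End.HasEigenvalue (Matrix.toLin' (G.adjMatrix ℝ)) lam := by
  apply Module.End.hasEigenvalue_of_hasEigenvector (x := x)
  rw [Module.End.hasEigenvector_iff, Module.End.mem_eigenspace_iff]
  refine ⟨?_, hx⟩
  rw [Matrix.toLin'_apply]
  funext v
  rw [SimpleGraph.adjMatrix_mulVec_apply, hev v]
  rfl

/-- basic facts about the spectral radius -/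
theorem specRad_facts [Nonempty V] (G : SimpleGraph V) [DecidableRel G.Adj] :
    IsGreatest {μ : ℝ | Module.End.HasEigenvalue (Matrix.toLin' (G.adjMatrix ℝ)) μ}
      (specRad G) ∧
    (∀ y : V → ℝ, y ⬝ᵥ (G.adjMatrix ℝ *ᵥ y) ≤ specRad G * (y ⬝ᵥ y)) ∧
    ∃ x : V → ℝ, x ⬝ᵥ x = 1 ∧ (∀ v, 0 ≤ x v) ∧
      (∀ v, ∑ u ∈ G.neighborFinset v, x u = specRad G * x v) := by
  obtain ⟨lam, x, hx1, hx0, hev, hq⟩ := perron G
  have hxne : x ≠ 0 := by
    rintro rfl
    simp at hx1
  have hgr : IsGreatest {μ : ℝ | Module.End.HasEigenvalue (Matrix.toLin' (G.adjMatrix ℝ)) μ}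
      lam := by
    refine ⟨eigen_of_sum G lam x hxne hev, ?_⟩
    intro μ hμ
    obtain ⟨z, hz⟩ := Module.End.HasEigenvalue.exists_hasEigenvector hμ
    rw [Module.End.hasEigenvector_iff, Module.End.mem_eigenspace_iff] at hz
    obtain ⟨hz1, hz2⟩ := hz
    rw [Matrix.toLin'_apply] at hz1
    have h1 := hq z
    rw [hz1, dotProduct_smul, smul_eq_mul] at h1
    exact le_of_mul_le_mul_right h1 (dot_self_pos z hz2)
  have heq : specRad G = lam := (specRad_eq_sSup G).trans hgr.csSup_eq
  rw [heq]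
  exact ⟨hgr, hq, x, hx1, hx0, hev⟩

theorem specRad_isGreatest [Nonempty V] (G : SimpleGraph V) [DecidableRel G.Adj] :
    IsGreatest {μ : ℝ | Module.End.HasEigenvalue (Matrix.toLin' (G.adjMatrix ℝ)) μ}
      (specRad G) := (specRad_facts G).1

theorem rayleigh_le [Nonempty V] (G : SimpleGraph V) [DecidableRel G.Adj] (y : V → ℝ) :
    y ⬝ᵥ (G.adjMatrix ℝ *ᵥ y) ≤ specRad G * (y ⬝ᵥ y) := (specRad_facts G).2.1 y

theorem exists_perron [Nonempty V] (G : SimpleGraph V) [DecidableRel G.Adj] :
    ∃ x : V → ℝ, x ⬝ᵥ x = 1 ∧ (∀ v, 0 ≤ x v) ∧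
      (∀ v, ∑ u ∈ G.neighborFinset v, x u = specRad G * x v) := (specRad_facts G).2.2

lemma sum_swap (G : SimpleGraph V) [DecidableRel G.Adj] (x z : V → ℝ) :
    ∑ v, z v * ∑ u ∈ G.neighborFinset v, x u = ∑ u, x u * ∑ v ∈ G.neighborFinset u, z v := by
  have h1 : ∀ (v : V) (x : V → ℝ), ∑ u ∈ G.neighborFinset v, x u =
      ∑ u, (if G.Adj v u then x u else 0) := by
    intro v x
    rw [← Finset.sum_filter]
    apply Finset.sum_congr _ (fun _ _ => rfl)
    ext u; simp
  simp only [h1, Finset.mul_sum]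
  rw [Finset.sum_comm]
  apply Finset.sum_congr rfl
  intro u _
  apply Finset.sum_congr rfl
  intro v _
  by_cases h : G.Adj v u
  · rw [if_pos h, if_pos h.symm]; ring
  · rw [if_neg h, if_neg (fun h' => h h'.symm)]; ring

/-- a positive supersolution bounds the spectral radius from above -/
theorem specRad_le_of_super [Nonempty V] (G : SimpleGraph V) [DecidableRel G.Adj] (z : V → ℝ)
    (hz : ∀ v, 0 < z v) (θ : ℝ) (h : ∀ v, ∑ u ∈ G.neighborFinset v, z u ≤ θ * z v) :
    specRad G ≤ θ := by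
  obtain ⟨x, hx1, hx0, hev⟩ := exists_perron G
  have hxz : 0 < ∑ v, z v * x v := by
    have hne : ∃ v, x v ≠ 0 := by
      by_contra hcon
      push Not at hcon
      have : x = 0 := funext hcon
      rw [this] at hx1
      simp at hx1
    obtain ⟨v, hv⟩ := hne
    have hv' : 0 < x v := lt_of_le_of_ne (hx0 v) (Ne.symm hv)
    exact Finset.sum_pos' (fun v _ => mul_nonneg (hz v).le (hx0 v))
      ⟨v, Finset.mem_univ _, mul_pos (hz v) hv'⟩
  have h1 : specRad G * ∑ v, z v * x v ≤ θ * ∑ v, z v * x v := by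
    calc specRad G * ∑ v, z v * x v = ∑ v, z v * ∑ u ∈ G.neighborFinset v, x u := by
          rw [Finset.mul_sum]
          apply Finset.sum_congr rfl
          intro v _
          rw [hev v]; ring
      _ = ∑ u, x u * ∑ v ∈ G.neighborFinset u, z v := sum_swap G x z
      _ ≤ ∑ u, x u * (θ * z u) :=
          Finset.sum_le_sum (fun u _ => mul_le_mul_of_nonneg_left (h u) (hx0 u))
      _ = θ * ∑ v, z v * x v := by
          rw [Finset.mul_sum]
          apply Finset.sum_congr rfl
          intro v _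
          ring
  exact le_of_mul_le_mul_right h1 hxz

/-- a nonnegative subsolution bounds the spectral radius from below -/
theorem le_specRad_of_sub [Nonempty V] (G : SimpleGraph V) [DecidableRel G.Adj] (y : V → ℝ)
    (hy : ∀ v, 0 ≤ y v) (hy0 : ∃ v, 0 < y v) (θ : ℝ)
    (h : ∀ v, θ * y v ≤ ∑ u ∈ G.neighborFinset v, y u) : θ ≤ specRad G := by
  have h1 := rayleigh_le G y
  have h2 : θ * (y ⬝ᵥ y) ≤ y ⬝ᵥ (G.adjMatrix ℝ *ᵥ y) := by
    simp only [dotProduct]
    rw [Finset.mul_sum]
    apply Finset.sum_le_sum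
    intro v _
    rw [SimpleGraph.adjMatrix_mulVec_apply]
    calc θ * (y v * y v) = y v * (θ * y v) := by ring
      _ ≤ y v * ∑ u ∈ G.neighborFinset v, y u := mul_le_mul_of_nonneg_left (h v) (hy v)
  have h3 : 0 < y ⬝ᵥ y := by
    obtain ⟨v, hv⟩ := hy0
    apply dot_self_pos
    intro h0
    rw [h0] at hv
    simp at hv
  exact le_of_mul_le_mul_right (h2.trans h1) h3

/-- a nonnegative subsolution, strict at a positive entry, bounds the spectral radius strictly -/
theorem lt_specRad_of_sub [Nonempty V] (G : SimpleGraph V) [DecidableRel G.Adj] (y : V → ℝ)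
    (hy : ∀ v, 0 ≤ y v) (θ : ℝ)
    (h : ∀ v, θ * y v ≤ ∑ u ∈ G.neighborFinset v, y u)
    (hs : ∃ v, 0 < y v ∧ θ * y v < ∑ u ∈ G.neighborFinset v, y u) : θ < specRad G := by
  have h1 := rayleigh_le G y
  have h2 : θ * (y ⬝ᵥ y) < y ⬝ᵥ (G.adjMatrix ℝ *ᵥ y) := by
    simp only [dotProduct]
    rw [Finset.mul_sum]
    obtain ⟨w, hw1, hw2⟩ := hs
    apply Finset.sum_lt_sum
    · intro v _
      rw [SimpleGraph.adjMatrix_mulVec_apply]
      calc θ * (y v * y v) = y v * (θ * y v) := by ring
        _ ≤ y v * ∑ u ∈ G.neighborFinset v, y u := mul_le_mul_of_nonneg_left (h v) (hy v)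
    · refine ⟨w, Finset.mem_univ _, ?_⟩
      rw [SimpleGraph.adjMatrix_mulVec_apply]
      calc θ * (y w * y w) = y w * (θ * y w) := by ring
        _ < y w * ∑ u ∈ G.neighborFinset w, y u := mul_lt_mul_of_pos_left hw2 hw1
  have h3 : 0 < y ⬝ᵥ y := by
    obtain ⟨v, hv, _⟩ := hs
    apply dot_self_pos
    intro h0
    rw [h0] at hv
    simp at hv
  exact lt_of_mul_lt_mul_right (h2.trans_le h1) h3.le

/-- a strict positive supersolution bounds the spectral radius strictly from above -/
theorem specRad_lt_of_super [Nonempty V] (G : SimpleGraph V) [DecidableRel G.Adj] (z : V → ℝ)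
    (hz : ∀ v, 0 < z v) (θ : ℝ) (h : ∀ v, ∑ u ∈ G.neighborFinset v, z u < θ * z v) :
    specRad G < θ := by
  obtain ⟨x, hx1, hx0, hev⟩ := exists_perron G
  have hne : ∃ v, x v ≠ 0 := by
    by_contra hcon
    push Not at hcon
    have : x = 0 := funext hcon
    rw [this] at hx1
    simp at hx1
  obtain ⟨v0, hv0⟩ := hne
  have hv0' : 0 < x v0 := lt_of_le_of_ne (hx0 v0) (Ne.symm hv0)
  have hxz : 0 < ∑ v, z v * x v :=
    Finset.sum_pos' (fun v _ => mul_nonneg (hz v).le (hx0 v))
      ⟨v0, Finset.mem_univ _, mul_pos (hz v0) hv0'⟩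
  have h1 : specRad G * ∑ v, z v * x v < θ * ∑ v, z v * x v := by
    calc specRad G * ∑ v, z v * x v = ∑ v, z v * ∑ u ∈ G.neighborFinset v, x u := by
          rw [Finset.mul_sum]
          apply Finset.sum_congr rfl
          intro v _
          rw [hev v]; ring
      _ = ∑ u, x u * ∑ v ∈ G.neighborFinset u, z v := sum_swap G x z
      _ < ∑ u, x u * (θ * z u) := by
          apply Finset.sum_lt_sum
          · exact fun u _ => mul_le_mul_of_nonneg_left (h u).le (hx0 u)
          · exact ⟨v0, Finset.mem_univ _, mul_lt_mul_of_pos_left (h v0) hv0'⟩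
      _ = θ * ∑ v, z v * x v := by
          rw [Finset.mul_sum]
          apply Finset.sum_congr rfl
          intro v _
          ring
  exact lt_of_mul_lt_mul_right h1 hxz.le

lemma specRad_le_iso {W : Type*} [Fintype W] [DecidableEq W] [Nonempty V] [Nonempty W]
    (G : SimpleGraph V) (H : SimpleGraph W) (e : G ≃g H) : specRad G ≤ specRad H := by
  classical
  obtain ⟨x, hx1, hx0, hev⟩ := exists_perron G
  have hne : ∃ v, 0 < x v := by
    by_contra hcon
    push Not at hcon
    have : x = 0 := funext (fun v => le_antisymm (hcon v) (hx0 v))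
    rw [this] at hx1
    simp at hx1
  apply le_specRad_of_sub H (fun w => x (e.symm w)) (fun w => hx0 _)
  · obtain ⟨v, hv⟩ := hne
    exact ⟨e v, by simpa using hv⟩
  · intro w
    rw [← hev (e.symm w)]
    apply le_of_eq
    apply Finset.sum_bij (fun u _ => e u)
    · intro u hu
      rw [SimpleGraph.mem_neighborFinset] at hu ⊢
      have := e.map_adj_iff.2 hu
      simpa using this
    · intro a _ b _ hab
      exact e.injective hab
    · intro b hb
      rw [SimpleGraph.mem_neighborFinset] at hb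
      refine ⟨e.symm b, ?_, by simp⟩
      rw [SimpleGraph.mem_neighborFinset]
      exact e.symm.map_adj_iff.2 hb
    · intro u _
      simp

/-- the spectral radius is invariant under isomorphism -/
theorem specRad_iso {W : Type*} [Fintype W] [DecidableEq W] [Nonempty V] [Nonempty W]
    (G : SimpleGraph V) (H : SimpleGraph W) (e : G ≃g H) : specRad G = specRad H :=
  le_antisymm (specRad_le_iso G H e) (specRad_le_iso H G e.symm)

end Pool.Agent.Helper951.Spec
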