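import Mathlib

set_option autoImplicit false

namespace Pool.Agent.Helper951.Fam

/-- The graph `H`: four triangles through the vertex `0` (with further vertices `12`, `34`, `56`, `78`)
and one more vertex `9` adjacent to `7` and `8`. -/
def H0 : SimpleGraph (Fin 10) :=
  SimpleGraph.fromRel (fun a b => (a = 0 ∧ b ≠ 9) ∨
    (a.val % 2 = 1 ∧ b.val = a.val + 1 ∧ a.val < 8) ∨ (a = 9 ∧ (b = 7 ∨ b = 8)))

instance : DecidableRel H0.Adj := by
  unfold H0; infer_instance

/-- Four triangles sharing the vertex `0`. -/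
def F9 : SimpleGraph (Fin 9) :=
  SimpleGraph.fromRel (fun a b => a = 0 ∨ (a.val % 2 = 1 ∧ b.val = a.val + 1))

instance : DecidableRel F9.Adj := by
  unfold F9; infer_instance

/-- Two disjoint copies of `F9`. -/
def FF : SimpleGraph (Fin 18) :=
  SimpleGraph.fromRel (fun a b => a.val / 9 = b.val / 9 ∧
    F9.Adj ⟨a.val % 9, Nat.mod_lt _ (by norm_num)⟩ ⟨b.val % 9, Nat.mod_lt _ (by norm_num)⟩)

instance : DecidableRel FF.Adj := by
  unfold FF; infer_instance

/-- Four disjoint triangles. -/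
def TT : SimpleGraph (Fin 12) := SimpleGraph.fromRel (fun a b => a.val / 3 = b.val / 3)

instance : DecidableRel TT.Adj := by
  unfold TT; infer_instance

lemma H0_chrom : H0.chromaticNumber = ((2 + 1 : ℕ) : ℕ∞) := by
  apply le_antisymm
  · apply SimpleGraph.Colorable.chromaticNumber_le
    refine ⟨SimpleGraph.Coloring.mk
      (fun a : Fin 10 => (![0, 1, 2, 1, 2, 1, 2, 1, 2, 0] : Fin 10 → Fin 3) a) ?_⟩
    decide
  · have hc : H0.IsClique (({0, 1, 2} : Finset (Fin 10)) : Set (Fin 10)) := by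
      rw [SimpleGraph.isClique_iff]
      intro a ha b hb hab
      simp only [Finset.coe_insert, Finset.coe_singleton, Set.mem_insert_iff,
        Set.mem_singleton_iff] at ha hb
      rcases ha with rfl | rfl | rfl <;> rcases hb with rfl | rfl | rfl <;>
        first | exact absurd rfl hab | decide
    have := hc.card_le_chromaticNumber
    simpa using this

lemma FF_chrom : ((2 + 1 : ℕ) : ℕ∞) ≤ FF.chromaticNumber := by
  have hc : FF.IsClique (({0, 1, 2} : Finset (Fin 18)) : Set (Fin 18)) := by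
    rw [SimpleGraph.isClique_iff]
    intro a ha b hb hab
    simp only [Finset.coe_insert, Finset.coe_singleton, Set.mem_insert_iff,
      Set.mem_singleton_iff] at ha hb
    rcases ha with rfl | rfl | rfl <;> rcases hb with rfl | rfl | rfl <;>
      first | exact absurd rfl hab | decide
  have := hc.card_le_chromaticNumber
  simpa using this

lemma TT_chrom : ((2 + 1 : ℕ) : ℕ∞) ≤ TT.chromaticNumber := by
  have hc : TT.IsClique (({0, 1, 2} : Finset (Fin 12)) : Set (Fin 12)) := by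
    rw [SimpleGraph.isClique_iff]
    intro a ha b hb hab
    simp only [Finset.coe_insert, Finset.coe_singleton, Set.mem_insert_iff,
      Set.mem_singleton_iff] at ha hb
    rcases ha with rfl | rfl | rfl <;> rcases hb with rfl | rfl | rfl <;>
      first | exact absurd rfl hab | decide
  have := hc.card_le_chromaticNumber
  simpa using this

/-- every vertex of `H0` is missed by a triangle -/
lemma H0_tri : ∀ u : Fin 10, ∃ a b c : Fin 10, H0.Adj a b ∧ H0.Adj b c ∧ H0.Adj a c ∧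
    a ≠ u ∧ b ≠ u ∧ c ≠ u := by
  decide

lemma FF_tri : ∀ u : Fin 18, ∃ a b c : Fin 18, FF.Adj a b ∧ FF.Adj b c ∧ FF.Adj a c ∧
    a ≠ u ∧ b ≠ u ∧ c ≠ u := by
  intro u
  by_cases hu : u.val < 9
  · refine ⟨9, 10, 11, by decide, by decide, by decide, ?_, ?_, ?_⟩ <;>
      (rintro rfl; revert hu; decide)
  · refine ⟨0, 1, 2, by decide, by decide, by decide, ?_, ?_, ?_⟩ <;>
      (rintro rfl; revert hu; decide)

lemma TT_tri : ∀ u : Fin 12, ∃ a b c : Fin 12, TT.Adj a b ∧ TT.Adj b c ∧ TT.Adj a c ∧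
    a ≠ u ∧ b ≠ u ∧ c ≠ u := by
  intro u
  by_cases hu : u.val < 3
  · refine ⟨3, 4, 5, by decide, by decide, by decide, ?_, ?_, ?_⟩ <;>
      (rintro rfl; revert hu; decide)
  · refine ⟨0, 1, 2, by decide, by decide, by decide, ?_, ?_, ?_⟩ <;>
      (rintro rfl; revert hu; decide)

/-- A graph in which every vertex is missed by a triangle is not contained in a graph that becomes
bipartite after removing one vertex. -/
lemma typeI_free {m : ℕ} (hm : 0 < m) (F : SimpleGraph (Fin m))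
    (hF : ∀ u : Fin m, ∃ a b c : Fin m, F.Adj a b ∧ F.Adj b c ∧ F.Adj a c ∧
      a ≠ u ∧ b ≠ u ∧ c ≠ u) {V : Type*} (G : SimpleGraph V) (v0 : V) (cl : V → Bool)
    (h : ∀ u v, G.Adj u v → u ≠ v0 → v ≠ v0 → cl u ≠ cl v) : ¬ F.IsContained G := by
  rintro ⟨f⟩
  have hu : ∃ u : Fin m, ∀ a, a ≠ u → f.toHom a ≠ v0 := by
    by_cases hex : ∃ u, f.toHom u = v0
    · obtain ⟨u, hu⟩ := hex
      exact ⟨u, fun a ha hav => ha (f.injective (hav.trans hu.symm))⟩
    · push Not at hex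
      exact ⟨⟨0, hm⟩, fun a _ => hex a⟩
  obtain ⟨u, hu⟩ := hu
  obtain ⟨a, b, c, hab, hbc, hac, hau, hbu, hcu⟩ := hF u
  have k1 := h _ _ (f.toHom.map_adj hab) (hu a hau) (hu b hbu)
  have k2 := h _ _ (f.toHom.map_adj hbc) (hu b hbu) (hu c hcu)
  have k3 := h _ _ (f.toHom.map_adj hac) (hu a hau) (hu c hcu)
  revert k1 k2 k3
  cases cl (f.toHom a) <;> cases cl (f.toHom b) <;> cases cl (f.toHom c) <;> simp

lemma H0_edges : ∀ i j : Fin 10, H0.Adj i j → (i = 0 ∧ j ≠ 0 ∧ j ≠ 9) ∨ (j = 0 ∧ i ≠ 0 ∧ i ≠ 9) ∨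
    (i = 1 ∧ j = 2) ∨ (i = 2 ∧ j = 1) ∨ (i = 3 ∧ j = 4) ∨ (i = 4 ∧ j = 3) ∨
    (i = 5 ∧ j = 6) ∨ (i = 6 ∧ j = 5) ∨ (i = 7 ∧ j = 8) ∨ (i = 8 ∧ j = 7) ∨
    (i = 9 ∧ j = 7) ∨ (i = 7 ∧ j = 9) ∨ (i = 9 ∧ j = 8) ∨ (i = 8 ∧ j = 9) := by
  decide

lemma embed_H0 {W : Type*} (G : SimpleGraph W) (f : Fin 10 → W) (hf : Function.Injective f)
    (h0 : ∀ j : Fin 10, j ≠ 0 → j ≠ 9 → G.Adj (f 0) (f j))
    (h12 : G.Adj (f 1) (f 2)) (h34 : G.Adj (f 3) (f 4)) (h56 : G.Adj (f 5) (f 6))
    (h78 : G.Adj (f 7) (f 8)) (h97 : G.Adj (f 9) (f 7)) (h98 : G.Adj (f 9) (f 8)) :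
    H0.IsContained G := by
  refine ⟨⟨⟨f, ?_⟩, hf⟩⟩
  intro i j hij
  rcases H0_edges i j hij with ⟨rfl, h1, h2⟩ | ⟨rfl, h1, h2⟩ | ⟨rfl, rfl⟩ | ⟨rfl, rfl⟩ |
    ⟨rfl, rfl⟩ | ⟨rfl, rfl⟩ | ⟨rfl, rfl⟩ | ⟨rfl, rfl⟩ | ⟨rfl, rfl⟩ | ⟨rfl, rfl⟩ | ⟨rfl, rfl⟩ |
    ⟨rfl, rfl⟩ | ⟨rfl, rfl⟩ | ⟨rfl, rfl⟩
  · exact h0 j h1 h2
  · exact (h0 i h1 h2).symm
  · exact h12
  · exact h12.symm
  · exact h34
  · exact h34.symm
  · exact h56
  · exact h56.symm
  · exact h78
  · exact h78.symm
  · exact h97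
  · exact h97.symm
  · exact h98
  · exact h98.symm

lemma F9_edges : ∀ i j : Fin 9, F9.Adj i j → (i = 0 ∧ j ≠ 0) ∨ (j = 0 ∧ i ≠ 0) ∨
    (i = 1 ∧ j = 2) ∨ (i = 2 ∧ j = 1) ∨ (i = 3 ∧ j = 4) ∨ (i = 4 ∧ j = 3) ∨
    (i = 5 ∧ j = 6) ∨ (i = 6 ∧ j = 5) ∨ (i = 7 ∧ j = 8) ∨ (i = 8 ∧ j = 7) := by
  decide

/-- building a copy of `F9` -/
lemma embed_F9 {W : Type*} (G : SimpleGraph W) (f : Fin 9 → W)
    (h0 : ∀ j : Fin 9, j ≠ 0 → G.Adj (f 0) (f j))
    (h12 : G.Adj (f 1) (f 2)) (h34 : G.Adj (f 3) (f 4)) (h56 : G.Adj (f 5) (f 6))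
    (h78 : G.Adj (f 7) (f 8)) : ∀ i j, F9.Adj i j → G.Adj (f i) (f j) := by
  intro i j hij
  rcases F9_edges i j hij with ⟨rfl, h1⟩ | ⟨rfl, h1⟩ | ⟨rfl, rfl⟩ | ⟨rfl, rfl⟩ |
    ⟨rfl, rfl⟩ | ⟨rfl, rfl⟩ | ⟨rfl, rfl⟩ | ⟨rfl, rfl⟩ | ⟨rfl, rfl⟩ | ⟨rfl, rfl⟩
  · exact h0 j h1
  · exact (h0 i h1).symm
  · exact h12
  · exact h12.symm
  · exact h34
  · exact h34.symm
  · exact h56
  · exact h56.symm
  · exact h78
  · exact h78.symm

/-- two disjoint copies of `F9` give a copy of `FF` -/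
lemma embed_FF {W : Type*} (G : SimpleGraph W) (f g : Fin 9 → W) (hf : Function.Injective f)
    (hg : Function.Injective g) (hfg : ∀ i j, f i ≠ g j)
    (hfa : ∀ i j, F9.Adj i j → G.Adj (f i) (f j)) (hga : ∀ i j, F9.Adj i j → G.Adj (g i) (g j)) :
    FF.IsContained G := by
  let φ : Fin 18 → W := fun i =>
    if i.val < 9 then f ⟨i.val % 9, Nat.mod_lt _ (by norm_num)⟩
    else g ⟨i.val % 9, Nat.mod_lt _ (by norm_num)⟩
  have h1 : ∀ i : Fin 18, i.val < 9 → φ i = f ⟨i.val % 9, Nat.mod_lt _ (by norm_num)⟩ :=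
    fun i hi => by simp only [φ, if_pos hi]
  have h2 : ∀ i : Fin 18, ¬ i.val < 9 → φ i = g ⟨i.val % 9, Nat.mod_lt _ (by norm_num)⟩ :=
    fun i hi => by simp only [φ, if_neg hi]
  have hadj : ∀ i j : Fin 18, i.val / 9 = j.val / 9 →
      F9.Adj ⟨i.val % 9, Nat.mod_lt _ (by norm_num)⟩ ⟨j.val % 9, Nat.mod_lt _ (by norm_num)⟩ →
      G.Adj (φ i) (φ j) := by
    intro i j hij hF
    by_cases hi : i.val < 9
    · have hj : j.val < 9 := by omega
      rw [h1 i hi, h1 j hj]
      exact hfa _ _ hF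
    · have hj : ¬ j.val < 9 := by omega
      rw [h2 i hi, h2 j hj]
      exact hga _ _ hF
  refine ⟨⟨⟨φ, ?_⟩, ?_⟩⟩
  · intro i j hij
    rw [FF, SimpleGraph.fromRel_adj] at hij
    rcases hij with ⟨_, ⟨h3, h4⟩ | ⟨h3, h4⟩⟩
    · exact hadj i j h3 h4
    · exact (hadj j i h3 h4).symm
  · intro i j hij
    change φ i = φ j at hij
    have hi' := i.isLt
    have hj' := j.isLt
    by_cases hi : i.val < 9 <;> by_cases hj : j.val < 9
    · rw [h1 i hi, h1 j hj] at hij
      have := hf hij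
      rw [Fin.mk.injEq] at this
      ext; omega
    · rw [h1 i hi, h2 j hj] at hij
      exact absurd hij (hfg _ _)
    · rw [h2 i hi, h1 j hj] at hij
      exact absurd hij.symm (hfg _ _)
    · rw [h2 i hi, h2 j hj] at hij
      have := hg hij
      rw [Fin.mk.injEq] at this
      ext; omega

/-- membership in the four special vertices `0, 2, 4, 6` of the even class -/
def inW {l : ℕ} : Fin 1 ⊕ Fin l → Prop :=
  Sum.elim (fun _ => False) (fun b => b.val % 2 = 0 ∧ b.val < 8)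

/-- The graph in which the vertex `inl 0` is joined to everything except four special vertices,
and the four special vertices are made into a clique. -/
def Gp (l : ℕ) : SimpleGraph (Fin 1 ⊕ Fin l) where
  Adj x y := Sum.elim
    (fun _ => Sum.elim (fun _ => False) (fun b => ¬ (b.val % 2 = 0 ∧ b.val < 8)) y)
    (fun a => Sum.elim (fun _ => ¬ (a.val % 2 = 0 ∧ a.val < 8))
      (fun b => a.val % 2 ≠ b.val % 2 ∨ (a ≠ b ∧ (a.val % 2 = 0 ∧ a.val < 8) ∧
        (b.val % 2 = 0 ∧ b.val < 8))) y) x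
  symm := ⟨by
    rintro (a | a) (b | b) h
    · exact h
    · exact h
    · exact h
    · simp only [Sum.elim_inr] at h ⊢
      rcases h with h | ⟨h1, h2, h3⟩
      · exact Or.inl h.symm
      · exact Or.inr ⟨h1.symm, h3, h2⟩⟩
  loopless := ⟨by
    rintro (a | a) h
    · exact h
    · simp at h⟩

lemma Gp_lr {l : ℕ} (a : Fin 1) (b : Fin l) :
    (Gp l).Adj (Sum.inl a) (Sum.inr b) ↔ ¬ (b.val % 2 = 0 ∧ b.val < 8) := Iff.rfl

lemma Gp_rl {l : ℕ} (a : Fin 1) (b : Fin l) :
    (Gp l).Adj (Sum.inr b) (Sum.inl a) ↔ ¬ (b.val % 2 = 0 ∧ b.val < 8) := Iff.rfl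

lemma Gp_rr {l : ℕ} (a b : Fin l) :
    (Gp l).Adj (Sum.inr a) (Sum.inr b) ↔ (a.val % 2 ≠ b.val % 2 ∨
      (a ≠ b ∧ (a.val % 2 = 0 ∧ a.val < 8) ∧ (b.val % 2 = 0 ∧ b.val < 8))) := Iff.rfl

lemma five {m l : ℕ} (f : Fin m → Fin 1 ⊕ Fin l) (hf : Function.Injective f)
    (s : Finset (Fin m)) (hs : 5 ≤ s.card) (h : ∀ i ∈ s, inW (f i)) : False := by
  have h1 : s.card ≤ ({0, 2, 4, 6} : Finset ℕ).card := by
    apply Finset.card_le_card_of_injOn (fun i => Sum.elim (fun _ => 0) (fun b => b.val) (f i))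
    · intro i hi
      have := h i hi
      rcases hfi : f i with a | a
      · rw [hfi] at this; exact this.elim
      · rw [hfi] at this
        simp only [inW, Sum.elim_inr] at this
        simp only [hfi, Sum.elim_inr, Finset.coe_insert, Finset.coe_singleton,
          Set.mem_insert_iff, Set.mem_singleton_iff]
        omega
    · intro i hi j hj hij
      have h1 := h i hi
      have h2 := h j hj
      apply hf
      rcases hfi : f i with a | a
      · rw [hfi] at h1; exact h1.elim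
      · rcases hfj : f j with b | b
        · rw [hfj] at h2; exact h2.elim
        · simp only [hfi, hfj, Sum.elim_inr] at hij
          rw [Fin.ext hij]
  have h2 : ({0, 2, 4, 6} : Finset ℕ).card = 4 := by decide
  omega

/-- at most one index carries the exceptional vertex -/
lemma exists_idx {m l : ℕ} (hm : 0 < m) (g : Fin m → Fin 1 ⊕ Fin l)
    (hinj : Function.Injective g) : ∃ u : Fin m, ∀ i, i ≠ u → ∃ b, g i = Sum.inr b := by
  by_cases hex : ∃ u : Fin m, g u = Sum.inl 0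
  · obtain ⟨u, hu⟩ := hex
    refine ⟨u, fun i hi => ?_⟩
    rcases hgi : g i with a | a
    · exact absurd (hinj (by rw [hgi, hu, Subsingleton.elim a 0])) hi
    · exact ⟨a, rfl⟩
  · push Not at hex
    refine ⟨⟨0, hm⟩, fun i _ => ?_⟩
    rcases hgi : g i with a | a
    · exact absurd (by rw [hgi, Subsingleton.elim a 0]) (hex i)
    · exact ⟨a, rfl⟩

/-- indices of the outer vertices of the triangles through `0` that avoid `u` -/
def Tu (u : Fin 9) : Finset (Fin 9) :=
  Finset.univ.filter (fun i => 1 ≤ i.val ∧ ¬ ((i.val + 1) / 2 = (u.val + 1) / 2))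

lemma Tu_card : ∀ u, 5 ≤ (Tu u).card := by decide

lemma Tu_spec : ∀ u i, i ∈ Tu u → ∃ j, F9.Adj i j ∧ F9.Adj 0 i ∧ F9.Adj 0 j ∧ i ≠ u ∧ j ≠ u := by
  decide

/-- In `Gp l` the centre of four triangles sharing a vertex is the exceptional vertex. -/
lemma Gp_F9 {l : ℕ} (g : Fin 9 → Fin 1 ⊕ Fin l) (hinj : Function.Injective g)
    (hadj : ∀ i j, F9.Adj i j → (Gp l).Adj (g i) (g j)) : g 0 = Sum.inl 0 := by
  obtain ⟨u, hu⟩ := exists_idx (by norm_num) g hinj
  rcases h0 : g 0 with a | a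
  · rw [Subsingleton.elim a 0]
  · exfalso
    by_cases hW : a.val % 2 = 0 ∧ a.val < 8
    · -- the centre is one of the four special vertices
      have hpair : ∀ i j, F9.Adj 0 i → F9.Adj 0 j → F9.Adj i j → inW (g i) ∨ inW (g j) := by
        intro i j h1 h2 h3
        have e1 := hadj _ _ h1
        have e2 := hadj _ _ h2
        have e3 := hadj _ _ h3
        rw [h0] at e1 e2
        rcases hgi : g i with b | b
        · rw [hgi, Gp_rl] at e1
          exact absurd hW e1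
        · rcases hgj : g j with c | c
          · rw [hgj, Gp_rl] at e2
            exact absurd hW e2
          · rw [hgi, Gp_rr] at e1
            rw [hgj, Gp_rr] at e2
            rw [hgi, hgj, Gp_rr] at e3
            simp only [inW, Sum.elim_inr]
            omega
      have w0 : inW (g 0) := by rw [h0]; exact hW
      rcases hpair 1 2 (by decide) (by decide) (by decide) with h1 | h1 <;>
      rcases hpair 3 4 (by decide) (by decide) (by decide) with h2 | h2 <;>
      rcases hpair 5 6 (by decide) (by decide) (by decide) with h3 | h3 <;>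
      rcases hpair 7 8 (by decide) (by decide) (by decide) with h4 | h4
      · exact five g hinj {0, 1, 3, 5, 7} (by decide) (by simp [w0, h1, h2, h3, h4])
      · exact five g hinj {0, 1, 3, 5, 8} (by decide) (by simp [w0, h1, h2, h3, h4])
      · exact five g hinj {0, 1, 3, 6, 7} (by decide) (by simp [w0, h1, h2, h3, h4])
      · exact five g hinj {0, 1, 3, 6, 8} (by decide) (by simp [w0, h1, h2, h3, h4])
      · exact five g hinj {0, 1, 4, 5, 7} (by decide) (by simp [w0, h1, h2, h3, h4])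
      · exact five g hinj {0, 1, 4, 5, 8} (by decide) (by simp [w0, h1, h2, h3, h4])
      · exact five g hinj {0, 1, 4, 6, 7} (by decide) (by simp [w0, h1, h2, h3, h4])
      · exact five g hinj {0, 1, 4, 6, 8} (by decide) (by simp [w0, h1, h2, h3, h4])
      · exact five g hinj {0, 2, 3, 5, 7} (by decide) (by simp [w0, h1, h2, h3, h4])
      · exact five g hinj {0, 2, 3, 5, 8} (by decide) (by simp [w0, h1, h2, h3, h4])
      · exact five g hinj {0, 2, 3, 6, 7} (by decide) (by simp [w0, h1, h2, h3, h4])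
      · exact five g hinj {0, 2, 3, 6, 8} (by decide) (by simp [w0, h1, h2, h3, h4])
      · exact five g hinj {0, 2, 4, 5, 7} (by decide) (by simp [w0, h1, h2, h3, h4])
      · exact five g hinj {0, 2, 4, 5, 8} (by decide) (by simp [w0, h1, h2, h3, h4])
      · exact five g hinj {0, 2, 4, 6, 7} (by decide) (by simp [w0, h1, h2, h3, h4])
      · exact five g hinj {0, 2, 4, 6, 8} (by decide) (by simp [w0, h1, h2, h3, h4])
    · -- the centre is an ordinary vertex
      apply five g hinj (Tu u) (Tu_card u)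
      intro i hi
      obtain ⟨j, h1, h2, h3, h4, h5⟩ := Tu_spec u i hi
      obtain ⟨b, hb⟩ := hu i h4
      obtain ⟨c, hc⟩ := hu j h5
      have e1 := hadj _ _ h1
      have e2 := hadj _ _ h2
      have e3 := hadj _ _ h3
      rw [hb, hc, Gp_rr] at e1
      rw [h0, hb, Gp_rr] at e2
      rw [h0, hc, Gp_rr] at e3
      rw [hb]
      simp only [inW, Sum.elim_inr]
      omega

lemma F9_H0 : ∀ i j : Fin 9, F9.Adj i j → H0.Adj i.castSucc j.castSucc := by decide

lemma Gp_H0_free (l : ℕ) : ¬ H0.IsContained (Gp l) := by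
  rintro ⟨f⟩
  have hinj := f.injective
  have hadj : ∀ i j, H0.Adj i j → (Gp l).Adj (f.toHom i) (f.toHom j) :=
    fun i j h => f.toHom.map_adj h
  generalize f.toHom = g at hinj hadj
  have h0 : g 0 = Sum.inl 0 := Gp_F9 (fun i => g i.castSucc)
    (hinj.comp (Fin.castSucc_injective _)) (fun i j h => hadj _ _ (F9_H0 i j h))
  have hr : ∀ i, i ≠ 0 → ∃ b, g i = Sum.inr b := by
    intro i hi
    rcases hgi : g i with c | c
    · exact absurd (hinj (by rw [hgi, h0, Subsingleton.elim c 0])) hi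
    · exact ⟨c, rfl⟩
  obtain ⟨x, hx⟩ := hr 7 (by decide)
  obtain ⟨z, hz⟩ := hr 8 (by decide)
  obtain ⟨y, hy⟩ := hr 9 (by decide)
  have e1 := hadj 0 7 (by decide)
  have e2 := hadj 0 8 (by decide)
  have e3 := hadj 7 8 (by decide)
  have e4 := hadj 7 9 (by decide)
  have e5 := hadj 8 9 (by decide)
  rw [h0, hx, Gp_lr] at e1
  rw [h0, hz, Gp_lr] at e2
  rw [hx, hz, Gp_rr] at e3
  rw [hx, hy, Gp_rr] at e4
  rw [hz, hy, Gp_rr] at e5
  omega

lemma F9_FF1 : ∀ i j : Fin 9, F9.Adj i j → FF.Adj (Fin.castLE (by norm_num) i)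
    (Fin.castLE (by norm_num) j) := by decide

lemma F9_FF2 : ∀ i j : Fin 9, F9.Adj i j → FF.Adj (⟨i.val + 9, by omega⟩)
    (⟨j.val + 9, by omega⟩) := by decide

lemma Gp_FF_free (l : ℕ) : ¬ FF.IsContained (Gp l) := by
  rintro ⟨f⟩
  have hinj := f.injective
  have hadj : ∀ i j, FF.Adj i j → (Gp l).Adj (f.toHom i) (f.toHom j) :=
    fun i j h => f.toHom.map_adj h
  generalize f.toHom = g at hinj hadj
  have h0 := Gp_F9 (fun i => g (Fin.castLE (by norm_num) i))
    (hinj.comp (Fin.castLE_injective (by norm_num : 9 ≤ 18))) (fun i j h => hadj _ _ (F9_FF1 i j h))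
  have h1 := Gp_F9 (fun i => g ⟨i.val + 9, by omega⟩)
    (hinj.comp (fun i j hij => by
      rw [Fin.mk.injEq] at hij
      ext; omega)) (fun i j h => hadj _ _ (F9_FF2 i j h))
  have := hinj (h0.trans h1.symm)
  revert this
  decide

lemma Gp_TT_free (l : ℕ) : ¬ TT.IsContained (Gp l) := by
  rintro ⟨f⟩
  have hinj := f.injective
  have hadj : ∀ i j, TT.Adj i j → (Gp l).Adj (f.toHom i) (f.toHom j) :=
    fun i j h => f.toHom.map_adj h
  generalize f.toHom = g at hinj hadj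
  obtain ⟨u, hu⟩ := exists_idx (by norm_num) g hinj
  -- a triangle avoiding the exceptional vertex has two vertices in the special set
  have htri : ∀ a b c : Fin 12, TT.Adj a b → TT.Adj a c → TT.Adj b c → a ≠ u → b ≠ u → c ≠ u →
      (inW (g a) ∧ inW (g b)) ∨ (inW (g a) ∧ inW (g c)) ∨ (inW (g b) ∧ inW (g c)) := by
    intro a b c hab hac hbc ha hb hc
    obtain ⟨x, hx⟩ := hu a ha
    obtain ⟨y, hy⟩ := hu b hb
    obtain ⟨z, hz⟩ := hu c hc
    have e1 := hadj _ _ hab
    have e2 := hadj _ _ hac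
    have e3 := hadj _ _ hbc
    rw [hx, hy, Gp_rr] at e1
    rw [hx, hz, Gp_rr] at e2
    rw [hy, hz, Gp_rr] at e3
    rw [hx, hy, hz]
    simp only [inW, Sum.elim_inr]
    omega
  have key : ∀ i j k : Fin 4, i ≠ j → i ≠ k → j ≠ k → (∀ r : Fin 3,
      (⟨3 * i.val + r.val, by omega⟩ : Fin 12) ≠ u ∧ (⟨3 * j.val + r.val, by omega⟩ : Fin 12) ≠ u ∧
      (⟨3 * k.val + r.val, by omega⟩ : Fin 12) ≠ u) → False := by
    intro i j k hij hik hjk hne
    have hT : ∀ i : Fin 4, ∀ r s : Fin 3, r ≠ s → TT.Adj (⟨3 * i.val + r.val, by omega⟩ : Fin 12)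
        (⟨3 * i.val + s.val, by omega⟩ : Fin 12) := by decide
    have h2 : ∀ i : Fin 4, (∀ r : Fin 3, (⟨3 * i.val + r.val, by omega⟩ : Fin 12) ≠ u) →
        ∃ r s : Fin 3, r ≠ s ∧ inW (g ⟨3 * i.val + r.val, by omega⟩) ∧
          inW (g ⟨3 * i.val + s.val, by omega⟩) := by
      intro i hi
      rcases htri _ _ _ (hT i 0 1 (by decide)) (hT i 0 2 (by decide)) (hT i 1 2 (by decide))
        (hi 0) (hi 1) (hi 2) with ⟨h1, h2⟩ | ⟨h1, h2⟩ | ⟨h1, h2⟩
      · exact ⟨0, 1, by decide, h1, h2⟩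
      · exact ⟨0, 2, by decide, h1, h2⟩
      · exact ⟨1, 2, by decide, h1, h2⟩
    obtain ⟨r1, s1, hrs1, hr1, hs1⟩ := h2 i (fun r => (hne r).1)
    obtain ⟨r2, s2, hrs2, hr2, hs2⟩ := h2 j (fun r => (hne r).2.1)
    obtain ⟨r3, s3, hrs3, hr3, hs3⟩ := h2 k (fun r => (hne r).2.2)
    apply five g hinj {(⟨3 * i.val + r1.val, by omega⟩ : Fin 12),
      (⟨3 * i.val + s1.val, by omega⟩ : Fin 12), (⟨3 * j.val + r2.val, by omega⟩ : Fin 12),
      (⟨3 * j.val + s2.val, by omega⟩ : Fin 12), (⟨3 * k.val + r3.val, by omega⟩ : Fin 12)}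
    · rw [Finset.card_insert_of_notMem, Finset.card_insert_of_notMem,
        Finset.card_insert_of_notMem, Finset.card_insert_of_notMem, Finset.card_singleton]
      all_goals
        simp only [Finset.mem_insert, Finset.mem_singleton, Fin.mk.injEq]
        have := Fin.val_ne_of_ne hij
        have := Fin.val_ne_of_ne hik
        have := Fin.val_ne_of_ne hjk
        have := Fin.val_ne_of_ne hrs1
        have := Fin.val_ne_of_ne hrs2
        omega
    · intro x hx
      simp only [Finset.mem_insert, Finset.mem_singleton] at hx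
      rcases hx with rfl | rfl | rfl | rfl | rfl
      · exact hr1
      · exact hs1
      · exact hr2
      · exact hs2
      · exact hr3
  have hsel : ∀ u : Fin 12, ∃ i j k : Fin 4, i ≠ j ∧ i ≠ k ∧ j ≠ k ∧ (∀ r : Fin 3,
      (⟨3 * i.val + r.val, by omega⟩ : Fin 12) ≠ u ∧ (⟨3 * j.val + r.val, by omega⟩ : Fin 12) ≠ u ∧
      (⟨3 * k.val + r.val, by omega⟩ : Fin 12) ≠ u) := by
    decide
  obtain ⟨i, j, k, h1, h2, h3, h4⟩ := hsel u
  exact key i j k h1 h2 h3 h4


/-- the four special vertices -/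
def w4 {l : ℕ} (hl : 8 ≤ l) (i : Fin 4) : Fin 1 ⊕ Fin l := Sum.inr ⟨2 * i.val, by omega⟩

lemma w4_inj {l : ℕ} (hl : 8 ≤ l) : Function.Injective (w4 hl) := by
  intro i j hij
  have := Sum.inr_injective hij
  rw [Fin.mk.injEq] at this
  ext
  omega

/-- the graph `K_1 ∇ T_2(l)` -/
def J1 (l : ℕ) : SimpleGraph (Fin 1 ⊕ Fin l) where
  Adj x y := Sum.elim (fun _ => Sum.elim (fun _ => False) (fun _ => True) y)
    (fun a => Sum.elim (fun _ => True) (fun b => a.val % 2 ≠ b.val % 2) y) x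
  symm := ⟨by
    rintro (a | a) (b | b) h
    · exact h
    · exact h
    · exact h
    · exact fun e => h e.symm⟩
  loopless := ⟨by
    rintro (a | a) h
    · exact h
    · exact h rfl⟩

lemma J1_ll {l : ℕ} (a b : Fin 1) : ¬ (J1 l).Adj (Sum.inl a) (Sum.inl b) := fun h => h

lemma J1_rr {l : ℕ} (a b : Fin l) :
    (J1 l).Adj (Sum.inr a) (Sum.inr b) ↔ a.val % 2 ≠ b.val % 2 := Iff.rfl

lemma J1_card (l : ℕ) : (SimpleGraph.turanGraph l 2).edgeSet.ncard + l ≤
    (J1 l).edgeSet.ncard := by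
  classical
  let P : Set (Sym2 (Fin 1 ⊕ Fin l)) := Sym2.map Sum.inr '' (SimpleGraph.turanGraph l 2).edgeSet
  let R : Set (Sym2 (Fin 1 ⊕ Fin l)) :=
    (fun i : Fin l => s(Sum.inl 0, Sum.inr i)) '' (Set.univ : Set (Fin l))
  have hP : P.ncard = (SimpleGraph.turanGraph l 2).edgeSet.ncard :=
    Set.ncard_image_of_injective _ (Sym2.map.injective Sum.inr_injective)
  have hR : R.ncard = l := by
    have h1 : R.ncard = (Set.univ : Set (Fin l)).ncard := by
      apply Set.ncard_image_of_injective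
      intro i j hij
      simp only [Sym2.eq_iff, Sum.inr.injEq, true_and, reduceCtorEq, false_and, or_false] at hij
      exact hij
    rw [h1, Set.ncard_univ, Nat.card_eq_fintype_card, Fintype.card_fin]
  have hdisj : Disjoint P R := by
    rw [Set.disjoint_left]
    rintro e ⟨e', he', rfl⟩ ⟨i, _, hi⟩
    induction e' with
    | h a b =>
      rw [Sym2.map_mk] at hi
      simp [Sym2.eq_iff] at hi
  have hsub : P ∪ R ⊆ (J1 l).edgeSet := by
    rintro e (⟨e', he', rfl⟩ | ⟨i, _, rfl⟩)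
    · induction e' with
      | h a b =>
        rw [Sym2.map_mk]
        exact (SimpleGraph.mem_edgeSet _).2 ((J1_rr a b).2 he')
    · exact (SimpleGraph.mem_edgeSet _).2 trivial
  have h1 := Set.ncard_le_ncard hsub (Set.toFinite _)
  rw [Set.ncard_union_eq hdisj (Set.toFinite _) (Set.toFinite _), hP, hR] at h1
  exact h1

lemma Gp_card {l : ℕ} (hl : 8 ≤ l) : (J1 l).edgeSet.ncard + 2 ≤ (Gp l).edgeSet.ncard := by
  classical
  let Q : Set (Sym2 (Fin 1 ⊕ Fin l)) := Sym2.map (w4 hl) '' (⊤ : SimpleGraph (Fin 4)).edgeSet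
  let R : Set (Sym2 (Fin 1 ⊕ Fin l)) :=
    (fun i : Fin 4 => s(Sum.inl 0, w4 hl i)) '' (Set.univ : Set (Fin 4))
  have hQ : Q.ncard = 6 := by
    have h1 : Q.ncard = ((⊤ : SimpleGraph (Fin 4)).edgeSet).ncard :=
      Set.ncard_image_of_injective _ (Sym2.map.injective (w4_inj hl))
    rw [h1, Set.ncard_eq_toFinset_card']
    decide
  have hR : R.ncard ≤ 4 := by
    have h1 : R.ncard ≤ (Set.univ : Set (Fin 4)).ncard := Set.ncard_image_le (Set.toFinite _)
    simpa using h1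
  have hdisj : Disjoint (J1 l).edgeSet Q := by
    rw [Set.disjoint_left]
    rintro e he ⟨e', he', rfl⟩
    induction e' with
    | h i j =>
      rw [Sym2.map_mk] at he
      have := (SimpleGraph.mem_edgeSet _).1 he
      change (J1 l).Adj (Sum.inr _) (Sum.inr _) at this
      rw [J1_rr] at this
      change (2 * i.val) % 2 ≠ (2 * j.val) % 2 at this
      omega
  have hsub : (J1 l).edgeSet ∪ Q ⊆ (Gp l).edgeSet ∪ R := by
    rintro e (he | ⟨e', he', rfl⟩)
    · induction e with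
      | h x y =>
        have he' : (J1 l).Adj x y := he
        have key : ∀ (a : Fin 1) (b : Fin l), (b.val % 2 = 0 ∧ b.val < 8) →
            s((Sum.inl a : Fin 1 ⊕ Fin l), Sum.inr b) ∈ R := by
          intro a b hb
          refine ⟨⟨b.val / 2, by omega⟩, Set.mem_univ _, ?_⟩
          have h1 : w4 hl ⟨b.val / 2, by omega⟩ = Sum.inr b := by
            unfold w4
            congr 1
            ext
            simp only
            omega
          simp only [h1, Subsingleton.elim a 0]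
        rcases x with a | a <;> rcases y with b | b
        · exact absurd he' (J1_ll a b)
        · by_cases hb : b.val % 2 = 0 ∧ b.val < 8
          · exact Or.inr (key a b hb)
          · exact Or.inl ((SimpleGraph.mem_edgeSet _).2 ((Gp_lr a b).2 hb))
        · by_cases hb : a.val % 2 = 0 ∧ a.val < 8
          · right
            rw [Sym2.eq_swap]
            exact key b a hb
          · exact Or.inl ((SimpleGraph.mem_edgeSet _).2 ((Gp_rl b a).2 hb))
        · rw [J1_rr] at he'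
          exact Or.inl ((SimpleGraph.mem_edgeSet _).2 ((Gp_rr a b).2 (Or.inl he')))
    · left
      induction e' with
      | h i j =>
        have hij : i ≠ j := he'
        rw [Sym2.map_mk]
        apply (SimpleGraph.mem_edgeSet _).2
        change (Gp l).Adj (Sum.inr _) (Sum.inr _)
        rw [Gp_rr]
        right
        refine ⟨?_, ?_, ?_⟩
        · intro h
          rw [Fin.mk.injEq] at h
          apply hij
          ext
          omega
        · simp only; omega
        · simp only; omega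
  have h1 := Set.ncard_le_ncard hsub (Set.toFinite _)
  rw [Set.ncard_union_eq hdisj (Set.toFinite _) (Set.toFinite _), hQ] at h1
  have h2 := Set.ncard_union_le (Gp l).edgeSet R
  omega

lemma turan_card (l : ℕ) : l ^ 2 ≤ 4 * (SimpleGraph.turanGraph l 2).edgeSet.ncard + 1 := by
  have h1 : (SimpleGraph.turanGraph l 2).edgeSet.ncard =
      (SimpleGraph.turanGraph l 2).edgeFinset.card := by
    rw [Set.ncard_eq_toFinset_card']
    rfl
  rw [h1, SimpleGraph.card_edgeFinset_turanGraph]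
  rcases Nat.even_or_odd' l with ⟨k, rfl | rfl⟩
  · have : 2 * k % 2 = 0 := by omega
    rw [this]
    have h2 : (2 * k) ^ 2 = 4 * (k * k) := by ring
    rw [h2]
    simp
  · have : (2 * k + 1) % 2 = 1 := by omega
    rw [this]
    have h2 : (2 * k + 1) ^ 2 = 4 * (k * k + k) + 1 := by ring
    rw [h2]
    simp

/-- numerical form of the edge count of `Gp` -/
lemma Gp_card_lower {l : ℕ} (hl : 8 ≤ l) :
    (l + 1) ^ 2 + 2 * (l + 1) + 4 ≤ 4 * (Gp l).edgeSet.ncard := by
  have h1 := Gp_card hl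
  have h2 := J1_card l
  have h3 := turan_card l
  nlinarith

lemma H0_matching : H0.IsContained
        (SimpleGraph.fromRel (fun u v : Fin 2 × Fin 8 =>
          u.1 ≠ v.1 ∨ (u.1.val = 0 ∧ v.1.val = 0 ∧ u.2.val / 2 = v.2.val / 2))) := by
  refine ⟨⟨⟨![(1, 0), (0, 0), (0, 1), (0, 2), (0, 3), (0, 4), (0, 5), (0, 6), (0, 7), (1, 1)], ?_⟩,
    ?_⟩⟩
  · have : ∀ a b : Fin 10, H0.Adj a b → (SimpleGraph.fromRel (fun u v : Fin 2 × Fin 8 =>
          u.1 ≠ v.1 ∨ (u.1.val = 0 ∧ v.1.val = 0 ∧ u.2.val / 2 = v.2.val / 2))).Adj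
      ((![(1, 0), (0, 0), (0, 1), (0, 2), (0, 3), (0, 4), (0, 5), (0, 6), (0, 7), (1, 1)] :
        Fin 10 → Fin 2 × Fin 8) a)
      ((![(1, 0), (0, 0), (0, 1), (0, 2), (0, 3), (0, 4), (0, 5), (0, 6), (0, 7), (1, 1)] :
        Fin 10 → Fin 2 × Fin 8) b) := by
      decide
    exact fun {a b} hab => this a b hab
  · decide

end Pool.Agent.Helper951.Fam
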