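import Mathlib
import Pool.Agent.Helper951.FamA

set_option autoImplicit false

open Finset

namespace Pool.Agent.Helper951.Fam

section general

variable {V : Type*} [Fintype V] [DecidableEq V]

/-- greedy choice of distinct representatives -/
lemma greedy {W : Type*} [DecidableEq W] : ∀ (k : ℕ) (S : Fin k → Finset W) (U : Finset W),
    (∀ i, U.card + k ≤ (S i).card) → ∃ q : Fin k → W, Function.Injective q ∧
      ∀ i, q i ∈ S i ∧ q i ∉ U := by
  intro k
  induction k with
  | zero =>
    intro S U _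
    exact ⟨fun i => i.elim0, fun i => i.elim0, fun i => i.elim0⟩
  | succ k ih =>
    intro S U h
    have h0 : ∃ x ∈ S 0, x ∉ U :=
      Finset.exists_mem_notMem_of_card_lt_card (by have := h 0; omega)
    obtain ⟨x, hxS, hxU⟩ := h0
    obtain ⟨q, hq, hqS⟩ := ih (fun i => S i.succ) (insert x U) (by
      intro i
      have h1 := h i.succ
      have h2 := Finset.card_insert_le x U
      omega)
    refine ⟨Fin.cons x q, ?_, ?_⟩
    · rw [Fin.cons_injective_iff]
      refine ⟨?_, hq⟩
      rintro ⟨i, hi⟩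
      exact (hqS i).2 (by rw [hi]; exact Finset.mem_insert_self _ _)
    · intro i
      refine Fin.cases ?_ (fun i => ?_) i
      · simp only [Fin.cons_zero]
        exact ⟨hxS, hxU⟩
      · simp only [Fin.cons_succ]
        exact ⟨(hqS i).1, fun h => (hqS i).2 (Finset.mem_insert_of_mem h)⟩

lemma center_F9' {W : Type*} [DecidableEq W] (G : SimpleGraph W) [DecidableRel G.Adj] (z : W)
    (P Q U : Finset W)
    (hPQ : Disjoint P Q) (hP : ∀ p ∈ P, G.Adj z p) (hQ : ∀ q ∈ Q, G.Adj z q)
    (hc : U.card + 4 ≤ P.card) (hpq : ∀ p ∈ P, U.card + 4 ≤ (Q.filter (G.Adj p)).card) :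
    ∃ f : Fin 9 → W, Function.Injective f ∧ f 0 = z ∧ (∀ i, i ≠ 0 → f i ∉ U) ∧
      (∀ i, i ≠ 0 → f i ∈ P ∪ Q) ∧ ∀ i j, F9.Adj i j → G.Adj (f i) (f j) := by
  obtain ⟨p, hpi, hp⟩ := greedy 4 (fun _ => P) U (fun _ => hc)
  obtain ⟨q, hqi, hq⟩ := greedy 4 (fun i => Q.filter (G.Adj (p i))) U
    (fun i => hpq (p i) (hp i).1)
  have hpq' : ∀ i j, p i ≠ q j := by
    intro i j h
    exact (Finset.disjoint_left.1 hPQ) (hp i).1 (h ▸ (Finset.mem_filter.1 (hq j).1).1)
  have hzp : ∀ i, z ≠ p i := fun i => (hP _ (hp i).1).ne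
  have hzq : ∀ i, z ≠ q i := fun i => (hQ _ (Finset.mem_filter.1 (hq i).1).1).ne
  have hadj : ∀ i, G.Adj (p i) (q i) := fun i => (Finset.mem_filter.1 (hq i).1).2
  have hqm : ∀ i, q i ∈ Q := fun i => (Finset.mem_filter.1 (hq i).1).1
  refine ⟨![z, p 0, q 0, p 1, q 1, p 2, q 2, p 3, q 3], ?_, rfl, ?_, ?_, ?_⟩
  · intro i j hij
    fin_cases i <;> fin_cases j <;>
      first
      | rfl
      | (exfalso
         simp [hpi.eq_iff, hqi.eq_iff, hpq', hzp, hzq, fun i j => (hpq' i j).symm,
           fun i => (hzp i).symm, fun i => (hzq i).symm] at hij)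
  · intro i hi
    fin_cases i
    · exact absurd rfl hi
    · exact (hp 0).2
    · exact (hq 0).2
    · exact (hp 1).2
    · exact (hq 1).2
    · exact (hp 2).2
    · exact (hq 2).2
    · exact (hp 3).2
    · exact (hq 3).2
  · intro i hi
    fin_cases i
    · exact absurd rfl hi
    · exact Finset.mem_union_left _ (hp 0).1
    · exact Finset.mem_union_right _ (hqm 0)
    · exact Finset.mem_union_left _ (hp 1).1
    · exact Finset.mem_union_right _ (hqm 1)
    · exact Finset.mem_union_left _ (hp 2).1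
    · exact Finset.mem_union_right _ (hqm 2)
    · exact Finset.mem_union_left _ (hp 3).1
    · exact Finset.mem_union_right _ (hqm 3)
  · have hq' : ∀ i, G.Adj z (q i) := fun i => hQ _ (Finset.mem_filter.1 (hq i).1).1
    have hp' : ∀ i, G.Adj z (p i) := fun i => hP _ (hp i).1
    apply embed_F9
    · intro j hj
      fin_cases j
      · exact absurd rfl hj
      · exact hp' 0
      · exact hq' 0
      · exact hp' 1
      · exact hq' 1
      · exact hp' 2
      · exact hq' 2
      · exact hp' 3
      · exact hq' 3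
    · exact hadj 0
    · exact hadj 1
    · exact hadj 2
    · exact hadj 3

lemma center_F9 {W : Type*} [DecidableEq W] (G : SimpleGraph W) [DecidableRel G.Adj] (z : W)
    (P Q U : Finset W)
    (hPQ : Disjoint P Q) (hP : ∀ p ∈ P, G.Adj z p) (hQ : ∀ q ∈ Q, G.Adj z q)
    (hc : U.card + 4 ≤ P.card) (hpq : ∀ p ∈ P, U.card + 4 ≤ (Q.filter (G.Adj p)).card) :
    ∃ f : Fin 9 → W, Function.Injective f ∧ f 0 = z ∧ (∀ i, i ≠ 0 → f i ∉ U) ∧
      ∀ i j, F9.Adj i j → G.Adj (f i) (f j) := by
  obtain ⟨f, h1, h2, h3, _, h5⟩ := center_F9' G z P Q U hPQ hP hQ hc hpq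
  exact ⟨f, h1, h2, h3, h5⟩

/-- Either there are `k` disjoint triangles, or a set of at most `3k` vertices meets all
triangles. -/
lemma triangles {W : Type*} [DecidableEq W] (G : SimpleGraph W) (k : ℕ) :
    (∃ g : Fin k × Fin 3 → W, Function.Injective g ∧
      ∀ i r s, r ≠ s → G.Adj (g (i, r)) (g (i, s))) ∨
    (∃ T : Finset W, T.card ≤ 3 * k ∧ ∀ a b c, a ∉ T → b ∉ T → c ∉ T → G.Adj a b → G.Adj a c →
      ¬ G.Adj b c) := by
  induction k with
  | zero =>
    left
    exact ⟨fun x => x.1.elim0, fun x => x.1.elim0, fun i => i.elim0⟩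
  | succ k ih =>
    rcases ih with ⟨g, hg, hga⟩ | ⟨T, hT, hTa⟩
    · let T : Finset W := Finset.univ.image g
      have hTc : T.card ≤ 3 * k := by
        have := Finset.card_image_le (s := (Finset.univ : Finset (Fin k × Fin 3))) (f := g)
        simp only [Finset.card_univ, Fintype.card_prod, Fintype.card_fin] at this
        simp only [T]
        omega
      by_cases hex : ∃ a b c, a ∉ T ∧ b ∉ T ∧ c ∉ T ∧ G.Adj a b ∧ G.Adj a c ∧ G.Adj b c
      · obtain ⟨a, b, c, ha, hb, hc, hab, hac, hbc⟩ := hex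
        left
        let t : Fin 3 → W := ![a, b, c]
        have ht : Function.Injective t := by
          intro i j hij
          fin_cases i <;> fin_cases j <;>
            first
            | rfl
            | (exfalso; simp [t, hab.ne, hac.ne, hbc.ne, hab.ne', hac.ne', hbc.ne'] at hij)
        have hta : ∀ r s, r ≠ s → G.Adj (t r) (t s) := by
          intro r s hrs
          fin_cases r <;> fin_cases s <;>
            first
            | exact absurd rfl hrs
            | exact hab
            | exact hab.symm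
            | exact hac
            | exact hac.symm
            | exact hbc
            | exact hbc.symm
        have htT : ∀ r, t r ∉ T := by
          intro r
          fin_cases r
          · exact ha
          · exact hb
          · exact hc
        refine ⟨fun x => Fin.lastCases (motive := fun _ => W) (t x.2) (fun i => g (i, x.2)) x.1,
          ?_, ?_⟩
        · rintro ⟨i, r⟩ ⟨j, s⟩ h
          dsimp only at h
          induction i using Fin.lastCases with
          | last =>
            induction j using Fin.lastCases with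
            | last =>
              rw [Fin.lastCases_last, Fin.lastCases_last] at h
              rw [ht h]
            | cast j =>
              rw [Fin.lastCases_last, Fin.lastCases_castSucc] at h
              exact absurd (h ▸ Finset.mem_image_of_mem g (Finset.mem_univ _)) (htT r)
          | cast i =>
            induction j using Fin.lastCases with
            | last =>
              rw [Fin.lastCases_last, Fin.lastCases_castSucc] at h
              exact absurd (h ▸ Finset.mem_image_of_mem g (Finset.mem_univ _)) (htT s)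
            | cast j =>
              rw [Fin.lastCases_castSucc, Fin.lastCases_castSucc] at h
              have := hg h
              simp only [Prod.mk.injEq] at this ⊢
              exact ⟨congrArg _ this.1, this.2⟩
        · intro i r s hrs
          dsimp only
          induction i using Fin.lastCases with
          | last =>
            rw [Fin.lastCases_last, Fin.lastCases_last]
            exact hta r s hrs
          | cast i =>
            rw [Fin.lastCases_castSucc, Fin.lastCases_castSucc]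
            exact hga i r s hrs
      · right
        push Not at hex
        exact ⟨T, by omega, fun a b c ha hb hc hab hac => hex a b c ha hb hc hab hac⟩
    · right
      exact ⟨T, by omega, hTa⟩

/-- step 1: few vertices meet all triangles -/
lemma step1 {W : Type*} [DecidableEq W] (G : SimpleGraph W) (hTT : ¬ TT.IsContained G) :
    ∃ T : Finset W, T.card ≤ 12 ∧ ∀ a b c, a ∉ T → b ∉ T → c ∉ T → G.Adj a b → G.Adj a c →
      ¬ G.Adj b c := by
  rcases triangles G 4 with ⟨g, hg, hga⟩ | ⟨T, hT, h⟩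
  · exfalso
    apply hTT
    refine ⟨⟨⟨fun i => g (⟨i.val / 3, by omega⟩, ⟨i.val % 3, by omega⟩), ?_⟩, ?_⟩⟩
    · intro i j hij
      rw [TT, SimpleGraph.fromRel_adj] at hij
      obtain ⟨hne, h⟩ := hij
      have h' : i.val / 3 = j.val / 3 := by rcases h with h | h <;> omega
      have h2 : (⟨i.val / 3, by omega⟩ : Fin 4) = ⟨j.val / 3, by omega⟩ := by
        rw [Fin.mk.injEq]; exact h'
      rw [h2]
      apply hga
      intro h3
      rw [Fin.mk.injEq] at h3
      apply hne
      ext
      omega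
    · intro i j hij
      have h1 := hg hij
      simp only [Prod.mk.injEq, Fin.mk.injEq] at h1
      ext
      omega
  · exact ⟨T, hT, h⟩


lemma filter_adj_add {W : Type*} [DecidableEq W] (G : SimpleGraph W) [DecidableRel G.Adj]
    (S : Finset W) (v : W) :
    (S.filter (G.Adj v)).card + (S.filter (fun b => ¬ G.Adj v b)).card = S.card :=
  Finset.card_filter_add_card_filter_not (G.Adj v)

/-- step 2: the rest of the graph is nearly complete bipartite -/
lemma step2 (G : SimpleGraph V) [DecidableRel G.Adj] (T : Finset V) (hT : T.card ≤ 12)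
    (hTf : ∀ a b c, a ∉ T → b ∉ T → c ∉ T → G.Adj a b → G.Adj a c → ¬ G.Adj b c)
    (hn : 200 ≤ Fintype.card V)
    (he : (Fintype.card V) ^ 2 + 2 * Fintype.card V + 4 ≤ 4 * G.edgeFinset.card) :
    ∃ A B : Finset V, Disjoint A B ∧ A ∪ B = Finset.univ \ T ∧
      (∀ a ∈ A, ∀ a' ∈ A, ¬ G.Adj a a') ∧
      (∑ a ∈ A, (B.filter (fun b => ¬ G.Adj a b)).card ≤ 24 * Fintype.card V) ∧
      Fintype.card V ≤ 4 * A.card ∧ Fintype.card V ≤ 4 * B.card := by
  set n := Fintype.card V with hn'
  set V1 : Finset V := Finset.univ \ T with hV1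
  have hV1c : V1.card + T.card = n := by
    rw [hV1, Finset.card_sdiff_of_subset (Finset.subset_univ T), Finset.card_univ]
    have : T.card ≤ Fintype.card V := Finset.card_le_univ T
    omega
  have hV1ne : V1.Nonempty := by
    rw [← Finset.card_pos]; omega
  obtain ⟨x, hx, hmax⟩ := Finset.exists_max_image V1 (fun v => (V1.filter (G.Adj v)).card) hV1ne
  set A := V1.filter (G.Adj x) with hA
  set B := V1.filter (fun v => ¬ G.Adj x v) with hB
  have hxT : x ∉ T := by
    rw [hV1, Finset.mem_sdiff] at hx; exact hx.2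
  have hVT : ∀ v, v ∈ V1 ↔ v ∉ T := by
    intro v; rw [hV1, Finset.mem_sdiff]; simp
  have hdisj : Disjoint A B := Finset.disjoint_filter_filter_not _ _ _
  have hAB : A ∪ B = V1 := Finset.filter_union_filter_not_eq _ _
  have hind : ∀ a ∈ A, ∀ a' ∈ A, ¬ G.Adj a a' := by
    intro a ha a' ha'
    rw [hA, Finset.mem_filter] at ha ha'
    exact hTf x a a' hxT ((hVT a).1 ha.1) ((hVT a').1 ha'.1) ha.2 ha'.2
  have hcard : A.card + B.card = V1.card := by
    rw [← Finset.card_union_of_disjoint hdisj, hAB]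
  -- degrees
  have hdeg : ∀ v, G.degree v = (A.filter (G.Adj v)).card + (B.filter (G.Adj v)).card +
      (T.filter (G.Adj v)).card := by
    intro v
    have h1 : G.neighborFinset v = (Finset.univ : Finset V).filter (G.Adj v) := by
      ext u; simp
    have h2 : (Finset.univ : Finset V) = (A ∪ B) ∪ T := by
      rw [hAB, hV1, Finset.sdiff_union_of_subset (Finset.subset_univ T)]
    rw [← SimpleGraph.card_neighborFinset_eq_degree, h1, h2, Finset.filter_union,
      Finset.filter_union, Finset.card_union_of_disjoint, Finset.card_union_of_disjoint]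
    · exact Finset.disjoint_filter_filter hdisj
    · rw [← Finset.filter_union, hAB]
      exact Finset.disjoint_filter_filter Finset.sdiff_disjoint
  have hAadj : ∀ a ∈ A, (A.filter (G.Adj a)).card = 0 := by
    intro a ha
    rw [Finset.card_eq_zero, Finset.filter_eq_empty_iff]
    exact fun a' ha' => hind a ha a' ha'
  have hTle : ∀ v, (T.filter (G.Adj v)).card ≤ 12 := fun v =>
    (Finset.card_filter_le _ _).trans hT
  have hBle : ∀ b ∈ B, (A.filter (G.Adj b)).card + (B.filter (G.Adj b)).card ≤ A.card := by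
    intro b hb
    have hb1 : b ∈ V1 := by
      rw [hB, Finset.mem_filter] at hb; exact hb.1
    have h1 := hmax b hb1
    have h2 : (V1.filter (G.Adj b)).card = (A.filter (G.Adj b)).card +
        (B.filter (G.Adj b)).card := by
      rw [← hAB, Finset.filter_union, Finset.card_union_of_disjoint]
      exact Finset.disjoint_filter_filter hdisj
    omega
  have hdegT : ∀ v ∈ T, G.degree v ≤ n := by
    intro v _
    exact (G.degree_lt_card_verts v).le
  have hsum : 2 * G.edgeFinset.card = ∑ v, G.degree v :=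
    (G.sum_degrees_eq_twice_card_edges).symm
  have hsplit : ∑ v, G.degree v = ∑ v ∈ A, G.degree v + ∑ v ∈ B, G.degree v +
      ∑ v ∈ T, G.degree v := by
    have h2 : (Finset.univ : Finset V) = (A ∪ B) ∪ T := by
      rw [hAB, hV1, Finset.sdiff_union_of_subset (Finset.subset_univ T)]
    rw [h2, Finset.sum_union, Finset.sum_union hdisj]
    rw [hAB]
    exact Finset.sdiff_disjoint
  have hSA : ∑ v ∈ A, G.degree v ≤ ∑ a ∈ A, (B.filter (G.Adj a)).card + 12 * A.card := by
    calc ∑ v ∈ A, G.degree v ≤ ∑ a ∈ A, ((B.filter (G.Adj a)).card + 12) := by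
          apply Finset.sum_le_sum
          intro a ha
          rw [hdeg a, hAadj a ha]
          have := hTle a
          omega
      _ = ∑ a ∈ A, (B.filter (G.Adj a)).card + 12 * A.card := by
          rw [Finset.sum_add_distrib, Finset.sum_const, smul_eq_mul, mul_comm]
  have hSB : ∑ v ∈ B, G.degree v ≤ B.card * (A.card + 12) := by
    calc ∑ v ∈ B, G.degree v ≤ ∑ b ∈ B, (A.card + 12) := by
          apply Finset.sum_le_sum
          intro b hb
          rw [hdeg b]
          have h1 := hTle b
          have h2 := hBle b hb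
          omega
      _ = B.card * (A.card + 12) := by
          rw [Finset.sum_const, smul_eq_mul]
  have hST : ∑ v ∈ T, G.degree v ≤ 12 * n := by
    calc ∑ v ∈ T, G.degree v ≤ ∑ v ∈ T, n := Finset.sum_le_sum hdegT
      _ = T.card * n := by rw [Finset.sum_const, smul_eq_mul]
      _ ≤ 12 * n := Nat.mul_le_mul_right _ hT
  have hmiss : ∑ a ∈ A, (B.filter (G.Adj a)).card +
      ∑ a ∈ A, (B.filter (fun b => ¬ G.Adj a b)).card = A.card * B.card := by
    rw [← Finset.sum_add_distrib]
    simp only [filter_adj_add, Finset.sum_const, smul_eq_mul]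
  have hab : A.card + B.card ≤ n := by omega
  have hmain : 2 * G.edgeFinset.card ≤ 2 * (A.card * B.card) + 24 * n := by
    have e1 : B.card * (A.card + 12) = A.card * B.card + 12 * B.card := by ring
    rw [e1] at hSB
    omega
  refine ⟨A, B, hdisj, hAB, hind, ?_, ?_, ?_⟩
  · nlinarith [sq_nonneg ((A.card : ℤ) - B.card)]
  · by_contra hlt
    push Not at hlt
    have h1 := hmain
    have h2 : (0 : ℤ) ≤ (3 * (n : ℤ) - 4 * A.card) * ((n : ℤ) - 4 * A.card) := by
      apply mul_nonneg <;> omega
    have h3 : A.card * B.card ≤ A.card * (n - A.card) := Nat.mul_le_mul_left _ (by omega)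
    have h4 : A.card ≤ n := by omega
    zify [h4] at h1 h3 he hn
    nlinarith
  · by_contra hlt
    push Not at hlt
    have h1 := hmain
    have h2 : (0 : ℤ) ≤ (3 * (n : ℤ) - 4 * B.card) * ((n : ℤ) - 4 * B.card) := by
      apply mul_nonneg <;> omega
    have h3 : A.card * B.card ≤ (n - B.card) * B.card := Nat.mul_le_mul_right _ (by omega)
    have h4 : B.card ≤ n := by omega
    zify [h4] at h1 h3 he hn
    nlinarith


/-- step 3: up to a bounded set, the graph is bipartite and nearly complete -/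
lemma step3 (G : SimpleGraph V) [DecidableRel G.Adj] (hTT : ¬ TT.IsContained G)
    (hn : 200 ≤ Fintype.card V)
    (he : (Fintype.card V) ^ 2 + 2 * Fintype.card V + 4 ≤ 4 * G.edgeFinset.card) :
    ∃ Z A B : Finset V, Z.card ≤ 780 ∧ Disjoint A B ∧ Disjoint A Z ∧ Disjoint B Z ∧
      (∀ v, v ∈ Z ∨ v ∈ A ∨ v ∈ B) ∧
      (∀ a ∈ A, ∀ a' ∈ A, ¬ G.Adj a a') ∧ (∀ b ∈ B, ∀ b' ∈ B, ¬ G.Adj b b') ∧
      (∀ a ∈ A, 16 * (B.filter (fun b => ¬ G.Adj a b)).card ≤ Fintype.card V) ∧
      (∀ b ∈ B, 16 * (A.filter (fun a => ¬ G.Adj b a)).card ≤ Fintype.card V) ∧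
      Fintype.card V ≤ 4 * A.card + 3120 ∧ Fintype.card V ≤ 4 * B.card + 3120 := by
  obtain ⟨T, hT, hTf⟩ := step1 G hTT
  obtain ⟨A, B, hdisj, hAB, hind, hmiss, hA4, hB4⟩ := step2 G T hT hTf hn he
  set n := Fintype.card V with hn'
  have hmissB : ∑ b ∈ B, (A.filter (fun a => ¬ G.Adj b a)).card ≤ 24 * n := by
    have h1 := Finset.sum_card_bipartiteAbove_eq_sum_card_bipartiteBelow
      (s := A) (t := B) (fun a b => ¬ G.Adj a b)
    simp only [Finset.bipartiteAbove, Finset.bipartiteBelow] at h1
    have h2 : ∑ b ∈ B, (A.filter (fun a => ¬ G.Adj b a)).card =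
        ∑ b ∈ B, (A.filter (fun a => ¬ G.Adj a b)).card := by
      apply Finset.sum_congr rfl
      intro b _
      congr 1
      apply Finset.filter_congr
      intro a _
      rw [G.adj_comm]
    rw [h2, ← h1]
    exact hmiss
  set ZA := A.filter (fun a => n < 16 * (B.filter (fun b => ¬ G.Adj a b)).card) with hZA
  set ZB := B.filter (fun b => n < 16 * (A.filter (fun a => ¬ G.Adj b a)).card) with hZB
  have hZAc : ZA.card ≤ 384 := by
    have h1 : ZA.card * n ≤ 16 * (24 * n) := by
      calc ZA.card * n = ∑ a ∈ ZA, n := by rw [Finset.sum_const, smul_eq_mul]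
        _ ≤ ∑ a ∈ ZA, 16 * (B.filter (fun b => ¬ G.Adj a b)).card := by
            apply Finset.sum_le_sum
            intro a ha
            exact (Finset.mem_filter.1 ha).2.le
        _ ≤ ∑ a ∈ A, 16 * (B.filter (fun b => ¬ G.Adj a b)).card :=
            Finset.sum_le_sum_of_subset (Finset.filter_subset _ _)
        _ = 16 * ∑ a ∈ A, (B.filter (fun b => ¬ G.Adj a b)).card := by rw [Finset.mul_sum]
        _ ≤ 16 * (24 * n) := Nat.mul_le_mul_left _ hmiss
    have h2 : ZA.card * n ≤ 384 * n := by linarith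
    exact Nat.le_of_mul_le_mul_right h2 (by omega)
  have hZBc : ZB.card ≤ 384 := by
    have h1 : ZB.card * n ≤ 16 * (24 * n) := by
      calc ZB.card * n = ∑ a ∈ ZB, n := by rw [Finset.sum_const, smul_eq_mul]
        _ ≤ ∑ b ∈ ZB, 16 * (A.filter (fun a => ¬ G.Adj b a)).card := by
            apply Finset.sum_le_sum
            intro a ha
            exact (Finset.mem_filter.1 ha).2.le
        _ ≤ ∑ b ∈ B, 16 * (A.filter (fun a => ¬ G.Adj b a)).card :=
            Finset.sum_le_sum_of_subset (Finset.filter_subset _ _)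
        _ = 16 * ∑ b ∈ B, (A.filter (fun a => ¬ G.Adj b a)).card := by rw [Finset.mul_sum]
        _ ≤ 16 * (24 * n) := Nat.mul_le_mul_left _ hmissB
    have h2 : ZB.card * n ≤ 384 * n := by linarith
    exact Nat.le_of_mul_le_mul_right h2 (by omega)
  have hnotT : ∀ v, v ∈ A ∪ B ↔ v ∉ T := by
    intro v; rw [hAB, Finset.mem_sdiff]; simp
  refine ⟨T ∪ ZA ∪ ZB, A \ ZA, B \ ZB, ?_, ?_, ?_, ?_, ?_, ?_, ?_, ?_, ?_, ?_, ?_⟩
  · have h1 := Finset.card_union_le (T ∪ ZA) ZB
    have h2 := Finset.card_union_le T ZA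
    omega
  · exact Disjoint.mono Finset.sdiff_subset Finset.sdiff_subset hdisj
  · rw [Finset.disjoint_left]
    intro v hv hv2
    rw [Finset.mem_sdiff] at hv
    rw [Finset.mem_union, Finset.mem_union] at hv2
    rcases hv2 with (h | h) | h
    · exact (hnotT v).1 (Finset.mem_union_left _ hv.1) h
    · exact hv.2 h
    · exact Finset.disjoint_left.1 hdisj hv.1 (Finset.mem_filter.1 h).1
  · rw [Finset.disjoint_left]
    intro v hv hv2
    rw [Finset.mem_sdiff] at hv
    rw [Finset.mem_union, Finset.mem_union] at hv2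
    rcases hv2 with (h | h) | h
    · exact (hnotT v).1 (Finset.mem_union_right _ hv.1) h
    · exact Finset.disjoint_left.1 hdisj (Finset.mem_filter.1 h).1 hv.1
    · exact hv.2 h
  · intro v
    by_cases hvT : v ∈ T
    · left; simp [hvT]
    · have := (hnotT v).2 hvT
      rw [Finset.mem_union] at this
      simp only [Finset.mem_union, Finset.mem_sdiff]
      tauto
  · intro a ha a' ha'
    exact hind a (Finset.mem_sdiff.1 ha).1 a' (Finset.mem_sdiff.1 ha').1
  · intro b hb b' hb' hadj
    rw [Finset.mem_sdiff] at hb hb'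
    have m1 : 16 * (A.filter (fun a => ¬ G.Adj b a)).card ≤ n := by
      by_contra h
      exact hb.2 (Finset.mem_filter.2 ⟨hb.1, by omega⟩)
    have m2 : 16 * (A.filter (fun a => ¬ G.Adj b' a)).card ≤ n := by
      by_contra h
      exact hb'.2 (Finset.mem_filter.2 ⟨hb'.1, by omega⟩)
    have h3 : ((A.filter (fun a => ¬ G.Adj b a)) ∪ (A.filter (fun a => ¬ G.Adj b' a))).card <
        A.card := by
      have := Finset.card_union_le (A.filter (fun a => ¬ G.Adj b a))
        (A.filter (fun a => ¬ G.Adj b' a))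
      omega
    obtain ⟨a, ha, hau⟩ := Finset.exists_mem_notMem_of_card_lt_card h3
    rw [Finset.mem_union, Finset.mem_filter, Finset.mem_filter] at hau
    push Not at hau
    exact hTf a b b' ((hnotT a).1 (Finset.mem_union_left _ ha))
      ((hnotT b).1 (Finset.mem_union_right _ hb.1)) ((hnotT b').1 (Finset.mem_union_right _ hb'.1))
      (hau.1 ha).symm (hau.2 ha).symm hadj
  · intro a ha
    rw [Finset.mem_sdiff] at ha
    have m1 : 16 * (B.filter (fun b => ¬ G.Adj a b)).card ≤ n := by
      by_contra h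
      exact ha.2 (Finset.mem_filter.2 ⟨ha.1, by omega⟩)
    have m2 : ((B \ ZB).filter (fun b => ¬ G.Adj a b)).card ≤
        (B.filter (fun b => ¬ G.Adj a b)).card :=
      Finset.card_le_card (Finset.filter_subset_filter _ Finset.sdiff_subset)
    omega
  · intro b hb
    rw [Finset.mem_sdiff] at hb
    have m1 : 16 * (A.filter (fun a => ¬ G.Adj b a)).card ≤ n := by
      by_contra h
      exact hb.2 (Finset.mem_filter.2 ⟨hb.1, by omega⟩)
    have m2 : ((A \ ZA).filter (fun a => ¬ G.Adj b a)).card ≤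
        (A.filter (fun a => ¬ G.Adj b a)).card :=
      Finset.card_le_card (Finset.filter_subset_filter _ Finset.sdiff_subset)
    omega
  · have := Finset.le_card_sdiff ZA A
    omega
  · have := Finset.le_card_sdiff ZB B
    omega

/-- a vertex with many neighbours on one side and a few on the other side is the centre of four
triangles, avoiding a given small set -/
lemma center_of (G : SimpleGraph V) [DecidableRel G.Adj] (A B : Finset V) (hdisj : Disjoint A B)
    (hA : ∀ a ∈ A, 16 * (B.filter (fun b => ¬ G.Adj a b)).card ≤ Fintype.card V) (z : V)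
    (hz1 : 20 ≤ (A.filter (G.Adj z)).card)
    (hz2 : Fintype.card V + 320 ≤ 16 * (B.filter (G.Adj z)).card) (U : Finset V)
    (hU : U.card ≤ 12) :
    ∃ f : Fin 9 → V, Function.Injective f ∧ f 0 = z ∧ (∀ i, i ≠ 0 → f i ∉ U) ∧
      ∀ i j, F9.Adj i j → G.Adj (f i) (f j) := by
  apply center_F9 G z (A.filter (G.Adj z)) (B.filter (G.Adj z)) U
  · exact Finset.disjoint_filter_filter hdisj
  · exact fun p hp => (Finset.mem_filter.1 hp).2
  · exact fun p hp => (Finset.mem_filter.1 hp).2
  · omega
  · intro p hp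
    have h1 := hA p (Finset.mem_filter.1 hp).1
    have h2 := filter_adj_add G (B.filter (G.Adj z)) p
    have h3 : ((B.filter (G.Adj z)).filter (fun b => ¬ G.Adj p b)).card ≤
        (B.filter (fun b => ¬ G.Adj p b)).card :=
      Finset.card_le_card (Finset.filter_subset_filter _ (Finset.filter_subset _ _))
    omega


/-- a vertex with many neighbours on both sides -/
def Cen (G : SimpleGraph V) [DecidableRel G.Adj] (A B : Finset V) (z : V) : Prop :=
  (20 ≤ (A.filter (G.Adj z)).card ∧ Fintype.card V + 320 ≤ 16 * (B.filter (G.Adj z)).card) ∨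
  (20 ≤ (B.filter (G.Adj z)).card ∧ Fintype.card V + 320 ≤ 16 * (A.filter (G.Adj z)).card)

lemma cen_F9 (G : SimpleGraph V) [DecidableRel G.Adj] (A B : Finset V) (hdisj : Disjoint A B)
    (hA : ∀ a ∈ A, 16 * (B.filter (fun b => ¬ G.Adj a b)).card ≤ Fintype.card V)
    (hB : ∀ b ∈ B, 16 * (A.filter (fun a => ¬ G.Adj b a)).card ≤ Fintype.card V) (z : V)
    (hz : Cen G A B z) (U : Finset V) (hU : U.card ≤ 12) :
    ∃ f : Fin 9 → V, Function.Injective f ∧ f 0 = z ∧ (∀ i, i ≠ 0 → f i ∉ U) ∧
      ∀ i j, F9.Adj i j → G.Adj (f i) (f j) := by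
  rcases hz with ⟨h1, h2⟩ | ⟨h1, h2⟩
  · exact center_of G A B hdisj hA z h1 h2 U hU
  · exact center_of G B A hdisj.symm hB z h1 h2 U hU

lemma two_F9 {W : Type*} (G : SimpleGraph W) [DecidableEq W] (z1 z2 : W) (hz : z1 ≠ z2)
    (h1 : ∀ U : Finset W, U.card ≤ 12 → ∃ f : Fin 9 → W, Function.Injective f ∧ f 0 = z1 ∧
      (∀ i, i ≠ 0 → f i ∉ U) ∧ ∀ i j, F9.Adj i j → G.Adj (f i) (f j))
    (h2 : ∀ U : Finset W, U.card ≤ 12 → ∃ f : Fin 9 → W, Function.Injective f ∧ f 0 = z2 ∧
      (∀ i, i ≠ 0 → f i ∉ U) ∧ ∀ i j, F9.Adj i j → G.Adj (f i) (f j)) :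
    FF.IsContained G := by
  obtain ⟨f, hf, hf0, hfU, hfa⟩ := h1 {z2} (by simp)
  obtain ⟨g, hg, hg0, hgU, hga⟩ := h2 (Finset.univ.image f) (by
    have := Finset.card_image_le (s := (Finset.univ : Finset (Fin 9))) (f := f)
    simp only [Finset.card_univ, Fintype.card_fin] at this
    omega)
  apply embed_FF G f g hf hg _ hfa hga
  intro i j hij
  by_cases hj : j = 0
  · subst hj
    rw [hg0] at hij
    by_cases hi : i = 0
    · subst hi
      rw [hf0] at hij
      exact hz hij
    · exact hfU i hi (by rw [hij]; exact Finset.mem_singleton_self _)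
  · apply hgU j hj
    rw [← hij]
    exact Finset.mem_image_of_mem f (Finset.mem_univ _)

lemma sum_le_two (f : V → V → ℕ) (hs : ∀ u v, f u v = f v u) (Z : Finset V)
    (h0 : ∀ u, u ∉ Z → ∀ v, v ∉ Z → f u v = 0) :
    ∑ u, ∑ v, f u v ≤ 2 * ∑ u ∈ Z, ∑ v, f u v := by
  have h1 : ∑ u, ∑ v, f u v = ∑ u ∈ Z, ∑ v, f u v + ∑ u ∈ Finset.univ \ Z, ∑ v, f u v := by
    rw [add_comm]
    exact (Finset.sum_sdiff (Finset.subset_univ Z)).symm
  have h2 : ∑ u ∈ Finset.univ \ Z, ∑ v, f u v = ∑ u ∈ Finset.univ \ Z, ∑ v ∈ Z, f u v := by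
    apply Finset.sum_congr rfl
    intro u hu
    symm
    apply Finset.sum_subset (Finset.subset_univ Z)
    intro v _ hv
    exact h0 u (Finset.mem_sdiff.1 hu).2 v hv
  have h3 : ∑ u ∈ Finset.univ \ Z, ∑ v ∈ Z, f u v ≤ ∑ u ∈ Z, ∑ v, f u v := by
    rw [Finset.sum_comm]
    apply Finset.sum_le_sum
    intro v _
    calc ∑ u ∈ Finset.univ \ Z, f u v = ∑ u ∈ Finset.univ \ Z, f v u :=
          Finset.sum_congr rfl (fun u _ => hs u v)
      _ ≤ ∑ u, f v u := Finset.sum_le_sum_of_subset (Finset.subset_univ _)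
  omega

lemma two_le_sum (f : V → V → ℕ) (hs : ∀ u v, f u v = f v u) (Z : Finset V) :
    2 * ∑ u ∈ Z, ∑ v ∈ Finset.univ \ Z, f u v ≤ ∑ u, ∑ v, f u v := by
  have h1 : ∑ u, ∑ v, f u v = ∑ u ∈ Z, ∑ v, f u v + ∑ u ∈ Finset.univ \ Z, ∑ v, f u v := by
    rw [add_comm]
    exact (Finset.sum_sdiff (Finset.subset_univ Z)).symm
  have h2 : ∑ u ∈ Z, ∑ v ∈ Finset.univ \ Z, f u v ≤ ∑ u ∈ Z, ∑ v, f u v :=
    Finset.sum_le_sum (fun u _ => Finset.sum_le_sum_of_subset (Finset.subset_univ _))
  have h3 : ∑ u ∈ Z, ∑ v ∈ Finset.univ \ Z, f u v ≤ ∑ u ∈ Finset.univ \ Z, ∑ v, f u v := by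
    rw [Finset.sum_comm]
    apply Finset.sum_le_sum
    intro v _
    calc ∑ u ∈ Z, f u v = ∑ u ∈ Z, f v u := Finset.sum_congr rfl (fun u _ => hs u v)
      _ ≤ ∑ u, f v u := Finset.sum_le_sum_of_subset (Finset.subset_univ _)
  omega

/-- indicator of an inside pair -/
def ins (G : SimpleGraph V) [DecidableRel G.Adj] (v0 : V) (c : V → Bool) (u v : V) : ℕ :=
  if u ≠ v0 ∧ v ≠ v0 ∧ c u = c v ∧ G.Adj u v then 1 else 0

/-- indicator of a missing cross pair -/
def mis (G : SimpleGraph V) [DecidableRel G.Adj] (v0 : V) (c : V → Bool) (u v : V) : ℕ :=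
  if u ≠ v0 ∧ v ≠ v0 ∧ c u ≠ c v ∧ ¬ G.Adj u v then 1 else 0

lemma ins_symm (G : SimpleGraph V) [DecidableRel G.Adj] (v0 : V) (c : V → Bool) (u v : V) :
    ins G v0 c u v = ins G v0 c v u := by
  unfold ins
  congr 1
  rw [eq_iff_iff]
  constructor
  · rintro ⟨h1, h2, h3, h4⟩
    exact ⟨h2, h1, h3.symm, h4.symm⟩
  · rintro ⟨h1, h2, h3, h4⟩
    exact ⟨h2, h1, h3.symm, h4.symm⟩

lemma mis_symm (G : SimpleGraph V) [DecidableRel G.Adj] (v0 : V) (c : V → Bool) (u v : V) :
    mis G v0 c u v = mis G v0 c v u := by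
  unfold mis
  congr 1
  rw [eq_iff_iff]
  constructor
  · rintro ⟨h1, h2, h3, h4⟩
    exact ⟨h2, h1, h3.symm, fun h => h4 h.symm⟩
  · rintro ⟨h1, h2, h3, h4⟩
    exact ⟨h2, h1, h3.symm, fun h => h4 h.symm⟩

/-- one side of the partition -/
def side (v0 : V) (c : V → Bool) (b : Bool) : Finset V :=
  Finset.univ.filter (fun v => v ≠ v0 ∧ c v = b)

/-- non-neighbours of `v0` -/
def mis0 (G : SimpleGraph V) [DecidableRel G.Adj] (v0 : V) : Finset V :=
  Finset.univ.filter (fun v => v ≠ v0 ∧ ¬ G.Adj v0 v)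

lemma side_card (v0 : V) (c : V → Bool) :
    (side v0 c true).card + (side v0 c false).card + 1 = Fintype.card V := by
  have h1 : (side v0 c true) ∪ (side v0 c false) = Finset.univ.erase v0 := by
    ext v
    simp only [side, Finset.mem_union, Finset.mem_filter, Finset.mem_univ, true_and,
      Finset.mem_erase, and_true]
    cases c v <;> simp
  have h2 : Disjoint (side v0 c true) (side v0 c false) := by
    rw [Finset.disjoint_left]
    intro v hv hv'
    simp only [side, Finset.mem_filter] at hv hv'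
    rw [hv.2.2] at hv'
    simp at hv'
  have h3 := Finset.card_union_of_disjoint h2
  rw [h1, Finset.card_erase_of_mem (Finset.mem_univ _), Finset.card_univ] at h3
  have : 0 < Fintype.card V := Fintype.card_pos_iff.2 ⟨v0⟩
  omega

/-- the basic counting identity -/
lemma count_identity (G : SimpleGraph V) [DecidableRel G.Adj] (v0 : V) (c : V → Bool) :
    2 * G.edgeFinset.card + ∑ u, ∑ v, mis G v0 c u v + 2 * (mis0 G v0).card + 2 =
      ∑ u, ∑ v, ins G v0 c u v + 2 * ((side v0 c true).card * (side v0 c false).card) +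
        2 * Fintype.card V := by
  have hE : 2 * G.edgeFinset.card = ∑ u, ∑ v, (if G.Adj u v then 1 else 0) := by
    rw [← G.sum_degrees_eq_twice_card_edges]
    apply Finset.sum_congr rfl
    intro u _
    rw [← SimpleGraph.card_neighborFinset_eq_degree, Finset.sum_boole]
    simp only [Nat.cast_id]
    congr 1
    ext v; simp
  have hV0 : ∑ u, ∑ v, (if G.Adj u v ∧ (u = v0 ∨ v = v0) then 1 else 0) =
      2 * (Finset.univ.filter (fun v => G.Adj v0 v)).card := by
    have h1 : ∀ u v, (if G.Adj u v ∧ (u = v0 ∨ v = v0) then 1 else 0) =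
        (if u = v0 then (if G.Adj v0 v then 1 else 0) else 0) +
        (if v = v0 then (if G.Adj v0 u then 1 else 0) else 0) := by
      intro u v
      by_cases hu : u = v0 <;> by_cases hv : v = v0
      · subst hu; subst hv; simp
      · subst hu; simp [hv]
      · subst hv; simp [hu, G.adj_comm]
      · simp [hu, hv]
    simp only [h1, Finset.sum_add_distrib]
    rw [Finset.sum_comm]
    simp only [Finset.sum_ite_eq', Finset.mem_univ, if_true, Finset.sum_boole, Nat.cast_id]
    ring
  have hdeg0 : (Finset.univ.filter (fun v => G.Adj v0 v)).card + (mis0 G v0).card + 1 =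
      Fintype.card V := by
    have h1 : (Finset.univ.filter (fun v => G.Adj v0 v)) ∪ (mis0 G v0) =
        Finset.univ.erase v0 := by
      ext v
      simp only [mis0, Finset.mem_union, Finset.mem_filter, Finset.mem_univ, true_and,
        Finset.mem_erase, and_true]
      constructor
      · rintro (h | h)
        · exact h.ne'
        · exact h.1
      · intro h
        by_cases h2 : G.Adj v0 v
        · exact Or.inl h2
        · exact Or.inr ⟨h, h2⟩
    have h2 : Disjoint (Finset.univ.filter (fun v => G.Adj v0 v)) (mis0 G v0) := by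
      rw [Finset.disjoint_left]
      intro v hv hv'
      simp only [mis0, Finset.mem_filter] at hv hv'
      exact hv'.2.2 hv.2
    have h3 := Finset.card_union_of_disjoint h2
    rw [h1, Finset.card_erase_of_mem (Finset.mem_univ _), Finset.card_univ] at h3
    have : 0 < Fintype.card V := Fintype.card_pos_iff.2 ⟨v0⟩
    omega
  have hOpp : ∑ u, ∑ v, (if u ≠ v0 ∧ v ≠ v0 ∧ c u ≠ c v then 1 else 0) =
      2 * ((side v0 c true).card * (side v0 c false).card) := by
    have h1 : ∀ u, ∑ v, (if u ≠ v0 ∧ v ≠ v0 ∧ c u ≠ c v then 1 else 0) =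
        (if u ∈ side v0 c true then (side v0 c false).card else 0) +
        (if u ∈ side v0 c false then (side v0 c true).card else 0) := by
      intro u
      by_cases hu : u = v0
      · subst hu; simp [side]
      · cases hc : c u
        · have e1 : u ∉ side v0 c true := by simp [side, hc]
          have e2 : u ∈ side v0 c false := by simp [side, hc, hu]
          rw [if_neg e1, if_pos e2, zero_add, side, Finset.card_filter]
          apply Finset.sum_congr rfl
          intro v _
          congr 1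
          rw [eq_iff_iff]
          cases hcv : c v <;> simp [hu]
        · have e1 : u ∈ side v0 c true := by simp [side, hc, hu]
          have e2 : u ∉ side v0 c false := by simp [side, hc]
          rw [if_pos e1, if_neg e2, add_zero, side, Finset.card_filter]
          apply Finset.sum_congr rfl
          intro v _
          congr 1
          rw [eq_iff_iff]
          cases hcv : c v <;> simp [hu]
    simp only [h1, Finset.sum_add_distrib, Finset.sum_ite_mem, Finset.univ_inter,
      Finset.sum_const, smul_eq_mul]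
    ring
  have hkey : ∀ u v, (if G.Adj u v then 1 else 0) + mis G v0 c u v =
      ins G v0 c u v + (if u ≠ v0 ∧ v ≠ v0 ∧ c u ≠ c v then 1 else 0) +
      (if G.Adj u v ∧ (u = v0 ∨ v = v0) then 1 else 0) := by
    intro u v
    unfold mis ins
    by_cases h1 : u = v0 <;> by_cases h2 : v = v0 <;> by_cases h3 : c u = c v <;>
      by_cases h4 : G.Adj u v <;> simp [h1, h2, h3, h4]
  have hsum : ∑ u, ∑ v, ((if G.Adj u v then 1 else 0) + mis G v0 c u v) =
      ∑ u, ∑ v, (ins G v0 c u v + (if u ≠ v0 ∧ v ≠ v0 ∧ c u ≠ c v then 1 else 0) +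
      (if G.Adj u v ∧ (u = v0 ∨ v = v0) then 1 else 0)) :=
    Finset.sum_congr rfl (fun u _ => Finset.sum_congr rfl (fun v _ => hkey u v))
  simp only [Finset.sum_add_distrib] at hsum
  rw [hOpp, hV0, ← hE] at hsum
  omega


lemma energy (G : SimpleGraph V) [DecidableRel G.Adj] (v0 : V) (c : V → Bool)
    (he : (Fintype.card V) ^ 2 + 2 * Fintype.card V + 4 ≤ 4 * G.edgeFinset.card) :
    2 * ((∑ u, ∑ v, mis G v0 c u v : ℕ) : ℤ) + 4 * ((mis0 G v0).card : ℤ) +
      (((side v0 c true).card : ℤ) - (side v0 c false).card) ^ 2 + 7 ≤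
      2 * ((∑ u, ∑ v, ins G v0 c u v : ℕ) : ℤ) := by
  have h1 := count_identity G v0 c
  have h2 := side_card v0 c
  generalize ∑ u, ∑ v, mis G v0 c u v = M at *
  generalize ∑ u, ∑ v, ins G v0 c u v = I at *
  generalize (side v0 c true).card = α at *
  generalize (side v0 c false).card = β at *
  generalize (mis0 G v0).card = m0 at *
  generalize G.edgeFinset.card = e at *
  rw [← h2] at h1 he
  zify at h1 he
  nlinarith

/-- The structure lemma. -/
lemma structure_lemma (G : SimpleGraph V) [DecidableRel G.Adj] (hTT : ¬ TT.IsContained G)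
    (hFF : ¬ FF.IsContained G) (hn : 10 ^ 7 ≤ Fintype.card V)
    (he : (Fintype.card V) ^ 2 + 2 * Fintype.card V + 4 ≤ 4 * G.edgeFinset.card) :
    ∃ (v0 : V) (c : V → Bool), ∑ u, ∑ v, ins G v0 c u v ≤ 1248000 := by
  classical
  obtain ⟨Z, A, B, hZ, hAB, hAZ, hBZ, hall, hAind, hBind, hAm, hBm, hA4, hB4⟩ :=
    step3 G hTT (by omega) he
  -- choice of `v0`
  have hv0 : ∃ v0 : V, ∀ z, z ≠ v0 → ¬ Cen G A B z := by
    by_cases hex : ∃ z, Cen G A B z
    · obtain ⟨z0, hz0⟩ := hex
      refine ⟨z0, fun z hz hzc => hFF ?_⟩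
      exact two_F9 G z z0 hz (cen_F9 G A B hAB hAm hBm z hzc) (cen_F9 G A B hAB hAm hBm z0 hz0)
    · push Not at hex
      have : Nonempty V := Fintype.card_pos_iff.1 (by omega)
      exact ⟨Classical.arbitrary V, fun z _ => hex z⟩
  obtain ⟨v0, hv0⟩ := hv0
  let a : V → ℕ := fun v => (A.filter (G.Adj v)).card
  let b : V → ℕ := fun v => (B.filter (G.Adj v)).card
  let c : V → Bool := fun v => decide (v ∈ A ∨ (v ∈ Z ∧ a v ≤ b v))
  refine ⟨v0, c, ?_⟩
  have hcA : ∀ v ∈ A, c v = true := fun v hv => by simp [c, hv]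
  have hcB : ∀ v ∈ B, c v = false := fun v hv => by
    have h1 : v ∉ A := fun h => Finset.disjoint_left.1 hAB h hv
    have h2 : v ∉ Z := fun h => Finset.disjoint_left.1 hBZ hv h
    simp [c, h1, h2]
  have hcZ : ∀ v ∈ Z, (c v = true ↔ a v ≤ b v) := fun v hv => by
    have h1 : v ∉ A := fun h => Finset.disjoint_left.1 hAZ h hv
    simp [c, h1, hv]
  set n := Fintype.card V with hn'
  set Z' := Z.erase v0 with hZ'
  have hZ'c : Z'.card ≤ 780 := (Finset.card_erase_le).trans hZ
  -- own part and opposite part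
  let own : V → Finset V := fun z => if c z = true then A else B
  let opp : V → Finset V := fun z => if c z = true then B else A
  let o : V → ℕ := fun z => ((own z).filter (G.Adj z)).card
  let mm : V → ℕ := fun z => ((opp z).filter (fun u => ¬ G.Adj z u)).card
  -- inside pairs
  have hI1 : ∑ u, ∑ v, ins G v0 c u v ≤ 2 * ∑ u ∈ Z, ∑ v, ins G v0 c u v := by
    apply sum_le_two _ (ins_symm G v0 c)
    intro u hu v hv
    unfold ins
    rw [if_neg]
    rintro ⟨_, _, h3, h4⟩
    rcases (hall u).resolve_left hu with hu' | hu' <;>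
      rcases (hall v).resolve_left hv with hv' | hv'
    · exact hAind u hu' v hv' h4
    · rw [hcA u hu', hcB v hv'] at h3; simp at h3
    · rw [hcB u hu', hcA v hv'] at h3; simp at h3
    · exact hBind u hu' v hv' h4
  have hv0zero : ∑ v, ins G v0 c v0 v = 0 := by
    apply Finset.sum_eq_zero
    intro v _
    simp [ins]
  have hI2 : ∑ u ∈ Z, ∑ v, ins G v0 c u v = ∑ u ∈ Z', ∑ v, ins G v0 c u v := by
    by_cases h : v0 ∈ Z
    · rw [hZ', ← Finset.add_sum_erase Z _ h, hv0zero, zero_add]
    · rw [hZ', Finset.erase_eq_of_notMem h]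
  have hI3 : ∀ z ∈ Z', ∑ v, ins G v0 c z v ≤ o z + 780 := by
    intro z hz
    have h1 : ∑ v, ins G v0 c z v =
        (Finset.univ.filter (fun v => z ≠ v0 ∧ v ≠ v0 ∧ c z = c v ∧ G.Adj z v)).card := by
      simp only [ins, Finset.sum_boole, Nat.cast_id]
    have h2 : (Finset.univ.filter (fun v => z ≠ v0 ∧ v ≠ v0 ∧ c z = c v ∧ G.Adj z v)) ⊆
        (own z).filter (G.Adj z) ∪ Z := by
      intro v hv
      simp only [Finset.mem_filter, Finset.mem_univ, true_and] at hv
      rw [Finset.mem_union, Finset.mem_filter]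
      rcases hall v with h | h | h
      · exact Or.inr h
      · left
        refine ⟨?_, hv.2.2.2⟩
        simp only [own]
        rw [if_pos (by rw [hv.2.2.1]; exact hcA v h)]
        exact h
      · left
        refine ⟨?_, hv.2.2.2⟩
        simp only [own]
        rw [if_neg (by rw [hv.2.2.1, hcB v h]; simp)]
        exact h
    rw [h1]
    have h3 := Finset.card_le_card h2
    have h4 := Finset.card_union_le ((own z).filter (G.Adj z)) Z
    simp only [o]
    omega
  have hI4 : ∑ u, ∑ v, ins G v0 c u v ≤ 2 * ∑ z ∈ Z', (o z + 780) := by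
    refine hI1.trans ?_
    rw [hI2]
    exact Nat.mul_le_mul_left _ (Finset.sum_le_sum hI3)
  -- missing pairs
  have hM1 : 2 * ∑ u ∈ Z', ∑ v ∈ Finset.univ \ Z', mis G v0 c u v ≤ ∑ u, ∑ v, mis G v0 c u v :=
    two_le_sum _ (mis_symm G v0 c) Z'
  have hM2 : ∀ z ∈ Z', mm z ≤ ∑ v ∈ Finset.univ \ Z', mis G v0 c z v + 1 := by
    intro z hz
    have hzv0 : z ≠ v0 := Finset.ne_of_mem_erase hz
    have h1 : ∑ v ∈ Finset.univ \ Z', mis G v0 c z v =
        ((Finset.univ \ Z').filter
          (fun v => z ≠ v0 ∧ v ≠ v0 ∧ c z ≠ c v ∧ ¬ G.Adj z v)).card := by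
      simp only [mis, Finset.sum_boole, Nat.cast_id]
    have h2 : ((opp z).filter (fun u => ¬ G.Adj z u)).erase v0 ⊆ ((Finset.univ \ Z').filter
          (fun v => z ≠ v0 ∧ v ≠ v0 ∧ c z ≠ c v ∧ ¬ G.Adj z v)) := by
      intro v hv
      rw [Finset.mem_erase, Finset.mem_filter] at hv
      obtain ⟨hv1, hv2, hv3⟩ := hv
      have h3 : v ∉ Z ∧ c z ≠ c v := by
        by_cases hcz : c z = true
        · simp only [opp, if_pos hcz] at hv2
          exact ⟨fun h => Finset.disjoint_left.1 hBZ hv2 h, by rw [hcz, hcB v hv2]; simp⟩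
        · simp only [opp, if_neg hcz] at hv2
          exact ⟨fun h => Finset.disjoint_left.1 hAZ hv2 h, by rw [hcA v hv2]; exact hcz⟩
      rw [Finset.mem_filter, Finset.mem_sdiff]
      exact ⟨⟨Finset.mem_univ _, fun h => h3.1 (Finset.mem_of_mem_erase h)⟩, hzv0, hv1, h3.2, hv3⟩
    have h4 := Finset.card_le_card h2
    have h5 := Finset.pred_card_le_card_erase (s := (opp z).filter (fun u => ¬ G.Adj z u))
      (a := v0)
    rw [h1]
    simp only [mm]
    omega
  have hM3 : ∑ z ∈ Z', mm z ≤ ∑ u ∈ Z', ∑ v ∈ Finset.univ \ Z', mis G v0 c u v + 780 := by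
    calc ∑ z ∈ Z', mm z ≤ ∑ z ∈ Z', (∑ v ∈ Finset.univ \ Z', mis G v0 c z v + 1) :=
          Finset.sum_le_sum hM2
      _ = ∑ u ∈ Z', ∑ v ∈ Finset.univ \ Z', mis G v0 c u v + Z'.card := by
          rw [Finset.sum_add_distrib, Finset.sum_const, smul_eq_mul, mul_one]
      _ ≤ _ := by omega
  have hE := energy G v0 c he
  have hMI : ∑ u, ∑ v, mis G v0 c u v ≤ ∑ u, ∑ v, ins G v0 c u v := by
    have := sq_nonneg (((side v0 c true).card : ℤ) - (side v0 c false).card)
    zify
    zify at hE
    linarith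
  have hmain : ∑ z ∈ Z', mm z ≤ ∑ z ∈ Z', (o z + 780) + 780 := by omega
  -- non-centres
  have hnc : ∀ z ∈ Z', o z < 20 ∨ (2 * n + 16 * o z ≤ 16 * mm z + 13120) := by
    intro z hz
    have hzv0 : z ≠ v0 := Finset.ne_of_mem_erase hz
    have hzZ : z ∈ Z := Finset.mem_of_mem_erase hz
    have hnc := hv0 z hzv0
    unfold Cen at hnc
    push Not at hnc
    obtain ⟨h1, h2⟩ := hnc
    have hfa := filter_adj_add G A z
    have hfb := filter_adj_add G B z
    by_cases hcz : c z = true
    · have h3 := (hcZ z hzZ).1 hcz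
      simp only [a, b] at h3
      have h4 : o z = (A.filter (G.Adj z)).card := by simp only [o, own, if_pos hcz]
      have h5 : mm z = (B.filter (fun u => ¬ G.Adj z u)).card := by
        simp only [mm, opp, if_pos hcz]
      rw [h4, h5]
      by_cases h6 : (A.filter (G.Adj z)).card < 20
      · exact Or.inl h6
      · right
        have h7 := h1 (by omega)
        omega
    · have h3 : ¬ (a z ≤ b z) := fun h => hcz ((hcZ z hzZ).2 h)
      simp only [a, b] at h3
      have h4 : o z = (B.filter (G.Adj z)).card := by simp only [o, own, if_neg hcz]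
      have h5 : mm z = (A.filter (fun u => ¬ G.Adj z u)).card := by
        simp only [mm, opp, if_neg hcz]
      rw [h4, h5]
      by_cases h6 : (B.filter (G.Adj z)).card < 20
      · exact Or.inl h6
      · right
        have h7 := h2 (by omega)
        omega
  have hnc' : ∀ z ∈ Z', o z ≤ mm z + 20 := by
    intro z hz
    rcases hnc z hz with h | h <;> omega
  have hlow : ∀ z ∈ Z', o z < 20 := by
    intro z0 hz0
    rcases hnc z0 hz0 with h | h
    · exact h
    · exfalso
      have h1 : ∑ z ∈ Z', o z ≤ ∑ z ∈ Z'.erase z0, mm z + 20 * 780 + o z0 := by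
        rw [← Finset.add_sum_erase Z' _ hz0]
        have h2 : ∑ z ∈ Z'.erase z0, o z ≤ ∑ z ∈ Z'.erase z0, (mm z + 20) :=
          Finset.sum_le_sum (fun z hz => hnc' z (Finset.mem_of_mem_erase hz))
        rw [Finset.sum_add_distrib, Finset.sum_const, smul_eq_mul] at h2
        have h3 : (Z'.erase z0).card ≤ 780 := (Finset.card_erase_le).trans hZ'c
        omega
      rw [Finset.sum_add_distrib, Finset.sum_const, smul_eq_mul] at hmain
      have h3 : Z'.card * 780 ≤ 780 * 780 := Nat.mul_le_mul_right _ hZ'c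
      rw [← Finset.add_sum_erase Z' mm hz0] at hmain
      omega
  calc ∑ u, ∑ v, ins G v0 c u v ≤ 2 * ∑ z ∈ Z', (o z + 780) := hI4
    _ ≤ 2 * ∑ z ∈ Z', 800 := by
        apply Nat.mul_le_mul_left
        apply Finset.sum_le_sum
        intro z hz
        have := hlow z hz
        omega
    _ = 2 * (Z'.card * 800) := by rw [Finset.sum_const, smul_eq_mul]
    _ ≤ 1248000 := by omega

end general

end Pool.Agent.Helper951.Fam
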