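import Mathlib
import Pool.Agent.Helper951.FamB
import Pool.Agent.Helper951.Perron

set_option autoImplicit false

open Finset

namespace Pool.Agent.Helper951.Fam

section cleanpart

variable {V : Type*} [Fintype V] [DecidableEq V]

/-- the clean vertices of one side -/
def cleanS (G : SimpleGraph V) [DecidableRel G.Adj] (v0 : V) (c : V → Bool) (b : Bool) :
    Finset V :=
  (side v0 c b).filter (fun v => G.Adj v0 v ∧ (∑ u, ins G v0 c v u = 0) ∧
    (∑ u, mis G v0 c v u = 0))

lemma clean_spec (G : SimpleGraph V) [DecidableRel G.Adj] (v0 : V) (c : V → Bool) (b : Bool)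
    (v : V) (hv : v ∈ cleanS G v0 c b) : v ≠ v0 ∧ c v = b ∧ G.Adj v0 v ∧
      (∀ u, u ≠ v0 → c u = b → ¬ G.Adj v u) ∧ (∀ u, u ≠ v0 → c u ≠ b → G.Adj v u) := by
  simp only [cleanS, side, Finset.mem_filter, Finset.mem_univ, true_and] at hv
  obtain ⟨⟨h1, h2⟩, h3, h4, h5⟩ := hv
  refine ⟨h1, h2, h3, ?_, ?_⟩
  · intro u hu hcu hadj
    have := (Finset.sum_eq_zero_iff.1 h4) u (Finset.mem_univ _)
    unfold ins at this
    rw [if_pos ⟨h1, hu, by rw [h2, hcu], hadj⟩] at this
    exact one_ne_zero this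
  · intro u hu hcu
    by_contra hadj
    have := (Finset.sum_eq_zero_iff.1 h5) u (Finset.mem_univ _)
    unfold mis at this
    rw [if_pos ⟨h1, hu, by rw [h2]; exact fun h => hcu h.symm, hadj⟩] at this
    exact one_ne_zero this

lemma card_support_le (f : V → V → ℕ) (S : Finset V) :
    (S.filter (fun v => ∑ u, f v u ≠ 0)).card ≤ ∑ v, ∑ u, f v u := by
  calc (S.filter (fun v => ∑ u, f v u ≠ 0)).card
      = ∑ v ∈ S.filter (fun v => ∑ u, f v u ≠ 0), 1 := by rw [Finset.card_eq_sum_ones]
    _ ≤ ∑ v ∈ S.filter (fun v => ∑ u, f v u ≠ 0), ∑ u, f v u := by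
        apply Finset.sum_le_sum
        intro v hv
        exact Nat.one_le_iff_ne_zero.2 (Finset.mem_filter.1 hv).2
    _ ≤ ∑ v, ∑ u, f v u := Finset.sum_le_sum_of_subset (Finset.subset_univ _)

lemma clean_card (G : SimpleGraph V) [DecidableRel G.Adj] (v0 : V) (c : V → Bool) (b : Bool) :
    (side v0 c b).card ≤ (cleanS G v0 c b).card + (mis0 G v0).card +
      ∑ u, ∑ v, ins G v0 c u v + ∑ u, ∑ v, mis G v0 c u v := by
  have h1 : side v0 c b ⊆ cleanS G v0 c b ∪ mis0 G v0 ∪
      (side v0 c b).filter (fun v => ∑ u, ins G v0 c v u ≠ 0) ∪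
      (side v0 c b).filter (fun v => ∑ u, mis G v0 c v u ≠ 0) := by
    intro v hv
    by_cases h1 : G.Adj v0 v
    · by_cases h2 : ∑ u, ins G v0 c v u = 0
      · by_cases h3 : ∑ u, mis G v0 c v u = 0
        · simp only [Finset.mem_union]
          exact Or.inl (Or.inl (Or.inl (Finset.mem_filter.2 ⟨hv, h1, h2, h3⟩)))
        · simp only [Finset.mem_union]
          exact Or.inr (Finset.mem_filter.2 ⟨hv, h3⟩)
      · simp only [Finset.mem_union]
        exact Or.inl (Or.inr (Finset.mem_filter.2 ⟨hv, h2⟩))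
    · simp only [Finset.mem_union]
      refine Or.inl (Or.inl (Or.inr ?_))
      simp only [side, Finset.mem_filter, Finset.mem_univ, true_and] at hv
      simp only [mis0, Finset.mem_filter, Finset.mem_univ, true_and]
      exact ⟨hv.1, h1⟩
  have h2 := Finset.card_le_card h1
  have h3 := Finset.card_union_le (cleanS G v0 c b ∪ mis0 G v0 ∪
      (side v0 c b).filter (fun v => ∑ u, ins G v0 c v u ≠ 0))
      ((side v0 c b).filter (fun v => ∑ u, mis G v0 c v u ≠ 0))
  have h4 := Finset.card_union_le (cleanS G v0 c b ∪ mis0 G v0)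
      ((side v0 c b).filter (fun v => ∑ u, ins G v0 c v u ≠ 0))
  have h5 := Finset.card_union_le (cleanS G v0 c b) (mis0 G v0)
  have h6 := card_support_le (ins G v0 c) (side v0 c b)
  have h7 := card_support_le (mis G v0 c) (side v0 c b)
  omega

/-- an endpoint of an inside edge is not adjacent to `v0` -/
lemma inside_nonadj (G : SimpleGraph V) [DecidableRel G.Adj] (hH0 : ¬ H0.IsContained G)
    (v0 : V) (c : V → Bool) (hcl : ∀ b, 20 ≤ (cleanS G v0 c b).card) (x y : V) (hx : x ≠ v0)
    (hy : y ≠ v0) (hxy : c x = c y) (hadj : G.Adj x y) : ¬ G.Adj v0 x := by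
  intro hv0x
  apply hH0
  obtain ⟨q, hqi, hq⟩ := greedy 4 (fun _ => cleanS G v0 c (!c x)) ∅
    (fun _ => by have := hcl (!c x); simp only [Finset.card_empty]; omega)
  obtain ⟨p, hpi, hp⟩ := greedy 3 (fun _ => cleanS G v0 c (c x)) ∅
    (fun _ => by have := hcl (c x); simp only [Finset.card_empty]; omega)
  have sq := fun i => clean_spec G v0 c _ _ (hq i).1
  have sp := fun i => clean_spec G v0 c _ _ (hp i).1
  have hpq : ∀ i j, p i ≠ q j := by
    intro i j h
    have h1 := (sp i).2.1
    have h2 := (sq j).2.1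
    rw [h, h2] at h1
    cases hcx : c x <;> simp [hcx] at h1
  have hxq : ∀ j, x ≠ q j := by
    intro j h
    have h2 := (sq j).2.1
    rw [← h] at h2
    cases hcx : c x <;> simp [hcx] at h2
  have hyq : ∀ j, y ≠ q j := by
    intro j h
    have h2 := (sq j).2.1
    rw [← h, ← hxy] at h2
    cases hcx : c x <;> simp [hcx] at h2
  have hxp : ∀ j, x ≠ p j := by
    intro j h
    exact (sp j).2.2.2.1 y hy hxy.symm (h ▸ hadj)
  have hyp : ∀ j, y ≠ p j := by
    intro j h
    exact (sp j).2.2.2.1 x hx rfl (h ▸ hadj.symm)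
  have hv0p : ∀ j, v0 ≠ p j := fun j => (sp j).1.symm
  have hv0q : ∀ j, v0 ≠ q j := fun j => (sq j).1.symm
  have hxyne : x ≠ y := hadj.ne
  have hnq : ∀ u, u ≠ v0 → c u = c x → ∀ j, G.Adj u (q j) := by
    intro u hu hcu j
    apply ((sq j).2.2.2.2 u hu _).symm
    rw [hcu]
    cases c x <;> simp
  apply embed_H0 G ![v0, p 0, q 0, p 1, q 1, p 2, q 2, x, q 3, y]
  · intro i j hij
    fin_cases i <;> fin_cases j <;>
      first
      | rfl
      | (exfalso
         simp [hpi.eq_iff, hqi.eq_iff, hpq, hxq, hyq, hxp, hyp, hv0p, hv0q, hxyne, hx, hy,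
           hx.symm, hy.symm, hxyne.symm,
           fun i j => (hpq i j).symm, fun i => (hxq i).symm, fun i => (hyq i).symm,
           fun i => (hxp i).symm, fun i => (hyp i).symm, fun i => (hv0p i).symm,
           fun i => (hv0q i).symm] at hij)
  · intro j hj0 hj9
    fin_cases j
    · exact absurd rfl hj0
    · exact (sp 0).2.2.1
    · exact (sq 0).2.2.1
    · exact (sp 1).2.2.1
    · exact (sq 1).2.2.1
    · exact (sp 2).2.2.1
    · exact (sq 2).2.2.1
    · exact hv0x
    · exact (sq 3).2.2.1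
    · exact absurd rfl hj9
  · exact hnq _ (sp 0).1 (sp 0).2.1 0
  · exact hnq _ (sp 1).1 (sp 1).2.1 1
  · exact hnq _ (sp 2).1 (sp 2).2.1 2
  · exact hnq _ hx rfl 3
  · exact hadj.symm
  · exact hnq _ hy hxy.symm 3

/-- inside degrees are at most three -/
lemma inside_degree (G : SimpleGraph V) [DecidableRel G.Adj] (hFF : ¬ FF.IsContained G)
    (v0 : V) (c : V → Bool) (hcl : ∀ b, 20 ≤ (cleanS G v0 c b).card) (v : V) :
    ∑ u, ins G v0 c v u ≤ 3 := by
  by_contra hlt
  push Not at hlt
  have h1 : ∑ u, ins G v0 c v u =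
      (Finset.univ.filter (fun u => v ≠ v0 ∧ u ≠ v0 ∧ c v = c u ∧ G.Adj v u)).card := by
    simp only [ins, Finset.sum_boole, Nat.cast_id]
  rw [h1] at hlt
  set P := Finset.univ.filter (fun u => v ≠ v0 ∧ u ≠ v0 ∧ c v = c u ∧ G.Adj v u) with hP
  have hPs : ∀ u ∈ P, v ≠ v0 ∧ u ≠ v0 ∧ c v = c u ∧ G.Adj v u := fun u hu =>
    (Finset.mem_filter.1 hu).2
  have hvv0 : v ≠ v0 := by
    obtain ⟨u, hu⟩ := Finset.card_pos.1 (by omega : 0 < P.card)
    exact (hPs u hu).1
  set Q := cleanS G v0 c (!c v) with hQ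
  have hQs := fun q (hq : q ∈ Q) => clean_spec G v0 c _ q hq
  have hQadj : ∀ q ∈ Q, ∀ u, u ≠ v0 → c u = c v → G.Adj u q := by
    intro q hq u hu hcu
    apply ((hQs q hq).2.2.2.2 u hu _).symm
    rw [hcu]
    cases c v <;> simp
  have hQc : 20 ≤ Q.card := hcl (!c v)
  obtain ⟨f, hf, hf0, _, hfm, hfa⟩ := center_F9' G v P Q ∅
    (by
      rw [Finset.disjoint_left]
      intro u hu hu'
      have h2 := (hPs u hu).2.2.1
      have h3 := (hQs u hu').2.1
      rw [← h2] at h3
      cases hcv : c v <;> simp [hcv] at h3)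
    (fun p hp => (hPs p hp).2.2.2)
    (fun q hq => hQadj q hq v hvv0 rfl)
    (by simp only [Finset.card_empty]; omega)
    (by
      intro p hp
      have h2 : Q.filter (G.Adj p) = Q := by
        rw [Finset.filter_eq_self]
        intro q hq
        exact hQadj q hq p (hPs p hp).2.1 (hPs p hp).2.2.1.symm
      rw [h2]
      simp only [Finset.card_empty]
      omega)
  apply hFF
  -- the second centre
  have hfv0 : ∀ i, f i ≠ v0 := by
    intro i hi
    by_cases hi0 : i = 0
    · subst hi0
      rw [hf0] at hi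
      exact hvv0 hi
    · rcases Finset.mem_union.1 (hfm i hi0) with h | h
      · exact (hPs _ h).2.1 hi
      · exact (hQs _ h).1 hi
  have hUc : (Finset.univ.image f).card ≤ 9 := by
    have := Finset.card_image_le (s := (Finset.univ : Finset (Fin 9))) (f := f)
    simpa using this
  have hct := hcl true
  have hcf := hcl false
  obtain ⟨g, hg, hg0, hgU, hga⟩ := center_F9 G v0 (cleanS G v0 c true) (cleanS G v0 c false)
    (Finset.univ.image f)
    (by
      rw [Finset.disjoint_left]
      intro u hu hu'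
      have h2 := (clean_spec G v0 c _ u hu).2.1
      have h3 := (clean_spec G v0 c _ u hu').2.1
      rw [h2] at h3
      simp at h3)
    (fun p hp => (clean_spec G v0 c _ p hp).2.2.1)
    (fun q hq => (clean_spec G v0 c _ q hq).2.2.1)
    (by omega)
    (by
      intro p hp
      have h2 : (cleanS G v0 c false).filter (G.Adj p) = cleanS G v0 c false := by
        rw [Finset.filter_eq_self]
        intro q hq
        have sp := clean_spec G v0 c _ p hp
        have sq := clean_spec G v0 c _ q hq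
        exact sp.2.2.2.2 q sq.1 (by rw [sq.2.1]; simp)
      rw [h2]
      omega)
  apply embed_FF G f g hf hg _ hfa hga
  intro i j hij
  by_cases hj : j = 0
  · subst hj
    rw [hg0] at hij
    exact hfv0 i hij
  · apply hgU j hj
    rw [← hij]
    exact Finset.mem_image_of_mem f (Finset.mem_univ _)

end cleanpart

section spectral

open Matrix

variable {V : Type*} [Fintype V] [DecidableEq V]

/-- the complete graph of type `K_1 ∇ K(A, B)` -/
def Gs (v0 : V) (c : V → Bool) : SimpleGraph V where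
  Adj u v := u ≠ v ∧ (u = v0 ∨ v = v0 ∨ c u ≠ c v)
  symm := ⟨by
    rintro u v ⟨h1, h2⟩
    refine ⟨h1.symm, ?_⟩
    rcases h2 with h | h | h
    · exact Or.inr (Or.inl h)
    · exact Or.inl h
    · exact Or.inr (Or.inr h.symm)⟩
  loopless := ⟨fun u h => h.1 rfl⟩

instance (v0 : V) (c : V → Bool) : DecidableRel (Gs v0 c).Adj := by
  intro u v
  unfold Gs
  infer_instance

lemma row_id (G : SimpleGraph V) [DecidableRel G.Adj] (v0 : V) (c : V → Bool) (x : V → ℝ)
    (u : V) (hu : u ≠ v0) :
    ∑ v ∈ G.neighborFinset u, x v + ∑ v, (mis G v0 c u v : ℝ) * x v =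
      ∑ v, (ins G v0 c u v : ℝ) * x v + ∑ v ∈ side v0 c (!c u), x v +
        (if G.Adj u v0 then x v0 else 0) := by
  have h1 : ∑ v ∈ G.neighborFinset u, x v = ∑ v, (if G.Adj u v then x v else 0) := by
    rw [← Finset.sum_filter]
    apply Finset.sum_congr _ (fun _ _ => rfl)
    ext v; simp
  have h2 : ∑ v ∈ side v0 c (!c u), x v =
      ∑ v, (if v ≠ v0 ∧ c v = !c u then x v else 0) := by
    rw [← Finset.sum_filter]
    rfl
  have h3 : (if G.Adj u v0 then x v0 else 0) =
      ∑ v, (if v = v0 then (if G.Adj u v0 then x v0 else 0) else 0) := by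
    rw [Finset.sum_ite_eq']
    simp
  rw [h1, h2, h3, ← Finset.sum_add_distrib, ← Finset.sum_add_distrib, ← Finset.sum_add_distrib]
  apply Finset.sum_congr rfl
  intro v _
  unfold mis ins
  by_cases hv : v = v0
  · subst hv
    simp
  · cases hcu : c u <;> cases hcv : c v <;> by_cases hadj : G.Adj u v <;>
      simp [hu, hv, hadj]

lemma row_id0 (G : SimpleGraph V) [DecidableRel G.Adj] (v0 : V) (c : V → Bool) (x : V → ℝ) :
    ∑ v ∈ G.neighborFinset v0, x v + ∑ v ∈ mis0 G v0, x v =
      ∑ v ∈ side v0 c true, x v + ∑ v ∈ side v0 c false, x v := by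
  have h1 : ∑ v ∈ G.neighborFinset v0, x v = ∑ v, (if G.Adj v0 v then x v else 0) := by
    rw [← Finset.sum_filter]
    apply Finset.sum_congr _ (fun _ _ => rfl)
    ext v; simp
  have h2 : ∀ b, ∑ v ∈ side v0 c b, x v =
      ∑ v, (if v ≠ v0 ∧ c v = b then x v else 0) := by
    intro b
    rw [← Finset.sum_filter]
    rfl
  have h3 : ∑ v ∈ mis0 G v0, x v = ∑ v, (if v ≠ v0 ∧ ¬ G.Adj v0 v then x v else 0) := by
    rw [← Finset.sum_filter]
    rfl
  rw [h1, h2, h2, h3, ← Finset.sum_add_distrib, ← Finset.sum_add_distrib]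
  apply Finset.sum_congr rfl
  intro v _
  by_cases hv : v = v0
  · subst hv
    simp
  · cases hcv : c v <;> by_cases hadj : G.Adj v0 v <;> simp [hv, hadj]

lemma quad_diff (G : SimpleGraph V) [DecidableRel G.Adj] (v0 : V) (c : V → Bool) (x : V → ℝ)
    (hx0 : ∀ v, 0 ≤ x v) :
    x ⬝ᵥ (G.adjMatrix ℝ *ᵥ x) + 2 * (x v0 * ∑ v ∈ mis0 G v0, x v) ≤
      x ⬝ᵥ ((Gs v0 c).adjMatrix ℝ *ᵥ x) + ∑ u, ∑ v, (ins G v0 c u v : ℝ) * (x u * x v) := by
  have h3 : x v0 * ∑ v ∈ mis0 G v0, x v =
      ∑ u, ∑ v, (if u = v0 ∧ (v ≠ v0 ∧ ¬ G.Adj v0 v) then x u * x v else 0) := by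
    rw [Finset.sum_comm]
    have : ∀ v, ∑ u, (if u = v0 ∧ (v ≠ v0 ∧ ¬ G.Adj v0 v) then x u * x v else 0) =
        (if v ≠ v0 ∧ ¬ G.Adj v0 v then x v0 * x v else 0) := by
      intro v
      by_cases h : v ≠ v0 ∧ ¬ G.Adj v0 v
      · rw [if_pos h]
        have e : ∀ u, (if u = v0 ∧ (v ≠ v0 ∧ ¬ G.Adj v0 v) then x u * x v else 0) =
            (if u = v0 then x u * x v else 0) := by
          intro u
          by_cases hu : u = v0
          · rw [if_pos ⟨hu, h⟩, if_pos hu]
          · rw [if_neg (fun hh => hu hh.1), if_neg hu]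
        simp only [e, Finset.sum_ite_eq', Finset.mem_univ, if_true]
      · simp only [h, and_false, if_false, Finset.sum_const_zero]
    simp only [this]
    rw [← Finset.sum_filter, Finset.mul_sum]
    rfl
  have h4 : x v0 * ∑ v ∈ mis0 G v0, x v =
      ∑ u, ∑ v, (if v = v0 ∧ (u ≠ v0 ∧ ¬ G.Adj v0 u) then x u * x v else 0) := by
    rw [h3, Finset.sum_comm]
    apply Finset.sum_congr rfl
    intro u _
    apply Finset.sum_congr rfl
    intro v _
    split_ifs
    · ring
    · rfl
  rw [two_mul, SimpleGraph.dotProduct_mulVec_adjMatrix, SimpleGraph.dotProduct_mulVec_adjMatrix]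
  nth_rewrite 1 [h3]
  rw [h4]
  simp only [← Finset.sum_add_distrib]
  apply Finset.sum_le_sum
  intro u _
  apply Finset.sum_le_sum
  intro v _
  have hp : 0 ≤ x u * x v := mul_nonneg (hx0 u) (hx0 v)
  unfold ins
  by_cases hu : u = v0
  · subst hu
    by_cases hv : v = u
    · subst hv
      simp
    · by_cases hadj : G.Adj u v
      · simp [hv, hadj, Gs, Ne.symm hv]
      · simp [hv, hadj, Gs, Ne.symm hv]
  · by_cases hv : v = v0
    · subst hv
      by_cases hadj : G.Adj u v
      · simp [hu, hadj, hadj.symm, Gs]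
      · have hadj' : ¬ G.Adj v u := fun h => hadj h.symm
        simp [hu, hadj, hadj', Gs]
    · by_cases huv : u = v
      · subst huv
        simp [hu, Gs]
      · by_cases hc : c u = c v
        · by_cases hadj : G.Adj u v <;> simp [hu, hv, hc, hadj, Gs, huv]
        · by_cases hadj : G.Adj u v <;> simp [hu, hv, hc, hadj, Gs, huv, hp]


lemma spectral_main (G : SimpleGraph V) [DecidableRel G.Adj] (v0 : V) (c : V → Bool)
    (hn : 10 ^ 9 ≤ Fintype.card V)
    (he : (Fintype.card V) ^ 2 + 2 * Fintype.card V + 4 ≤ 4 * G.edgeFinset.card)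
    (hI : ∑ u, ∑ v, ins G v0 c u v ≤ 1248000)
    (hna : ∀ u v, ins G v0 c u v ≠ 0 → ¬ G.Adj v0 u)
    (hdeg : ∀ u, ∑ v, ins G v0 c u v ≤ 3)
    (lam : ℝ) (x : V → ℝ) (hx1 : x ⬝ᵥ x = 1) (hx0 : ∀ v, 0 ≤ x v)
    (hev : ∀ v, ∑ u ∈ G.neighborFinset v, x u = lam * x v)
    (hq : ∀ y : V → ℝ, y ⬝ᵥ (G.adjMatrix ℝ *ᵥ y) ≤ lam * (y ⬝ᵥ y)) :
    x ⬝ᵥ (G.adjMatrix ℝ *ᵥ x) < x ⬝ᵥ ((Gs v0 c).adjMatrix ℝ *ᵥ x) := by
  classical
  have hE := energy G v0 c he
  set n := Fintype.card V with hn'
  have hnR : (10 : ℝ) ^ 9 ≤ n := by exact_mod_cast hn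
  -- bound on the number of missing pairs
  have hMn : ∑ u, ∑ v, mis G v0 c u v ≤ 1248000 ∧ (mis0 G v0).card ≤ 1248000 := by
    have := sq_nonneg (((side v0 c true).card : ℤ) - (side v0 c false).card)
    have h1 : ((∑ u, ∑ v, ins G v0 c u v : ℕ) : ℤ) ≤ 1248000 := by exact_mod_cast hI
    constructor
    · zify
      zify at hE h1
      have : (0 : ℤ) ≤ (mis0 G v0).card := Int.natCast_nonneg _
      linarith
    · zify
      zify at hE h1
      have : (0 : ℤ) ≤ ∑ u, ∑ v, (mis G v0 c u v : ℤ) :=
        Finset.sum_nonneg (fun u _ => Finset.sum_nonneg (fun v _ => Int.natCast_nonneg _))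
      linarith
  have hIpos : 0 < ∑ u, ∑ v, ins G v0 c u v := by
    have h1 := sq_nonneg (((side v0 c true).card : ℤ) - (side v0 c false).card)
    have h2 : (0 : ℤ) ≤ (mis0 G v0).card := Int.natCast_nonneg _
    have h3 : (0 : ℤ) ≤ ((∑ u, ∑ v, mis G v0 c u v : ℕ) : ℤ) := Int.natCast_nonneg _
    have : (0 : ℤ) < ((∑ u, ∑ v, ins G v0 c u v : ℕ) : ℤ) := by linarith
    exact_mod_cast this
  have hsides : ∀ b, ((side v0 c (!b)).card : ℝ) - 1600 ≤ (side v0 c b).card := by
    have h1 : ((∑ u, ∑ v, ins G v0 c u v : ℕ) : ℤ) ≤ 1248000 := by exact_mod_cast hI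
    have h2 : (0 : ℤ) ≤ (mis0 G v0).card := Int.natCast_nonneg _
    have h3 : (0 : ℤ) ≤ ((∑ u, ∑ v, mis G v0 c u v : ℕ) : ℤ) := Int.natCast_nonneg _
    have h4 : (((side v0 c true).card : ℤ) - (side v0 c false).card) ^ 2 ≤ 1600 ^ 2 := by
      linarith
    have h5 := abs_le_of_sq_le_sq' h4 (by norm_num)
    intro b
    cases b
    · have : ((side v0 c true).card : ℤ) - (side v0 c false).card ≤ 1600 := h5.2
      have h6 : ((side v0 c true).card : ℝ) - (side v0 c false).card ≤ 1600 := by
        exact_mod_cast this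
      simp only [Bool.not_false]
      linarith
    · have : -1600 ≤ ((side v0 c true).card : ℤ) - (side v0 c false).card := h5.1
      have h6 : (-1600 : ℝ) ≤ ((side v0 c true).card : ℝ) - (side v0 c false).card := by
        exact_mod_cast this
      simp only [Bool.not_true]
      linarith
  -- lam ≥ n/2
  have hlam : (n : ℝ) / 2 ≤ lam := by
    have h1 := hq (fun _ => 1)
    have h2 : (fun _ : V => (1 : ℝ)) ⬝ᵥ (fun _ => 1) = n := by
      simp [dotProduct, hn']
    have h3 : (fun _ : V => (1 : ℝ)) ⬝ᵥ (G.adjMatrix ℝ *ᵥ (fun _ => 1)) =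
        2 * G.edgeFinset.card := by
      rw [SimpleGraph.dotProduct_mulVec_adjMatrix]
      have : ∀ i : V, ∑ j, (if G.Adj i j then (1 : ℝ) * 1 else 0) = G.degree i := by
        intro i
        rw [← SimpleGraph.card_neighborFinset_eq_degree]
        simp only [mul_one, Finset.sum_boole]
        congr 2
        ext j; simp
      simp only [this]
      rw [← Nat.cast_sum, G.sum_degrees_eq_twice_card_edges]
      push_cast
      ring
    rw [h2, h3] at h1
    have h4 : ((n : ℝ)) ^ 2 + 2 * n + 4 ≤ 4 * G.edgeFinset.card := by exact_mod_cast he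
    have h5 : (n : ℝ) ^ 2 / 2 ≤ lam * n := by nlinarith
    have h6 : (0 : ℝ) < n := by linarith
    have h7 : (n : ℝ) / 2 * n ≤ lam * n := by nlinarith
    exact le_of_mul_le_mul_right h7 h6
  have hlampos : 0 < lam := by linarith
  -- the maximum entry outside `v0`
  have hne : (Finset.univ.erase v0).Nonempty := by
    rw [← Finset.card_pos, Finset.card_erase_of_mem (Finset.mem_univ _), Finset.card_univ]
    omega
  obtain ⟨w, hw, hwmax⟩ := Finset.exists_max_image (Finset.univ.erase v0) x hne
  have hwv0 : w ≠ v0 := Finset.ne_of_mem_erase hw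
  set X := x w with hX
  have hXle : ∀ v, v ≠ v0 → x v ≤ X := fun v hv =>
    hwmax v (Finset.mem_erase.2 ⟨hv, Finset.mem_univ _⟩)
  have hX0 : 0 ≤ X := hx0 w
  have hCm : ∀ u, ∑ v, (mis G v0 c u v : ℝ) * x v ≤ 1248000 * X := by
    intro u
    calc ∑ v, (mis G v0 c u v : ℝ) * x v ≤ ∑ v, (mis G v0 c u v : ℝ) * X := by
          apply Finset.sum_le_sum
          intro v _
          by_cases hv : v = v0
          · subst hv
            simp [mis]
          · exact mul_le_mul_of_nonneg_left (hXle v hv) (Nat.cast_nonneg _)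
      _ = ((∑ v, mis G v0 c u v : ℕ) : ℝ) * X := by
          rw [← Finset.sum_mul]; push_cast; rfl
      _ ≤ 1248000 * X := by
          apply mul_le_mul_of_nonneg_right _ hX0
          have h1 : ∑ v, mis G v0 c u v ≤ ∑ u, ∑ v, mis G v0 c u v :=
            Finset.single_le_sum (f := fun u => ∑ v, mis G v0 c u v)
              (fun _ _ => Nat.zero_le _) (Finset.mem_univ u)
          exact_mod_cast h1.trans hMn.1
  have hIm : ∀ u, ∑ v, (ins G v0 c u v : ℝ) * x v ≤ 3 * X := by
    intro u
    calc ∑ v, (ins G v0 c u v : ℝ) * x v ≤ ∑ v, (ins G v0 c u v : ℝ) * X := by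
          apply Finset.sum_le_sum
          intro v _
          by_cases hv : v = v0
          · subst hv
            simp [ins]
          · exact mul_le_mul_of_nonneg_left (hXle v hv) (Nat.cast_nonneg _)
      _ = ((∑ v, ins G v0 c u v : ℕ) : ℝ) * X := by
          rw [← Finset.sum_mul]; push_cast; rfl
      _ ≤ 3 * X := by
          apply mul_le_mul_of_nonneg_right _ hX0
          exact_mod_cast hdeg u
  have hm0 : ∑ v ∈ mis0 G v0, x v ≤ 1248000 * X := by
    calc ∑ v ∈ mis0 G v0, x v ≤ ∑ v ∈ mis0 G v0, X := by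
          apply Finset.sum_le_sum
          intro v hv
          simp only [mis0, Finset.mem_filter, Finset.mem_univ, true_and] at hv
          exact hXle v hv.1
      _ = (mis0 G v0).card * X := by rw [Finset.sum_const, nsmul_eq_mul]
      _ ≤ 1248000 * X := by
          apply mul_le_mul_of_nonneg_right _ hX0
          exact_mod_cast hMn.2
  have hm0nn : 0 ≤ ∑ v ∈ mis0 G v0, x v := Finset.sum_nonneg (fun v _ => hx0 v)
  set s : Bool → ℝ := fun b => ∑ v ∈ side v0 c b, x v with hs
  have hsle : ∀ b, s b ≤ (side v0 c b).card * X := by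
    intro b
    simp only [hs]
    calc ∑ v ∈ side v0 c b, x v ≤ ∑ v ∈ side v0 c b, X := by
          apply Finset.sum_le_sum
          intro v hv
          simp only [side, Finset.mem_filter, Finset.mem_univ, true_and] at hv
          exact hXle v hv.1
      _ = (side v0 c b).card * X := by rw [Finset.sum_const, nsmul_eq_mul]
  have hrow : ∀ u, u ≠ v0 → s (!c u) - 1248000 * X ≤ lam * x u ∧
      lam * x u ≤ s (!c u) + 3 * X + x v0 := by
    intro u hu
    have h1 := row_id G v0 c x u hu
    rw [hev u] at h1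
    have h2 : 0 ≤ ∑ v, (ins G v0 c u v : ℝ) * x v :=
      Finset.sum_nonneg (fun v _ => mul_nonneg (Nat.cast_nonneg _) (hx0 v))
    have h3 : 0 ≤ ∑ v, (mis G v0 c u v : ℝ) * x v :=
      Finset.sum_nonneg (fun v _ => mul_nonneg (Nat.cast_nonneg _) (hx0 v))
    have h4 := hCm u
    have h5 := hIm u
    have h6 : 0 ≤ (if G.Adj u v0 then x v0 else 0) ∧ (if G.Adj u v0 then x v0 else 0) ≤ x v0 := by
      split_ifs
      · exact ⟨hx0 v0, le_rfl⟩
      · exact ⟨le_rfl, hx0 v0⟩
    change _ = _ + s (!c u) + _ at h1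
    constructor <;> linarith [h6.1, h6.2]
  have hrow0 : s true + s false - 1248000 * X ≤ lam * x v0 ∧
      lam * x v0 ≤ s true + s false := by
    have h1 := row_id0 G v0 c x
    rw [hev v0] at h1
    change _ = s true + s false at h1
    constructor <;> linarith
  have hsc := side_card v0 c
  have hscR : ((side v0 c true).card : ℝ) + (side v0 c false).card + 1 = n := by
    exact_mod_cast hsc
  -- x v0 ≤ 2 X
  have hxv0 : x v0 ≤ 2 * X := by
    have h1 : lam * x v0 ≤ (n : ℝ) * X := by
      have := hsle true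
      have := hsle false
      nlinarith
    have h2 : lam * x v0 ≤ lam * (2 * X) := by nlinarith
    exact le_of_mul_le_mul_left h2 hlampos
  -- X > 0
  have hXpos : 0 < X := by
    rcases hX0.lt_or_eq with h | h
    · exact h
    · exfalso
      rw [← h] at hxv0
      have h1 : ∀ v, x v = 0 := by
        intro v
        by_cases hv : v = v0
        · subst hv
          have := hx0 v
          linarith
        · have h2 := hXle v hv
          have h3 := hx0 v
          rw [← h] at h2
          linarith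
      have h2 : x ⬝ᵥ x = 0 := by simp [dotProduct, h1]
      rw [hx1] at h2
      exact one_ne_zero h2
  -- the side opposite to `w`
  have hw1 := (hrow w hwv0).2
  rw [← hX] at hw1
  have hs1 : (lam - 5) * X ≤ s (!c w) := by nlinarith
  have hcard1 : lam - 5 ≤ (side v0 c (!c w)).card := by
    have h1 := hsle (!c w)
    have h2 : (lam - 5) * X ≤ (side v0 c (!c w)).card * X := hs1.trans h1
    exact le_of_mul_le_mul_right h2 hXpos
  have hcard2 : lam - 1605 ≤ (side v0 c (c w)).card := by
    have := hsides (c w)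
    linarith
  have hown : ∀ a, a ≠ v0 → c a = c w → (lam - 1248005) * X ≤ lam * x a := by
    intro a ha hca
    have h1 := (hrow a ha).1
    rw [hca] at h1
    nlinarith
  have hs2 : (lam - 1249610) * X ≤ s (c w) := by
    have h1 : (side v0 c (c w)).card * ((lam - 1248005) * X) ≤ lam * s (c w) := by
      simp only [hs]
      rw [Finset.mul_sum, ← nsmul_eq_mul, ← Finset.sum_const]
      apply Finset.sum_le_sum
      intro a ha
      simp only [side, Finset.mem_filter, Finset.mem_univ, true_and] at ha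
      exact hown a ha.1 ha.2
    have h2 : (lam - 1605) * ((lam - 1248005) * X) ≤
        (side v0 c (c w)).card * ((lam - 1248005) * X) := by
      apply mul_le_mul_of_nonneg_right hcard2
      apply mul_nonneg _ hX0
      linarith
    have h3 : lam * ((lam - 1249610) * X) ≤ lam * s (c w) := by
      refine le_trans ?_ (h2.trans h1)
      nlinarith
    exact le_of_mul_le_mul_left h3 hlampos
  have hssum : s true + s false = s (c w) + s (!c w) := by
    cases c w <;> simp [add_comm]
  have hv0low : 19 / 10 * X ≤ x v0 := by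
    have h1 := hrow0.1
    rw [hssum] at h1
    have h2 : lam * (19 / 10 * X) ≤ lam * x v0 := by nlinarith
    exact le_of_mul_le_mul_left h2 hlampos
  have hpos : ∀ u, u ≠ v0 → 0 < x u := by
    intro u hu
    have h1 : 0 < lam * x u := by
      by_cases hcu : c u = c w
      · have := hown u hu hcu
        have h2 : 0 < (lam - 1248005) * X := mul_pos (by linarith) hXpos
        linarith
      · have h2 := (hrow u hu).1
        have h3 : (!c u) = c w := by
          revert hcu
          cases c u <;> cases c w <;> simp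
        rw [h3] at h2
        nlinarith
    exact (mul_pos_iff_of_pos_left hlampos).1 h1
  -- conclusion
  have hqd := quad_diff G v0 c x hx0
  have hins : ∑ u, ∑ v, (ins G v0 c u v : ℝ) * (x u * x v) ≤ ∑ u ∈ mis0 G v0, x u * (3 * X) := by
    have h1 : ∀ u, ∑ v, (ins G v0 c u v : ℝ) * (x u * x v) =
        x u * ∑ v, (ins G v0 c u v : ℝ) * x v := by
      intro u
      rw [Finset.mul_sum]
      apply Finset.sum_congr rfl
      intro v _
      ring
    simp only [h1]
    calc ∑ u, x u * ∑ v, (ins G v0 c u v : ℝ) * x v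
        = ∑ u ∈ mis0 G v0, x u * ∑ v, (ins G v0 c u v : ℝ) * x v := by
          symm
          apply Finset.sum_subset (Finset.subset_univ _)
          intro u _ hu
          have h2 : ∀ v, ins G v0 c u v = 0 := by
            intro v
            by_contra h
            apply hu
            simp only [mis0, Finset.mem_filter, Finset.mem_univ, true_and]
            refine ⟨?_, hna u v h⟩
            rintro rfl
            simp [ins] at h
          simp [h2]
      _ ≤ ∑ u ∈ mis0 G v0, x u * (3 * X) := by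
          apply Finset.sum_le_sum
          intro u _
          exact mul_le_mul_of_nonneg_left (hIm u) (hx0 u)
  rw [← Finset.sum_mul] at hins
  have hmpos : 0 < ∑ v ∈ mis0 G v0, x v := by
    have hex : ∃ u v, ins G v0 c u v ≠ 0 := by
      by_contra hcon
      push Not at hcon
      simp [hcon] at hIpos
    obtain ⟨u, v, huv⟩ := hex
    have hu : u ≠ v0 := by
      rintro rfl
      simp [ins] at huv
    have humem : u ∈ mis0 G v0 := by
      simp only [mis0, Finset.mem_filter, Finset.mem_univ, true_and]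
      exact ⟨hu, hna u v huv⟩
    calc 0 < x u := hpos u hu
      _ ≤ ∑ v ∈ mis0 G v0, x v :=
          Finset.single_le_sum (fun v _ => hx0 v) humem
  nlinarith

end spectral

end Pool.Agent.Helper951.Fam
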