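import Mathlib
import Pool.Agent.Helper951.Defs

set_option autoImplicit false

open Finset

namespace Pool.Agent.Helper951.FrA

open Pool.Agent.Helper951.Defs

/-- `k K_2`: `k` disjoint edges, on the vertex set `Fin k × Fin 2`. -/
def disjointEdges (k : ℕ) : SimpleGraph (Fin k × Fin 2) where
  Adj p q := p.1 = q.1 ∧ p.2 ≠ q.2
  symm := ⟨fun _ _ h => ⟨h.1.symm, h.2.symm⟩⟩
  loopless := ⟨fun _ h => h.2 rfl⟩

/-- The friendship graph `F_{k,3} = K_1 ∨ k K_2`. -/
def friendship (k : ℕ) : SimpleGraph (Fin 1 ⊕ (Fin k × Fin 2)) :=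
  join (⊤ : SimpleGraph (Fin 1)) (disjointEdges k)

lemma friend_of {V : Type*} (G : SimpleGraph V) (k : ℕ) (v : V) (a b : Fin k → V)
    (ha : Function.Injective a) (hb : Function.Injective b) (hab : ∀ i j, a i ≠ b j)
    (h1 : ∀ i, G.Adj v (a i)) (h2 : ∀ i, G.Adj v (b i)) (h3 : ∀ i, G.Adj (a i) (b i)) :
    (friendship k).IsContained G := by
  let f : Fin 1 ⊕ (Fin k × Fin 2) → V := Sum.elim (fun _ => v)
    (fun p => if p.2 = 0 then a p.1 else b p.1)
  have hf : ∀ i j, (friendship k).Adj i j → G.Adj (f i) (f j) := by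
    rintro (i | ⟨i, i'⟩) (j | ⟨j, j'⟩) h
    · exact absurd (Subsingleton.elim i j) h
    · simp only [f, Sum.elim_inl, Sum.elim_inr]
      split_ifs
      · exact h1 j
      · exact h2 j
    · simp only [f, Sum.elim_inl, Sum.elim_inr]
      split_ifs
      · exact (h1 i).symm
      · exact (h2 i).symm
    · obtain ⟨h4, h5⟩ := h
      simp only at h4 h5
      subst h4
      simp only [f, Sum.elim_inr]
      split_ifs with h6 h7 h7
      · exact absurd (h6.trans h7.symm) h5
      · exact h3 i
      · exact (h3 i).symm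
      · exfalso; apply h5; omega
  have hinj : Function.Injective f := by
    rintro (i | ⟨i, i'⟩) (j | ⟨j, j'⟩) h
    · rw [Subsingleton.elim i j]
    · exfalso
      simp only [f, Sum.elim_inl, Sum.elim_inr] at h
      split_ifs at h
      · exact (h1 j).ne h
      · exact (h2 j).ne h
    · exfalso
      simp only [f, Sum.elim_inl, Sum.elim_inr] at h
      split_ifs at h
      · exact (h1 i).ne h.symm
      · exact (h2 i).ne h.symm
    · simp only [f, Sum.elim_inr] at h
      split_ifs at h with h6 h7 h7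
      · rw [ha h, h6, h7]
      · exact absurd h (hab i j)
      · exact absurd h.symm (hab j i)
      · rw [hb h, show i' = j' by omega]
  exact ⟨⟨⟨f, fun {i j} h => hf i j h⟩, hinj⟩⟩

/-- greedy choice of distinct representatives -/
lemma greedy {W : Type*} [DecidableEq W] : ∀ (k : ℕ) (S : Fin k → Finset W) (U : Finset W),
    (∀ i, U.card + k ≤ (S i).card) → ∃ q : Fin k → W, Function.Injective q ∧
      ∀ i, q i ∈ S i ∧ q i ∉ U := by
  intro k
  induction k with
  | zero =>
    intro S U _
    exact ⟨fun i => i.elim0, fun i => i.elim0, fun i => i.elim0⟩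
  | succ k ih =>
    intro S U h
    have h0 : ∃ x ∈ S 0, x ∉ U :=
      Finset.exists_mem_notMem_of_card_lt_card (by have := h 0; omega)
    obtain ⟨x, hxS, hxU⟩ := h0
    obtain ⟨q, hq, hqS⟩ := ih (fun i => S i.succ) (insert x U) (by
      intro i
      have h1 := h i.succ
      have h2 := Finset.card_insert_le x U
      omega)
    refine ⟨Fin.cons x q, ?_, ?_⟩
    · rw [Fin.cons_injective_iff]
      refine ⟨?_, hq⟩
      rintro ⟨i, hi⟩
      exact (hqS i).2 (by rw [hi]; exact Finset.mem_insert_self _ _)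
    · intro i
      refine Fin.cases ?_ (fun i => ?_) i
      · simp only [Fin.cons_zero]
        exact ⟨hxS, hxU⟩
      · simp only [Fin.cons_succ]
        exact ⟨(hqS i).1, fun hc => (hqS i).2 (Finset.mem_insert_of_mem hc)⟩

variable {V : Type*} [Fintype V] [DecidableEq V] (G : SimpleGraph V) [DecidableRel G.Adj]

/-- common neighbours -/
def cn (v w : V) : Finset V := univ.filter (fun z => G.Adj v z ∧ G.Adj w z)

lemma mem_cn (v w z : V) : z ∈ cn G v w ↔ G.Adj v z ∧ G.Adj w z := by simp [cn]

lemma enum {V : Type*} (I : Finset V) (k : ℕ) (h : I.card = k) :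
    ∃ e : Fin k → V, Function.Injective e ∧ (∀ i, e i ∈ I) ∧ ∀ v ∈ I, ∃ i, e i = v := by
  obtain ⟨e⟩ : Nonempty (Fin k ≃ I) := ⟨(Finset.equivFinOfCardEq h).symm⟩
  refine ⟨fun i => (e i : V), fun i j hij => e.injective (Subtype.ext hij), fun i => (e i).2, ?_⟩
  intro v hv
  exact ⟨e.symm ⟨v, hv⟩, by simp⟩

/-- `k` neighbours of `v`, each with at least `2k` common neighbours with `v`, give a
friendship graph -/
lemma friend_greedy (k : ℕ) (v : V) (I : Finset V) (hI : I.card = k)
    (hIv : ∀ i ∈ I, G.Adj v i) (h : ∀ i ∈ I, 2 * k ≤ (cn G v i).card) :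
    (friendship k).IsContained G := by
  obtain ⟨e, he1, he2, _⟩ := enum I k hI
  obtain ⟨q, hq1, hq2⟩ := greedy k (fun i => cn G v (e i)) I (by
    intro i
    have := h (e i) (he2 i)
    omega)
  exact friend_of G k v e q he1 hq1
    (fun i j hij => (hq2 j).2 (hij ▸ he2 i))
    (fun i => hIv _ (he2 i))
    (fun i => ((mem_cn G _ _ _).1 (hq2 i).1).1)
    (fun i => ((mem_cn G _ _ _).1 (hq2 i).1).2)

/-- the same with `k - 1` such neighbours and one disjoint edge in the neighbourhood -/
lemma friend_greedy' (k : ℕ) (v : V) (I : Finset V) (hI : I.card + 1 = k)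
    (hIv : ∀ i ∈ I, G.Adj v i) (h : ∀ i ∈ I, 2 * k ≤ (cn G v i).card) (t1 t2 : V)
    (h1 : G.Adj v t1) (h2 : G.Adj v t2) (h12 : G.Adj t1 t2) (h1I : t1 ∉ I) (h2I : t2 ∉ I) :
    (friendship k).IsContained G := by
  subst hI
  obtain ⟨e, he1, he2, _⟩ := enum I I.card rfl
  obtain ⟨q, hq1, hq2⟩ := greedy I.card (fun i => cn G v (e i)) (insert t1 (insert t2 I)) (by
    intro i
    have := h (e i) (he2 i)
    have h3 := Finset.card_insert_le t2 I
    have h4 := Finset.card_insert_le t1 (insert t2 I)
    omega)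
  have hq3 : ∀ i, q i ≠ t1 ∧ q i ≠ t2 ∧ q i ∉ I := by
    intro i
    have := (hq2 i).2
    simp only [Finset.mem_insert, not_or] at this
    exact this
  refine friend_of G (I.card + 1) v (Fin.cons t1 e) (Fin.cons t2 q) ?_ ?_ ?_ ?_ ?_ ?_
  · rw [Fin.cons_injective_iff]
    refine ⟨?_, he1⟩
    rintro ⟨i, hi⟩
    exact h1I (hi ▸ he2 i)
  · rw [Fin.cons_injective_iff]
    refine ⟨?_, hq1⟩
    rintro ⟨i, hi⟩
    exact (hq3 i).2.1 hi
  · intro i j
    refine Fin.cases ?_ (fun i => ?_) i <;> refine Fin.cases ?_ (fun j => ?_) j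
    · simpa using h12.ne
    · simpa using (hq3 j).1.symm
    · simp only [Fin.cons_succ, Fin.cons_zero]
      rintro rfl
      exact h2I (he2 i)
    · simp only [Fin.cons_succ]
      intro hij
      exact (hq3 j).2.2 (hij ▸ he2 i)
  · intro i
    refine Fin.cases ?_ (fun i => ?_) i
    · simpa using h1
    · simpa using hIv _ (he2 i)
  · intro i
    refine Fin.cases ?_ (fun i => ?_) i
    · simpa using h2
    · simpa using ((mem_cn G _ _ _).1 (hq2 i).1).1
  · intro i
    refine Fin.cases ?_ (fun i => ?_) i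
    · simpa using h12
    · simpa using ((mem_cn G _ _ _).1 (hq2 i).1).2

/-- either `j` disjoint edges inside `T`, or a small cover of the edges inside `T` -/
lemma matching_or_cover (T : Finset V) : ∀ j : ℕ,
    (∃ a b : Fin j → V, Function.Injective a ∧ Function.Injective b ∧ (∀ i i', a i ≠ b i') ∧
      (∀ i, a i ∈ T) ∧ (∀ i, b i ∈ T) ∧ ∀ i, G.Adj (a i) (b i)) ∨
    ∃ C : Finset V, C.card + 2 ≤ 2 * j ∧ C ⊆ T ∧
      ∀ t1 ∈ T, ∀ t2 ∈ T, G.Adj t1 t2 → t1 ∈ C ∨ t2 ∈ C := by
  intro j
  induction j with
  | zero =>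
    left
    exact ⟨fun i => i.elim0, fun i => i.elim0, fun i => i.elim0, fun i => i.elim0,
      fun i => i.elim0, fun i => i.elim0, fun i => i.elim0, fun i => i.elim0⟩
  | succ j ih =>
    rcases ih with ⟨a, b, ha, hb, hab, haT, hbT, hadj⟩ | ⟨C, hC, hCT, hcov⟩
    · by_cases hcon : ∃ t1 ∈ T, ∃ t2 ∈ T, G.Adj t1 t2 ∧
          t1 ∉ univ.image a ∪ univ.image b ∧ t2 ∉ univ.image a ∪ univ.image b
      · left
        obtain ⟨t1, ht1, t2, ht2, h12, h3, h4⟩ := hcon
        simp only [Finset.mem_union, Finset.mem_image, Finset.mem_univ, true_and, not_or,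
          not_exists] at h3 h4
        refine ⟨Fin.cons t1 a, Fin.cons t2 b, ?_, ?_, ?_, ?_, ?_, ?_⟩
        · rw [Fin.cons_injective_iff]
          exact ⟨by rintro ⟨i, hi⟩; exact h3.1 i hi, ha⟩
        · rw [Fin.cons_injective_iff]
          exact ⟨by rintro ⟨i, hi⟩; exact h4.2 i hi, hb⟩
        · intro i i'
          refine Fin.cases ?_ (fun i => ?_) i <;> refine Fin.cases ?_ (fun i' => ?_) i'
          · simpa using h12.ne
          · simp only [Fin.cons_succ, Fin.cons_zero]
            exact fun h => h3.2 i' h.symm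
          · simp only [Fin.cons_succ, Fin.cons_zero]
            exact fun h => h4.1 i h
          · simpa using hab i i'
        · intro i
          refine Fin.cases ?_ (fun i => ?_) i
          · simpa using ht1
          · simpa using haT i
        · intro i
          refine Fin.cases ?_ (fun i => ?_) i
          · simpa using ht2
          · simpa using hbT i
        · intro i
          refine Fin.cases ?_ (fun i => ?_) i
          · simpa using h12
          · simpa using hadj i
      · right
        refine ⟨univ.image a ∪ univ.image b, ?_, ?_, ?_⟩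
        · have h1 : (univ.image a).card ≤ j := Finset.card_image_le.trans (by simp)
          have h2 : (univ.image b).card ≤ j := Finset.card_image_le.trans (by simp)
          have h3 := Finset.card_union_le (univ.image a) (univ.image b)
          omega
        · intro z hz
          simp only [Finset.mem_union, Finset.mem_image, Finset.mem_univ, true_and] at hz
          rcases hz with ⟨i, rfl⟩ | ⟨i, rfl⟩
          · exact haT i
          · exact hbT i
        · intro t1 h1 t2 h2 h12
          by_contra hcc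
          push Not at hcc
          exact hcon ⟨t1, h1, t2, h2, h12, hcc.1, hcc.2⟩
    · right
      exact ⟨C, by omega, hCT, hcov⟩

end Pool.Agent.Helper951.FrA
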