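import Mathlib
import Pool.Agent.Helper951.Defs
import Pool.Agent.Helper951.FrA
import Pool.Agent.Helper951.Core

set_option autoImplicit false

open Finset

namespace Pool.Agent.Helper951.FanA

open Pool.Agent.Helper951.Defs Pool.Agent.Helper951.FrB Pool.Agent.Helper951.Core

/-- The fan `K_1 ∨ P_{t}` on `t + 1` vertices. -/
def fan (t : ℕ) : SimpleGraph (Fin 1 ⊕ Fin t) :=
  join (⊤ : SimpleGraph (Fin 1)) (SimpleGraph.pathGraph t)

lemma fan_of_list {V : Type*} (G : SimpleGraph V) (t : ℕ) (v : V) (L : List V)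
    (hlen : L.length = t) (hnd : L.Nodup) (hch : L.IsChain G.Adj) (hv : ∀ a ∈ L, G.Adj v a) :
    (fan t).IsContained G := by
  subst hlen
  let f : Fin 1 ⊕ Fin L.length → V := Sum.elim (fun _ => v) (fun i => L.get i)
  have hvi : ∀ i : Fin L.length, G.Adj v (L.get i) := fun i => hv _ (List.get_mem L i)
  have hcons : ∀ i j : Fin L.length, i.val + 1 = j.val → G.Adj (L.get i) (L.get j) := by
    intro i j hij
    have h1 := List.isChain_iff_getElem.1 hch i.val (by omega)
    have h2 : L.get j = L[i.val + 1] := by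
      simp only [List.get_eq_getElem, hij]
    rw [h2]
    exact h1
  have hf : ∀ i j, (fan L.length).Adj i j → G.Adj (f i) (f j) := by
    rintro (i | i) (j | j) h
    · exact absurd (Subsingleton.elim i j) h
    · exact hvi j
    · exact (hvi i).symm
    · have h' : (SimpleGraph.pathGraph L.length).Adj i j := h
      rw [SimpleGraph.pathGraph_adj] at h'
      rcases h' with h' | h'
      · exact hcons i j h'
      · exact (hcons j i h').symm
  have hinj : Function.Injective f := by
    rintro (i | i) (j | j) h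
    · rw [Subsingleton.elim i j]
    · exact absurd h (hvi j).ne
    · exact absurd h.symm (hvi i).ne
    · have := hnd.injective_get h
      rw [this]
  exact ⟨⟨⟨f, fun {i j} h => hf i j h⟩, hinj⟩⟩

/-- interleave two lists -/
def zig {V : Type*} : List V → List V → List V
  | a :: as, b :: bs => a :: b :: zig as bs
  | _, _ => []

lemma zig_length {V : Type*} (as : List V) : ∀ bs : List V, as.length = bs.length →
    (zig as bs).length = 2 * as.length := by
  induction as with
  | nil => intro bs _; simp [zig]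
  | cons a as ih =>
    intro bs h
    cases bs with
    | nil => simp at h
    | cons b bs =>
      simp only [List.length_cons, Nat.add_right_cancel_iff] at h
      simp only [zig, List.length_cons, ih bs h]
      ring

lemma mem_zig {V : Type*} (as : List V) : ∀ (bs : List V) (x : V), x ∈ zig as bs →
    x ∈ as ∨ x ∈ bs := by
  induction as with
  | nil => intro bs x h; simp [zig] at h
  | cons a as ih =>
    intro bs x h
    cases bs with
    | nil => simp [zig] at h
    | cons b bs =>
      simp only [zig, List.mem_cons] at h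
      rcases h with h | h | h
      · left; rw [h]; exact List.mem_cons_self
      · right; rw [h]; exact List.mem_cons_self
      · rcases ih bs x h with h' | h'
        · left; exact List.mem_cons_of_mem _ h'
        · right; exact List.mem_cons_of_mem _ h'

lemma zig_nodup {V : Type*} (as : List V) : ∀ (bs : List V), as.Nodup → bs.Nodup →
    (∀ x ∈ as, x ∉ bs) → (zig as bs).Nodup := by
  induction as with
  | nil => intro bs _ _ _; simp [zig]
  | cons a as ih =>
    intro bs h1 h2 h3
    cases bs with
    | nil => simp [zig]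
    | cons b bs =>
      rw [List.nodup_cons] at h1 h2
      simp only [zig, List.nodup_cons, List.mem_cons, not_or]
      have h4 : a ≠ b ∧ a ∉ bs := by
        have := h3 a List.mem_cons_self
        simpa [List.mem_cons, not_or] using this
      refine ⟨⟨h4.1, ?_⟩, ?_, ?_⟩
      · intro h
        rcases mem_zig as bs a h with h' | h'
        · exact h1.1 h'
        · exact h4.2 h'
      · intro h
        rcases mem_zig as bs b h with h' | h'
        · exact h3 b (List.mem_cons_of_mem _ h') List.mem_cons_self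
        · exact h2.1 h'
      · apply ih bs h1.2 h2.2
        intro x hx hxb
        exact h3 x (List.mem_cons_of_mem _ hx) (List.mem_cons_of_mem _ hxb)

lemma zig_chain {V : Type*} (G : SimpleGraph V) (as : List V) : ∀ (bs : List V) (b0 : V),
    (∀ a ∈ as, G.Adj b0 a) → (∀ a ∈ as, ∀ b ∈ bs, G.Adj a b) →
    (b0 :: zig as bs).IsChain G.Adj := by
  induction as with
  | nil => intro bs b0 _ _; simp [zig]
  | cons a as ih =>
    intro bs b0 h1 h2
    cases bs with
    | nil => simp [zig]
    | cons b bs =>
      simp only [zig, List.isChain_cons_cons]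
      refine ⟨h1 a List.mem_cons_self, h2 a List.mem_cons_self b List.mem_cons_self, ?_⟩
      apply ih bs b
      · intro a' ha'
        exact (h2 a' (List.mem_cons_of_mem _ ha') b List.mem_cons_self).symm
      · intro a' ha' b' hb'
        exact h2 a' (List.mem_cons_of_mem _ ha') b' (List.mem_cons_of_mem _ hb')

variable {V : Type*} [Fintype V] [DecidableEq V] (G : SimpleGraph V) [DecidableRel G.Adj]

/-- (F1): a complete bipartite graph `K_{k,k+1}` in a neighbourhood -/
lemma fan_K (k : ℕ) (v : V) (I J : Finset V) (hI : I.card = k) (hJ : k + 1 ≤ J.card)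
    (hIv : ∀ i ∈ I, G.Adj v i) (hJv : ∀ j ∈ J, G.Adj v j) (hIJ : ∀ i ∈ I, ∀ j ∈ J, G.Adj i j) :
    (fan (2 * k + 1)).IsContained G := by
  obtain ⟨J', hJ'J, hJ'⟩ := Finset.exists_subset_card_eq hJ
  have hne : J'.Nonempty := Finset.card_pos.1 (by omega)
  obtain ⟨b0, hb0⟩ := hne
  apply fan_of_list G (2 * k + 1) v (b0 :: zig I.toList (J'.erase b0).toList)
  · rw [List.length_cons, zig_length, Finset.length_toList, hI]
    rw [Finset.length_toList, Finset.length_toList, Finset.card_erase_of_mem hb0, hI, hJ']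
    rfl
  · rw [List.nodup_cons]
    constructor
    · intro h
      rcases mem_zig _ _ _ h with h' | h'
      · rw [Finset.mem_toList] at h'
        exact (hIJ b0 h' b0 (hJ'J hb0)).ne rfl
      · rw [Finset.mem_toList] at h'
        exact (Finset.notMem_erase b0 J') h'
    · apply zig_nodup _ _ (Finset.nodup_toList _) (Finset.nodup_toList _)
      intro x hx hx'
      rw [Finset.mem_toList] at hx hx'
      exact (hIJ x hx x (hJ'J (Finset.mem_of_mem_erase hx'))).ne rfl
  · apply zig_chain
    · intro a ha
      rw [Finset.mem_toList] at ha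
      exact (hIJ a ha b0 (hJ'J hb0)).symm
    · intro a ha b hb
      rw [Finset.mem_toList] at ha hb
      exact hIJ a ha b (hJ'J (Finset.mem_of_mem_erase hb))
  · intro a ha
    rw [List.mem_cons] at ha
    rcases ha with rfl | ha
    · exact hJv _ (hJ'J hb0)
    · rcases mem_zig _ _ _ ha with h' | h'
      · rw [Finset.mem_toList] at h'
        exact hIv _ h'
      · rw [Finset.mem_toList] at h'
        exact hJv _ (hJ'J (Finset.mem_of_mem_erase h'))

/-- (F3): `S` with `k - 1` vertices, complete to a set `J`, plus a path `t' t t''` with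
`t', t''` in `J` -/
lemma fan_path (k : ℕ) (v : V) (I J : Finset V) (hI : I.card + 1 = k) (hJ : k + 2 ≤ J.card)
    (hIv : ∀ i ∈ I, G.Adj v i) (hJv : ∀ j ∈ J, G.Adj v j) (hIJ : ∀ i ∈ I, ∀ j ∈ J, G.Adj i j)
    (t t' t'' : V) (ht' : t' ∈ J) (ht'' : t'' ∈ J) (hne : t' ≠ t'') (h1 : G.Adj t t')
    (h2 : G.Adj t t'') (htv : G.Adj v t) (htI : t ∉ I) :
    (fan (2 * k + 1)).IsContained G := by
  have hcard : I.card ≤ (((J.erase t').erase t'').erase t).card := by
    have h3 := Finset.card_erase_of_mem ht'
    have h4 : t'' ∈ J.erase t' := Finset.mem_erase.2 ⟨hne.symm, ht''⟩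
    have h5 := Finset.card_erase_of_mem h4
    have h6 := Finset.pred_card_le_card_erase (s := (J.erase t').erase t'') (a := t)
    omega
  obtain ⟨J', hJ'J, hJ'⟩ := Finset.exists_subset_card_eq hcard
  have hJ'' : ∀ j ∈ J', j ∈ J ∧ j ≠ t' ∧ j ≠ t'' ∧ j ≠ t := by
    intro j hj
    have h3 := hJ'J hj
    simp only [Finset.mem_erase] at h3
    exact ⟨h3.2.2.2, h3.2.2.1, h3.2.1, h3.1⟩
  have hIJ' : ∀ i ∈ I, i ∉ J := fun i hi hj => (hIJ i hi i hj).ne rfl
  apply fan_of_list G (2 * k + 1) v (t'' :: t :: t' :: zig I.toList J'.toList)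
  · rw [List.length_cons, List.length_cons, List.length_cons, zig_length, Finset.length_toList]
    · omega
    · rw [Finset.length_toList, Finset.length_toList, hJ']
  · simp only [List.nodup_cons, List.mem_cons, not_or]
    have hz : ∀ a, a ∈ zig I.toList J'.toList → a ∈ I ∨ a ∈ J' := by
      intro a ha
      rcases mem_zig _ _ _ ha with h' | h'
      · left; rwa [Finset.mem_toList] at h'
      · right; rwa [Finset.mem_toList] at h'
    refine ⟨⟨h2.ne', hne.symm, ?_⟩, ⟨h1.ne, ?_⟩, ?_, ?_⟩
    · intro h
      rcases hz _ h with h' | h'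
      · exact hIJ' _ h' ht''
      · exact (hJ'' _ h').2.2.1 rfl
    · intro h
      rcases hz _ h with h' | h'
      · exact htI h'
      · exact (hJ'' _ h').2.2.2 rfl
    · intro h
      rcases hz _ h with h' | h'
      · exact hIJ' _ h' ht'
      · exact (hJ'' _ h').2.1 rfl
    · apply zig_nodup _ _ (Finset.nodup_toList _) (Finset.nodup_toList _)
      intro x hx hx'
      rw [Finset.mem_toList] at hx hx'
      exact hIJ' x hx (hJ'' x hx').1
  · rw [List.isChain_cons_cons, List.isChain_cons_cons]
    refine ⟨h2.symm, h1, ?_⟩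
    apply zig_chain
    · intro a ha
      rw [Finset.mem_toList] at ha
      exact (hIJ a ha t' ht').symm
    · intro a ha b hb
      rw [Finset.mem_toList] at ha hb
      exact hIJ a ha b (hJ'' b hb).1
  · intro a ha
    simp only [List.mem_cons] at ha
    rcases ha with rfl | rfl | rfl | ha
    · exact hJv _ ht''
    · exact htv
    · exact hJv _ ht'
    · rcases mem_zig _ _ _ ha with h' | h'
      · rw [Finset.mem_toList] at h'
        exact hIv _ h'
      · rw [Finset.mem_toList] at h'
        exact hJv _ (hJ'' _ h').1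

/-- (F2): `I` with `k - 1` vertices, complete to a set `J` containing two disjoint edges -/
lemma fan_two (k : ℕ) (v : V) (I J : Finset V) (hI : I.card + 1 = k) (hI1 : 1 ≤ I.card)
    (hJ : k + 2 ≤ J.card)
    (hIv : ∀ i ∈ I, G.Adj v i) (hJv : ∀ j ∈ J, G.Adj v j) (hIJ : ∀ i ∈ I, ∀ j ∈ J, G.Adj i j)
    (p p' q q' : V) (hp : p ∈ J) (hp' : p' ∈ J) (hq : q ∈ J) (hq' : q' ∈ J)
    (hpp : G.Adj p p') (hqq : G.Adj q q') (h1 : p ≠ q) (h2 : p ≠ q') (h3 : p' ≠ q)
    (h4 : p' ≠ q') :
    (fan (2 * k + 1)).IsContained G := by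
  obtain ⟨a1, ha1⟩ := Finset.card_pos.1 (by omega : 0 < I.card)
  have hcard : (I.erase a1).card ≤ ((((J.erase p).erase p').erase q).erase q').card := by
    have e1 := Finset.card_erase_of_mem ha1
    have h5 := Finset.pred_card_le_card_erase (s := J) (a := p)
    have h6 := Finset.pred_card_le_card_erase (s := J.erase p) (a := p')
    have h7 := Finset.pred_card_le_card_erase (s := (J.erase p).erase p') (a := q)
    have h8 := Finset.pred_card_le_card_erase (s := ((J.erase p).erase p').erase q) (a := q')
    omega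
  obtain ⟨J', hJ'J, hJ'⟩ := Finset.exists_subset_card_eq hcard
  have hJ'' : ∀ j ∈ J', j ∈ J ∧ j ≠ p ∧ j ≠ p' ∧ j ≠ q ∧ j ≠ q' := by
    intro j hj
    have h3 := hJ'J hj
    simp only [Finset.mem_erase] at h3
    exact ⟨h3.2.2.2.2, h3.2.2.2.1, h3.2.2.1, h3.2.1, h3.1⟩
  have hIJ' : ∀ i ∈ I, i ∉ J := fun i hi hj => (hIJ i hi i hj).ne rfl
  have hz : ∀ a, a ∈ zig (I.erase a1).toList J'.toList → (a ∈ I ∧ a ≠ a1) ∨ a ∈ J' := by
    intro a ha
    rcases mem_zig _ _ _ ha with h' | h'
    · left
      rw [Finset.mem_toList, Finset.mem_erase] at h'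
      exact ⟨h'.2, h'.1⟩
    · right; rwa [Finset.mem_toList] at h'
  apply fan_of_list G (2 * k + 1) v (p' :: p :: a1 :: q :: q' ::
    zig (I.erase a1).toList J'.toList)
  · simp only [List.length_cons]
    rw [zig_length, Finset.length_toList, Finset.card_erase_of_mem ha1]
    · omega
    · rw [Finset.length_toList, Finset.length_toList, hJ']
  · simp only [List.nodup_cons, List.mem_cons, not_or]
    have n1 : ∀ j ∈ J, j ∉ I := fun j hj hi => hIJ' j hi hj
    have n2 : ∀ j ∈ J, a1 ≠ j := fun j hj h => n1 j hj (h ▸ ha1)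
    refine ⟨⟨hpp.ne', (n2 p' hp').symm, h3, h4, ?_⟩, ⟨(n2 p hp).symm, h1, h2, ?_⟩,
      ⟨n2 q hq, n2 q' hq', ?_⟩, ⟨hqq.ne, ?_⟩, ?_, ?_⟩
    · intro h
      rcases hz _ h with h' | h'
      · exact n1 _ hp' h'.1
      · exact (hJ'' _ h').2.2.1 rfl
    · intro h
      rcases hz _ h with h' | h'
      · exact n1 _ hp h'.1
      · exact (hJ'' _ h').2.1 rfl
    · intro h
      rcases hz _ h with h' | h'
      · exact h'.2 rfl
      · exact hIJ' _ ha1 (hJ'' _ h').1
    · intro h
      rcases hz _ h with h' | h'
      · exact n1 _ hq h'.1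
      · exact (hJ'' _ h').2.2.2.1 rfl
    · intro h
      rcases hz _ h with h' | h'
      · exact n1 _ hq' h'.1
      · exact (hJ'' _ h').2.2.2.2 rfl
    · apply zig_nodup _ _ (Finset.nodup_toList _) (Finset.nodup_toList _)
      intro x hx hx'
      rw [Finset.mem_toList] at hx hx'
      exact hIJ' x (Finset.mem_of_mem_erase hx) (hJ'' x hx').1
  · simp only [List.isChain_cons_cons]
    refine ⟨hpp.symm, (hIJ a1 ha1 p hp).symm, hIJ a1 ha1 q hq, hqq, ?_⟩
    apply zig_chain
    · intro a ha
      rw [Finset.mem_toList] at ha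
      exact (hIJ a (Finset.mem_of_mem_erase ha) q' hq').symm
    · intro a ha b hb
      rw [Finset.mem_toList] at ha hb
      exact hIJ a (Finset.mem_of_mem_erase ha) b (hJ'' b hb).1
  · intro a ha
    simp only [List.mem_cons] at ha
    rcases ha with rfl | rfl | rfl | rfl | rfl | ha
    · exact hJv _ hp'
    · exact hJv _ hp
    · exact hIv _ ha1
    · exact hJv _ hq
    · exact hJv _ hq'
    · rcases hz _ ha with h' | h'
      · exact hIv _ h'.1
      · exact hJv _ (hJ'' _ h').1

/-- long paths from large minimum degree -/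
lemma path_of_degree (X : Finset V) (d : ℕ) (hX : X.Nonempty)
    (hdeg : ∀ v ∈ X, d ≤ (X.filter (G.Adj v)).card) : ∀ j : ℕ, j ≤ d →
    ∃ L : List V, L.length = j + 1 ∧ L.Nodup ∧ L.IsChain G.Adj ∧ ∀ a ∈ L, a ∈ X := by
  intro j
  induction j with
  | zero =>
    intro _
    obtain ⟨v, hv⟩ := hX
    exact ⟨[v], rfl, by simp, by simp, by simpa using hv⟩
  | succ j ih =>
    intro hj
    obtain ⟨L, hlen, hnd, hch, hmem⟩ := ih (by omega)
    cases L with
    | nil => simp at hlen
    | cons a L =>
      have ha : a ∈ X := hmem a List.mem_cons_self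
      have h1 : ∃ b ∈ X.filter (G.Adj a), b ∉ L.toFinset := by
        apply Finset.exists_mem_notMem_of_card_lt_card
        have h2 := List.toFinset_card_le L
        have h3 := hdeg a ha
        simp only [List.length_cons] at hlen
        omega
      obtain ⟨b, hb, hbL⟩ := h1
      rw [Finset.mem_filter] at hb
      rw [List.mem_toFinset] at hbL
      refine ⟨b :: a :: L, ?_, ?_, ?_, ?_⟩
      · simp only [List.length_cons] at hlen ⊢
        omega
      · rw [List.nodup_cons, List.mem_cons, not_or]
        exact ⟨⟨hb.2.ne', hbL⟩, hnd⟩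
      · rw [List.isChain_cons_cons]
        exact ⟨hb.2.symm, hch⟩
      · intro c hc
        rw [List.mem_cons] at hc
        rcases hc with rfl | hc
        · exact hb.1
        · exact hmem c hc

/-- every nonempty set in a neighbourhood has a vertex of small degree inside -/
lemma exists_low (k : ℕ) (u : V) (hfree : ¬ (fan (2 * k + 1)).IsContained G) (X : Finset V)
    (hX : X.Nonempty) (hXu : ∀ v ∈ X, G.Adj u v) :
    ∃ v ∈ X, (X.filter (G.Adj v)).card < 2 * k := by
  by_contra hcon
  push Not at hcon
  obtain ⟨L, hlen, hnd, hch, hmem⟩ := path_of_degree G X (2 * k) hX hcon (2 * k) le_rfl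
  exact hfree (fan_of_list G _ u L hlen hnd hch (fun a ha => hXu a (hmem a ha)))

/-- weighted sparsity of neighbourhoods -/
lemma sparse (k : ℕ) (u : V) (hfree : ¬ (fan (2 * k + 1)).IsContained G) (g : V → ℝ)
    (hg : ∀ v, 0 ≤ g v) : ∀ (n : ℕ) (X : Finset V), X.card = n → (∀ v ∈ X, G.Adj u v) →
    ∑ v ∈ X, ∑ w ∈ X, ad G v w * min (g v) (g w) ≤ 4 * (k : ℝ) * ∑ v ∈ X, g v := by
  intro n
  induction n with
  | zero =>
    intro X hX _
    rw [Finset.card_eq_zero] at hX
    subst hX
    simp
  | succ n ih =>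
    intro X hX hXu
    have hne : X.Nonempty := Finset.card_pos.1 (by omega)
    obtain ⟨v, hv, hlow⟩ := exists_low G k u hfree X hne hXu
    have h1 := ih (X.erase v) (by rw [Finset.card_erase_of_mem hv, hX]; rfl)
      (fun w hw => hXu w (Finset.mem_of_mem_erase hw))
    have h2 : ∑ w ∈ X, ad G v w * min (g v) (g w) ≤ 2 * (k : ℝ) * g v := by
      calc ∑ w ∈ X, ad G v w * min (g v) (g w) ≤ ∑ w ∈ X, ad G v w * g v :=
            Finset.sum_le_sum (fun w _ => mul_le_mul_of_nonneg_left (min_le_left _ _)
              (ad_nonneg G v w))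
        _ = ((X.filter (G.Adj v)).card : ℝ) * g v := by
            rw [← Finset.sum_mul]
            congr 1
            unfold ad
            rw [Finset.sum_boole]
        _ ≤ 2 * (k : ℝ) * g v := by
            apply mul_le_mul_of_nonneg_right _ (hg v)
            exact_mod_cast hlow.le
    have h3 : ∑ a ∈ X, ∑ w ∈ X, ad G a w * min (g a) (g w) =
        ∑ a ∈ X.erase v, ∑ w ∈ X.erase v, ad G a w * min (g a) (g w) +
        2 * ∑ w ∈ X, ad G v w * min (g v) (g w) := by
      rw [← Finset.add_sum_erase X _ hv]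
      have h4 : ∀ a ∈ X.erase v, ∑ w ∈ X, ad G a w * min (g a) (g w) =
          ad G a v * min (g a) (g v) + ∑ w ∈ X.erase v, ad G a w * min (g a) (g w) :=
        fun a _ => (Finset.add_sum_erase X _ hv).symm
      rw [Finset.sum_congr rfl h4, Finset.sum_add_distrib]
      have h5 : ∑ a ∈ X.erase v, ad G a v * min (g a) (g v) =
          ∑ w ∈ X, ad G v w * min (g v) (g w) := by
        rw [← Finset.add_sum_erase X _ hv, ad_self, zero_mul, zero_add]
        exact Finset.sum_congr rfl (fun a _ => by rw [ad_symm, min_comm])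
      rw [h5]
      ring
    rw [h3, ← Finset.add_sum_erase X g hv]
    have h6 : ∑ a ∈ X.erase v, ∑ w ∈ X.erase v, ad G a w * min (g a) (g w) ≤
      4 * (k : ℝ) * ∑ a ∈ X.erase v, g a := h1
    linarith

end Pool.Agent.Helper951.FanA
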