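import Mathlib
import Pool.Agent.Helper951.Core

set_option autoImplicit false

open Finset

namespace Pool.Agent.Helper951.FanB

open Pool.Agent.Helper951.FrB Pool.Agent.Helper951.Core

variable {V : Type*} [Fintype V] [DecidableEq V] {G : SimpleGraph V} [DecidableRel G.Adj]
variable {lam : ℝ} {x : V → ℝ} {u : V}

lemma ad_sq (v w : V) : ad G v w * ad G v w = ad G v w := by
  unfold ad; split_ifs <;> norm_num

lemma cauchy (A B : Finset V) :
    (∑ v ∈ A, ∑ w ∈ B, ad G v w * (x v * x w)) ^ 2 ≤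
      EE G A B * ((∑ v ∈ A, x v ^ 2) * ∑ w ∈ B, x w ^ 2) := by
  have h1 := Finset.sum_mul_sq_le_sq_mul_sq (A ×ˢ B) (fun p => ad G p.1 p.2)
    (fun p => x p.1 * x p.2)
  rw [Finset.sum_product, Finset.sum_product, Finset.sum_product] at h1
  have h2 : ∑ v ∈ A, ∑ w ∈ B, ad G v w ^ 2 = EE G A B := by
    unfold EE
    exact Finset.sum_congr rfl (fun v _ => Finset.sum_congr rfl (fun w _ => by
      rw [sq, ad_sq]))
  have h3 : ∑ v ∈ A, ∑ w ∈ B, (x v * x w) ^ 2 ≤ (∑ v ∈ A, x v ^ 2) * ∑ w ∈ B, x w ^ 2 := by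
    rw [Finset.sum_mul_sum]
    exact le_of_eq (Finset.sum_congr rfl (fun v _ => Finset.sum_congr rfl (fun w _ => by ring)))
  rw [h2] at h1
  exact h1.trans (mul_le_mul_of_nonneg_left h3 (EE_nonneg A B))

/-- the partition inequality -/
lemma dagger (h : Sit G lam x u) (A : Finset V) (N c : ℝ) (hN : N = ∑ v, x v ^ 2)
    (hc : c = 4 * lam / N) :
    lam ^ 2 - EE G univ univ / 2 ≤
      (∑ v ∈ A, ∑ w ∈ A, ad G v w * (c * (x v * x w) - 1) +
        ∑ v ∈ Aᶜ, ∑ w ∈ Aᶜ, ad G v w * (c * (x v * x w) - 1)) / 2 := by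
  have hNpos : 0 < N := by
    rw [hN]
    refine Finset.sum_pos' (fun v _ => sq_nonneg _) ⟨u, mem_univ _, ?_⟩
    rw [h.xu]; norm_num
  set sA := ∑ v ∈ A, x v ^ 2 with hsA
  set sB := ∑ v ∈ Aᶜ, x v ^ 2 with hsB
  have hs : sA + sB = N := by rw [hN, hsA, hsB, Finset.sum_add_sum_compl]
  set IA := ∑ v ∈ A, ∑ w ∈ A, ad G v w * (x v * x w) with hIA
  set IB := ∑ v ∈ Aᶜ, ∑ w ∈ Aᶜ, ad G v w * (x v * x w) with hIB
  set X := ∑ v ∈ A, ∑ w ∈ Aᶜ, ad G v w * (x v * x w) with hX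
  have hX' : ∑ v ∈ Aᶜ, ∑ w ∈ A, ad G v w * (x v * x w) = X := by
    rw [hX, Finset.sum_comm]
    exact Finset.sum_congr rfl (fun v _ => Finset.sum_congr rfl (fun w _ => by
      rw [ad_symm]; ring))
  have htot : lam * N = IA + IB + 2 * X := by
    have h1 : lam * N = ∑ v, ∑ w, ad G v w * (x v * x w) := by
      rw [hN, Finset.mul_sum]
      apply Finset.sum_congr rfl
      intro v _
      have h2 := h.ev v
      calc lam * x v ^ 2 = x v * (lam * x v) := by ring
        _ = x v * ∑ w, ad G v w * x w := by rw [h2]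
        _ = ∑ w, ad G v w * (x v * x w) := by
            rw [Finset.mul_sum]
            exact Finset.sum_congr rfl (fun w _ => by ring)
    have h3 : ∀ v, ∑ w, ad G v w * (x v * x w) =
        ∑ w ∈ A, ad G v w * (x v * x w) + ∑ w ∈ Aᶜ, ad G v w * (x v * x w) :=
      fun v => (Finset.sum_add_sum_compl A _).symm
    rw [h1, ← Finset.sum_add_sum_compl A]
    simp only [h3, Finset.sum_add_distrib]
    rw [hX']
    ring
  have hE : EE G univ univ = EE G A A + EE G Aᶜ Aᶜ + 2 * EE G A Aᶜ := by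
    have hsp : ∀ C : Finset V, EE G C univ = EE G C A + EE G C Aᶜ := by
      intro C
      unfold EE
      rw [← Finset.sum_add_distrib]
      exact Finset.sum_congr rfl (fun v _ => (Finset.sum_add_sum_compl A _).symm)
    have h1 : EE G univ univ = EE G A univ + EE G Aᶜ univ := by
      unfold EE
      rw [Finset.sum_add_sum_compl A]
    rw [h1, hsp, hsp, EE_comm Aᶜ A]
    ring
  have hcs := cauchy (G := G) (x := x) A Aᶜ
  rw [← hX, ← hsA, ← hsB] at hcs
  have hAB : sA * sB ≤ N ^ 2 / 4 := by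
    rw [← hs]
    nlinarith [sq_nonneg (sA - sB)]
  have h4 : 4 * X ^ 2 ≤ EE G A Aᶜ * N ^ 2 := by
    have := mul_le_mul_of_nonneg_left hAB (EE_nonneg (G := G) A Aᶜ)
    linarith
  have h5 : (lam * N - (IA + IB)) ^ 2 ≤ EE G A Aᶜ * N ^ 2 := by
    have : lam * N - (IA + IB) = 2 * X := by linarith
    rw [this]
    linarith
  have hsum : ∀ C : Finset V, ∑ v ∈ C, ∑ w ∈ C, ad G v w * (c * (x v * x w) - 1) =
      c * (∑ v ∈ C, ∑ w ∈ C, ad G v w * (x v * x w)) - EE G C C := by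
    intro C
    unfold EE
    rw [Finset.mul_sum, ← Finset.sum_sub_distrib]
    apply Finset.sum_congr rfl
    intro v _
    rw [Finset.mul_sum, ← Finset.sum_sub_distrib]
    exact Finset.sum_congr rfl (fun w _ => by ring)
  rw [hsum, hsum, ← hIA, ← hIB]
  have h6 : EE G A Aᶜ = EE G univ univ / 2 - (EE G A A + EE G Aᶜ Aᶜ) / 2 := by linarith
  rw [h6] at h5
  have h7 : c * N = 4 * lam := by rw [hc]; field_simp
  have h8 : (lam ^ 2 - EE G univ univ / 2) * N ^ 2 ≤
      ((c * IA - EE G A A + (c * IB - EE G Aᶜ Aᶜ)) / 2) * N ^ 2 := by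
    have h9 : ((c * IA - EE G A A + (c * IB - EE G Aᶜ Aᶜ)) / 2) * N ^ 2 =
        ((c * N) * N * (IA + IB) - (EE G A A + EE G Aᶜ Aᶜ) * N ^ 2) / 2 := by ring
    rw [h9, h7]
    nlinarith [sq_nonneg (IA + IB)]
  exact le_of_mul_le_mul_right h8 (by positivity)

end Pool.Agent.Helper951.FanB
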