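import Mathlib
import Pool.Agent.Helper951.FanA
import Pool.Agent.Helper951.FanB

set_option autoImplicit false

open Finset

namespace Pool.Agent.Helper951.FanC

open Pool.Agent.Helper951.FrB Pool.Agent.Helper951.Core Pool.Agent.Helper951.FanA
open Pool.Agent.Helper951.FanB

variable {V : Type*} [Fintype V] [DecidableEq V]

/-- the standing assumptions -/
structure Bal (G : SimpleGraph V) [DecidableRel G.Adj] (k : ℕ) (K lam : ℝ) (x : V → ℝ) (u : V) :
    Prop where
  sit : Sit G lam x u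
  hk : 2 ≤ k
  hK : K = k
  free : ¬ (fan (2 * k + 1)).IsContained G
  low : (K - 1) * lam - K ^ 2 ≤ lam ^ 2 - EE G univ univ / 2
  big : 10 ^ 50 * K ^ 50 ≤ lam

/-- neighbours of `u` -/
def UU (G : SimpleGraph V) [DecidableRel G.Adj] (u : V) : Finset V := rst G u ∅

/-- weight of the non-neighbours in `UU` -/
noncomputable def MM (G : SimpleGraph V) [DecidableRel G.Adj] (x : V → ℝ) (u v : V) : ℝ :=
  ∑ w ∈ UU G u, (1 - ad G v w) * x w

open Classical in
/-- vertices outside the neighbourhood missing little of it -/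
noncomputable def ZZ (G : SimpleGraph V) [DecidableRel G.Adj] (x : V → ℝ) (u : V) (d : ℝ) :
    Finset V := (far G u).filter (fun v => MM G x u v ≤ d)

variable {G : SimpleGraph V} [DecidableRel G.Adj]
variable {k : ℕ} {K lam : ℝ} {x : V → ℝ} {u : V}

lemma mem_UU (w : V) : w ∈ UU G u ↔ G.Adj u w := by simp [UU, mem_rst]

lemma mem_ZZ (d : ℝ) (v : V) : v ∈ ZZ G x u d ↔ (v ≠ u ∧ ¬ G.Adj u v) ∧ MM G x u v ≤ d := by
  simp [ZZ, mem_far]

namespace Bal

lemma K2 (b : Bal G k K lam x u) : 2 ≤ K := by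
  rw [b.hK]; exact_mod_cast b.hk

lemma pw (b : Bal G k K lam x u) (j : ℕ) (hj : j ≤ 50) : 10 ^ 50 * K ^ j ≤ lam := by
  have h1 : K ^ j ≤ K ^ 50 := pow_le_pow_right₀ (by linarith [b.K2]) hj
  have h2 := b.big
  nlinarith

lemma lpos (b : Bal G k K lam x u) : 0 < lam := by
  have := b.pw 0 (by norm_num)
  linarith

lemma sumU (b : Bal G k K lam x u) : ∑ w ∈ UU G u, x w = lam := by
  have := sum_U b.sit ∅ (by simp)
  simpa [UU] using this

lemma rowsplit (b : Bal G k K lam x u) (v : V) : lam * x v = ad G v u +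
    ∑ w ∈ UU G u, ad G v w * x w + ∑ w ∈ far G u, ad G v w * x w := by
  rw [← b.sit.ev v, split (G := G) (u := u) ∅ (by simp) (fun w => ad G v w * x w), b.sit.xu,
    mul_one]
  simp [UU]

lemma star0 (b : Bal G k K lam x u) : lam ^ 2 - EE G univ univ / 2 =
    (XX G x (UU G u) (UU G u) - EE G (UU G u) (UU G u) / 2)
      - q2 G x (far G u) (UU G u) - EE G (far G u) (far G u) / 2 := by
  have := Pool.Agent.Helper951.FrB.star (G := G) b.sit ∅ (by simp)
  have e1 : XX G x ∅ ∅ = 0 := by simp [XX]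
  have e2 : EE G ∅ ∅ = 0 := by simp [EE]
  have e3 : q1 G x ∅ (rst G u ∅) = 0 := by simp [q1]
  have e4 : q2 G x ∅ (rst G u ∅) = 0 := by simp [q2]
  have e5 : q2 G x (far G u) ∅ = 0 := by simp [q2]
  rw [e1, e2, e3, e4, e5] at this
  simp only [Finset.card_empty, Nat.cast_zero] at this
  unfold UU
  linarith

lemma half_sum (X : Finset V) : XX G x X X - EE G X X / 2 =
    (∑ v ∈ X, ∑ w ∈ X, ad G v w * (x v + x w - 1)) / 2 := by
  have h1 : XX G x X X = ∑ v ∈ X, ∑ w ∈ X, ad G v w * x v := by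
    unfold XX
    rw [Finset.sum_comm]
    exact Finset.sum_congr rfl (fun v _ => Finset.sum_congr rfl (fun w _ => by rw [ad_symm]))
  have h2 : ∑ v ∈ X, ∑ w ∈ X, ad G v w * (x v + x w - 1) =
      ∑ v ∈ X, ∑ w ∈ X, ad G v w * x v + XX G x X X - EE G X X := by
    unfold XX EE
    rw [← Finset.sum_add_distrib, ← Finset.sum_sub_distrib]
    apply Finset.sum_congr rfl
    intro v _
    rw [← Finset.sum_add_distrib, ← Finset.sum_sub_distrib]
    exact Finset.sum_congr rfl (fun w _ => by ring)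
  rw [h2, ← h1]
  ring

lemma Fh_le (b : Bal G k K lam x u) :
    XX G x (UU G u) (UU G u) - EE G (UU G u) (UU G u) / 2 ≤ 2 * K * lam := by
  rw [half_sum]
  have h1 := sparse G k u b.free x b.sit.x0 _ (UU G u) rfl (fun v hv => (mem_UU v).1 hv)
  have h2 : ∑ v ∈ UU G u, ∑ w ∈ UU G u, ad G v w * (x v + x w - 1) ≤
      ∑ v ∈ UU G u, ∑ w ∈ UU G u, ad G v w * min (x v) (x w) := by
    apply Finset.sum_le_sum
    intro v _
    apply Finset.sum_le_sum
    intro w _
    apply mul_le_mul_of_nonneg_left _ (ad_nonneg G v w)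
    have h3 := b.sit.x1 v
    have h4 := b.sit.x1 w
    exact le_min (by linarith) (by linarith)
  rw [b.sumU, ← b.hK] at h1
  linarith

/-- the total cost -/
lemma cost (b : Bal G k K lam x u) :
    ∑ v ∈ far G u, (dg G (UU G u) v * (1 - x v) + dg G (far G u) v / 2) ≤ 2 * K * lam := by
  have h1 := b.star0
  have h2 := b.Fh_le
  have h3 := b.low
  have h4 : ∑ v ∈ far G u, (dg G (UU G u) v * (1 - x v) + dg G (far G u) v / 2) =
      q2 G x (far G u) (UU G u) + EE G (far G u) (far G u) / 2 := by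
    rw [Finset.sum_add_distrib, q2_dg, EE_eq, Finset.sum_div]
  rw [h4]
  have h5 : K ^ 2 ≤ (K - 1) * lam := by
    have h6 := b.K2
    have h7 := b.pw 2 (by norm_num)
    have h8 : 1 * lam ≤ (K - 1) * lam := mul_le_mul_of_nonneg_right (by linarith) b.lpos.le
    have h9 : 0 ≤ K ^ 2 := by positivity
    linarith
  linarith

lemma MM_eq (b : Bal G k K lam x u) (v : V) :
    MM G x u v = lam - ∑ w ∈ UU G u, ad G v w * x w := by
  unfold MM
  rw [← b.sumU, ← Finset.sum_sub_distrib]
  exact Finset.sum_congr rfl (fun t _ => by ring)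

lemma MM_nonneg (b : Bal G k K lam x u) (v : V) : 0 ≤ MM G x u v :=
  Finset.sum_nonneg (fun w _ => mul_nonneg (by have := ad_le_one G v w; linarith) (b.sit.x0 w))

lemma sum_ad_le (b : Bal G k K lam x u) (A : Finset V) (v : V) :
    ∑ w ∈ A, ad G v w * x w ≤ dg G A v :=
  Finset.sum_le_sum (fun w _ => mul_le_of_le_one_right (ad_nonneg G v w) (b.sit.x1 w))

lemma sum_ad_nonneg (b : Bal G k K lam x u) (A : Finset V) (v : V) :
    0 ≤ ∑ w ∈ A, ad G v w * x w :=
  Finset.sum_nonneg (fun w _ => mul_nonneg (ad_nonneg G v w) (b.sit.x0 w))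

lemma far_row (b : Bal G k K lam x u) (v : V) (hv : v ∈ far G u) :
    lam * (1 - x v) ≤ MM G x u v ∧ MM G x u v ≤ lam * (1 - x v) + dg G (far G u) v ∧
    lam * x v ≤ dg G (UU G u) v + dg G (far G u) v := by
  have h1 := b.rowsplit v
  rw [ad_not G v u (fun h' => ((mem_far v).1 hv).2 h'.symm)] at h1
  have h2 := b.MM_eq v
  have h3 := b.sum_ad_le (far G u) v
  have h4 := b.sum_ad_nonneg (far G u) v
  have h5 := b.sum_ad_le (UU G u) v
  refine ⟨by linarith, by linarith, by linarith⟩

/-- the weight of the far vertices outside `ZZ` is bounded -/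
lemma wt_rest (b : Bal G k K lam x u) :
    ∑ v ∈ far G u \ ZZ G x u (lam / (4 * K)), x v ≤ 32 * K ^ 2 := by
  have hK := b.K2
  have hl := b.lpos
  have h1 : ∀ v ∈ far G u \ ZZ G x u (lam / (4 * K)),
      lam / (16 * K) * x v ≤ dg G (UU G u) v * (1 - x v) + dg G (far G u) v / 2 := by
    intro v hv
    rw [Finset.mem_sdiff, mem_ZZ] at hv
    have hvf := hv.1
    have hM : lam / (4 * K) < MM G x u v := by
      by_contra hcon
      push Not at hcon
      exact hv.2 ⟨(mem_far v).1 hvf, hcon⟩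
    obtain ⟨h2, h3, h4⟩ := b.far_row v hvf
    have h5 := dg_nonneg (G := G) (UU G u) v
    have h6 := dg_nonneg (G := G) (far G u) v
    have h7 := b.sit.x1 v
    have h8 := b.sit.x0 v
    have e1 : lam / (4 * K) = 4 * (lam / (16 * K)) := by field_simp; norm_num
    rw [e1] at hM
    set t := lam / (16 * K) with ht
    have ht0 : 0 < t := by rw [ht]; positivity
    have htl : t * (16 * K) = lam := by rw [ht]; field_simp
    by_cases hc : 2 * t ≤ dg G (far G u) v
    · have h9 : 0 ≤ dg G (UU G u) v * (1 - x v) := mul_nonneg h5 (by linarith)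
      have h10 : t * x v ≤ t * 1 := mul_le_mul_of_nonneg_left h7 ht0.le
      linarith
    · push Not at hc
      -- lam (1 - x v) ≥ 2 t
      have h9 : 2 * t ≤ lam * (1 - x v) := by linarith
      -- 1 - x v ≥ 1 / (8K)
      have h10 : 1 / (8 * K) ≤ 1 - x v := by
        rw [div_le_iff₀ (by positivity)]
        have h11 : 2 * t ≤ t * (16 * K) * (1 - x v) := by rw [htl]; exact h9
        have h12 : t * 2 ≤ t * (16 * K * (1 - x v)) := by linarith
        have h13 := le_of_mul_le_mul_left h12 ht0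
        linarith
      have h14 : dg G (UU G u) v * (1 / (8 * K)) ≤ dg G (UU G u) v * (1 - x v) :=
        mul_le_mul_of_nonneg_left h10 h5
      have h15 : dg G (far G u) v * (1 / (8 * K)) ≤ dg G (far G u) v / 2 := by
        have : 1 / (8 * K) ≤ 1 / 2 := by
          apply one_div_le_one_div_of_le <;> linarith
        have := mul_le_mul_of_nonneg_left this h6
        linarith
      have h16 : t * x v ≤ (1 / (8 * K)) * (lam * x v) := by
        have e2 : (1 / (8 * K)) * (lam * x v) = 2 * (t * x v) := by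
          rw [← htl]; field_simp; ring
        rw [e2]
        have : 0 ≤ t * x v := mul_nonneg ht0.le h8
        linarith
      have h17 : (1 / (8 * K)) * (lam * x v) ≤
          (1 / (8 * K)) * (dg G (UU G u) v + dg G (far G u) v) :=
        mul_le_mul_of_nonneg_left h4 (by positivity)
      linarith
  have h2 : ∑ v ∈ far G u \ ZZ G x u (lam / (4 * K)), lam / (16 * K) * x v ≤ 2 * K * lam := by
    refine (Finset.sum_le_sum h1).trans ?_
    refine le_trans ?_ b.cost
    apply Finset.sum_le_sum_of_subset_of_nonneg Finset.sdiff_subset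
    intro v hv _
    have h5 := dg_nonneg (G := G) (UU G u) v
    have h6 := dg_nonneg (G := G) (far G u) v
    have h7 := b.sit.x1 v
    have : 0 ≤ dg G (UU G u) v * (1 - x v) := mul_nonneg h5 (by linarith)
    linarith
  rw [← Finset.mul_sum] at h2
  have h3 : lam * ∑ v ∈ far G u \ ZZ G x u (lam / (4 * K)), x v ≤ lam * (32 * K ^ 2) := by
    have e1 : lam / (16 * K) * ∑ v ∈ far G u \ ZZ G x u (lam / (4 * K)), x v =
      (lam * ∑ v ∈ far G u \ ZZ G x u (lam / (4 * K)), x v) / (16 * K) := by ring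
    rw [e1, div_le_iff₀ (by positivity)] at h2
    linarith
  exact le_of_mul_le_mul_left h3 hl

lemma ZZ_far (d : ℝ) : ZZ G x u d ⊆ far G u := by
  intro v hv
  rw [mem_ZZ] at hv
  exact (mem_far v).2 hv.1

/-- the total missing weight and deficiency of `ZZ` -/
lemma ZZ_sums (b : Bal G k K lam x u) :
    ∑ v ∈ ZZ G x u (lam / (4 * K)), MM G x u v ≤ 4 * K * lam ∧
    ∑ v ∈ ZZ G x u (lam / (4 * K)), (1 - x v) ≤ 4 * K ∧
    ∀ v ∈ ZZ G x u (lam / (4 * K)), lam / 2 ≤ ∑ w ∈ UU G u, ad G v w * x w := by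
  have hK := b.K2
  have hl := b.lpos
  have h0 : lam / (4 * K) ≤ lam / 2 := by
    apply div_le_div_of_nonneg_left hl.le (by norm_num)
    linarith
  have hU : ∀ v ∈ ZZ G x u (lam / (4 * K)), lam / 2 ≤ ∑ w ∈ UU G u, ad G v w * x w := by
    intro v hv
    rw [mem_ZZ] at hv
    have := b.MM_eq v
    linarith [hv.2]
  have h1 : ∀ v ∈ ZZ G x u (lam / (4 * K)),
      lam * (1 - x v) / 2 + dg G (far G u) v / 2 ≤
        dg G (UU G u) v * (1 - x v) + dg G (far G u) v / 2 := by
    intro v hv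
    have h2 := hU v hv
    have h3 := b.sum_ad_le (UU G u) v
    have h4 : lam / 2 * (1 - x v) ≤ dg G (UU G u) v * (1 - x v) :=
      mul_le_mul_of_nonneg_right (by linarith) (by have := b.sit.x1 v; linarith)
    linarith
  have h2 : ∑ v ∈ ZZ G x u (lam / (4 * K)), (lam * (1 - x v) / 2 + dg G (far G u) v / 2) ≤
      2 * K * lam := by
    refine (Finset.sum_le_sum h1).trans ?_
    refine le_trans ?_ b.cost
    apply Finset.sum_le_sum_of_subset_of_nonneg (ZZ_far _)
    intro v hv _
    have h5 := dg_nonneg (G := G) (UU G u) v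
    have h6 := dg_nonneg (G := G) (far G u) v
    have h7 := b.sit.x1 v
    have : 0 ≤ dg G (UU G u) v * (1 - x v) := mul_nonneg h5 (by linarith)
    linarith
  refine ⟨?_, ?_, hU⟩
  · have h3 : ∑ v ∈ ZZ G x u (lam / (4 * K)), MM G x u v ≤
        ∑ v ∈ ZZ G x u (lam / (4 * K)), 2 * (lam * (1 - x v) / 2 + dg G (far G u) v / 2) := by
      apply Finset.sum_le_sum
      intro v hv
      have := (b.far_row v (ZZ_far _ hv)).2.1
      linarith
    rw [← Finset.mul_sum] at h3
    linarith
  · have h3 : ∑ v ∈ ZZ G x u (lam / (4 * K)), (lam / 2) * (1 - x v) ≤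
        ∑ v ∈ ZZ G x u (lam / (4 * K)), (lam * (1 - x v) / 2 + dg G (far G u) v / 2) := by
      apply Finset.sum_le_sum
      intro v hv
      have := dg_nonneg (G := G) (far G u) v
      linarith
    rw [← Finset.mul_sum] at h3
    have h4 : lam * ∑ v ∈ ZZ G x u (lam / (4 * K)), (1 - x v) ≤ lam * (4 * K) := by linarith
    exact le_of_mul_le_mul_left h4 hl

end Bal

end Pool.Agent.Helper951.FanC
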