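import Mathlib
import Pool.Agent.Helper951.FanC

set_option autoImplicit false

open Finset

namespace Pool.Agent.Helper951.FanD

open Pool.Agent.Helper951.FrB Pool.Agent.Helper951.Core Pool.Agent.Helper951.FanA
open Pool.Agent.Helper951.FanB Pool.Agent.Helper951.FanC

variable {V : Type*} [Fintype V] [DecidableEq V]
variable {G : SimpleGraph V} [DecidableRel G.Adj]
variable {k : ℕ} {K lam : ℝ} {x : V → ℝ} {u : V}

/-- many common neighbours of a set -/
lemma common_card (I X : Finset V) (g : V → ℝ) (hg0 : ∀ v, 0 ≤ g v) (hg1 : ∀ v, g v ≤ 1) :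
    ∑ z ∈ X, g z - ∑ i ∈ I, ∑ z ∈ X, (1 - ad G i z) * g z ≤
      ((X.filter (fun z => ∀ i ∈ I, G.Adj i z)).card : ℝ) := by
  have h2 : ((X.filter (fun z => ∀ i ∈ I, G.Adj i z)).card : ℝ) =
      ∑ z ∈ X, (if ∀ i ∈ I, G.Adj i z then (1 : ℝ) else 0) := by
    rw [Finset.sum_boole]
  rw [h2, Finset.sum_comm, ← Finset.sum_sub_distrib]
  apply Finset.sum_le_sum
  intro z _
  have h0 := hg0 z
  have h1 := hg1 z
  have hnn : ∀ i ∈ I, 0 ≤ (1 - ad G i z) * g z := fun i _ =>
    mul_nonneg (by have := ad_le_one G i z; linarith) h0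
  split_ifs with h
  · have := Finset.sum_nonneg hnn
    linarith
  · push Not at h
    obtain ⟨i, hi, hna⟩ := h
    have h3 := Finset.single_le_sum hnn hi
    rw [ad_not G _ _ hna] at h3
    linarith

/-- missing vertices of `Z` -/
noncomputable def mis (G : SimpleGraph V) [DecidableRel G.Adj] (Z : Finset V) (w : V) : ℝ :=
  ∑ z ∈ Z, (1 - ad G z w)

omit [Fintype V] in
lemma mis_eq (Z : Finset V) (w : V) : mis G Z w = Z.card - dg G Z w := by
  unfold mis dg
  rw [Finset.sum_sub_distrib, Finset.sum_const, nsmul_eq_mul, mul_one]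
  congr 1
  exact Finset.sum_congr rfl (fun z _ => ad_symm G _ _)

omit [Fintype V] [DecidableEq V] in
lemma mis_nonneg (Z : Finset V) (w : V) : 0 ≤ mis G Z w :=
  Finset.sum_nonneg (fun z _ => by have := ad_le_one G z w; linarith)

/-- standing assumptions in the balanced case -/
structure Rich (G : SimpleGraph V) [DecidableRel G.Adj] (k : ℕ) (K lam : ℝ) (x : V → ℝ) (u : V)
    (Z : Finset V) : Prop where
  b : Bal G k K lam x u
  hZ : Z = ZZ G x u (lam / (4 * K))
  hZc : lam / (8 * K) ≤ Z.card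

open Classical in
/-- typical neighbours of `u` -/
noncomputable def Ut (G : SimpleGraph V) [DecidableRel G.Adj] (u : V) (Z : Finset V) (D : ℝ) :
    Finset V := (UU G u).filter (fun w => mis G Z w ≤ D)

lemma mem_Ut (Z : Finset V) (D : ℝ) (w : V) : w ∈ Ut G u Z D ↔ G.Adj u w ∧ mis G Z w ≤ D := by
  simp [Ut, mem_UU]

namespace Rich

variable {Z : Finset V}

/-- existence from a rich vertex -/
lemma of_rich (b : Bal G k K lam x u) (w1 : V)
    (hw : lam / (4 * K) ≤ ∑ v ∈ far G u, ad G w1 v * x v) :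
    Rich G k K lam x u (ZZ G x u (lam / (4 * K))) := by
  refine ⟨b, rfl, ?_⟩
  have hK := b.K2
  have h1 := b.wt_rest
  set Z := ZZ G x u (lam / (4 * K)) with hZ
  have h2 : ∑ v ∈ far G u, ad G w1 v * x v =
      ∑ v ∈ far G u \ Z, ad G w1 v * x v + ∑ v ∈ Z, ad G w1 v * x v := by
    rw [Finset.sum_sdiff (Bal.ZZ_far (G := G) (x := x) (u := u) _)]
  have h3 : ∑ v ∈ far G u \ Z, ad G w1 v * x v ≤ ∑ v ∈ far G u \ Z, x v :=
    Finset.sum_le_sum (fun v _ => mul_le_of_le_one_left (b.sit.x0 v) (ad_le_one G _ _))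
  have h4 : ∑ v ∈ Z, ad G w1 v * x v ≤ Z.card := by
    calc ∑ v ∈ Z, ad G w1 v * x v ≤ ∑ v ∈ Z, (1:ℝ) :=
          Finset.sum_le_sum (fun v _ => mul_le_one₀ (ad_le_one G _ _) (b.sit.x0 v) (b.sit.x1 v))
      _ = Z.card := by simp
  have h5 : lam / (4 * K) = lam / (8 * K) + lam / (8 * K) := by field_simp; ring
  have h6 : 32 * K ^ 2 ≤ lam / (8 * K) := by
    rw [le_div_iff₀ (by positivity)]
    have := b.pw 3 (by norm_num)
    have h7 : 0 ≤ K ^ 3 := by positivity
    nlinarith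
  linarith

lemma hK (r : Rich G k K lam x u Z) : 2 ≤ K := r.b.K2

lemma sumMM (r : Rich G k K lam x u Z) : ∑ v ∈ Z, MM G x u v ≤ 4 * K * lam := by
  rw [r.hZ]; exact r.b.ZZ_sums.1

lemma sum1 (r : Rich G k K lam x u Z) : ∑ v ∈ Z, (1 - x v) ≤ 4 * K := by
  rw [r.hZ]; exact r.b.ZZ_sums.2.1

lemma mm_le (r : Rich G k K lam x u Z) (z : V) (hz : z ∈ Z) : MM G x u z ≤ lam / (4 * K) := by
  rw [r.hZ, mem_ZZ] at hz
  exact hz.2

lemma z_far (r : Rich G k K lam x u Z) (z : V) (hz : z ∈ Z) : z ≠ u ∧ ¬ G.Adj u z := by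
  rw [r.hZ, mem_ZZ] at hz
  exact hz.1

/-- `|Z|` is at most the square sum plus a constant -/
lemma card_le_sq (r : Rich G k K lam x u Z) : (Z.card : ℝ) ≤ ∑ v ∈ Z, x v ^ 2 + 8 * K := by
  have h1 : ∑ v ∈ Z, (1 - 2 * (1 - x v)) ≤ ∑ v ∈ Z, x v ^ 2 :=
    Finset.sum_le_sum (fun v _ => by nlinarith [sq_nonneg (1 - x v)])
  rw [Finset.sum_sub_distrib, Finset.sum_const, nsmul_eq_mul, mul_one, ← Finset.mul_sum] at h1
  have := r.sum1
  linarith

lemma half8 (r : Rich G k K lam x u Z) : lam / (8 * K) = lam / (16 * K) + lam / (16 * K) := by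
  have := r.hK
  field_simp
  ring

lemma small (r : Rich G k K lam x u Z) (t : ℝ) (ht : t ≤ 10 ^ 40 * K ^ 40) :
    t ≤ lam / (64 * K) := by
  have hK := r.hK
  rw [le_div_iff₀ (by positivity)]
  have h1 := r.b.pw 41 (by norm_num)
  have h2 : t * (64 * K) ≤ 10 ^ 40 * K ^ 40 * (64 * K) :=
    mul_le_mul_of_nonneg_right ht (by positivity)
  have h3 : 0 ≤ K ^ 41 := by positivity
  have h4 : 10 ^ 40 * K ^ 40 * (64 * K) = 64 * 10 ^ 40 * K ^ 41 := by ring
  rw [h4] at h2
  norm_num at h1 h2 ⊢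
  linarith

lemma N_ge (r : Rich G k K lam x u Z) : lam / (16 * K) ≤ ∑ v, x v ^ 2 := by
  have h1 := r.card_le_sq
  have h2 : ∑ v ∈ Z, x v ^ 2 ≤ ∑ v, x v ^ 2 :=
    Finset.sum_le_sum_of_subset_of_nonneg (Finset.subset_univ _) (fun v _ _ => sq_nonneg _)
  have h3 := r.hZc
  have h4 := r.half8
  have h5 : 8 * K ≤ lam / (64 * K) := by
    apply r.small
    have hK := r.hK
    have : K ≤ K ^ 40 := by
      calc K = K ^ 1 := (pow_one K).symm
        _ ≤ K ^ 40 := pow_le_pow_right₀ (by linarith) (by norm_num)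
    have h6 : 0 ≤ K ^ 40 := by positivity
    linarith
  have h6 : lam / (64 * K) ≤ lam / (16 * K) := by
    have hK := r.hK
    apply div_le_div_of_nonneg_left r.b.lpos.le (by positivity)
    linarith
  linarith

lemma mis_sum (r : Rich G k K lam x u Z) : ∑ w ∈ UU G u, x w * mis G Z w ≤ 4 * K * lam := by
  refine le_trans (le_of_eq ?_) r.sumMM
  unfold mis MM
  simp only [Finset.mul_sum]
  rw [Finset.sum_comm]
  exact Finset.sum_congr rfl (fun z _ => Finset.sum_congr rfl (fun w _ => by ring))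

/-- counting vertices with a large entry and many missing vertices -/
lemma count (r : Rich G k K lam x u Z) (S : Finset V) (hS : ∀ w ∈ S, G.Adj u w) (a m : ℝ)
    (ha : 0 ≤ a) (hm : 0 ≤ m) (h : ∀ w ∈ S, a ≤ x w ∧ m ≤ mis G Z w) :
    (S.card : ℝ) * (a * m) ≤ 4 * K * lam := by
  refine le_trans ?_ r.mis_sum
  have h1 : (S.card : ℝ) * (a * m) = ∑ w ∈ S, a * m := by
    rw [Finset.sum_const, nsmul_eq_mul]
  rw [h1]
  have h2 : ∑ w ∈ S, a * m ≤ ∑ w ∈ S, x w * mis G Z w :=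
    Finset.sum_le_sum (fun w hw => mul_le_mul (h w hw).1 (h w hw).2 hm (r.b.sit.x0 w))
  refine h2.trans ?_
  apply Finset.sum_le_sum_of_subset_of_nonneg
  · intro w hw
    exact (mem_UU w).2 (hS w hw)
  · intro w _ _
    exact mul_nonneg (r.b.sit.x0 w) (mis_nonneg Z w)

lemma wt_Ut (r : Rich G k K lam x u Z) (D : ℝ) (hD : 0 < D) :
    D * ∑ w ∈ UU G u \ Ut G u Z D, x w ≤ 4 * K * lam := by
  refine le_trans ?_ r.mis_sum
  rw [Finset.mul_sum]
  have h2 : ∑ w ∈ UU G u \ Ut G u Z D, D * x w ≤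
      ∑ w ∈ UU G u \ Ut G u Z D, x w * mis G Z w := by
    apply Finset.sum_le_sum
    intro w hw
    rw [Finset.mem_sdiff, mem_UU, mem_Ut, not_and] at hw
    have h3 := hw.2 hw.1
    push Not at h3
    have := mul_le_mul_of_nonneg_left h3.le (r.b.sit.x0 w)
    linarith
  refine h2.trans ?_
  apply Finset.sum_le_sum_of_subset_of_nonneg Finset.sdiff_subset
  intro w _ _
  exact mul_nonneg (r.b.sit.x0 w) (mis_nonneg Z w)

/-- entries of typical vertices -/
lemma Ut_x (r : Rich G k K lam x u Z) (D : ℝ) (hD : D ≤ lam / (64 * K)) (w : V)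
    (hw : w ∈ Ut G u Z D) : 1 / (16 * K) ≤ x w := by
  have hK := r.hK
  rw [mem_Ut] at hw
  have h1 := r.b.rowsplit w
  have h2 : ∑ z ∈ Z, ad G w z * x z ≤ ∑ z ∈ far G u, ad G w z * x z := by
    apply Finset.sum_le_sum_of_subset_of_nonneg
    · rw [r.hZ]; exact Bal.ZZ_far _
    · intro z _ _
      exact mul_nonneg (ad_nonneg G _ _) (r.b.sit.x0 z)
  have h3 : dg G Z w - ∑ z ∈ Z, (1 - x z) ≤ ∑ z ∈ Z, ad G w z * x z := by
    unfold dg
    rw [← Finset.sum_sub_distrib]
    apply Finset.sum_le_sum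
    intro z _
    have h4 := ad_le_one G w z
    have h5 := r.b.sit.x1 z
    nlinarith
  have h4 := r.sum1
  have h5 := mis_eq (G := G) Z w
  have h6 := r.b.sum_ad_nonneg (UU G u) w
  have h7 := ad_nonneg G w u
  have h8 := r.hZc
  have h9 := r.half8
  have h10 : 4 * K ≤ lam / (64 * K) := by
    apply r.small
    have : K ≤ K ^ 40 := by
      calc K = K ^ 1 := (pow_one K).symm
        _ ≤ K ^ 40 := pow_le_pow_right₀ (by linarith) (by norm_num)
    have h6 : 0 ≤ K ^ 40 := by positivity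
    linarith
  have h11 : lam / (64 * K) = lam / (16 * K) / 4 := by field_simp; ring
  have h12 : lam / (16 * K) ≤ lam * x w := by
    rw [h11] at hD h10
    have : 0 < lam / (16 * K) := div_pos r.b.lpos (by positivity)
    linarith [hw.2]
  have h13 : lam * (1 / (16 * K)) ≤ lam * x w := by
    have : lam * (1 / (16 * K)) = lam / (16 * K) := by ring
    linarith
  exact le_of_mul_le_mul_left h13 r.b.lpos

/-- the dichotomy -/
lemma dich (r : Rich G k K lam x u Z) (D : ℝ) (v : V)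
    (hv : k ≤ ((Ut G u Z D).filter (G.Adj v)).card) : dg G Z v ≤ K * D + K := by
  by_contra hcon
  push Not at hcon
  obtain ⟨I, hI, hIc⟩ := Finset.exists_subset_card_eq hv
  have hI' : ∀ i ∈ I, i ∈ Ut G u Z D ∧ G.Adj v i := fun i hi => Finset.mem_filter.1 (hI hi)
  have hvI : v ∉ I := fun h => (hI' v h).2.ne rfl
  have h1 := common_card (G := G) (insert v I) Z (fun _ => 1) (fun _ => zero_le_one)
    (fun _ => le_rfl)
  rw [Finset.sum_insert hvI] at h1
  simp only [mul_one, Finset.sum_const, nsmul_eq_mul] at h1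
  have h2 : ∑ z ∈ Z, (1 - ad G v z) = Z.card - dg G Z v := by
    rw [Finset.sum_sub_distrib, Finset.sum_const, nsmul_eq_mul, mul_one]; rfl
  have h3 : ∑ i ∈ I, ∑ z ∈ Z, (1 - ad G i z) ≤ K * D := by
    have h4 : ∑ i ∈ I, ∑ z ∈ Z, (1 - ad G i z) ≤ ∑ i ∈ I, D := by
      apply Finset.sum_le_sum
      intro i hi
      have h5 := ((mem_Ut Z D i).1 (hI' i hi).1).2
      unfold mis at h5
      refine le_trans (le_of_eq ?_) h5
      exact Finset.sum_congr rfl (fun z _ => by rw [ad_symm])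
    rw [Finset.sum_const, nsmul_eq_mul, hIc, ← r.b.hK] at h4
    exact h4
  rw [h2] at h1
  have h6 : (k : ℝ) < ((Z.filter (fun z => ∀ i ∈ insert v I, G.Adj i z)).card : ℝ) := by
    rw [← r.b.hK]; linarith
  have h7 : k + 1 ≤ (Z.filter (fun z => ∀ i ∈ insert v I, G.Adj i z)).card := by
    have : k < (Z.filter (fun z => ∀ i ∈ insert v I, G.Adj i z)).card := by exact_mod_cast h6
    omega
  apply r.b.free
  apply fan_K G k v I _ hIc h7 (fun i hi => (hI' i hi).2)
  · intro j hj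
    exact (Finset.mem_filter.1 hj).2 v (Finset.mem_insert_self _ _)
  · intro i hi j hj
    exact (Finset.mem_filter.1 hj).2 i (Finset.mem_insert_of_mem hi)

/-- typical vertices have few typical neighbours -/
lemma Ut_deg (r : Rich G k K lam x u Z) (D : ℝ) (hD : K * D + K + D < lam / (8 * K)) (w : V)
    (hw : w ∈ Ut G u Z D) : ((Ut G u Z D).filter (G.Adj w)).card < k := by
  by_contra hcon
  push Not at hcon
  have h1 := r.dich D w hcon
  have h2 := mis_eq (G := G) Z w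
  have h3 := ((mem_Ut Z D w).1 hw).2
  have h4 := r.hZc
  linarith

/-- vertices of `Z` have many typical neighbours -/
lemma Z_deg (r : Rich G k K lam x u Z) (D : ℝ) (hD : 16 * K ≤ D) (z : V) (hz : z ∈ Z) :
    k ≤ ((Ut G u Z D).filter (G.Adj z)).card := by
  have hK := r.hK
  have hl := r.b.lpos
  have h1 := r.mm_le z hz
  have h2 := r.b.MM_eq z
  have h3 := r.wt_Ut D (by linarith)
  have hsub : Ut G u Z D ⊆ UU G u := by
    intro w hw
    rw [mem_Ut] at hw
    exact (mem_UU w).2 hw.1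
  have h4 : ∑ w ∈ UU G u, ad G z w * x w =
      ∑ w ∈ UU G u \ Ut G u Z D, ad G z w * x w + ∑ w ∈ Ut G u Z D, ad G z w * x w := by
    rw [Finset.sum_sdiff hsub]
  have h5 : ∑ w ∈ UU G u \ Ut G u Z D, ad G z w * x w ≤ ∑ w ∈ UU G u \ Ut G u Z D, x w :=
    Finset.sum_le_sum (fun v _ => mul_le_of_le_one_left (r.b.sit.x0 v) (ad_le_one G _ _))
  have h6 : ∑ w ∈ UU G u \ Ut G u Z D, x w ≤ lam / 4 := by
    have h7 : 0 ≤ ∑ w ∈ UU G u \ Ut G u Z D, x w :=
      Finset.sum_nonneg (fun v _ => r.b.sit.x0 v)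
    have h8 : 16 * K * ∑ w ∈ UU G u \ Ut G u Z D, x w ≤ 4 * K * lam :=
      (mul_le_mul_of_nonneg_right hD h7).trans h3
    have h9 : (16 * K) * ∑ w ∈ UU G u \ Ut G u Z D, x w ≤ (16 * K) * (lam / 4) := by linarith
    exact le_of_mul_le_mul_left h9 (by linarith)
  have h7 : ∑ w ∈ Ut G u Z D, ad G z w * x w ≤ (((Ut G u Z D).filter (G.Adj z)).card : ℝ) := by
    calc ∑ w ∈ Ut G u Z D, ad G z w * x w ≤ ∑ w ∈ Ut G u Z D, ad G z w :=
          Finset.sum_le_sum (fun v _ => mul_le_of_le_one_right (ad_nonneg G _ _) (r.b.sit.x1 v))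
      _ = (((Ut G u Z D).filter (G.Adj z)).card : ℝ) := by
          unfold ad; rw [Finset.sum_boole]
  have h8 : lam / (4 * K) ≤ lam / 4 := by
    apply div_le_div_of_nonneg_left hl.le (by norm_num)
    linarith
  have h9 : K ≤ lam / 4 := by
    have := r.b.pw 1 (by norm_num)
    rw [pow_one] at this
    linarith
  have h10 : (k : ℝ) ≤ (((Ut G u Z D).filter (G.Adj z)).card : ℝ) := by
    rw [← r.b.hK]; linarith
  exact_mod_cast h10

/-- vertices of `Z` have few neighbours in `Z` -/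
lemma Z_Z (r : Rich G k K lam x u Z) (z : V) (hz : z ∈ Z) : (Z.filter (G.Adj z)).card < k := by
  by_contra hcon
  push Not at hcon
  have hK := r.hK
  have hl := r.b.lpos
  obtain ⟨I, hI, hIc⟩ := Finset.exists_subset_card_eq hcon
  have hI' : ∀ i ∈ I, i ∈ Z ∧ G.Adj z i := fun i hi => Finset.mem_filter.1 (hI hi)
  have hzI : z ∉ I := fun h => (hI' z h).2.ne rfl
  have h1 := common_card (G := G) (insert z I) (UU G u) x r.b.sit.x0 r.b.sit.x1
  rw [Finset.sum_insert hzI, r.b.sumU] at h1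
  have h2 : ∑ w ∈ UU G u, (1 - ad G z w) * x w ≤ lam / (4 * K) := r.mm_le z hz
  have h3 : ∑ i ∈ I, ∑ w ∈ UU G u, (1 - ad G i w) * x w ≤ lam / 4 := by
    have h4 : ∑ i ∈ I, ∑ w ∈ UU G u, (1 - ad G i w) * x w ≤ ∑ i ∈ I, lam / (4 * K) :=
      Finset.sum_le_sum (fun i hi => r.mm_le i (hI' i hi).1)
    rw [Finset.sum_const, nsmul_eq_mul, hIc, ← r.b.hK] at h4
    have h5 : K * (lam / (4 * K)) = lam / 4 := by field_simp
    linarith
  have h8 : lam / (4 * K) ≤ lam / 4 := by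
    apply div_le_div_of_nonneg_left hl.le (by norm_num)
    linarith
  have h9 : K + 1 ≤ lam / 2 := by
    have := r.b.pw 1 (by norm_num)
    rw [pow_one] at this
    linarith
  have h10 : ((k + 1 : ℕ) : ℝ) ≤
      (((UU G u).filter (fun w => ∀ i ∈ insert z I, G.Adj i w)).card : ℝ) := by
    push_cast
    rw [← r.b.hK]; linarith
  have h11 : k + 1 ≤ ((UU G u).filter (fun w => ∀ i ∈ insert z I, G.Adj i w)).card := by
    exact_mod_cast h10
  apply r.b.free
  apply fan_K G k z I _ hIc h11 (fun i hi => (hI' i hi).2)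
  · intro j hj
    exact (Finset.mem_filter.1 hj).2 z (Finset.mem_insert_self _ _)
  · intro i hi j hj
    exact (Finset.mem_filter.1 hj).2 i (Finset.mem_insert_of_mem hi)

end Rich

end Pool.Agent.Helper951.FanD
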