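import Mathlib
import Pool.Agent.Helper951.FanD

set_option autoImplicit false

open Finset

namespace Pool.Agent.Helper951.FanE

open Pool.Agent.Helper951.FrB Pool.Agent.Helper951.Core Pool.Agent.Helper951.FanA
open Pool.Agent.Helper951.FanB Pool.Agent.Helper951.FanC Pool.Agent.Helper951.FanD

variable {V : Type*} [Fintype V] [DecidableEq V]
variable {G : SimpleGraph V} [DecidableRel G.Adj]
variable {k : ℕ} {K lam : ℝ} {x : V → ℝ} {u : V} {Z : Finset V}

/-- the side of `Z` -/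
noncomputable def AA (G : SimpleGraph V) [DecidableRel G.Adj] (k : ℕ) (u : V) (Z : Finset V)
    (D : ℝ) : Finset V := univ.filter (fun v => k ≤ ((Ut G u Z D).filter (G.Adj v)).card)

lemma mem_AA (D : ℝ) (v : V) :
    v ∈ AA G k u Z D ↔ k ≤ ((Ut G u Z D).filter (G.Adj v)).card := by simp [AA]

/-- positive part of the weight of an internal edge -/
noncomputable def ph (c : ℝ) (x : V → ℝ) (v w : V) : ℝ := max (c * (x v * x w) - 1) 0

/-- final parameters -/
structure Par (G : SimpleGraph V) [DecidableRel G.Adj] (k : ℕ) (K lam : ℝ) (x : V → ℝ) (u : V)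
    (Z : Finset V) (D c N : ℝ) : Prop where
  r : Rich G k K lam x u Z
  hD : D = 10 ^ 12 * K ^ 10
  hN : N = ∑ v, x v ^ 2
  hc : c = 4 * lam / N

namespace Par

variable {D c N : ℝ}

lemma K2 (p : Par G k K lam x u Z D c N) : 2 ≤ K := p.r.hK

lemma lpos (p : Par G k K lam x u Z D c N) : 0 < lam := p.r.b.lpos

lemma Kpow (p : Par G k K lam x u Z D c N) (i j : ℕ) (h : i ≤ j) : K ^ i ≤ K ^ j :=
  pow_le_pow_right₀ (by linarith [p.K2]) h

lemma Npos (p : Par G k K lam x u Z D c N) : 0 < N := by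
  have h := p.r.N_ge
  rw [← p.hN] at h
  have hK := p.K2
  have : 0 < lam / (16 * K) := div_pos p.lpos (by linarith)
  linarith

lemma cpos (p : Par G k K lam x u Z D c N) : 0 < c := by
  rw [p.hc]
  exact div_pos (by linarith [p.lpos]) p.Npos

lemma c_le (p : Par G k K lam x u Z D c N) : c ≤ 64 * K := by
  have h := p.r.N_ge
  rw [← p.hN] at h
  have hK := p.K2
  rw [p.hc, div_le_iff₀ p.Npos]
  rw [div_le_iff₀ (by linarith)] at h
  linarith

lemma cN (p : Par G k K lam x u Z D c N) : c * N = 4 * lam := by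
  have := p.Npos
  rw [p.hc]; field_simp

lemma Dpos (p : Par G k K lam x u Z D c N) : 0 < D := by
  rw [p.hD]
  have := p.K2
  positivity

lemma D_small (p : Par G k K lam x u Z D c N) : D ≤ lam / (64 * K) := by
  apply p.r.small
  rw [p.hD]
  have h := p.Kpow 10 40 (by norm_num)
  have h2 : 0 ≤ K ^ 10 := by have := p.K2; positivity
  nlinarith

lemma KD_small (p : Par G k K lam x u Z D c N) : K * D + K + D ≤ lam / (64 * K) := by
  apply p.r.small
  rw [p.hD]
  have hK := p.K2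
  have h1 := p.Kpow 11 40 (by norm_num)
  have h2 := p.Kpow 1 40 (by norm_num)
  have h3 := p.Kpow 10 40 (by norm_num)
  have h4 : 0 ≤ K ^ 40 := by positivity
  have e1 : K * (10 ^ 12 * K ^ 10) = 10 ^ 12 * K ^ 11 := by ring
  rw [e1]
  rw [pow_one] at h2
  nlinarith

lemma l64 (p : Par G k K lam x u Z D c N) :
    lam / (8 * K) = 8 * (lam / (64 * K)) ∧ lam / (16 * K) = 4 * (lam / (64 * K)) ∧
      0 < lam / (64 * K) := by
  have hK := p.K2
  have hl := p.lpos
  refine ⟨by field_simp; ring, by field_simp; ring, by positivity⟩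

lemma D_ge (p : Par G k K lam x u Z D c N) : 16 * K ≤ D := by
  rw [p.hD]
  have hK := p.K2
  have h2 := p.Kpow 1 10 (by norm_num)
  rw [pow_one] at h2
  have : 0 ≤ K ^ 10 := by positivity
  nlinarith

lemma Ut_AA (p : Par G k K lam x u Z D c N) (w : V) (hw : w ∈ Ut G u Z D) :
    w ∉ AA G k u Z D := by
  rw [mem_AA, not_le]
  apply p.r.Ut_deg D _ w hw
  have h1 := p.KD_small
  obtain ⟨h2, h3, h4⟩ := p.l64
  linarith

lemma Z_AA (p : Par G k K lam x u Z D c N) (z : V) (hz : z ∈ Z) : z ∈ AA G k u Z D := by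
  rw [mem_AA]
  exact p.r.Z_deg D p.D_ge z hz

lemma AA_Z (p : Par G k K lam x u Z D c N) (v : V) (hv : v ∈ AA G k u Z D) :
    dg G Z v ≤ K * D + K := by
  rw [mem_AA] at hv
  exact p.r.dich D v hv

lemma u_AA (p : Par G k K lam x u Z D c N) : u ∈ AA G k u Z D := by
  rw [mem_AA]
  have hK := p.K2
  have hl := p.lpos
  have h3 := p.r.wt_Ut D p.Dpos
  have hsub : Ut G u Z D ⊆ UU G u := by
    intro w hw
    rw [mem_Ut] at hw
    exact (mem_UU w).2 hw.1
  have h4 : ∑ w ∈ UU G u, x w = ∑ w ∈ UU G u \ Ut G u Z D, x w + ∑ w ∈ Ut G u Z D, x w := by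
    rw [Finset.sum_sdiff hsub]
  rw [p.r.b.sumU] at h4
  have h6 : ∑ w ∈ UU G u \ Ut G u Z D, x w ≤ lam / 4 := by
    have h7 : 0 ≤ ∑ w ∈ UU G u \ Ut G u Z D, x w :=
      Finset.sum_nonneg (fun v _ => p.r.b.sit.x0 v)
    have h8 : 16 * K * ∑ w ∈ UU G u \ Ut G u Z D, x w ≤ 4 * K * lam :=
      (mul_le_mul_of_nonneg_right p.D_ge h7).trans h3
    have h9 : (16 * K) * ∑ w ∈ UU G u \ Ut G u Z D, x w ≤ (16 * K) * (lam / 4) := by linarith
    exact le_of_mul_le_mul_left h9 (by linarith)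
  have h7 : ∑ w ∈ Ut G u Z D, x w ≤ (((Ut G u Z D).filter (G.Adj u)).card : ℝ) := by
    have e1 : (Ut G u Z D).filter (G.Adj u) = Ut G u Z D := by
      apply Finset.filter_true_of_mem
      intro w hw
      exact ((mem_Ut Z D w).1 hw).1
    rw [e1]
    calc ∑ w ∈ Ut G u Z D, x w ≤ ∑ w ∈ Ut G u Z D, (1:ℝ) :=
          Finset.sum_le_sum (fun v _ => p.r.b.sit.x1 v)
      _ = ((Ut G u Z D).card : ℝ) := by simp
  have h9 : K ≤ lam / 4 := by
    have := p.r.b.pw 1 (by norm_num)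
    rw [pow_one] at this
    linarith
  have h10 : (k : ℝ) ≤ (((Ut G u Z D).filter (G.Adj u)).card : ℝ) := by
    rw [← p.r.b.hK]; linarith
  exact_mod_cast h10

lemma ph_nonneg (v w : V) : 0 ≤ ph c x v w := le_max_right _ _

lemma ph_le (p : Par G k K lam x u Z D c N) (v w : V) : ph c x v w ≤ c := by
  unfold ph
  apply max_le _ p.cpos.le
  have h1 : x v * x w ≤ 1 := mul_le_one₀ (p.r.b.sit.x1 v) (p.r.b.sit.x0 w) (p.r.b.sit.x1 w)
  have h2 := mul_le_mul_of_nonneg_left h1 p.cpos.le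
  linarith

lemma ph_zero (p : Par G k K lam x u Z D c N) (v w : V) (hv : c * x v < 1) :
    ph c x v w = 0 := by
  unfold ph
  apply max_eq_right
  have h1 : x v * x w ≤ x v := mul_le_of_le_one_right (p.r.b.sit.x0 v) (p.r.b.sit.x1 w)
  have h2 := mul_le_mul_of_nonneg_left h1 p.cpos.le
  linarith

lemma ph_symm (v w : V) : ph c x v w = ph c x w v := by
  unfold ph; rw [mul_comm (x v)]

/-- relevant vertices -/
lemma rel (p : Par G k K lam x u Z D c N) (v : V) (hv : 1 ≤ c * x v) : 1 / (64 * K) ≤ x v := by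
  have hK := p.K2
  rw [div_le_iff₀ (by linarith)]
  have h1 := mul_le_mul_of_nonneg_right p.c_le (p.r.b.sit.x0 v)
  linarith

/-- relevant vertices far from `u` and outside `Z` -/
lemma nW (p : Par G k K lam x u Z D c N) (S : Finset V) (hS : ∀ v ∈ S, v ∈ far G u \ Z)
    (hx : ∀ v ∈ S, 1 ≤ c * x v) : (S.card : ℝ) ≤ 2048 * K ^ 3 := by
  have hK := p.K2
  have h1 : (S.card : ℝ) * (1 / (64 * K)) ≤ ∑ v ∈ S, x v := by
    rw [← nsmul_eq_mul, ← Finset.sum_const]
    exact Finset.sum_le_sum (fun v hv => p.rel v (hx v hv))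
  have h2 : ∑ v ∈ S, x v ≤ ∑ v ∈ far G u \ Z, x v :=
    Finset.sum_le_sum_of_subset_of_nonneg hS (fun v _ _ => p.r.b.sit.x0 v)
  have h3 : ∑ v ∈ far G u \ Z, x v ≤ 32 * K ^ 2 := by
    rw [p.r.hZ]; exact p.r.b.wt_rest
  have h4 : (S.card : ℝ) * (1 / (64 * K)) ≤ 32 * K ^ 2 := by linarith
  rw [mul_one_div, div_le_iff₀ (by linarith)] at h4
  nlinarith

lemma nUA (p : Par G k K lam x u Z D c N) (S : Finset V) (hS : ∀ v ∈ S, G.Adj u v)
    (hA : ∀ v ∈ S, v ∈ AA G k u Z D) (hx : ∀ v ∈ S, 1 ≤ c * x v) :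
    (S.card : ℝ) ≤ 4096 * K ^ 3 := by
  have hK := p.K2
  have hl := p.lpos
  have h1 := p.r.count S hS (1 / (64 * K)) (lam / (16 * K)) (by positivity) (by positivity)
    (by
      intro w hw
      refine ⟨p.rel w (hx w hw), ?_⟩
      have h2 := p.AA_Z w (hA w hw)
      have h3 := mis_eq (G := G) Z w
      have h4 := p.r.hZc
      have h5 := p.KD_small
      obtain ⟨h6, h7, h8⟩ := p.l64
      have h9 := p.Dpos
      linarith)
  have e1 : 1 / (64 * K) * (lam / (16 * K)) = lam / (1024 * K ^ 2) := by field_simp; ring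
  rw [e1, ← mul_div_assoc, div_le_iff₀ (by positivity)] at h1
  have h2 : lam * (S.card : ℝ) ≤ lam * (4096 * K ^ 3) := by nlinarith
  exact le_of_mul_le_mul_left h2 hl

lemma nUB (p : Par G k K lam x u Z D c N) (S : Finset V) (hS : ∀ v ∈ S, G.Adj u v)
    (hA : ∀ v ∈ S, v ∉ Ut G u Z D) (hx : ∀ v ∈ S, 1 ≤ c * x v) :
    (S.card : ℝ) ≤ lam / (10 ^ 9 * K ^ 8) := by
  have hK := p.K2
  have hl := p.lpos
  have h1 := p.r.count S hS (1 / (64 * K)) D (by positivity) p.Dpos.le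
    (by
      intro w hw
      refine ⟨p.rel w (hx w hw), ?_⟩
      have h2 := hA w hw
      rw [mem_Ut, not_and] at h2
      have h3 := h2 (hS w hw)
      push Not at h3
      exact h3.le)
  rw [p.hD] at h1
  have e1 : (S.card : ℝ) * (1 / (64 * K) * (10 ^ 12 * K ^ 10)) =
      ((S.card : ℝ) * (10 ^ 12 * K ^ 9)) / 64 := by field_simp
  rw [e1, div_le_iff₀ (by norm_num)] at h1
  rw [le_div_iff₀ (by positivity)]
  have h2 : K * ((S.card : ℝ) * (10 ^ 9 * K ^ 8)) ≤ K * lam := by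
    have h3 : (S.card : ℝ) * (10 ^ 12 * K ^ 9) = 1000 * (K * ((S.card : ℝ) * (10 ^ 9 * K ^ 8))) := by
      ring
    have h4 : 0 ≤ K * lam := by positivity
    rw [h3] at h1
    nlinarith
  exact le_of_mul_le_mul_left h2 (by linarith)

end Par

end Pool.Agent.Helper951.FanE
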