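import Mathlib
import Pool.Agent.Helper951.FanE

set_option autoImplicit false

open Finset

namespace Pool.Agent.Helper951.FanF

open Pool.Agent.Helper951.FrB Pool.Agent.Helper951.Core Pool.Agent.Helper951.FanA
open Pool.Agent.Helper951.FanB Pool.Agent.Helper951.FanC Pool.Agent.Helper951.FanD
open Pool.Agent.Helper951.FanE

variable {V : Type*} [Fintype V] [DecidableEq V]
variable {G : SimpleGraph V} [DecidableRel G.Adj]
variable {k : ℕ} {K lam : ℝ} {x : V → ℝ} {u : V} {Z : Finset V}

/-- total positive weight between two sets -/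
noncomputable def SP (G : SimpleGraph V) [DecidableRel G.Adj] (c : ℝ) (x : V → ℝ)
    (A B : Finset V) : ℝ := ∑ v ∈ A, ∑ w ∈ B, ad G v w * ph c x v w

omit [Fintype V] [DecidableEq V] in
lemma SP_nonneg (c : ℝ) (A B : Finset V) : 0 ≤ SP G c x A B :=
  Finset.sum_nonneg (fun v _ => Finset.sum_nonneg (fun w _ =>
    mul_nonneg (ad_nonneg G v w) (le_max_right _ _)))

omit [Fintype V] [DecidableEq V] in
lemma SP_comm (c : ℝ) (A B : Finset V) : SP G c x A B = SP G c x B A := by
  unfold SP
  rw [Finset.sum_comm]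
  exact Finset.sum_congr rfl (fun v _ => Finset.sum_congr rfl (fun w _ => by
    rw [ad_symm]; unfold ph; rw [mul_comm (x w)]))

omit [Fintype V] in
lemma SP_split (c : ℝ) (A Z : Finset V) (h : Z ⊆ A) :
    SP G c x A A = SP G c x Z Z + 2 * SP G c x (A \ Z) Z + SP G c x (A \ Z) (A \ Z) := by
  have h1 : ∀ C : Finset V, SP G c x C A = SP G c x C (A \ Z) + SP G c x C Z := by
    intro C
    unfold SP
    rw [← Finset.sum_add_distrib]
    exact Finset.sum_congr rfl (fun v _ => (Finset.sum_sdiff h).symm)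
  have h2 : SP G c x A A = SP G c x (A \ Z) A + SP G c x Z A := by
    unfold SP
    rw [Finset.sum_sdiff h]
  rw [h2, h1, h1, SP_comm c Z (A \ Z)]
  ring

open Classical in
/-- relevant part of a set -/
noncomputable def rl (c : ℝ) (x : V → ℝ) (A : Finset V) : Finset V :=
  A.filter (fun v => 1 ≤ c * x v)

omit [Fintype V] [DecidableEq V] in
lemma mem_rl (c : ℝ) (A : Finset V) (v : V) : v ∈ rl c x A ↔ v ∈ A ∧ 1 ≤ c * x v := by
  simp [rl]

namespace Par

variable {D c N : ℝ}

lemma SP_left (p : Par G k K lam x u Z D c N) (A B : Finset V) :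
    SP G c x A B = SP G c x (rl c x A) B := by
  classical
  unfold SP
  have hsub : rl c x A ⊆ A := fun v hv => ((mem_rl c A v).1 hv).1
  rw [← Finset.sum_subset hsub]
  intro v hv hnv
  apply Finset.sum_eq_zero
  intro w _
  have h1 : c * x v < 1 := by
    by_contra hcon
    push Not at hcon
    exact hnv ((mem_rl c A v).2 ⟨hv, hcon⟩)
  rw [p.ph_zero v w h1, mul_zero]

lemma SP_right (p : Par G k K lam x u Z D c N) (A B : Finset V) :
    SP G c x A B = SP G c x A (rl c x B) := by
  rw [SP_comm, SP_left p, SP_comm]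

lemma SP_le_EE (p : Par G k K lam x u Z D c N) (A B : Finset V) :
    SP G c x A B ≤ c * EE G A B := by
  unfold SP EE
  rw [Finset.mul_sum]
  apply Finset.sum_le_sum
  intro v _
  rw [Finset.mul_sum]
  apply Finset.sum_le_sum
  intro w _
  have := mul_le_mul_of_nonneg_left (p.ph_le v w) (ad_nonneg G v w)
  linarith

lemma dagger' (p : Par G k K lam x u Z D c N) (A : Finset V) :
    lam ^ 2 - EE G univ univ / 2 ≤ (SP G c x A A + SP G c x Aᶜ Aᶜ) / 2 := by
  have h := dagger p.r.b.sit A N c p.hN p.hc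
  have h2 : ∀ C : Finset V, ∑ v ∈ C, ∑ w ∈ C, ad G v w * (c * (x v * x w) - 1) ≤
      SP G c x C C := by
    intro C
    unfold SP
    apply Finset.sum_le_sum
    intro v _
    apply Finset.sum_le_sum
    intro w _
    exact mul_le_mul_of_nonneg_left (le_max_left _ _) (ad_nonneg G v w)
  have h3 := h2 A
  have h4 := h2 Aᶜ
  linarith

lemma EE_le_card (A B : Finset V) : EE G A B ≤ (A.card : ℝ) * B.card := by
  unfold EE
  calc ∑ v ∈ A, ∑ w ∈ B, ad G v w ≤ ∑ v ∈ A, ∑ w ∈ B, (1:ℝ) :=
        Finset.sum_le_sum (fun v _ => Finset.sum_le_sum (fun w _ => ad_le_one G _ _))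
    _ = (A.card : ℝ) * B.card := by simp

lemma EE_le_deg (A B : Finset V) (d : ℝ) (h : ∀ v ∈ A, dg G B v ≤ d) :
    EE G A B ≤ (A.card : ℝ) * d := by
  rw [EE_eq, ← nsmul_eq_mul, ← Finset.sum_const]
  exact Finset.sum_le_sum h

/-- the size of the relevant part of the side of `Z` -/
lemma nA1 (p : Par G k K lam x u Z D c N) :
    ((rl c x (AA G k u Z D \ Z)).card : ℝ) ≤ 7000 * K ^ 3 := by
  classical
  set S := rl c x (AA G k u Z D \ Z) with hS
  have hmem : ∀ v ∈ S, v ∈ AA G k u Z D ∧ v ∉ Z ∧ 1 ≤ c * x v := by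
    intro v hv
    rw [hS, mem_rl, Finset.mem_sdiff] at hv
    exact ⟨hv.1.1, hv.1.2, hv.2⟩
  have hcov : S ⊆ {u} ∪ (S.filter (fun v => G.Adj u v) ∪
      S.filter (fun v => v ≠ u ∧ ¬ G.Adj u v)) := by
    intro v hv
    simp only [Finset.mem_union, Finset.mem_singleton, Finset.mem_filter]
    by_cases h1 : v = u
    · left; exact h1
    · right
      by_cases h2 : G.Adj u v
      · left; exact ⟨hv, h2⟩
      · right; exact ⟨hv, h1, h2⟩
  have h1 := Finset.card_le_card hcov
  have h2 := Finset.card_union_le {u} (S.filter (fun v => G.Adj u v) ∪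
      S.filter (fun v => v ≠ u ∧ ¬ G.Adj u v))
  have h3 := Finset.card_union_le (S.filter (fun v => G.Adj u v))
      (S.filter (fun v => v ≠ u ∧ ¬ G.Adj u v))
  rw [Finset.card_singleton] at h2
  have h4 : (S.card : ℝ) ≤ 1 + ((S.filter (fun v => G.Adj u v)).card : ℝ) +
      ((S.filter (fun v => v ≠ u ∧ ¬ G.Adj u v)).card : ℝ) := by
    have : S.card ≤ 1 + (S.filter (fun v => G.Adj u v)).card +
      (S.filter (fun v => v ≠ u ∧ ¬ G.Adj u v)).card := by omega
    exact_mod_cast this
  have h5 := p.nUA (S.filter (fun v => G.Adj u v))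
    (fun v hv => (Finset.mem_filter.1 hv).2)
    (fun v hv => (hmem v (Finset.mem_filter.1 hv).1).1)
    (fun v hv => (hmem v (Finset.mem_filter.1 hv).1).2.2)
  have h6 := p.nW (S.filter (fun v => v ≠ u ∧ ¬ G.Adj u v))
    (fun v hv => by
      rw [Finset.mem_filter] at hv
      rw [Finset.mem_sdiff, mem_far]
      exact ⟨hv.2, (hmem v hv.1).2.1⟩)
    (fun v hv => (hmem v (Finset.mem_filter.1 hv).1).2.2)
  have hK := p.K2
  have h7 : 1 ≤ K ^ 3 := one_le_pow₀ (by linarith)
  linarith

/-- the side of `Z` -/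
lemma S_A (p : Par G k K lam x u Z D c N) :
    SP G c x (AA G k u Z D) (AA G k u Z D) ≤ SP G c x Z Z + lam / 10 ^ 6 := by
  have hK := p.K2
  have hc := p.c_le
  have hc0 := p.cpos
  have hD0 := p.Dpos
  have hsub : Z ⊆ AA G k u Z D := fun z hz => p.Z_AA z hz
  rw [SP_split c _ Z hsub]
  set A' := AA G k u Z D \ Z with hA'
  have h1 := nA1 p
  rw [← hA'] at h1
  set n : ℝ := ((rl c x A').card : ℝ) with hn
  have hn0 : 0 ≤ n := Nat.cast_nonneg _
  have h2 : SP G c x A' Z ≤ c * (n * (K * D + K)) := by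
    rw [SP_left p]
    refine (SP_le_EE p _ _).trans ?_
    apply mul_le_mul_of_nonneg_left _ hc0.le
    apply EE_le_deg
    intro v hv
    rw [mem_rl, hA', Finset.mem_sdiff] at hv
    exact p.AA_Z v hv.1.1
  have h3 : SP G c x A' A' ≤ c * (n * n) := by
    rw [SP_left p, SP_right p]
    refine (SP_le_EE p _ _).trans ?_
    exact mul_le_mul_of_nonneg_left (EE_le_card _ _) hc0.le
  have h4 : 2 * (c * (n * (K * D + K))) + c * (n * n) ≤ lam / 10 ^ 6 := by
    have e1 : 2 * (c * (n * (K * D + K))) + c * (n * n) = c * (n * (2 * (K * D + K) + n)) := by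
      ring
    rw [e1]
    have h5 : n * (2 * (K * D + K) + n) ≤ 7000 * K ^ 3 * (2 * (K * D + K) + 7000 * K ^ 3) := by
      apply mul_le_mul h1 _ (by positivity) (by positivity)
      linarith
    have h6 : c * (n * (2 * (K * D + K) + n)) ≤
        64 * K * (7000 * K ^ 3 * (2 * (K * D + K) + 7000 * K ^ 3)) :=
      mul_le_mul hc h5 (by positivity) (by positivity)
    refine h6.trans ?_
    rw [p.hD]
    have e2 : 64 * K * (7000 * K ^ 3 * (2 * (K * (10 ^ 12 * K ^ 10) + K) + 7000 * K ^ 3)) =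
        896000 * 10 ^ 12 * K ^ 15 + 896000 * K ^ 5 + 3136000000 * K ^ 7 := by ring
    rw [e2]
    have a1 := p.Kpow 15 50 (by norm_num)
    have a2 := p.Kpow 5 50 (by norm_num)
    have a3 := p.Kpow 7 50 (by norm_num)
    have a4 := p.r.b.big
    have a5 : 0 ≤ K ^ 50 := by positivity
    rw [le_div_iff₀ (by norm_num)]
    norm_num at a4 ⊢
    linarith
  linarith

/-- the other side -/
lemma S_B (p : Par G k K lam x u Z D c N) :
    SP G c x (AA G k u Z D)ᶜ (AA G k u Z D)ᶜ ≤
      SP G c x (Ut G u Z D) (Ut G u Z D) + lam / 10 ^ 3 := by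
  classical
  have hK := p.K2
  have hc := p.c_le
  have hc0 := p.cpos
  have hl := p.lpos
  have hsub : Ut G u Z D ⊆ (AA G k u Z D)ᶜ := by
    intro w hw
    rw [Finset.mem_compl]
    exact p.Ut_AA w hw
  rw [SP_split c _ (Ut G u Z D) hsub]
  set B' := (AA G k u Z D)ᶜ \ Ut G u Z D with hB'
  set B1 := rl c x B' with hB1
  have hmem : ∀ v ∈ B1, v ∉ AA G k u Z D ∧ v ∉ Ut G u Z D ∧ 1 ≤ c * x v := by
    intro v hv
    rw [hB1, mem_rl, hB', Finset.mem_sdiff, Finset.mem_compl] at hv
    exact ⟨hv.1.1, hv.1.2, hv.2⟩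
  set BU := B1.filter (fun v => G.Adj u v) with hBU
  set BW := B1.filter (fun v => ¬ G.Adj u v) with hBW
  have hcard : (B1.card : ℝ) = BU.card + BW.card := by
    have := Finset.card_filter_add_card_filter_not (s := B1) (fun v => G.Adj u v)
    exact_mod_cast this.symm
  have hU := p.nUB BU (fun v hv => (Finset.mem_filter.1 hv).2)
    (fun v hv => (hmem v (Finset.mem_filter.1 hv).1).2.1)
    (fun v hv => (hmem v (Finset.mem_filter.1 hv).1).2.2)
  have hW := p.nW BW
    (fun v hv => by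
      rw [hBW, Finset.mem_filter] at hv
      rw [Finset.mem_sdiff, mem_far]
      refine ⟨⟨?_, hv.2⟩, ?_⟩
      · rintro rfl
        exact (hmem v hv.1).1 p.u_AA
      · intro hz
        exact (hmem v hv.1).1 (p.Z_AA v hz))
    (fun v hv => (hmem v (Finset.mem_filter.1 hv).1).2.2)
  set nU : ℝ := (BU.card : ℝ) with hnU
  set nW : ℝ := (BW.card : ℝ) with hnW
  have hnU0 : 0 ≤ nU := Nat.cast_nonneg _
  have hnW0 : 0 ≤ nW := Nat.cast_nonneg _
  have h2 : SP G c x B' (Ut G u Z D) ≤ c * ((nU + nW) * K) := by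
    rw [SP_left p]
    refine (SP_le_EE p _ _).trans ?_
    apply mul_le_mul_of_nonneg_left _ hc0.le
    rw [← hcard]
    apply EE_le_deg
    intro v hv
    have h3 := (hmem v hv).1
    rw [mem_AA, not_le] at h3
    have h4 : dg G (Ut G u Z D) v = (((Ut G u Z D).filter (G.Adj v)).card : ℝ) := by
      unfold dg ad
      rw [Finset.sum_boole]
    rw [h4, p.r.b.hK]
    exact_mod_cast h3.le
  have h3 : SP G c x B' B' ≤ c * (4 * K * nU + 2 * (nW * nU) + nW * nW) := by
    rw [SP_left p, SP_right p]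
    refine (SP_le_EE p _ _).trans ?_
    apply mul_le_mul_of_nonneg_left _ hc0.le
    rw [← hB1]
    have h4 : EE G B1 B1 = EE G BU BU + 2 * EE G BW BU + EE G BW BW := by
      have h5 : ∀ C : Finset V, EE G C B1 = EE G C BU + EE G C BW := by
        intro C
        unfold EE
        rw [← Finset.sum_add_distrib]
        exact Finset.sum_congr rfl (fun v _ => (Finset.sum_filter_add_sum_filter_not B1 _ _).symm)
      have h6 : EE G B1 B1 = EE G BU B1 + EE G BW B1 := by
        unfold EE
        rw [Finset.sum_filter_add_sum_filter_not B1]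
      rw [h6, h5, h5, EE_comm BU BW]
      ring
    rw [h4]
    have h7 := sparse G k u p.r.b.free (fun _ => 1) (fun _ => zero_le_one) _ BU rfl
      (fun v hv => (Finset.mem_filter.1 hv).2)
    simp only [min_self, mul_one, Finset.sum_const, nsmul_eq_mul] at h7
    have h8 : EE G BU BU ≤ 4 * K * nU := by rw [p.r.b.hK]; exact h7
    have h9 := EE_le_card (G := G) BW BU
    have h10 := EE_le_card (G := G) BW BW
    linarith
  have h4 : 2 * (c * ((nU + nW) * K)) + c * (4 * K * nU + 2 * (nW * nU) + nW * nW) ≤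
      lam / 10 ^ 3 := by
    have e1 : 2 * (c * ((nU + nW) * K)) + c * (4 * K * nU + 2 * (nW * nU) + nW * nW) =
        c * (nU * (6 * K + 2 * nW) + nW * (2 * K + nW)) := by ring
    rw [e1]
    have a6 : 6 * K ≤ 6 * K ^ 3 := by
      have := p.Kpow 1 3 (by norm_num)
      rw [pow_one] at this
      linarith
    have h5 : nU * (6 * K + 2 * nW) ≤ lam / (10 ^ 9 * K ^ 8) * (4102 * K ^ 3) := by
      apply mul_le_mul hU _ (by positivity) (by positivity)
      linarith
    have h6 : nW * (2 * K + nW) ≤ 2048 * K ^ 3 * (2050 * K ^ 3) := by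
      apply mul_le_mul hW _ (by positivity) (by positivity)
      linarith
    have h7 : c * (nU * (6 * K + 2 * nW) + nW * (2 * K + nW)) ≤
        64 * K * (lam / (10 ^ 9 * K ^ 8) * (4102 * K ^ 3) + 2048 * K ^ 3 * (2050 * K ^ 3)) :=
      mul_le_mul hc (by linarith) (by positivity) (by positivity)
    refine h7.trans ?_
    have e2 : 64 * K * (lam / (10 ^ 9 * K ^ 8) * (4102 * K ^ 3) + 2048 * K ^ 3 * (2050 * K ^ 3)) =
        262528 * lam / (10 ^ 9 * K ^ 4) + 268697600 * K ^ 7 := by
      field_simp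
      ring
    rw [e2]
    have h8 : 262528 * lam / (10 ^ 9 * K ^ 4) ≤ lam / 2000 := by
      rw [div_le_div_iff₀ (by positivity) (by norm_num)]
      have a7 : (1 : ℝ) ≤ K ^ 4 := one_le_pow₀ (by linarith)
      have a8 := mul_le_mul_of_nonneg_left a7 hl.le
      nlinarith
    have h9 : 268697600 * K ^ 7 ≤ lam / 2000 := by
      have a3 := p.Kpow 7 50 (by norm_num)
      have a4 := p.r.b.big
      have a5 : 0 ≤ K ^ 50 := by positivity
      rw [le_div_iff₀ (by norm_num)]
      norm_num at a4 ⊢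
      linarith
    linarith
  linarith

end Par

end Pool.Agent.Helper951.FanF
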