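import Mathlib
import Pool.Agent.Helper951.FanF

set_option autoImplicit false

open Finset

namespace Pool.Agent.Helper951.FanG

open Pool.Agent.Helper951.FrB Pool.Agent.Helper951.Core Pool.Agent.Helper951.FanA
open Pool.Agent.Helper951.FanB Pool.Agent.Helper951.FanC Pool.Agent.Helper951.FanD
open Pool.Agent.Helper951.FanE Pool.Agent.Helper951.FanF Pool.Agent.Helper951.FanF.Par

variable {V : Type*} [Fintype V] [DecidableEq V]
variable {G : SimpleGraph V} [DecidableRel G.Adj]
variable {k : ℕ} {K lam : ℝ} {x : V → ℝ} {u : V} {Z : Finset V} {D c N : ℝ}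

/-- positive part at a vertex -/
noncomputable def ps (c : ℝ) (x : V → ℝ) (v : V) : ℝ := max (c * x v ^ 2 - 1) 0

omit [Fintype V] [DecidableEq V] in
lemma ps_nonneg (c : ℝ) (v : V) : 0 ≤ ps c x v := le_max_right _ _

lemma ph_le_ps (hc : 0 ≤ c) (v w : V) : ph c x v w ≤ (ps c x v + ps c x w) / 2 := by
  unfold ph
  apply max_le
  · have h1 : c * x v ^ 2 - 1 ≤ ps c x v := le_max_left _ _
    have h2 : c * x w ^ 2 - 1 ≤ ps c x w := le_max_left _ _
    nlinarith [mul_nonneg hc (sq_nonneg (x v - x w))]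
  · have h1 := ps_nonneg (x := x) c v
    have h2 := ps_nonneg (x := x) c w
    linarith

lemma SP_le_ps (hc : 0 ≤ c) (X : Finset V) (d : ℝ) (hd : ∀ v ∈ X, dg G X v ≤ d) :
    SP G c x X X ≤ d * ∑ v ∈ X, ps c x v := by
  have h1 : SP G c x X X ≤ ∑ v ∈ X, ∑ w ∈ X, ad G v w * ((ps c x v + ps c x w) / 2) := by
    unfold SP
    apply Finset.sum_le_sum
    intro v _
    apply Finset.sum_le_sum
    intro w _
    exact mul_le_mul_of_nonneg_left (ph_le_ps hc v w) (ad_nonneg G v w)
  have h2 : ∑ v ∈ X, ∑ w ∈ X, ad G v w * ((ps c x v + ps c x w) / 2) =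
      ∑ v ∈ X, dg G X v * ps c x v := by
    have h3 : ∑ v ∈ X, ∑ w ∈ X, ad G v w * ps c x w = ∑ v ∈ X, dg G X v * ps c x v := by
      rw [Finset.sum_comm]
      apply Finset.sum_congr rfl
      intro v _
      unfold dg
      rw [Finset.sum_mul]
      exact Finset.sum_congr rfl (fun w _ => by rw [ad_symm])
    have h4 : ∑ v ∈ X, ∑ w ∈ X, ad G v w * ps c x v = ∑ v ∈ X, dg G X v * ps c x v := by
      apply Finset.sum_congr rfl
      intro v _
      unfold dg
      rw [Finset.sum_mul]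
    have h5 : ∑ v ∈ X, ∑ w ∈ X, ad G v w * ((ps c x v + ps c x w) / 2) =
        (∑ v ∈ X, ∑ w ∈ X, ad G v w * ps c x v + ∑ v ∈ X, ∑ w ∈ X, ad G v w * ps c x w) / 2 := by
      rw [← Finset.sum_add_distrib, Finset.sum_div]
      apply Finset.sum_congr rfl
      intro v _
      rw [← Finset.sum_add_distrib, Finset.sum_div]
      exact Finset.sum_congr rfl (fun w _ => by ring)
    rw [h5, h3, h4]
    ring
  rw [h2] at h1
  refine h1.trans ?_
  rw [Finset.mul_sum]
  exact Finset.sum_le_sum (fun v hv => mul_le_mul_of_nonneg_right (hd v hv) (ps_nonneg c v))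

lemma dg_filter (X : Finset V) (v : V) : dg G X v = ((X.filter (G.Adj v)).card : ℝ) := by
  unfold dg ad
  rw [Finset.sum_boole]

lemma bound1 (p : Par G k K lam x u Z D c N) : SP G c x Z Z ≤ (K - 1) * ∑ v ∈ Z, ps c x v := by
  apply SP_le_ps p.cpos.le
  intro v hv
  rw [dg_filter]
  have h1 := p.r.Z_Z v hv
  have h2 : ((Z.filter (G.Adj v)).card : ℝ) + 1 ≤ k := by exact_mod_cast h1
  rw [p.r.b.hK]
  linarith

lemma bound2 (p : Par G k K lam x u Z D c N) :
    SP G c x (Ut G u Z D) (Ut G u Z D) ≤ (K - 1) * ∑ v ∈ Ut G u Z D, ps c x v := by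
  apply SP_le_ps p.cpos.le
  intro v hv
  rw [dg_filter]
  have h1 := p.r.Ut_deg D (by
    have h1 := p.KD_small
    obtain ⟨h2, h3, h4⟩ := p.l64
    linarith) v hv
  have h2 : (((Ut G u Z D).filter (G.Adj v)).card : ℝ) + 1 ≤ k := by exact_mod_cast h1
  rw [p.r.b.hK]
  linarith

open Classical in
/-- typical vertices of `Z` -/
noncomputable def Zt (G : SimpleGraph V) [DecidableRel G.Adj] (x : V → ℝ) (u : V) (Z : Finset V)
    (D : ℝ) : Finset V := Z.filter (fun z => MM G x u z ≤ D)

lemma mem_Zt (z : V) : z ∈ Zt G x u Z D ↔ z ∈ Z ∧ MM G x u z ≤ D := by simp [Zt]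

lemma Zt_card (p : Par G k K lam x u Z D c N) :
    D * ((Z \ Zt G x u Z D).card : ℝ) ≤ 4 * K * lam := by
  refine le_trans ?_ p.r.sumMM
  have h1 : D * ((Z \ Zt G x u Z D).card : ℝ) = ∑ z ∈ Z \ Zt G x u Z D, D := by
    rw [Finset.sum_const, nsmul_eq_mul]; ring
  rw [h1]
  have h2 : ∑ z ∈ Z \ Zt G x u Z D, D ≤ ∑ z ∈ Z \ Zt G x u Z D, MM G x u z := by
    apply Finset.sum_le_sum
    intro z hz
    rw [Finset.mem_sdiff, mem_Zt, not_and] at hz
    have := hz.2 hz.1
    push Not at this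
    exact this.le
  refine h2.trans ?_
  exact Finset.sum_le_sum_of_subset_of_nonneg Finset.sdiff_subset
    (fun z _ _ => p.r.b.MM_nonneg z)

/-- two disjoint edges from many edges -/
lemma two_edges (X : Finset V) (d : ℝ) (hd : ∀ v ∈ X, dg G X v ≤ d) (h : 4 * d < EE G X X)
    (hd0 : 0 ≤ d) :
    ∃ p p' q q' : V, p ∈ X ∧ p' ∈ X ∧ q ∈ X ∧ q' ∈ X ∧ G.Adj p p' ∧ G.Adj q q' ∧
      p ≠ q ∧ p ≠ q' ∧ p' ≠ q ∧ p' ≠ q' := by
  have hex : ∃ p ∈ X, ∃ p' ∈ X, G.Adj p p' := by
    by_contra hcon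
    push Not at hcon
    have : EE G X X = 0 := Finset.sum_eq_zero (fun v hv => Finset.sum_eq_zero (fun w hw =>
      ad_not G v w (hcon v hv w hw)))
    linarith
  obtain ⟨p, hp, p', hp', hpp⟩ := hex
  by_contra hcon
  push Not at hcon
  have hcov : ∀ q ∈ X, ∀ q' ∈ X, G.Adj q q' → q = p ∨ q = p' ∨ q' = p ∨ q' = p' := by
    intro q hq q' hq' hqq
    by_contra h2
    push Not at h2
    exact h2.2.2.2 (hcon p p' q q' hp hp' hq hq' hpp hqq h2.1.symm h2.2.2.1.symm
      h2.2.1.symm).symm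
  have h1 : EE G X X ≤ ∑ v ∈ X, ∑ w ∈ X, ((if v = p then ad G v w else 0) +
      (if v = p' then ad G v w else 0) + (if w = p then ad G v w else 0) +
      (if w = p' then ad G v w else 0)) := by
    unfold EE
    apply Finset.sum_le_sum
    intro v hv
    apply Finset.sum_le_sum
    intro w hw
    have h0 := ad_nonneg G v w
    by_cases hvw : G.Adj v w
    · rcases hcov v hv w hw hvw with h2 | h2 | h2 | h2
      · rw [if_pos h2]; split_ifs <;> linarith
      · rw [if_pos h2]; split_ifs <;> linarith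
      · rw [if_pos h2]; split_ifs <;> linarith
      · rw [if_pos h2]; split_ifs <;> linarith
    · rw [ad_not G v w hvw]; simp
  have e1 : ∀ a ∈ X, ∑ v ∈ X, ∑ w ∈ X, (if v = a then ad G v w else 0) = dg G X a := by
    intro a ha
    rw [Finset.sum_eq_single a]
    · simp [dg]
    · intro v _ hva
      exact Finset.sum_eq_zero (fun w _ => if_neg hva)
    · intro h; exact absurd ha h
  have e2 : ∀ a ∈ X, ∑ v ∈ X, ∑ w ∈ X, (if w = a then ad G v w else 0) = dg G X a := by
    intro a ha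
    rw [Finset.sum_comm, ← e1 a ha]
    exact Finset.sum_congr rfl (fun v _ => Finset.sum_congr rfl (fun w _ => by rw [ad_symm]))
  simp only [Finset.sum_add_distrib] at h1
  rw [e1 p hp, e1 p' hp', e2 p hp, e2 p' hp'] at h1
  have h2 := hd p hp
  have h3 := hd p' hp'
  linarith

/-- either few typical edges on the side of `u`'s neighbours, or small degrees in `Zt` -/
lemma two_cases (p : Par G k K lam x u Z D c N) :
    EE G (Ut G u Z D) (Ut G u Z D) ≤ 32 * K ^ 3 * D + 4 * K ∨
    ∀ z ∈ Zt G x u Z D, ((Zt G x u Z D).filter (G.Adj z)).card + 2 ≤ k := by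
  by_contra hcon
  push Not at hcon
  obtain ⟨hE, z, hz, hzd⟩ := hcon
  have hK := p.K2
  have hD0 := p.Dpos
  have hkk := p.r.b.hk
  obtain ⟨I, hI, hIc⟩ := Finset.exists_subset_card_eq
    (show k - 1 ≤ ((Zt G x u Z D).filter (G.Adj z)).card by omega)
  have hI' : ∀ i ∈ I, i ∈ Zt G x u Z D ∧ G.Adj z i := fun i hi => Finset.mem_filter.1 (hI hi)
  have hzI : z ∉ I := fun h => (hI' z h).2.ne rfl
  set I' := insert z I with hI'def
  have hI'c : (I'.card : ℝ) = K := by
    rw [hI'def, Finset.card_insert_of_notMem hzI, hIc, p.r.b.hK]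
    have : k - 1 + 1 = k := by omega
    exact_mod_cast this
  have hMM : ∀ i ∈ I', MM G x u i ≤ D := by
    intro i hi
    rw [hI'def, Finset.mem_insert] at hi
    rcases hi with rfl | hi
    · exact ((mem_Zt _).1 hz).2
    · exact ((mem_Zt _).1 (hI' i hi).1).2
  have hsumMM : ∑ i ∈ I', MM G x u i ≤ K * D := by
    have h1 : ∑ i ∈ I', MM G x u i ≤ ∑ i ∈ I', D := Finset.sum_le_sum hMM
    rw [Finset.sum_const, nsmul_eq_mul, hI'c] at h1
    exact h1
  set U := Ut G u Z D with hU
  have hUsub : U ⊆ UU G u := by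
    intro w hw
    rw [hU, mem_Ut] at hw
    exact (mem_UU w).2 hw.1
  set G0 := U.filter (fun w => ∀ i ∈ I', G.Adj i w) with hG0
  set Mis := U.filter (fun w => ¬ ∀ i ∈ I', G.Adj i w) with hMis
  have hdegU : ∀ v ∈ U, dg G U v ≤ K := by
    intro v hv
    rw [dg_filter, p.r.b.hK]
    have h1 := p.r.Ut_deg D (by
      have h1 := p.KD_small
      obtain ⟨h2, h3, h4⟩ := p.l64
      linarith) v hv
    exact_mod_cast h1.le
  -- the number of missing vertices
  have hMisx : ∑ w ∈ Mis, x w ≤ K * D := by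
    have h1 : ∑ w ∈ Mis, x w ≤ ∑ w ∈ Mis, ∑ i ∈ I', (1 - ad G i w) * x w := by
      apply Finset.sum_le_sum
      intro w hw
      rw [hMis, Finset.mem_filter] at hw
      have h2 := hw.2
      push Not at h2
      obtain ⟨i, hi, hna⟩ := h2
      have h3 := Finset.single_le_sum (f := fun i => (1 - ad G i w) * x w)
        (fun i _ => mul_nonneg (by have := ad_le_one G i w; linarith) (p.r.b.sit.x0 w)) hi
      simp only [ad_not G _ _ hna] at h3
      linarith
    rw [Finset.sum_comm] at h1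
    refine h1.trans (le_trans ?_ hsumMM)
    apply Finset.sum_le_sum
    intro i _
    unfold MM
    apply Finset.sum_le_sum_of_subset_of_nonneg
    · exact (Finset.filter_subset _ _).trans hUsub
    · intro w _ _
      exact mul_nonneg (by have := ad_le_one G i w; linarith) (p.r.b.sit.x0 w)
  have hMisc : (Mis.card : ℝ) ≤ 16 * K ^ 2 * D := by
    have h1 : (Mis.card : ℝ) * (1 / (16 * K)) ≤ ∑ w ∈ Mis, x w := by
      rw [← nsmul_eq_mul, ← Finset.sum_const]
      apply Finset.sum_le_sum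
      intro w hw
      exact p.r.Ut_x D p.D_small w (Finset.mem_filter.1 hw).1
    have h2 : (Mis.card : ℝ) * (1 / (16 * K)) ≤ K * D := h1.trans hMisx
    rw [mul_one_div, div_le_iff₀ (by linarith)] at h2
    linarith
  have hEG0 : 4 * K < EE G G0 G0 := by
    have h1 : ∀ C : Finset V, EE G C U = EE G C G0 + EE G C Mis := by
      intro C
      unfold EE
      rw [← Finset.sum_add_distrib]
      exact Finset.sum_congr rfl (fun v _ => (Finset.sum_filter_add_sum_filter_not U _ _).symm)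
    have h2 : EE G U U = EE G G0 U + EE G Mis U := by
      unfold EE
      rw [Finset.sum_filter_add_sum_filter_not U]
    have h3 : EE G Mis U ≤ (Mis.card : ℝ) * K := by
      apply EE_le_deg
      intro v hv
      exact hdegU v (Finset.mem_filter.1 hv).1
    have h4 := EE_nonneg (G := G) Mis Mis
    have h5 := EE_comm (G := G) G0 Mis
    have h6 := h1 Mis
    have h7 := h1 G0
    have h8 : (Mis.card : ℝ) * K ≤ 16 * K ^ 2 * D * K :=
      mul_le_mul_of_nonneg_right hMisc (by linarith)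
    nlinarith
  obtain ⟨a, a', b, b', ha, ha', hb, hb', haa, hbb, n1, n2, n3, n4⟩ := two_edges G0 K (by
    intro v hv
    refine le_trans ?_ (hdegU v (Finset.mem_filter.1 hv).1)
    exact Finset.sum_le_sum_of_subset_of_nonneg (Finset.filter_subset _ _)
      (fun _ _ _ => ad_nonneg G _ _)) hEG0 (by linarith)
  -- many common neighbours
  have hG0c : k + 2 ≤ G0.card := by
    have h1 := common_card (G := G) I' U x p.r.b.sit.x0 p.r.b.sit.x1
    rw [← hG0] at h1
    have h2 : ∑ i ∈ I', ∑ z ∈ U, (1 - ad G i z) * x z ≤ K * D := by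
      refine le_trans ?_ hsumMM
      apply Finset.sum_le_sum
      intro i _
      unfold MM
      apply Finset.sum_le_sum_of_subset_of_nonneg hUsub
      intro w _ _
      exact mul_nonneg (by have := ad_le_one G i w; linarith) (p.r.b.sit.x0 w)
    have h3 := p.r.wt_Ut D p.Dpos
    have h4 : ∑ w ∈ UU G u, x w = ∑ w ∈ UU G u \ U, x w + ∑ w ∈ U, x w := by
      rw [Finset.sum_sdiff hUsub]
    rw [p.r.b.sumU] at h4
    have h6 : ∑ w ∈ UU G u \ U, x w ≤ lam / 4 := by
      have h7 : 0 ≤ ∑ w ∈ UU G u \ U, x w :=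
        Finset.sum_nonneg (fun v _ => p.r.b.sit.x0 v)
      have h8 : 16 * K * ∑ w ∈ UU G u \ U, x w ≤ 4 * K * lam :=
        (mul_le_mul_of_nonneg_right p.D_ge h7).trans h3
      have h9 : (16 * K) * ∑ w ∈ UU G u \ U, x w ≤ (16 * K) * (lam / 4) := by linarith
      exact le_of_mul_le_mul_left h9 (by linarith)
    have h7 := p.KD_small
    have h8 : lam / (64 * K) ≤ lam / 64 := by
      apply div_le_div_of_nonneg_left p.lpos.le (by norm_num)
      linarith
    have h9 := p.lpos
    have h10 := p.r.b.pw 0 (by norm_num)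
    have h11 : ((k + 2 : ℕ) : ℝ) ≤ (G0.card : ℝ) := by
      push_cast
      rw [← p.r.b.hK]
      norm_num at h10
      linarith
    exact_mod_cast h11
  apply p.r.b.free
  exact fan_two G k z I G0 (by omega) (by omega) hG0c (fun i hi => (hI' i hi).2)
    (fun j hj => (Finset.mem_filter.1 hj).2 z (Finset.mem_insert_self _ _))
    (fun i hi j hj => (Finset.mem_filter.1 hj).2 i (Finset.mem_insert_of_mem hi))
    a a' b b' ha ha' hb hb' haa hbb n1 n2 n3 n4

end Pool.Agent.Helper951.FanG
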