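import Mathlib
import Pool.Agent.Helper951.FanG

set_option autoImplicit false

open Finset

namespace Pool.Agent.Helper951.FanH

open Pool.Agent.Helper951.FrB Pool.Agent.Helper951.Core Pool.Agent.Helper951.FanA
open Pool.Agent.Helper951.FanB Pool.Agent.Helper951.FanC Pool.Agent.Helper951.FanD
open Pool.Agent.Helper951.FanE Pool.Agent.Helper951.FanF Pool.Agent.Helper951.FanF.Par
open Pool.Agent.Helper951.FanG

variable {V : Type*} [Fintype V] [DecidableEq V]
variable {G : SimpleGraph V} [DecidableRel G.Adj]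
variable {k : ℕ} {K lam : ℝ} {x : V → ℝ} {u : V} {Z : Finset V} {D c N : ℝ}

/-- quadratic form between two sets -/
noncomputable def QQ (G : SimpleGraph V) [DecidableRel G.Adj] (x : V → ℝ) (A B : Finset V) : ℝ :=
  ∑ v ∈ A, ∑ w ∈ B, ad G v w * (x v * x w)

lemma QQ_nonneg (h : Sit G lam x u) (A B : Finset V) : 0 ≤ QQ G x A B :=
  Finset.sum_nonneg (fun v _ => Finset.sum_nonneg (fun w _ =>
    mul_nonneg (ad_nonneg G v w) (mul_nonneg (h.x0 v) (h.x0 w))))

omit [Fintype V] [DecidableEq V] in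
lemma QQ_comm (A B : Finset V) : QQ G x A B = QQ G x B A := by
  unfold QQ
  rw [Finset.sum_comm]
  exact Finset.sum_congr rfl (fun v _ => Finset.sum_congr rfl (fun w _ => by
    rw [ad_symm]; ring))

lemma QQ_univ (h : Sit G lam x u) (A : Finset V) : QQ G x A univ = lam * ∑ v ∈ A, x v ^ 2 := by
  unfold QQ
  rw [Finset.mul_sum]
  apply Finset.sum_congr rfl
  intro v _
  have h2 := h.ev v
  calc ∑ w, ad G v w * (x v * x w) = x v * ∑ w, ad G v w * x w := by
        rw [Finset.mul_sum]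
        exact Finset.sum_congr rfl (fun w _ => by ring)
    _ = lam * x v ^ 2 := by rw [h2]; ring

lemma QQ_split (A B C : Finset V) (h : Disjoint B C) :
    QQ G x A (B ∪ C) = QQ G x A B + QQ G x A C := by
  unfold QQ
  rw [← Finset.sum_add_distrib]
  exact Finset.sum_congr rfl (fun v _ => Finset.sum_union h)

lemma Z_card_le (p : Par G k K lam x u Z D c N) : (Z.card : ℝ) ≤ 2 * lam := by
  have hK := p.K2
  have hkk := p.r.b.hk
  have h1 := p.u_AA
  rw [mem_AA] at h1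
  obtain ⟨w, hw⟩ := Finset.card_pos.1 (by omega : 0 < ((Ut G u Z D).filter (G.Adj u)).card)
  have hw' := (Finset.mem_filter.1 hw).1
  rw [mem_Ut] at hw'
  have h2 : ∑ z ∈ Z, ad G w z * x z ≤ lam := by
    calc ∑ z ∈ Z, ad G w z * x z ≤ ∑ z, ad G w z * x z :=
          Finset.sum_le_sum_of_subset_of_nonneg (Finset.subset_univ _)
            (fun z _ _ => mul_nonneg (ad_nonneg G _ _) (p.r.b.sit.x0 z))
      _ = lam * x w := p.r.b.sit.ev w
      _ ≤ lam * 1 := mul_le_mul_of_nonneg_left (p.r.b.sit.x1 w) p.lpos.le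
      _ = lam := mul_one _
  have h3 : dg G Z w - ∑ z ∈ Z, (1 - x z) ≤ ∑ z ∈ Z, ad G w z * x z := by
    unfold dg
    rw [← Finset.sum_sub_distrib]
    apply Finset.sum_le_sum
    intro z _
    have h4 := ad_le_one G w z
    have h5 := p.r.b.sit.x1 z
    nlinarith
  have h4 := p.r.sum1
  have h5 := mis_eq (G := G) Z w
  have h6 := p.KD_small
  have h7 : lam / (64 * K) ≤ lam / 64 := by
    apply div_le_div_of_nonneg_left p.lpos.le (by norm_num)
    linarith
  have h8 : K ≤ lam / 64 := by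
    have := p.r.b.pw 1 (by norm_num)
    rw [pow_one] at this
    norm_num at this
    linarith
  have h9 : 0 ≤ K * D := mul_nonneg (by linarith) p.Dpos.le
  linarith [hw'.2]

lemma wA' (p : Par G k K lam x u Z D c N) :
    ∑ v ∈ AA G k u Z D \ Z, x v ≤ 1 + 32 * K ^ 2 + 4 * K * lam / D := by
  have hsub : AA G k u Z D \ Z ⊆ {u} ∪ ((far G u \ Z) ∪ (UU G u \ Ut G u Z D)) := by
    intro v hv
    rw [Finset.mem_sdiff] at hv
    simp only [Finset.mem_union, Finset.mem_singleton, Finset.mem_sdiff, mem_far, mem_UU]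
    by_cases h1 : v = u
    · left; exact h1
    · right
      by_cases h2 : G.Adj u v
      · right
        refine ⟨h2, fun h3 => p.Ut_AA v h3 hv.1⟩
      · left
        exact ⟨⟨h1, h2⟩, hv.2⟩
  have h1 : ∑ v ∈ AA G k u Z D \ Z, x v ≤
      ∑ v ∈ {u} ∪ ((far G u \ Z) ∪ (UU G u \ Ut G u Z D)), x v :=
    Finset.sum_le_sum_of_subset_of_nonneg hsub (fun v _ _ => p.r.b.sit.x0 v)
  have h2 : ∑ v ∈ {u} ∪ ((far G u \ Z) ∪ (UU G u \ Ut G u Z D)), x v ≤
      ∑ v ∈ {u}, x v + (∑ v ∈ far G u \ Z, x v + ∑ v ∈ UU G u \ Ut G u Z D, x v) := by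
    have g : ∀ A B : Finset V, ∑ v ∈ A ∪ B, x v ≤ ∑ v ∈ A, x v + ∑ v ∈ B, x v := by
      intro A B
      rw [← Finset.sum_union_inter]
      have := Finset.sum_nonneg (s := A ∩ B) (fun v _ => p.r.b.sit.x0 v)
      linarith
    exact (g _ _).trans (add_le_add le_rfl (g _ _))
  rw [Finset.sum_singleton, p.r.b.sit.xu] at h2
  have h3 : ∑ v ∈ far G u \ Z, x v ≤ 32 * K ^ 2 := by
    rw [p.r.hZ]; exact p.r.b.wt_rest
  have h4 := p.r.wt_Ut D p.Dpos
  have h5 : ∑ v ∈ UU G u \ Ut G u Z D, x v ≤ 4 * K * lam / D := by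
    rw [le_div_iff₀ p.Dpos]
    linarith
  linarith

/-- the square sum of the side of `Z` -/
lemma sA (p : Par G k K lam x u Z D c N) :
    c * ∑ v ∈ AA G k u Z D, x v ^ 2 ≤ 2 * lam + 64 * K * (K + 1 + 32 * K ^ 2 + 4 * K * lam / D) := by
  have hK := p.K2
  have hl := p.lpos
  set A := AA G k u Z D with hA
  have hsub : Z ⊆ A := fun z hz => p.Z_AA z hz
  have e1 : QQ G x A univ = QQ G x A A + QQ G x A Aᶜ := by
    rw [← QQ_split A A Aᶜ disjoint_compl_right, Finset.union_compl]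
  have e2 : QQ G x Aᶜ univ = QQ G x Aᶜ A + QQ G x Aᶜ Aᶜ := by
    rw [← QQ_split Aᶜ A Aᶜ disjoint_compl_right, Finset.union_compl]
  rw [QQ_univ p.r.b.sit] at e1 e2
  have e3 : ∑ v ∈ A, x v ^ 2 + ∑ v ∈ Aᶜ, x v ^ 2 = N := by
    rw [p.hN, Finset.sum_add_sum_compl]
  have e4 := QQ_comm (G := G) (x := x) A Aᶜ
  have e5 := QQ_nonneg p.r.b.sit Aᶜ Aᶜ
  -- the internal form
  have h1 : QQ G x A A ≤ QQ G x Z Z + 2 * QQ G x (A \ Z) A := by
    have hd : Disjoint (A \ Z) Z := Finset.sdiff_disjoint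
    have h2 : ∀ C : Finset V, QQ G x C A = QQ G x C (A \ Z) + QQ G x C Z := by
      intro C
      rw [← QQ_split C _ _ hd, Finset.sdiff_union_of_subset hsub]
    have h3 : QQ G x A A = QQ G x (A \ Z) A + QQ G x Z A := by
      rw [QQ_comm A A, QQ_comm (A \ Z) A, QQ_comm Z A]
      exact h2 A
    have h4 := h2 (A \ Z)
    have h5 := h2 Z
    have h6 := QQ_comm (G := G) (x := x) Z (A \ Z)
    have h7 := QQ_nonneg p.r.b.sit (A \ Z) (A \ Z)
    linarith
  have h2 : QQ G x Z Z ≤ 2 * K * lam := by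
    have h3 : QQ G x Z Z ≤ EE G Z Z := by
      unfold QQ EE
      apply Finset.sum_le_sum
      intro v _
      apply Finset.sum_le_sum
      intro w _
      exact mul_le_of_le_one_right (ad_nonneg G v w)
        (mul_le_one₀ (p.r.b.sit.x1 v) (p.r.b.sit.x0 w) (p.r.b.sit.x1 w))
    have h4 : EE G Z Z ≤ (Z.card : ℝ) * K := by
      apply EE_le_deg
      intro v hv
      rw [dg_filter, p.r.b.hK]
      exact_mod_cast (p.r.Z_Z v hv).le
    have h5 := mul_le_mul_of_nonneg_right (Z_card_le p) (by linarith : (0:ℝ) ≤ K)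
    linarith
  have h3 : QQ G x (A \ Z) A ≤ lam * (1 + 32 * K ^ 2 + 4 * K * lam / D) := by
    have h4 : QQ G x (A \ Z) A ≤ QQ G x (A \ Z) univ := by
      unfold QQ
      apply Finset.sum_le_sum
      intro v _
      exact Finset.sum_le_sum_of_subset_of_nonneg (Finset.subset_univ _)
        (fun w _ _ => mul_nonneg (ad_nonneg G v w)
          (mul_nonneg (p.r.b.sit.x0 v) (p.r.b.sit.x0 w)))
    rw [QQ_univ p.r.b.sit] at h4
    have h5 : ∑ v ∈ A \ Z, x v ^ 2 ≤ ∑ v ∈ A \ Z, x v := by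
      apply Finset.sum_le_sum
      intro v _
      rw [sq]
      exact mul_le_of_le_one_left (p.r.b.sit.x0 v) (p.r.b.sit.x1 v)
    have h6 := wA' p
    exact h4.trans (mul_le_mul_of_nonneg_left (h5.trans h6) hl.le)
  -- combine
  set s := ∑ v ∈ A, x v ^ 2 with hs
  have h4 : 2 * lam * s ≤ lam * N + QQ G x A A := by nlinarith
  have hnn : 0 ≤ K + 1 + 32 * K ^ 2 + 4 * K * lam / D := by
    have := p.Dpos
    positivity
  have h5 : QQ G x A A ≤ 2 * lam * (K + 1 + 32 * K ^ 2 + 4 * K * lam / D) := by linarith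
  have h6 : 2 * lam * (c * s) ≤ c * (lam * N) + c * (2 * lam * (K + 1 + 32 * K ^ 2 + 4 * K * lam / D)) := by
    have := mul_le_mul_of_nonneg_left (h4.trans (add_le_add le_rfl h5)) p.cpos.le
    linarith
  have h7 : c * (lam * N) = 4 * lam * lam := by
    have := p.cN
    linear_combination lam * this
  have h8 : c * (2 * lam * (K + 1 + 32 * K ^ 2 + 4 * K * lam / D)) ≤
      64 * K * (2 * lam * (K + 1 + 32 * K ^ 2 + 4 * K * lam / D)) :=
    mul_le_mul_of_nonneg_right p.c_le (by positivity)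
  have h9 : (2 * lam) * (c * s) ≤
      (2 * lam) * (2 * lam + 64 * K * (K + 1 + 32 * K ^ 2 + 4 * K * lam / D)) := by
    linarith
  exact le_of_mul_le_mul_left h9 (by linarith)

/-- the error terms are small -/
lemma err (p : Par G k K lam x u Z D c N) :
    64 * K * (10 * K + 10 + 64 * K ^ 2 + 8 * K * lam / D) ≤ lam / (10 ^ 5 * K ^ 2) := by
  have hK := p.K2
  have hl := p.lpos
  rw [p.hD]
  have e1 : 64 * K * (10 * K + 10 + 64 * K ^ 2 + 8 * K * lam / (10 ^ 12 * K ^ 10)) =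
      640 * K ^ 2 + 640 * K + 4096 * K ^ 3 + 512 * lam / (10 ^ 12 * K ^ 8) := by
    field_simp
    ring
  rw [e1]
  have h1 : 512 * lam / (10 ^ 12 * K ^ 8) ≤ lam / (2 * 10 ^ 5 * K ^ 2) := by
    rw [div_le_div_iff₀ (by positivity) (by positivity)]
    have a1 : K ^ 2 ≤ K ^ 8 := p.Kpow 2 8 (by norm_num)
    have a2 := mul_le_mul_of_nonneg_left a1 hl.le
    have a3 : 0 ≤ lam * K ^ 2 := by positivity
    nlinarith
  have h2 : 640 * K ^ 2 + 640 * K + 4096 * K ^ 3 ≤ lam / (2 * 10 ^ 5 * K ^ 2) := by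
    rw [le_div_iff₀ (by positivity)]
    have a1 := p.Kpow 4 50 (by norm_num)
    have a2 := p.Kpow 3 50 (by norm_num)
    have a3 := p.Kpow 5 50 (by norm_num)
    have a4 := p.r.b.big
    have a5 : 0 ≤ K ^ 50 := by positivity
    have e2 : (640 * K ^ 2 + 640 * K + 4096 * K ^ 3) * (2 * 10 ^ 5 * K ^ 2) =
        128000000 * K ^ 4 + 128000000 * K ^ 3 + 819200000 * K ^ 5 := by ring
    rw [e2]
    norm_num at a4 ⊢
    linarith
  have e3 : lam / (10 ^ 5 * K ^ 2) = lam / (2 * 10 ^ 5 * K ^ 2) + lam / (2 * 10 ^ 5 * K ^ 2) := by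
    field_simp
    norm_num
  rw [e3]
  linarith

lemma sA' (p : Par G k K lam x u Z D c N) :
    c * ∑ v ∈ Z, x v ^ 2 ≤ 2 * lam + lam / (10 ^ 5 * K ^ 2) := by
  have hK := p.K2
  have h1 := sA p
  have h2 := err p
  have h3 : ∑ v ∈ Z, x v ^ 2 ≤ ∑ v ∈ AA G k u Z D, x v ^ 2 :=
    Finset.sum_le_sum_of_subset_of_nonneg (fun z hz => p.Z_AA z hz) (fun v _ _ => sq_nonneg _)
  have h4 := mul_le_mul_of_nonneg_left h3 p.cpos.le
  have h5 : 64 * K * (K + 1 + 32 * K ^ 2 + 4 * K * lam / D) ≤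
      64 * K * (10 * K + 10 + 64 * K ^ 2 + 8 * K * lam / D) := by
    apply mul_le_mul_of_nonneg_left _ (by linarith)
    have h6 : 4 * K * lam / D ≤ 8 * K * lam / D := by
      apply div_le_div_of_nonneg_right _ p.Dpos.le
      have := mul_pos (by linarith : 0 < K) p.lpos
      linarith
    have h7 : 0 ≤ K ^ 2 := sq_nonneg _
    linarith
  linarith

/-- upper bound for typical entries -/
lemma xb (p : Par G k K lam x u Z D c N) (w : V) (hw : w ∈ Ut G u Z D) :
    c * x w ≤ 2 + 1 / (10 ^ 5 * K ^ 2) := by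
  have hK := p.K2
  have hl := p.lpos
  have hsub : Ut G u Z D ⊆ UU G u := by
    intro w hw
    rw [mem_Ut] at hw
    exact (mem_UU w).2 hw.1
  have hZf : Z ⊆ far G u := by rw [p.r.hZ]; exact Bal.ZZ_far _
  have h1 := p.r.b.rowsplit w
  have h2 : ∑ w' ∈ UU G u, ad G w w' * x w' = ∑ w' ∈ UU G u \ Ut G u Z D, ad G w w' * x w' +
      ∑ w' ∈ Ut G u Z D, ad G w w' * x w' := by
    rw [Finset.sum_sdiff hsub]
  have h3 : ∑ w' ∈ far G u, ad G w w' * x w' = ∑ w' ∈ far G u \ Z, ad G w w' * x w' +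
      ∑ w' ∈ Z, ad G w w' * x w' := by
    rw [Finset.sum_sdiff hZf]
  have hle : ∀ A : Finset V, ∑ w' ∈ A, ad G w w' * x w' ≤ ∑ w' ∈ A, x w' := fun A =>
    Finset.sum_le_sum (fun v _ => mul_le_of_le_one_left (p.r.b.sit.x0 v) (ad_le_one G _ _))
  have h4 : ∑ v ∈ far G u \ Z, x v ≤ 32 * K ^ 2 := by
    rw [p.r.hZ]; exact p.r.b.wt_rest
  have h5 := p.r.wt_Ut D p.Dpos
  have h6 : ∑ v ∈ UU G u \ Ut G u Z D, x v ≤ 4 * K * lam / D := by
    rw [le_div_iff₀ p.Dpos]
    linarith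
  have h7 : ∑ w' ∈ Ut G u Z D, ad G w w' * x w' ≤ K := by
    refine (p.r.b.sum_ad_le _ _).trans ?_
    rw [dg_filter, p.r.b.hK]
    have h1 := p.r.Ut_deg D (by
      have h1 := p.KD_small
      obtain ⟨h2, h3, h4⟩ := p.l64
      linarith) w hw
    exact_mod_cast h1.le
  have h8 : ∑ w' ∈ Z, ad G w w' * x w' ≤ ∑ v ∈ AA G k u Z D, x v ^ 2 + 8 * K := by
    have h9 : ∑ w' ∈ Z, ad G w w' * x w' ≤ Z.card := by
      calc ∑ v ∈ Z, ad G w v * x v ≤ ∑ v ∈ Z, (1:ℝ) :=
            Finset.sum_le_sum (fun v _ =>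
              mul_le_one₀ (ad_le_one G _ _) (p.r.b.sit.x0 v) (p.r.b.sit.x1 v))
        _ = Z.card := by simp
    have h10 := p.r.card_le_sq
    have h11 : ∑ v ∈ Z, x v ^ 2 ≤ ∑ v ∈ AA G k u Z D, x v ^ 2 :=
      Finset.sum_le_sum_of_subset_of_nonneg (fun z hz => p.Z_AA z hz) (fun v _ _ => sq_nonneg _)
    linarith
  have h9 : ad G w u ≤ 1 := ad_le_one G _ _
  have h10 : lam * x w ≤ ∑ v ∈ AA G k u Z D, x v ^ 2 +
      (1 + 9 * K + 32 * K ^ 2 + 4 * K * lam / D) := by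
    have := hle (far G u \ Z)
    have := hle (UU G u \ Ut G u Z D)
    linarith
  have h11 : c * (lam * x w) ≤ c * ∑ v ∈ AA G k u Z D, x v ^ 2 +
      64 * K * (1 + 9 * K + 32 * K ^ 2 + 4 * K * lam / D) := by
    have a1 := mul_le_mul_of_nonneg_left h10 p.cpos.le
    have a2 : c * (1 + 9 * K + 32 * K ^ 2 + 4 * K * lam / D) ≤
        64 * K * (1 + 9 * K + 32 * K ^ 2 + 4 * K * lam / D) := by
      apply mul_le_mul_of_nonneg_right p.c_le
      have := p.Dpos
      positivity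
    linarith
  have h12 := sA p
  have h13 := err p
  have h14 : lam * (c * x w) ≤ lam * (2 + 1 / (10 ^ 5 * K ^ 2)) := by
    have e1 : 64 * K * (1 + 9 * K + 32 * K ^ 2 + 4 * K * lam / D) +
        64 * K * (K + 1 + 32 * K ^ 2 + 4 * K * lam / D) ≤
        64 * K * (10 * K + 10 + 64 * K ^ 2 + 8 * K * lam / D) := by
      have e2 : 8 * K * lam / D = 4 * K * lam / D + 4 * K * lam / D := by ring
      rw [e2]
      nlinarith
    have e3 : lam * (2 + 1 / (10 ^ 5 * K ^ 2)) = 2 * lam + lam / (10 ^ 5 * K ^ 2) := by ring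
    rw [e3]
    linarith
  exact le_of_mul_le_mul_left h14 hl

end Pool.Agent.Helper951.FanH
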