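import Mathlib
import Pool.Agent.Helper951.FanI
import Pool.Agent.Helper951.FrD

set_option autoImplicit false

open Finset

namespace Pool.Agent.Helper951.FanJ

open Pool.Agent.Helper951.FrB Pool.Agent.Helper951.Core Pool.Agent.Helper951.FanA
open Pool.Agent.Helper951.FanB Pool.Agent.Helper951.FanC Pool.Agent.Helper951.FanD
open Pool.Agent.Helper951.FrD

variable {V : Type*} [Fintype V] [DecidableEq V]
variable {G : SimpleGraph V} [DecidableRel G.Adj]
variable {k : ℕ} {K lam : ℝ} {x : V → ℝ} {u : V}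

open Classical in
/-- few vertices have `k` neighbours in a bounded set -/
lemma bad_card (k : ℕ) (hfree : ¬ (fan (2 * k + 1)).IsContained G) (P : Finset V)
    (hP : ∀ p ∈ P, G.Adj u p) :
    ((UU G u).filter (fun w => k ≤ (P.filter (G.Adj w)).card)).card ≤ 2 ^ P.card * k := by
  have h1 : (UU G u).filter (fun w => k ≤ (P.filter (G.Adj w)).card) ⊆
      (P.powersetCard k).biUnion (fun I => (UU G u).filter (fun w => ∀ i ∈ I, G.Adj i w)) := by
    intro w hw
    rw [Finset.mem_filter] at hw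
    obtain ⟨I, hI, hIc⟩ := Finset.exists_subset_card_eq hw.2
    rw [Finset.mem_biUnion]
    refine ⟨I, Finset.mem_powersetCard.2 ⟨fun i hi => (Finset.mem_filter.1 (hI hi)).1, hIc⟩, ?_⟩
    exact Finset.mem_filter.2 ⟨hw.1, fun i hi => (Finset.mem_filter.1 (hI hi)).2.symm⟩
  refine (Finset.card_le_card h1).trans ?_
  refine (Finset.card_biUnion_le_card_mul _ _ k ?_).trans ?_
  · intro I hI
    rw [Finset.mem_powersetCard] at hI
    by_contra hcon
    push Not at hcon
    apply hfree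
    apply fan_K G k u I ((UU G u).filter (fun w => ∀ i ∈ I, G.Adj i w)) hI.2 hcon
    · exact fun i hi => hP i (hI.1 hi)
    · intro j hj
      exact (mem_UU j).1 (Finset.mem_filter.1 hj).1
    · intro i hi j hj
      exact (Finset.mem_filter.1 hj).2 i hi
  · apply Nat.mul_le_mul_right
    rw [Finset.card_powersetCard]
    exact Nat.choose_le_two_pow _ _

lemma wsum_le (b : Bal G k K lam x u) (P X : Finset V) (hP : ∀ p ∈ P, G.Adj u p)
    (hX : X ⊆ UU G u) :
    ∑ w ∈ X, dg G P w * x w ≤ (K - 1) * lam + P.card * (2 ^ P.card * K) := by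
  classical
  have h0 : ∑ w ∈ X, dg G P w * x w ≤ ∑ w ∈ UU G u, dg G P w * x w :=
    Finset.sum_le_sum_of_subset_of_nonneg hX
      (fun w _ _ => mul_nonneg (dg_nonneg _ _) (b.sit.x0 w))
  refine h0.trans ?_
  have hPc : (0 : ℝ) ≤ (P.card : ℝ) := Nat.cast_nonneg _
  have h1 : ∀ w ∈ UU G u, dg G P w * x w ≤ (K - 1) * x w +
      (if k ≤ (P.filter (G.Adj w)).card then (P.card : ℝ) else 0) := by
    intro w _
    have h2 := b.sit.x0 w
    have h3 := b.sit.x1 w
    split_ifs with h
    · have h4 : dg G P w ≤ P.card := by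
        rw [dg_card]
        exact_mod_cast Finset.card_filter_le _ _
      have h5 : dg G P w * x w ≤ P.card * x w := mul_le_mul_of_nonneg_right h4 h2
      have h6 : (P.card : ℝ) * x w ≤ P.card * 1 := mul_le_mul_of_nonneg_left h3 hPc
      have h7 : 0 ≤ (K - 1) * x w := mul_nonneg (by linarith [b.K2]) h2
      linarith
    · have h4 : dg G P w ≤ K - 1 := by
        rw [dg_card, b.hK]
        have h5 : (P.filter (G.Adj w)).card + 1 ≤ k := by omega
        have h6 : ((P.filter (G.Adj w)).card : ℝ) + 1 ≤ k := by exact_mod_cast h5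
        linarith
      have h5 := mul_le_mul_of_nonneg_right h4 h2
      linarith
  refine (Finset.sum_le_sum h1).trans ?_
  rw [Finset.sum_add_distrib, ← Finset.mul_sum, b.sumU, ← Finset.sum_filter, Finset.sum_const,
    nsmul_eq_mul]
  have h2 := bad_card (G := G) (u := u) k b.free P hP
  have h3 : ((((UU G u).filter (fun w => k ≤ (P.filter (G.Adj w)).card)).card : ℕ) : ℝ) ≤
      2 ^ P.card * K := by
    rw [b.hK]
    exact_mod_cast h2
  have h4 := mul_le_mul_of_nonneg_left h3 hPc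
  linarith

/-- the assumptions of the main case -/
structure Poor (G : SimpleGraph V) [DecidableRel G.Adj] (k : ℕ) (K lam : ℝ) (x : V → ℝ) (u : V)
    (B : ℝ) : Prop where
  b : Bal G k K lam x u
  hB : B = 2 ^ (4 * k)
  big : 10 ^ 10 * K ^ 10 * B ≤ lam
  poor : ∀ w, ∑ v ∈ far G u, ad G w v * x v < lam / (4 * K)

open Classical in
/-- heavy neighbours of `u` -/
noncomputable def PP (G : SimpleGraph V) [DecidableRel G.Adj] (x : V → ℝ) (u : V) : Finset V :=
  (UU G u).filter (fun w => 1 / 2 ≤ x w)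

lemma mem_PP (w : V) : w ∈ PP G x u ↔ G.Adj u w ∧ 1 / 2 ≤ x w := by simp [PP, mem_UU]

namespace Poor

variable {B : ℝ}

lemma B1 (p : Poor G k K lam x u B) : 1 ≤ B := by
  rw [p.hB]
  exact one_le_pow₀ (by norm_num)

lemma pw (p : Poor G k K lam x u B) (j : ℕ) (hj : j ≤ 10) : 10 ^ 10 * K ^ j * B ≤ lam := by
  have h1 : K ^ j ≤ K ^ 10 := pow_le_pow_right₀ (by linarith [p.b.K2]) hj
  have h2 := p.big
  have h3 := mul_le_mul_of_nonneg_right h1 (by linarith [p.B1] : (0:ℝ) ≤ B)
  linarith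

lemma quarter (p : Poor G k K lam x u B) : lam / (4 * K) ≤ lam / 8 := by
  have := p.b.K2
  apply div_le_div_of_nonneg_left p.b.lpos.le (by norm_num)
  linarith

lemma NU (p : Poor G k K lam x u B) (w : V) :
    lam * x w - 1 - lam / (4 * K) ≤ ∑ w' ∈ UU G u, ad G w w' * x w' := by
  have h1 := p.b.rowsplit w
  have h2 := ad_le_one G w u
  have h3 := p.poor w
  linarith

/-- bounded number of heavy neighbours -/
lemma P_lt (p : Poor G k K lam x u B) : (PP G x u).card < 4 * k := by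
  by_contra hcon
  push Not at hcon
  obtain ⟨P, hP, hPc⟩ := Finset.exists_subset_card_eq hcon
  have hPu : ∀ q ∈ P, G.Adj u q := fun q hq => ((mem_PP q).1 (hP hq)).1
  have h1 := wsum_le p.b P (UU G u) hPu subset_rfl
  have h2 : ∑ w ∈ UU G u, dg G P w * x w = ∑ q ∈ P, ∑ w ∈ UU G u, ad G q w * x w := by
    rw [Finset.sum_comm]
    apply Finset.sum_congr rfl
    intro w _
    unfold dg
    rw [Finset.sum_mul]
    exact Finset.sum_congr rfl (fun q _ => by rw [ad_symm])
  have h3 : ∑ q ∈ P, (3 / 8 * lam - 1) ≤ ∑ q ∈ P, ∑ w ∈ UU G u, ad G q w * x w := by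
    apply Finset.sum_le_sum
    intro q hq
    have h4 := p.NU q
    have h5 := p.quarter
    have h6 : lam * (1 / 2) ≤ lam * x q :=
      mul_le_mul_of_nonneg_left ((mem_PP q).1 (hP hq)).2 p.b.lpos.le
    linarith
  rw [Finset.sum_const, nsmul_eq_mul, hPc] at h3
  rw [hPc, ← p.hB, h2] at h1
  push_cast at h1 h3
  rw [← p.b.hK] at h1 h3
  have h4 := p.pw 2 (by norm_num)
  have hB := p.B1
  have hK := p.b.K2
  have h5 : 0 ≤ K ^ 2 * B := by positivity
  have h6 : 0 < lam := p.b.lpos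
  have h7 : 4 * K * (B * K) = 4 * (K ^ 2 * B) := by ring
  have h8 : 4 * K * (3 / 8 * lam - 1) = 3 / 2 * (K * lam) - 4 * K := by ring
  rw [h7] at h1
  rw [h8] at h3
  have h9 : 10 ^ 10 * (K ^ 2 * B) ≤ lam := by linarith
  have h10 : 4 * K ≤ K * lam / 2 := by
    have := p.pw 0 (by norm_num)
    nlinarith
  nlinarith

/-- the weighted defects are bounded -/
lemma defect (p : Poor G k K lam x u B) (c : ℕ) (hc : (PP G x u).card = c) :
    q2 G x (PP G x u) (rst G u (PP G x u)) +
      (q2 G x (far G u) (PP G x u) + q2 G x (far G u) (rst G u (PP G x u))) +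
      EE G (far G u) (far G u) / 2 ≤ 13 * K ^ 2 * B ∧ K - 1 ≤ c := by
  have hlt := p.P_lt
  rw [hc] at hlt
  have hPu : ∀ q ∈ PP G x u, G.Adj u q := fun q hq => ((mem_PP q).1 hq).1
  have hst := star p.b.sit (PP G x u) hPu
  rw [q1_eq] at hst
  have hsum := sum_U p.b.sit (PP G x u) hPu
  set P := PP G x u with hP
  set Q := rst G u P with hQ
  set W := far G u with hW
  have hcR : (c : ℝ) ≤ 4 * K := by
    rw [p.b.hK]
    have : c ≤ 4 * k := by omega
    exact_mod_cast this
  have hc0 : (0 : ℝ) ≤ c := Nat.cast_nonneg _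
  have hXX : ∀ A : Finset V, XX G x A A ≤ EE G A A := by
    intro A
    rw [XX_self, EE_eq]
    apply Finset.sum_le_sum
    intro v _
    have h1 := dg_nonneg (G := G) A v
    have h2 := p.b.sit.x1 v
    nlinarith
  have hPP : EE G P P ≤ c ^ 2 := by
    rw [EE_eq]
    have h1 : ∑ v ∈ P, dg G P v ≤ ∑ v ∈ P, (c : ℝ) := by
      apply Finset.sum_le_sum
      intro v hv
      have := dg_self_le (G := G) P v hv
      rw [hc] at this
      linarith
    rw [Finset.sum_const, nsmul_eq_mul, hc] at h1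
    linarith
  have hQQ : XX G x Q Q - EE G Q Q / 2 ≤ 0 := by
    rw [XX_self, EE_eq, Finset.sum_div, ← Finset.sum_sub_distrib]
    apply Finset.sum_nonpos
    intro q hq
    have h1 := dg_nonneg (G := G) Q q
    rw [hQ, mem_rst, hP, mem_PP, not_and] at hq
    have h2 := hq.2 hq.1
    push Not at h2
    nlinarith
  have hq2 := q2_nonneg p.b.sit P Q
  have hq3a := q2_nonneg p.b.sit W P
  have hq3b := q2_nonneg p.b.sit W Q
  have hq4 := EE_nonneg (G := G) W W
  have hq1 := q1_nonneg p.b.sit P Q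
  rw [q1_eq] at hq1
  have hsP : 0 ≤ ∑ v ∈ P, x v := Finset.sum_nonneg (fun v _ => p.b.sit.x0 v)
  have hsQ : 0 ≤ ∑ v ∈ Q, x v := Finset.sum_nonneg (fun v _ => p.b.sit.x0 v)
  have hlow := p.b.low
  have hK := p.b.K2
  have hB := p.B1
  rw [hc] at hst hq1
  have hXQ : XX G x P Q = ∑ w ∈ Q, dg G P w * x w := by
    unfold XX dg
    rw [Finset.sum_comm]
    apply Finset.sum_congr rfl
    intro w _
    rw [Finset.sum_mul]
    exact Finset.sum_congr rfl (fun q _ => by rw [ad_symm])
  have hws := wsum_le p.b P Q hPu (by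
    intro w hw
    rw [hQ, mem_rst] at hw
    exact (mem_UU w).2 hw.1)
  rw [← hXQ, hc] at hws
  have h2c : (2 : ℝ) ^ c ≤ B := by
    rw [p.hB]
    exact pow_le_pow_right₀ (by norm_num) (by omega)
  have hbad : (c : ℝ) * (2 ^ c * K) ≤ 4 * K ^ 2 * B := by
    have h1 : (2 : ℝ) ^ c * K ≤ B * K := mul_le_mul_of_nonneg_right h2c (by linarith)
    calc (c : ℝ) * (2 ^ c * K) ≤ c * (B * K) := mul_le_mul_of_nonneg_left h1 hc0
      _ ≤ 4 * K * (B * K) := mul_le_mul_of_nonneg_right hcR (by positivity)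
      _ = 4 * K ^ 2 * B := by ring
  have hcc : (c : ℝ) ^ 2 ≤ 16 * K ^ 2 := by nlinarith
  have h1 := hXX P
  have hKB : K ^ 2 ≤ K ^ 2 * B := by
    have : 0 ≤ K ^ 2 := by positivity
    nlinarith
  constructor
  · have e1 : (c : ℝ) * (lam - ∑ s ∈ P, x s) = c * ∑ t ∈ Q, x t := by
      congr 1; linarith
    rw [e1] at hst
    linarith
  · by_contra hcon
    push Not at hcon
    have hck : c + 2 ≤ k := by
      have h2 : (c : ℝ) + 1 < k := by rw [← p.b.hK]; linarith
      have h3 : c + 1 < k := by exact_mod_cast h2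
      omega
    have hck' : (c : ℝ) + 2 ≤ K := by rw [p.b.hK]; exact_mod_cast hck
    have hl := p.b.lpos
    have h4 : (c : ℝ) * (lam - ∑ s ∈ P, x s) ≤ (K - 2) * lam := by
      have h5 : (c : ℝ) * (lam - ∑ s ∈ P, x s) ≤ c * lam :=
        mul_le_mul_of_nonneg_left (by linarith) hc0
      have h6 : (c : ℝ) * lam ≤ (K - 2) * lam := mul_le_mul_of_nonneg_right (by linarith) hl.le
      linarith
    have h5 := p.pw 2 (by norm_num)
    have h6 : 10 ^ 10 * K ^ 2 ≤ 10 ^ 10 * K ^ 2 * B := by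
      have : 0 ≤ 10 ^ 10 * K ^ 2 := by positivity
      nlinarith
    have hKp : 0 < K ^ 2 := by positivity
    linarith

/-- the number of heavy neighbours -/
lemma main (p : Poor G k K lam x u B) : (PP G x u).card + 1 = k ∧
    ∀ s ∈ PP G x u, lam / 4 ≤ dg G (rst G u (PP G x u)) s := by
  have hlt := p.P_lt
  obtain ⟨c, hc⟩ : ∃ c, (PP G x u).card = c := ⟨_, rfl⟩
  obtain ⟨hd, hge⟩ := p.defect c hc
  have hPu : ∀ q ∈ PP G x u, G.Adj u q := fun q hq => ((mem_PP q).1 hq).1
  set P := PP G x u with hP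
  set Q := rst G u P with hQ
  set W := far G u with hW
  have hK := p.b.K2
  have hB := p.B1
  have hl := p.b.lpos
  have hq3a := q2_nonneg p.b.sit W P
  have hq3b := q2_nonneg p.b.sit W Q
  have hq4 := EE_nonneg (G := G) W W
  have hKp : 0 < K ^ 2 := by positivity
  have h2 := p.pw 2 (by norm_num)
  have h3 := p.pw 3 (by norm_num)
  have h1 := p.pw 1 (by norm_num)
  have hKB1 : K ≤ K ^ 1 * B := by nlinarith
  have hKB : K ^ 2 ≤ K ^ 2 * B := by nlinarith
  have hcR : (c : ℝ) ≤ 4 * K := by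
    rw [p.b.hK]
    have : c ≤ 4 * k := by omega
    exact_mod_cast this
  have hsplit : ∀ f : V → ℝ, ∑ w ∈ UU G u, f w = ∑ w ∈ P, f w + ∑ w ∈ Q, f w := by
    intro f
    have h4 : UU G u = P ∪ Q := by
      ext w
      rw [mem_UU, Finset.mem_union, hQ, mem_rst]
      constructor
      · intro h
        by_cases h5 : w ∈ P
        · exact Or.inl h5
        · exact Or.inr ⟨h, h5⟩
      · rintro (h | h)
        · exact hPu w h
        · exact h.1
    rw [h4, Finset.sum_union]
    rw [Finset.disjoint_left]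
    intro a ha hb
    rw [hQ, mem_rst] at hb
    exact hb.2 ha
  have hdg : ∀ s ∈ P, lam / 4 ≤ dg G Q s := by
    intro s hs
    have h4 := p.NU s
    have h5 := p.quarter
    have h6 : lam * (1 / 2) ≤ lam * x s :=
      mul_le_mul_of_nonneg_left ((mem_PP s).1 hs).2 hl.le
    rw [hsplit] at h4
    have h7 : ∑ w ∈ P, ad G s w * x w ≤ c := by
      calc ∑ w ∈ P, ad G s w * x w ≤ ∑ w ∈ P, (1 : ℝ) :=
            Finset.sum_le_sum (fun w _ => mul_le_one₀ (ad_le_one G _ _) (p.b.sit.x0 w)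
              (p.b.sit.x1 w))
        _ = c := by rw [← hc]; simp
    have h8 := p.b.sum_ad_le Q s
    linarith
  refine ⟨?_, hdg⟩
  rw [hc]
  -- heavy entries are close to one
  have hx : ∀ s ∈ P, lam * (1 - x s) ≤ 52 * K ^ 2 * B := by
    intro s hs
    have h4 : dg G Q s * (1 - x s) ≤ q2 G x P Q := by
      rw [q2_dg]
      exact Finset.single_le_sum (f := fun s => dg G Q s * (1 - x s))
        (fun s _ => mul_nonneg (dg_nonneg _ _) (by have := p.b.sit.x1 s; linarith)) hs
    have h5 : lam / 4 * (1 - x s) ≤ dg G Q s * (1 - x s) :=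
      mul_le_mul_of_nonneg_right (hdg s hs) (by have := p.b.sit.x1 s; linarith)
    linarith
  have hMM : ∀ s ∈ P, MM G x u s ≤ 53 * K ^ 2 * B + lam / (4 * K) := by
    intro s hs
    have h4 := p.b.MM_eq s
    have h5 := p.NU s
    have h6 := hx s hs
    have h7 : 4 ≤ K ^ 2 := by nlinarith
    linarith
  by_contra hcon
  have hge' : k ≤ c := by
    have h4 : (k : ℝ) ≤ c + 1 := by rw [← p.b.hK]; linarith
    have h5 : k ≤ c + 1 := by exact_mod_cast h4
    omega
  rw [← hc] at hge'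
  obtain ⟨I, hI, hIc⟩ := Finset.exists_subset_card_eq hge'
  have h4 := common_card (G := G) I (UU G u) x p.b.sit.x0 p.b.sit.x1
  rw [p.b.sumU] at h4
  have h5 : ∑ i ∈ I, ∑ z ∈ UU G u, (1 - ad G i z) * x z ≤ K * (53 * K ^ 2 * B + lam / (4 * K)) := by
    have h6 : ∑ i ∈ I, ∑ z ∈ UU G u, (1 - ad G i z) * x z ≤
        ∑ i ∈ I, (53 * K ^ 2 * B + lam / (4 * K)) :=
      Finset.sum_le_sum (fun i hi => hMM i (hI hi))
    rw [Finset.sum_const, nsmul_eq_mul, hIc, ← p.b.hK] at h6
    exact h6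
  have h6 : K * (53 * K ^ 2 * B + lam / (4 * K)) = 53 * (K ^ 3 * B) + lam / 4 := by
    field_simp
    try ring
  rw [h6] at h5
  have h7 : ((k + 1 : ℕ) : ℝ) ≤
      (((UU G u).filter (fun z => ∀ i ∈ I, G.Adj i z)).card : ℝ) := by
    push_cast
    rw [← p.b.hK]
    have h8 : K ^ 1 * B = K * B := by ring
    linarith
  have h8 : k + 1 ≤ ((UU G u).filter (fun z => ∀ i ∈ I, G.Adj i z)).card := by exact_mod_cast h7
  apply p.b.free
  apply fan_K G k u I _ hIc h8 (fun i hi => hPu i (hI hi))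
  · intro j hj
    exact (mem_UU j).1 (Finset.mem_filter.1 hj).1
  · intro i hi j hj
    exact (Finset.mem_filter.1 hj).2 i hi

end Poor

end Pool.Agent.Helper951.FanJ
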