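import Mathlib
import Pool.Agent.Helper951.FrA
import Pool.Agent.Helper951.FrD

set_option autoImplicit false

open Finset

namespace Pool.Agent.Helper951.FrE

open Pool.Agent.Helper951.Defs Pool.Agent.Helper951.Spec Pool.Agent.Helper951.FrB
open Pool.Agent.Helper951.Core Pool.Agent.Helper951.FrC Pool.Agent.Helper951.FrD
open Pool.Agent.Helper951.FrA

variable {V : Type*} [Fintype V] [DecidableEq V] {G : SimpleGraph V} [DecidableRel G.Adj]
variable {lam : ℝ} {x : V → ℝ} {u : V}

/-- the neighbours of `u` that have at least `2k` common neighbours with `u` -/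
def big (G : SimpleGraph V) [DecidableRel G.Adj] (k : ℕ) (u : V) : Finset V :=
  univ.filter (fun s => G.Adj u s ∧ 2 * k ≤ (cn G u s).card)

lemma mem_big (k : ℕ) (s : V) : s ∈ big G k u ↔ G.Adj u s ∧ 2 * k ≤ (cn G u s).card := by
  simp [big]

lemma big_card (k : ℕ) (hk : 1 ≤ k) (hfree : ¬ (friendship k).IsContained G) :
    (big G k u).card + 1 ≤ k := by
  by_contra hcon
  push Not at hcon
  obtain ⟨I, hI, hIc⟩ := Finset.exists_subset_card_eq (show k ≤ (big G k u).card by omega)
  apply hfree
  apply friend_greedy G k u I hIc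
  · intro i hi
    exact ((mem_big k i).1 (hI hi)).1
  · intro i hi
    exact ((mem_big k i).1 (hI hi)).2

/-- degrees inside the neighbourhood -/
lemma dg_cn (S : Finset V) (hS : ∀ s ∈ S, G.Adj u s) (v : V) :
    dg G S v + dg G (rst G u S) v = ((cn G u v).card : ℝ) := by
  rw [dg_card, dg_card, ← Nat.cast_add]
  congr 1
  rw [← Finset.card_union_of_disjoint]
  · congr 1
    ext w
    simp only [mem_union, mem_filter, mem_rst, mem_cn]
    constructor
    · rintro (⟨h1, h2⟩ | ⟨⟨h1, h2⟩, h3⟩)
      · exact ⟨hS w h1, h2⟩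
      · exact ⟨h1, h3⟩
    · rintro ⟨h1, h2⟩
      by_cases h3 : w ∈ S
      · exact Or.inl ⟨h3, h2⟩
      · exact Or.inr ⟨⟨h1, h3⟩, h2⟩
  · rw [Finset.disjoint_left]
    intro w h1 h2
    exact ((mem_rst _ _).1 (mem_filter.1 h2).1).2 (mem_filter.1 h1).1

lemma rst_small (k : ℕ) (t : V) (ht : t ∈ rst G u (big G k u)) : ((cn G u t).card : ℝ) ≤ 2 * k := by
  rw [mem_rst, mem_big] at ht
  have h1 : ¬ (2 * k ≤ (cn G u t).card) := fun h => ht.2 ⟨ht.1, h⟩
  have h2 : (cn G u t).card ≤ 2 * k := by omega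
  exact_mod_cast h2

/-- few edges among the remaining neighbours -/
lemma rst_edges (k : ℕ) (hk : 1 ≤ k) (hfree : ¬ (friendship k).IsContained G) :
    EE G (rst G u (big G k u)) (rst G u (big G k u)) ≤ 8 * (k : ℝ) ^ 2 := by
  set T := rst G u (big G k u) with hT
  have hTu : ∀ t ∈ T, G.Adj u t := rst_adj _
  have hSu : ∀ s ∈ big G k u, G.Adj u s := fun s hs => ((mem_big k s).1 hs).1
  rcases matching_or_cover G T k with ⟨a, b, ha, hb, hab, haT, hbT, hadj⟩ | ⟨C, hC, hCT, hcov⟩
  · exfalso
    exact hfree (friend_of G k u a b ha hb hab (fun i => hTu _ (haT i))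
      (fun i => hTu _ (hbT i)) hadj)
  · have h1 : EE G T T ≤ 2 * EE G C T := by
      have h2 : EE G T T ≤ ∑ v ∈ T, ∑ w ∈ T,
          ((if v ∈ C then ad G v w else 0) + (if w ∈ C then ad G v w else 0)) := by
        unfold EE
        apply Finset.sum_le_sum
        intro v hv
        apply Finset.sum_le_sum
        intro w hw
        by_cases hvw : G.Adj v w
        · rcases hcov v hv w hw hvw with h3 | h3
          · rw [if_pos h3]
            have := ad_nonneg G v w
            split_ifs <;> linarith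
          · rw [if_pos h3]
            have := ad_nonneg G v w
            split_ifs <;> linarith
        · rw [ad_not G _ _ hvw]
          simp
      have h3 : ∑ v ∈ T, ∑ w ∈ T, (if v ∈ C then ad G v w else 0) = EE G C T := by
        unfold EE
        rw [← Finset.sum_subset hCT]
        · apply Finset.sum_congr rfl
          intro v hv
          exact Finset.sum_congr rfl (fun w _ => if_pos hv)
        · intro v _ hv
          exact Finset.sum_eq_zero (fun w _ => if_neg hv)
      have h4 : ∑ v ∈ T, ∑ w ∈ T, (if w ∈ C then ad G v w else 0) = EE G C T := by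
        rw [Finset.sum_comm, ← h3]
        apply Finset.sum_congr rfl
        intro v _
        apply Finset.sum_congr rfl
        intro w _
        rw [ad_symm]
      have h5 : ∑ v ∈ T, ∑ w ∈ T,
          ((if v ∈ C then ad G v w else 0) + (if w ∈ C then ad G v w else 0)) =
          2 * EE G C T := by
        simp only [Finset.sum_add_distrib]
        rw [h3, h4]
        ring
      linarith
    have h2 : EE G C T ≤ ∑ c ∈ C, (2 * (k : ℝ)) := by
      rw [EE_eq]
      apply Finset.sum_le_sum
      intro c hc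
      have h3 := dg_cn (G := G) (u := u) (big G k u) hSu c
      have h4 := rst_small k c (hCT hc)
      have h5 := dg_nonneg (G := G) (big G k u) c
      linarith
    rw [Finset.sum_const, nsmul_eq_mul] at h2
    have h3 : (C.card : ℝ) ≤ 2 * k := by
      have : C.card ≤ 2 * k := by omega
      exact_mod_cast this
    have hk0 : (0 : ℝ) ≤ k := Nat.cast_nonneg _
    nlinarith

/-- there are exactly `k - 1` big vertices -/
lemma big_card_eq (h : Sit G lam x u) (k : ℕ) (hk : 2 ≤ k)
    (hfree : ¬ (friendship k).IsContained G) (c0 : ℝ) (hc1 : c0 ≤ (k : ℝ) / 4)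
    (hlam : 100 * (k : ℝ) ^ 4 ≤ lam)
    (hlow : EE G univ univ / 2 - (k : ℝ) * (k - 1) / 2 - c0 ≤ lam ^ 2 - (k - 1) * lam) :
    (big G k u).card + 1 = k := by
  have h0 := big_card (G := G) (u := u) k (by omega) hfree
  by_contra hcon
  set S := big G k u with hS
  have hSu : ∀ s ∈ S, G.Adj u s := fun s hs => ((mem_big k s).1 hs).1
  have hcard : (S.card : ℝ) + 2 ≤ k := by
    have : S.card + 2 ≤ k := by omega
    exact_mod_cast this
  have hst := star h S hSu
  set T := rst G u S with hT
  have hK : (2 : ℝ) ≤ k := by exact_mod_cast hk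
  have hq1 := q1_nonneg h S T
  have hq2 := q2_nonneg h S T
  have hq3a := q2_nonneg h (far G u) S
  have hq3b := q2_nonneg h (far G u) T
  have hq4 := EE_nonneg (G := G) (far G u) (far G u)
  have hTT := rst_edges (G := G) (u := u) k (by omega) hfree
  rw [← hS, ← hT] at hTT
  have hXX : ∀ A : Finset V, XX G x A A ≤ EE G A A := by
    intro A
    rw [XX_self, EE_eq]
    apply Finset.sum_le_sum
    intro v _
    have h1 := dg_nonneg (G := G) A v
    have h2 := h.x1 v
    nlinarith
  have hSS : EE G S S ≤ (k : ℝ) ^ 2 := by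
    rw [EE_eq]
    have h1 : ∑ v ∈ S, dg G S v ≤ ∑ v ∈ S, (k : ℝ) := by
      apply Finset.sum_le_sum
      intro v hv
      have := dg_self_le (G := G) S v hv
      linarith
    rw [Finset.sum_const, nsmul_eq_mul] at h1
    nlinarith
  have h1 := hXX S
  have h2 := hXX T
  have hlam0 : 0 ≤ lam := by
    have : (0 : ℝ) ≤ (k : ℝ) ^ 4 := by positivity
    linarith
  have hSx : 0 ≤ ∑ s ∈ S, x s := Finset.sum_nonneg (fun s _ => h.x0 s)
  have hcn : (0 : ℝ) ≤ S.card := Nat.cast_nonneg _
  have h3 : (S.card : ℝ) * (lam - ∑ s ∈ S, x s) ≤ (k - 2) * lam := by nlinarith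
  have hk4 : (k : ℝ) ^ 2 * 4 ≤ (k : ℝ) ^ 4 := by
    nlinarith [mul_nonneg (by linarith : (0:ℝ) ≤ (k : ℝ) - 2) (by positivity : (0:ℝ) ≤ (k : ℝ) ^ 3),
      mul_nonneg (by linarith : (0:ℝ) ≤ (k : ℝ) - 2) (by positivity : (0:ℝ) ≤ (k : ℝ) ^ 2)]
  nlinarith

/-- no edges among the remaining neighbours -/
lemma rst_indep (k : ℕ) (hcard : (big G k u).card + 1 = k)
    (hfree : ¬ (friendship k).IsContained G) :
    ∀ t1 ∈ rst G u (big G k u), ∀ t2 ∈ rst G u (big G k u), ¬ G.Adj t1 t2 := by
  intro t1 h1 t2 h2 h12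
  rw [mem_rst] at h1 h2
  apply hfree
  exact friend_greedy' G k u (big G k u) hcard (fun i hi => ((mem_big k i).1 hi).1)
    (fun i hi => ((mem_big k i).1 hi).2) t1 t2 h1.1 h2.1 h12 h1.2 h2.2

end Pool.Agent.Helper951.FrE
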