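import Mathlib
import Pool.Agent.Helper951.FrE

set_option autoImplicit false

open Finset

namespace Pool.Agent.Helper951.FrF

open Pool.Agent.Helper951.Defs Pool.Agent.Helper951.Spec Pool.Agent.Helper951.FrB
open Pool.Agent.Helper951.Core Pool.Agent.Helper951.FrC Pool.Agent.Helper951.FrD
open Pool.Agent.Helper951.FrA

variable {V : Type*} [Fintype V] [DecidableEq V] {G : SimpleGraph V} [DecidableRel G.Adj]
variable {lam : ℝ} {x : V → ℝ} {u : V}

/-- many common neighbours -/
lemma cn_ge (h : Sit G lam x u) (k : ℕ) (T : Finset V) (s i : V)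
    (hT : lam - k ≤ ∑ t ∈ T, x t) (hs : ∑ t ∈ T, (1 - ad G s t) * x t ≤ k)
    (hi : ∑ t ∈ T, (1 - ad G i t) * x t ≤ k) (hlam : 5 * (k : ℝ) ≤ lam) :
    2 * k ≤ (cn G s i).card := by
  have h1 : ∑ t ∈ T, x t - ∑ t ∈ T, (1 - ad G s t) * x t - ∑ t ∈ T, (1 - ad G i t) * x t ≤
      ((cn G s i).card : ℝ) := by
    have h2 : ((cn G s i).card : ℝ) = ∑ t, (if G.Adj s t ∧ G.Adj i t then (1 : ℝ) else 0) := by
      rw [Finset.sum_boole]; rfl
    have h3 : ∑ t ∈ T, (if G.Adj s t ∧ G.Adj i t then (1 : ℝ) else 0) ≤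
        ∑ t, (if G.Adj s t ∧ G.Adj i t then (1 : ℝ) else 0) :=
      Finset.sum_le_sum_of_subset_of_nonneg (Finset.subset_univ _)
        (fun t _ _ => by split_ifs <;> norm_num)
    rw [h2, ← Finset.sum_sub_distrib, ← Finset.sum_sub_distrib]
    refine le_trans ?_ h3
    apply Finset.sum_le_sum
    intro t _
    have h4 := h.x0 t
    have h5 := h.x1 t
    unfold ad
    by_cases h6 : G.Adj s t <;> by_cases h7 : G.Adj i t <;> simp [h6, h7] <;> linarith
  have h2 : ((2 * k : ℕ) : ℝ) ≤ ((cn G s i).card : ℝ) := by push_cast; linarith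
  exact_mod_cast h2

/-- no heavy vertex outside the neighbourhood of `u` -/
lemma no_heavy (h : Sit G lam x u) (k : ℕ) (hk : 3 ≤ k) (S : Finset V)
    (hS : ∀ s ∈ S, G.Adj u s) (hcard : S.card + 1 = k)
    (hfree : ∀ s : V, ∀ I : Finset V, I.card = k → (∀ i ∈ I, G.Adj s i) →
      (∀ i ∈ I, 2 * k ≤ (cn G s i).card) → False)
    (hlam : 100 * (k : ℝ) ^ 4 ≤ lam)
    (hR : (((k : ℝ) - 1) * (k - 2) - EE G S S) / 2 + q1 G x S (rst G u S)
      + q2 G x S (rst G u S) / 2
      + (q2 G x (far G u) S + q2 G x (far G u) (rst G u S)) + EE G (far G u) (far G u) / 2 ≤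
      (k : ℝ) / 4) :
    ∀ w ∈ far G u, x w < 1 / 2 := by
  intro w0 hw0
  by_contra hcon
  push Not at hcon
  obtain ⟨K, hKdef⟩ : ∃ K : ℝ, K = k := ⟨_, rfl⟩
  have hK : (3 : ℝ) ≤ K := by rw [hKdef]; exact_mod_cast hk
  rw [← hKdef] at hlam hR
  have hcardK : (S.card : ℝ) = K - 1 := by
    have : (S.card : ℝ) + 1 = K := by rw [hKdef]; exact_mod_cast hcard
    linarith
  have hK4 : 9 * K ^ 2 ≤ K ^ 4 := by
    nlinarith [mul_nonneg (by linarith : (0:ℝ) ≤ K - 3) (by positivity : (0:ℝ) ≤ K ^ 3),
      mul_nonneg (by linarith : (0:ℝ) ≤ K - 3) (by positivity : (0:ℝ) ≤ K ^ 2)]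
  have hl2 : 900 * K ^ 2 ≤ lam := by linarith
  have hK2 : 3 * K ≤ K ^ 2 := by nlinarith
  have hl1 : 2700 * K ≤ lam := by linarith
  have hlampos : 0 < lam := by linarith
  set T := rst G u S with hT
  set W := far G u with hW
  have hd1 : 0 ≤ (K - 1) * (K - 2) - EE G S S := by
    have h1 : EE G S S ≤ ∑ s ∈ S, (K - 2) := by
      rw [EE_eq]
      apply Finset.sum_le_sum
      intro s hs
      have := dg_self_le (G := G) S s hs
      linarith
    rw [Finset.sum_const, nsmul_eq_mul, hcardK] at h1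
    linarith
  have hq1 := q1_nonneg h S T
  have hq2 := q2_nonneg h S T
  have hq3a := q2_nonneg h W S
  have hq3b := q2_nonneg h W T
  have hWW := EE_nonneg (G := G) W W
  have hq1' : q1 G x S T ≤ K / 4 := by linarith
  have hq2' : q2 G x S T ≤ K / 2 := by linarith
  have hWW' : EE G W W ≤ K / 2 := by linarith
  have hq3' : q2 G x W S + q2 G x W T ≤ K / 4 := by linarith
  have hSx : ∑ s ∈ S, x s ≤ K - 1 := by
    calc ∑ s ∈ S, x s ≤ ∑ s ∈ S, (1:ℝ) := Finset.sum_le_sum (fun s _ => h.x1 s)
      _ = K - 1 := by rw [Finset.sum_const, nsmul_eq_mul, mul_one, hcardK]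
  have hsum := sum_U h S hS
  rw [← hT] at hsum
  have hSrow : ∀ s ∈ S, ∑ t ∈ T, (1 - ad G s t) * x t ≤ K / 4 := by
    intro s hs
    refine le_trans ?_ hq1'
    unfold q1
    exact Finset.single_le_sum (f := fun s => ∑ t ∈ T, (1 - ad G s t) * x t)
      (fun s _ => Finset.sum_nonneg (fun t _ =>
        mul_nonneg (by have := ad_le_one G s t; linarith) (h.x0 t))) hs
  have hcomp : ∀ (A : Finset V) (v : V), ∑ t ∈ A, (1 - ad G v t) * x t =
      ∑ t ∈ A, x t - ∑ t ∈ A, ad G v t * x t := by
    intro A v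
    rw [← Finset.sum_sub_distrib]
    exact Finset.sum_congr rfl (fun t _ => by ring)
  have hle : ∀ (A : Finset V) (v : V), ∑ w ∈ A, ad G v w * x w ≤ dg G A v := by
    intro A v
    apply Finset.sum_le_sum
    intro w _
    exact mul_le_of_le_one_right (ad_nonneg G v w) (h.x1 w)
  -- the entries of `S` are close to one in total
  have heps : lam * ∑ s ∈ S, (1 - x s) ≤ K := by
    have h1 : ∑ s ∈ S, (lam / 2) * (1 - x s) ≤ q2 G x S T := by
      rw [q2_dg]
      apply Finset.sum_le_sum
      intro s hs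
      have h2 := hSrow s hs
      rw [hcomp] at h2
      have h3 := hle T s
      have h4 := h.x1 s
      have h5 : lam / 2 ≤ dg G T s := by linarith
      exact mul_le_mul_of_nonneg_right h5 (by linarith)
    rw [← Finset.mul_sum] at h1
    linarith
  -- the vertex `w0`
  have hrow0 : lam * x w0 = ∑ s ∈ S, ad G w0 s * x s + ∑ t ∈ T, ad G w0 t * x t
      + ∑ w ∈ W, ad G w0 w * x w := by
    rw [← h.ev w0, split S hS (fun w => ad G w0 w * x w),
      ad_not G w0 u (fun h' => ((mem_far _).1 hw0).2 h'.symm)]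
    ring
  set a := x w0 with ha
  have ha1 : a ≤ 1 := h.x1 w0
  set P := ∑ s ∈ S, ad G w0 s * x s + ∑ t ∈ T, ad G w0 t * x t with hP
  set D := dg G S w0 + dg G T w0 with hD
  have hPD : P ≤ D := add_le_add (hle S w0) (hle T w0)
  have hWrow : ∑ w ∈ W, ad G w0 w * x w ≤ EE G W W :=
    (hle W w0).trans (dg_le_EE W W w0 hw0)
  have hDq : D * (1 - a) ≤ q2 G x W S + q2 G x W T := by
    rw [q2_dg, q2_dg, hD, add_mul]
    apply add_le_add
    · exact Finset.single_le_sum (f := fun w => dg G S w * (1 - x w))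
        (fun w _ => mul_nonneg (dg_nonneg _ _) (by have := h.x1 w; linarith)) hw0
    · exact Finset.single_le_sum (f := fun w => dg G T w * (1 - x w))
        (fun w _ => mul_nonneg (dg_nonneg _ _) (by have := h.x1 w; linarith)) hw0
  have h1a : lam * (1 - a) ≤ K := by
    have h2' : lam * (1 / 2) ≤ lam * a := mul_le_mul_of_nonneg_left hcon hlampos.le
    have h2 : lam / 4 ≤ D := by linarith
    have h3 : lam / 4 * (1 - a) ≤ D * (1 - a) := mul_le_mul_of_nonneg_right h2 (by linarith)
    linarith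
  have hDge : lam - 2 * K ≤ D := by linarith
  have h1a2 : (lam - D) * (1 - a) ≤ 1 / 200 := by
    have h2 : (lam - D) * (1 - a) ≤ 2 * K * (1 - a) :=
      mul_le_mul_of_nonneg_right (by linarith) (by linarith)
    have h3 : lam * (2 * K * (1 - a)) ≤ lam * (1 / 200) := by
      have h4 : 2 * K * (lam * (1 - a)) ≤ 2 * K * K :=
        mul_le_mul_of_nonneg_left h1a (by linarith)
      linarith
    exact h2.trans (le_of_mul_le_mul_left h3 hlampos)
  have hmiss : lam - P ≤ q2 G x W S + q2 G x W T + EE G W W + 1 / 200 := by linarith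
  have hsplit : lam - P = ∑ s ∈ S, (1 - ad G w0 s) * x s + ∑ t ∈ T, (1 - ad G w0 t) * x t := by
    rw [hcomp, hcomp, hP]; linarith
  have hSm : 0 ≤ ∑ s ∈ S, (1 - ad G w0 s) * x s := Finset.sum_nonneg (fun t _ =>
    mul_nonneg (by have := ad_le_one G w0 t; linarith) (h.x0 t))
  have hTm : 0 ≤ ∑ t ∈ T, (1 - ad G w0 t) * x t := Finset.sum_nonneg (fun t _ =>
    mul_nonneg (by have := ad_le_one G w0 t; linarith) (h.x0 t))
  have hepssmall : ∑ s ∈ S, (1 - x s) ≤ 1 / 200 := by
    have h3 : lam * ∑ s ∈ S, (1 - x s) ≤ lam * (1 / 200) := by linarith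
    exact le_of_mul_le_mul_left h3 hlampos
  have hSm2 : (K - 1) - dg G S w0 - 1 / 200 ≤ ∑ s ∈ S, (1 - ad G w0 s) * x s := by
    have h2 : (K - 1) - dg G S w0 = ∑ s ∈ S, (1 - ad G w0 s) := by
      rw [Finset.sum_sub_distrib, Finset.sum_const, nsmul_eq_mul, mul_one, hcardK]
      rfl
    have h3 : ∑ s ∈ S, (1 - ad G w0 s) - ∑ s ∈ S, (1 - x s) ≤
        ∑ s ∈ S, (1 - ad G w0 s) * x s := by
      rw [← Finset.sum_sub_distrib]
      apply Finset.sum_le_sum
      intro s _
      have h4 := mul_nonneg (ad_nonneg G w0 s) (sub_nonneg.2 (h.x1 s))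
      linarith
    linarith
  -- nonadjacent pairs inside `S`
  have huS : u ∉ S := fun hu => (hS u hu).ne rfl
  have hw0S : w0 ∉ S := fun hw => ((mem_far _).1 hw0).2 (hS w0 hw)
  have hSS : ∀ s ∈ S, dg G S s ≤ (K - 2) - ad G w0 s := by
    intro s hs
    by_cases hadj : G.Adj w0 s
    · rw [ad_of G _ _ hadj]
      by_cases hall : ∀ s' ∈ S, s' ≠ s → G.Adj s s'
      · exfalso
        have hTk : lam - (k : ℝ) ≤ ∑ t ∈ T, x t := by rw [← hKdef]; linarith
        have hsk : ∑ t ∈ T, (1 - ad G s t) * x t ≤ (k : ℝ) := by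
          rw [← hKdef]; have := hSrow s hs; linarith
        have hlk : 5 * (k : ℝ) ≤ lam := by rw [← hKdef]; linarith
        apply hfree s (insert w0 (insert u (S.erase s)))
        · rw [Finset.card_insert_of_notMem, Finset.card_insert_of_notMem,
            Finset.card_erase_of_mem hs]
          · have := Finset.card_pos.2 ⟨s, hs⟩
            omega
          · exact fun h' => huS (Finset.mem_of_mem_erase h')
          · intro h'
            rw [Finset.mem_insert] at h'
            rcases h' with h' | h'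
            · exact ((mem_far _).1 hw0).1 h'
            · exact hw0S (Finset.mem_of_mem_erase h')
        · intro i hi
          rw [Finset.mem_insert, Finset.mem_insert] at hi
          rcases hi with rfl | rfl | hi
          · exact hadj.symm
          · exact (hS s hs).symm
          · rw [Finset.mem_erase] at hi
            exact hall i hi.2 hi.1
        · intro i hi
          rw [Finset.mem_insert, Finset.mem_insert] at hi
          rcases hi with rfl | rfl | hi
          · apply cn_ge h k T s _ hTk hsk _ hlk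
            rw [← hKdef]
            linarith
          · apply cn_ge h k T s _ hTk hsk _ hlk
            have h2 : ∑ t ∈ T, (1 - ad G i t) * x t = 0 :=
              Finset.sum_eq_zero (fun t ht => by
                rw [ad_of G i t ((mem_rst _ _).1 ht).1]; ring)
            rw [h2]
            positivity
          · apply cn_ge h k T s _ hTk hsk _ hlk
            rw [← hKdef]
            have := hSrow i (Finset.mem_of_mem_erase hi)
            linarith
      · push Not at hall
        obtain ⟨s', hs', hne, hna⟩ := hall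
        unfold dg
        have hs'e : s' ∈ S.erase s := Finset.mem_erase.2 ⟨hne, hs'⟩
        rw [← Finset.add_sum_erase S _ hs, ad_self, zero_add,
          ← Finset.add_sum_erase (S.erase s) _ hs'e, ad_not G _ _ hna, zero_add]
        calc ∑ w ∈ (S.erase s).erase s', ad G s w ≤ ∑ w ∈ (S.erase s).erase s', (1:ℝ) :=
              Finset.sum_le_sum (fun _ _ => ad_le_one G _ _)
          _ = (((S.erase s).erase s').card : ℝ) := by simp
          _ = K - 2 - 1 := by
              rw [Finset.card_erase_of_mem hs'e, Finset.card_erase_of_mem hs]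
              have h2 : S.card - 1 - 1 + 2 = S.card := by
                have h3 := Finset.card_pos.2 ⟨s', hs'e⟩
                rw [Finset.card_erase_of_mem hs] at h3
                omega
              have h3 : ((S.card - 1 - 1 : ℕ) : ℝ) + 2 = S.card := by exact_mod_cast h2
              linarith
    · rw [ad_not G _ _ hadj]
      have := dg_self_le (G := G) S s hs
      linarith
  have hEE : EE G S S ≤ (K - 1) * (K - 2) - dg G S w0 := by
    rw [EE_eq]
    have h2 : (K - 1) * (K - 2) - dg G S w0 = ∑ s ∈ S, ((K - 2) - ad G w0 s) := by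
      rw [Finset.sum_sub_distrib, Finset.sum_const, nsmul_eq_mul, hcardK]
      rfl
    rw [h2]
    exact Finset.sum_le_sum hSS
  linarith

end Pool.Agent.Helper951.FrF
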