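import Mathlib

set_option autoImplicit false

open Finset

namespace Pool.Agent.Helper951.Lg

/-- size of the `j`-th prefix cut -/
def cutN (n : ℕ) (e : ℕ → ℕ → ℕ) (j : ℕ) : ℕ := ∑ i ∈ range j, ∑ k ∈ Ico j n, e i k

/-- ordered graph with flow bounds -/
structure OG (D n N : ℕ) (e : ℕ → ℕ → ℕ) (x : ℕ → ℝ) (J : ℝ) : Prop where
  le1 : ∀ i k, e i k ≤ 1
  symm : ∀ i k, e i k = e k i
  irr : ∀ i, e i i = 0
  hN : N ≤ n
  deg : ∀ i, i < N → ∑ k ∈ range n, e i k = D
  anti : Antitone x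
  conn : ∀ A ⊆ range n, A.Nonempty → A ≠ range n → ∃ i ∈ A, ∃ k ∈ range n \ A, e i k = 1
  flow : ∀ A ⊆ range N, ∑ i ∈ A, ∑ k ∈ range n \ A, (e i k : ℝ) * (x i - x k) ≤ J

lemma range_sdiff_range (n s : ℕ) : range n \ range s = Ico s n := by
  ext k; simp only [mem_sdiff, mem_range, mem_Ico, not_lt]; tauto

lemma sum_split {M : Type*} [AddCommMonoid M] (f : ℕ → M) {j n : ℕ} (h : j ≤ n) :
    ∑ k ∈ range n, f k = ∑ k ∈ range j, f k + ∑ k ∈ Ico j n, f k :=
  (Finset.sum_range_add_sum_Ico f h).symm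

lemma sum_Ico_split {M : Type*} [AddCommMonoid M] (f : ℕ → M) {i j n : ℕ} (h1 : i ≤ j)
    (h2 : j ≤ n) : ∑ k ∈ Ico i n, f k = ∑ k ∈ Ico i j, f k + ∑ k ∈ Ico j n, f k :=
  (Finset.sum_Ico_consecutive f h1 h2).symm

section basics
variable {D n N : ℕ} {e : ℕ → ℕ → ℕ} {x : ℕ → ℝ} {J : ℝ} (h : OG D n N e x J)
include h

lemma J_nonneg : 0 ≤ J := by
  have := h.flow ∅ (by simp)
  simpa using this

lemma f_ineq (i d : ℕ) (hj : i + d ≤ N) :
    d * (D + 1) ≤ cutN n e i + cutN n e (i + d) + d * d := by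
  have hjn : i + d ≤ n := hj.trans h.hN
  have h1 : ∑ v ∈ Ico i (i + d), ∑ k ∈ range n, e v k = d * D := by
    rw [Finset.sum_congr rfl (fun v hv => h.deg v (by rw [mem_Ico] at hv; omega))]
    simp
  have h2 : ∑ v ∈ Ico i (i + d), ∑ k ∈ range n, e v k =
      ∑ v ∈ Ico i (i + d), ∑ k ∈ range i, e v k +
      ∑ v ∈ Ico i (i + d), ∑ k ∈ Ico i (i + d), e v k +
      ∑ v ∈ Ico i (i + d), ∑ k ∈ Ico (i + d) n, e v k := by
    rw [← Finset.sum_add_distrib, ← Finset.sum_add_distrib]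
    apply Finset.sum_congr rfl
    intro v _
    rw [sum_split (e v) (show i ≤ n by omega),
      sum_Ico_split (e v) (show i ≤ i + d by omega) hjn]
    ring
  have h3 : ∑ v ∈ Ico i (i + d), ∑ k ∈ range i, e v k ≤ cutN n e i := by
    rw [Finset.sum_comm]
    unfold cutN
    apply Finset.sum_le_sum
    intro k _
    rw [sum_Ico_split (e k) (show i ≤ i + d by omega) hjn,
      Finset.sum_congr rfl (fun v _ => h.symm v k)]
    exact Nat.le_add_right _ _
  have h4 : ∑ v ∈ Ico i (i + d), ∑ k ∈ Ico (i + d) n, e v k ≤ cutN n e (i + d) := by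
    unfold cutN
    apply Finset.sum_le_sum_of_subset
    intro v hv
    rw [mem_Ico] at hv
    rw [mem_range]; omega
  have h5 : ∑ v ∈ Ico i (i + d), ∑ k ∈ Ico i (i + d), e v k + d ≤ d * d := by
    have : ∀ v ∈ Ico i (i + d), ∑ k ∈ Ico i (i + d), e v k + 1 ≤ d := by
      intro v hv
      have h6 : ∑ k ∈ Ico i (i + d), e v k = ∑ k ∈ (Ico i (i + d)).erase v, e v k := by
        rw [← Finset.add_sum_erase _ _ hv, h.irr v, zero_add]
      rw [h6]
      have h7 : ∑ k ∈ (Ico i (i + d)).erase v, e v k ≤ ((Ico i (i + d)).erase v).card • 1 :=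
        Finset.sum_le_card_nsmul _ _ _ (fun k _ => h.le1 v k)
      rw [Finset.card_erase_of_mem hv, Nat.card_Ico] at h7
      rw [mem_Ico] at hv
      simp only [smul_eq_mul, mul_one] at h7
      omega
    have h8 := Finset.sum_le_sum this
    rw [Finset.sum_add_distrib] at h8
    simpa using h8
  nlinarith

lemma parity (j : ℕ) (hj : j ≤ N) : (cutN n e j + j * D) % 2 = 0 := by
  have hjn : j ≤ n := hj.trans h.hN
  have h1 : ∑ v ∈ range j, ∑ k ∈ range n, e v k = j * D := by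
    rw [Finset.sum_congr rfl (fun v hv => h.deg v (by rw [mem_range] at hv; omega))]
    simp
  have h2 : ∑ v ∈ range j, ∑ k ∈ range n, e v k =
      ∑ v ∈ range j, ∑ k ∈ range j, e v k + cutN n e j := by
    unfold cutN
    rw [← Finset.sum_add_distrib]
    apply Finset.sum_congr rfl
    intro v _
    rw [sum_split (e v) hjn]
  have h3 : ∀ m : ℕ, (∑ v ∈ range m, ∑ k ∈ range m, e v k) % 2 = 0 := by
    intro m
    induction m with
    | zero => simp
    | succ m ih =>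
      have hs1 : ∑ v ∈ range m, e v m = ∑ k ∈ range m, e m k :=
        Finset.sum_congr rfl (fun v _ => h.symm v m)
      have hs2 : ∑ v ∈ range (m + 1), ∑ k ∈ range (m + 1), e v k =
          ∑ v ∈ range m, ∑ k ∈ range m, e v k + ∑ v ∈ range m, e v m +
          (∑ k ∈ range m, e m k + e m m) := by
        rw [Finset.sum_range_succ, Finset.sum_range_succ, ← Finset.sum_add_distrib]
        congr 1
        apply Finset.sum_congr rfl
        intro v _
        rw [Finset.sum_range_succ]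
      rw [hs2, hs1, h.irr m]
      omega
  have := h3 j
  omega

lemma step (j : ℕ) (hj : j < N) :
    cutN n e (j + 1) + 2 * (∑ i ∈ range j, e i j) = cutN n e j + D := by
  have hjn : j < n := lt_of_lt_of_le hj h.hN
  have h1 := h.deg j hj
  rw [sum_split (e j) hjn.le, Finset.sum_eq_sum_Ico_succ_bot hjn, h.irr j, zero_add] at h1
  have h2 : cutN n e j = ∑ i ∈ range j, e i j + ∑ i ∈ range j, ∑ k ∈ Ico (j + 1) n, e i k := by
    unfold cutN
    rw [← Finset.sum_add_distrib]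
    apply Finset.sum_congr rfl
    intro i _
    rw [Finset.sum_eq_sum_Ico_succ_bot hjn]
  have h3 : cutN n e (j + 1) = ∑ i ∈ range j, ∑ k ∈ Ico (j + 1) n, e i k +
      ∑ k ∈ Ico (j + 1) n, e j k := by
    unfold cutN
    rw [Finset.sum_range_succ]
  have h4 : ∑ i ∈ range j, e j i = ∑ i ∈ range j, e i j :=
    Finset.sum_congr rfl (fun i _ => h.symm j i)
  omega

lemma flow_prefix (s : ℕ) (hs : s ≤ N) :
    ∑ i ∈ range s, ∑ k ∈ Ico s n, (e i k : ℝ) * (x i - x k) ≤ J := by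
  have := h.flow (range s) (by intro i; simp only [mem_range]; omega)
  rwa [range_sdiff_range] at this

lemma cut_pos (j : ℕ) (h0 : 0 < j) (hj : j < n) : 1 ≤ cutN n e j := by
  obtain ⟨i, hi, k, hk, hik⟩ := h.conn (range j)
    (by intro i; simp only [mem_range]; omega) ⟨0, by simpa using h0⟩
    (by intro hc; have : j ∈ range j := by rw [hc]; simpa using hj
        simp at this)
  rw [range_sdiff_range] at hk
  unfold cutN
  calc 1 = e i k := hik.symm
    _ ≤ ∑ k ∈ Ico j n, e i k := Finset.single_le_sum (f := fun k => e i k) (fun _ _ => Nat.zero_le _) hk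
    _ ≤ _ := Finset.single_le_sum (f := fun i => ∑ k ∈ Ico j n, e i k)
      (fun _ _ => Nat.zero_le _) hi

end basics

lemma cut_swap (n r0 r1 : ℕ) (hr1 : r1 ≤ n) (w : ℕ → ℝ) (hw : ∀ s, s ∉ Icc r0 r1 → w s = 0)
    (F : ℕ → ℕ → ℝ) :
    ∑ s ∈ Icc r0 r1, w s * ∑ i ∈ range s, ∑ k ∈ Ico s n, F i k =
      ∑ i ∈ range n, ∑ k ∈ range n, (∑ s ∈ Ioc i k, w s) * F i k := by
  have h1 : ∀ s ∈ Icc r0 r1, w s * ∑ i ∈ range s, ∑ k ∈ Ico s n, F i k =
      ∑ i ∈ range n, ∑ k ∈ range n, if i < s ∧ s ≤ k then w s * F i k else 0 := by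
    intro s hs
    rw [mem_Icc] at hs
    have hsn : s ≤ n := hs.2.trans hr1
    rw [sum_split _ hsn]
    have hz : ∑ i ∈ Ico s n, ∑ k ∈ range n, (if i < s ∧ s ≤ k then w s * F i k else 0) = 0 := by
      apply Finset.sum_eq_zero
      intro i hi
      apply Finset.sum_eq_zero
      intro k _
      rw [mem_Ico] at hi
      rw [if_neg (by omega)]
    rw [hz, add_zero, Finset.mul_sum]
    apply Finset.sum_congr rfl
    intro i hi
    rw [mem_range] at hi
    rw [sum_split _ hsn]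
    have hz2 : ∑ k ∈ range s, (if i < s ∧ s ≤ k then w s * F i k else 0) = 0 := by
      apply Finset.sum_eq_zero
      intro k hk
      rw [mem_range] at hk
      rw [if_neg (by omega)]
    rw [hz2, zero_add, Finset.mul_sum]
    apply Finset.sum_congr rfl
    intro k hk
    rw [mem_Ico] at hk
    rw [if_pos ⟨hi, hk.1⟩]
  rw [Finset.sum_congr rfl h1, Finset.sum_comm]
  apply Finset.sum_congr rfl
  intro i hi
  rw [Finset.sum_comm]
  apply Finset.sum_congr rfl
  intro k hk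
  rw [Finset.sum_mul]
  have h2 : ∑ s ∈ Ioc i k, w s * F i k = ∑ s ∈ (Ioc i k).filter (fun s => s ∈ Icc r0 r1), w s * F i k := by
    rw [Finset.sum_filter]
    apply Finset.sum_congr rfl
    intro s _
    split_ifs with hs
    · rfl
    · rw [hw s hs, zero_mul]
  rw [h2, ← Finset.sum_filter]
  apply Finset.sum_congr _ (fun _ _ => rfl)
  ext s
  simp only [mem_filter, mem_Icc, mem_Ioc]
  tauto

lemma telescope (x : ℕ → ℝ) (i k : ℕ) (hik : i ≤ k) :
    ∑ t ∈ Ioc i k, (x (t - 1) - x t) = x i - x k := by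
  induction k, hik using Nat.le_induction with
  | base => simp
  | succ k hk ih =>
    rw [Finset.sum_Ioc_succ_top (by omega), ih]
    simp

section dual
variable {D n N : ℕ} {e : ℕ → ℕ → ℕ} {x : ℕ → ℝ} {J : ℝ} (h : OG D n N e x J)
include h

/-- LP duality: weights on cuts. -/
theorem dual (r0 r1 : ℕ) (h0 : 1 ≤ r0) (h01 : r0 ≤ r1) (h1 : r1 ≤ N) (w : ℕ → ℝ)
    (hw0 : ∀ s, 0 ≤ w s) (hw : ∀ s, s ∉ Icc r0 r1 → w s = 0) (c : ℝ)
    (hc : ∀ t ∈ Icc r0 r1, c ≤ ∑ i ∈ range t, ∑ k ∈ Ico t n, (e i k : ℝ) * ∑ s ∈ Ioc i k, w s) :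
    c * (x (r0 - 1) - x r1) ≤ J * ∑ s ∈ Icc r0 r1, w s := by
  have h1n : r1 ≤ n := h1.trans h.hN
  set g : ℕ → ℝ := fun t => if t ∈ Icc r0 r1 then x (t - 1) - x t else 0 with hg
  have hgz : ∀ s, s ∉ Icc r0 r1 → g s = 0 := fun s hs => by rw [hg]; exact if_neg hs
  have hstep : ∀ t, 0 ≤ x (t - 1) - x t := fun t => by
    have := h.anti (show t - 1 ≤ t by omega)
    linarith
  have hg0 : ∀ t, 0 ≤ g t := by
    intro t
    rw [hg]
    dsimp only
    split_ifs
    · exact hstep t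
    · exact le_rfl
  have hgle : ∀ i k, i ≤ k → ∑ t ∈ Ioc i k, g t ≤ x i - x k := by
    intro i k hik
    rw [← telescope x i k hik]
    apply Finset.sum_le_sum
    intro t _
    rw [hg]
    dsimp only
    split_ifs
    · exact le_rfl
    · exact hstep t
  have e1 : ∑ s ∈ Icc r0 r1, w s * ∑ i ∈ range s, ∑ k ∈ Ico s n, (e i k : ℝ) * (∑ t ∈ Ioc i k, g t)
      ≤ J * ∑ s ∈ Icc r0 r1, w s := by
    rw [Finset.mul_sum]
    apply Finset.sum_le_sum
    intro s hs
    rw [mem_Icc] at hs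
    rw [mul_comm J]
    apply mul_le_mul_of_nonneg_left _ (hw0 s)
    refine le_trans ?_ (flow_prefix h s (hs.2.trans h1))
    apply Finset.sum_le_sum
    intro i hi
    apply Finset.sum_le_sum
    intro k hk
    rw [mem_range] at hi
    rw [mem_Ico] at hk
    apply mul_le_mul_of_nonneg_left _ (Nat.cast_nonneg _)
    exact hgle i k (by omega)
  rw [cut_swap n r0 r1 h1n w hw] at e1
  have e2 := cut_swap n r0 r1 h1n g hgz (fun i k => (e i k : ℝ) * ∑ s ∈ Ioc i k, w s)
  have e3 : ∑ i ∈ range n, ∑ k ∈ range n, (∑ s ∈ Ioc i k, w s) * ((e i k : ℝ) * (∑ t ∈ Ioc i k, g t)) =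
      ∑ i ∈ range n, ∑ k ∈ range n, (∑ s ∈ Ioc i k, g s) * ((e i k : ℝ) * ∑ s ∈ Ioc i k, w s) := by
    apply Finset.sum_congr rfl; intro i _
    apply Finset.sum_congr rfl; intro k _
    ring
  rw [e3, ← e2] at e1
  refine le_trans ?_ e1
  have e4 : c * (x (r0 - 1) - x r1) = ∑ s ∈ Icc r0 r1, g s * c := by
    rw [← Finset.sum_mul, mul_comm]
    congr 1
    have : Icc r0 r1 = Ioc (r0 - 1) r1 := by
      ext s; simp only [mem_Icc, mem_Ioc]; omega
    rw [this, ← telescope x (r0 - 1) r1 (by omega)]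
    apply Finset.sum_congr rfl
    intro t ht
    rw [mem_Ioc] at ht
    rw [hg]
    dsimp only
    rw [if_pos (by rw [mem_Icc]; omega)]
  rw [e4]
  apply Finset.sum_le_sum
  intro s hs
  exact mul_le_mul_of_nonneg_left (hc s hs) (hg0 s)

end dual

lemma double_sum_box (a b S0 R0 : ℕ) (v : ℕ → ℕ → ℝ) (d : ℕ → ℕ → ℝ) (hd : ∀ s r, 0 ≤ d s r)
    (h1 : ∀ s < a, ∀ r < b, s < S0 → r < R0 → v s r ≤ d s r)
    (h2 : ∀ s < a, ∀ r < b, (S0 ≤ s ∨ R0 ≤ r) → v s r ≤ 0) :
    ∑ s ∈ range a, ∑ r ∈ range b, v s r ≤ ∑ s ∈ range S0, ∑ r ∈ range R0, d s r := by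
  have e1 : ∑ s ∈ range a, ∑ r ∈ range b, v s r ≤
      ∑ s ∈ range a, if s < S0 then ∑ r ∈ range R0, d s r else 0 := by
    apply Finset.sum_le_sum
    intro s hs
    rw [mem_range] at hs
    split_ifs with hsS
    · calc ∑ r ∈ range b, v s r ≤ ∑ r ∈ range b, if r < R0 then d s r else 0 := by
            apply Finset.sum_le_sum
            intro r hr
            rw [mem_range] at hr
            split_ifs with hrR
            · exact h1 s hs r hr hsS hrR
            · exact h2 s hs r hr (Or.inr (by omega))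
        _ = ∑ r ∈ (range b).filter (fun r => r < R0), d s r := by rw [Finset.sum_filter]
        _ ≤ ∑ r ∈ range R0, d s r := by
            apply Finset.sum_le_sum_of_subset_of_nonneg
            · intro r hr; rw [mem_filter] at hr; exact mem_range.2 hr.2
            · intro r _ _; exact hd s r
    · apply Finset.sum_nonpos
      intro r hr
      rw [mem_range] at hr
      exact h2 s hs r hr (Or.inl (by omega))
  refine e1.trans ?_
  rw [← Finset.sum_filter]
  apply Finset.sum_le_sum_of_subset_of_nonneg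
  · intro s hs; rw [mem_filter] at hs; exact mem_range.2 hs.2
  · intro s _ _; exact Finset.sum_nonneg (fun r _ => hd s r)

/-- lower bound profile -/
def pf (a1 a2 a3 a4 : ℝ) (s : ℕ) : ℝ :=
  if s = 0 then 0 else if s = 1 then a1 else if s = 2 then a2 else if s = 3 then a3 else a4

lemma lens (n : ℕ) (e : ℕ → ℕ → ℕ) (he : ∀ i k, e i k ≤ 1) (t : ℕ) (ht : 1 ≤ t)
    (w : ℕ → ℝ) (τ a1 a2 a3 a4 b1 b2 b3 b4 : ℝ)
    (hα : ∀ s, s < t → pf a1 a2 a3 a4 s ≤ ∑ u ∈ Ioc (t - 1 - s) (t - 1), w u)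
    (hβ : ∀ r, r < n - t → pf b1 b2 b3 b4 r ≤ ∑ u ∈ Ioc t (t + r), w u)
    (ha : τ ≤ w t + a4) (hb : τ ≤ w t + b4) (ha0 : 0 ≤ a1 ∧ 0 ≤ a2 ∧ 0 ≤ a3 ∧ 0 ≤ a4)
    (hb0 : 0 ≤ b1 ∧ 0 ≤ b2 ∧ 0 ≤ b3 ∧ 0 ≤ b4) :
    τ * (cutN n e t : ℝ) -
      ∑ s ∈ range 4, ∑ r ∈ range 4, max 0 (τ - w t - pf a1 a2 a3 a4 s - pf b1 b2 b3 b4 r) ≤
      ∑ i ∈ range t, ∑ k ∈ Ico t n, (e i k : ℝ) * ∑ s ∈ Ioc i k, w s := by
  have e1 : ∑ i ∈ range t, ∑ k ∈ Ico t n, (e i k : ℝ) * (τ - ∑ s ∈ Ioc i k, w s) ≤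
      ∑ s ∈ range 4, ∑ r ∈ range 4, max 0 (τ - w t - pf a1 a2 a3 a4 s - pf b1 b2 b3 b4 r) := by
    have e2 : ∑ i ∈ range t, ∑ k ∈ Ico t n, (e i k : ℝ) * (τ - ∑ s ∈ Ioc i k, w s) =
        ∑ s ∈ range t, ∑ r ∈ range (n - t), (e (t - 1 - s) (t + r) : ℝ) *
          (τ - ∑ u ∈ Ioc (t - 1 - s) (t + r), w u) := by
      rw [← Finset.sum_range_reflect]
      apply Finset.sum_congr rfl
      intro s _
      rw [Finset.sum_Ico_eq_sum_range]
    rw [e2]
    have key : ∀ s < t, ∀ r < n - t, (e (t - 1 - s) (t + r) : ℝ) *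
          (τ - ∑ u ∈ Ioc (t - 1 - s) (t + r), w u) ≤
          max 0 (τ - w t - pf a1 a2 a3 a4 s - pf b1 b2 b3 b4 r) := by
      intro s hs r hr
      have hW : ∑ u ∈ Ioc (t - 1 - s) (t + r), w u =
          ∑ u ∈ Ioc (t - 1 - s) (t - 1), w u + w t + ∑ u ∈ Ioc t (t + r), w u := by
        rw [← Finset.sum_Ioc_consecutive w (show t - 1 - s ≤ t by omega) (show t ≤ t + r by omega)]
        congr 1
        have : t = (t - 1) + 1 := by omega
        rw [← Finset.sum_Ioc_consecutive w (show t - 1 - s ≤ t - 1 by omega)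
          (show t - 1 ≤ t by omega)]
        congr 1
        have : Ioc (t - 1) t = {t} := by ext u; simp only [mem_Ioc, mem_singleton]; omega
        rw [this, Finset.sum_singleton]
      have hle : τ - ∑ u ∈ Ioc (t - 1 - s) (t + r), w u ≤
          τ - w t - pf a1 a2 a3 a4 s - pf b1 b2 b3 b4 r := by
        rw [hW]
        have := hα s hs
        have := hβ r hr
        linarith
      have he1 : (e (t - 1 - s) (t + r) : ℝ) = 0 ∨ (e (t - 1 - s) (t + r) : ℝ) = 1 := by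
        have := he (t - 1 - s) (t + r)
        interval_cases (e (t - 1 - s) (t + r))
        · left; norm_num
        · right; norm_num
      rcases he1 with h0 | h0
      · rw [h0, zero_mul]; exact le_max_left _ _
      · rw [h0, one_mul]; exact hle.trans (le_max_right _ _)
    have hp : ∀ (a1 a2 a3 a4 : ℝ), (0 ≤ a1 ∧ 0 ≤ a2 ∧ 0 ≤ a3 ∧ 0 ≤ a4) → ∀ s, 0 ≤ pf a1 a2 a3 a4 s := by
      intro a1 a2 a3 a4 hh s
      unfold pf
      obtain ⟨q1, q2, q3, q4⟩ := hh
      split_ifs <;> first | exact le_rfl | assumption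
    have hp4 : ∀ (a1 a2 a3 a4 : ℝ) (s : ℕ), 4 ≤ s → pf a1 a2 a3 a4 s = a4 := by
      intro a1 a2 a3 a4 s hs
      unfold pf
      rw [if_neg (by omega), if_neg (by omega), if_neg (by omega), if_neg (by omega)]
    apply double_sum_box
    · intro s r; exact le_max_left _ _
    · intro s hs r hr _ _
      exact key s hs r hr
    · intro s hs r hr hor
      refine (key s hs r hr).trans ?_
      apply max_le le_rfl
      rcases hor with h4 | h4
      · rw [hp4 a1 a2 a3 a4 s h4]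
        have := hp b1 b2 b3 b4 hb0 r
        linarith
      · rw [hp4 b1 b2 b3 b4 r h4]
        have := hp a1 a2 a3 a4 ha0 s
        linarith
  have e3 : ∑ i ∈ range t, ∑ k ∈ Ico t n, (e i k : ℝ) * (τ - ∑ s ∈ Ioc i k, w s) =
      τ * (cutN n e t : ℝ) - ∑ i ∈ range t, ∑ k ∈ Ico t n, (e i k : ℝ) * ∑ s ∈ Ioc i k, w s := by
    unfold cutN
    push_cast
    rw [Finset.mul_sum, ← Finset.sum_sub_distrib]
    apply Finset.sum_congr rfl
    intro i _
    rw [Finset.mul_sum, ← Finset.sum_sub_distrib]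
    apply Finset.sum_congr rfl
    intro k _
    ring
  linarith

end Pool.Agent.Helper951.Lg
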