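import Pool.Agent.Helper951.LgA

set_option autoImplicit false

open Finset

namespace Pool.Agent.Helper951.Lg

/-- excess lemma -/
lemma excess (w : ℕ → ℝ) (S : ℕ → Prop) (H r0 r1 : ℕ)
    (h1 : ∀ t, r0 < t → t < r1 → ¬ S t → w t ≤ 1)
    (h2 : ∀ l t, S l → ¬ S (l + 1) → l + 2 ≤ t → t ≤ l + 1 + H → r0 < t → t < r1 → w t ≤ 1 / 2)
    (h3 : ∀ t, r0 < t → t < r1 → S t → w t ≤ 1 + H / 2)
    (h4 : ∀ t, r0 < t → t + 1 < r1 → S t → S (t + 1) → w t + w (t + 1) ≤ 2 + H / 2)
    (h5 : ∀ l t, S l → S t → l < t → t < r1 → t = l + 1 ∨ l + H + 3 ≤ t) :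
    ∀ r, r ≤ r1 → (∑ t ∈ Ico (r0 + 1) r, (w t - 1) ≤ H / 2) ∧
      ((∀ l, r0 < l → l < r → S l → l + H + 2 ≤ r) → ∑ t ∈ Ico (r0 + 1) r, (w t - 1) ≤ 0) := by
  intro r
  induction r using Nat.strong_induction_on with
  | _ r ih =>
  intro hr
  have hH : (0 : ℝ) ≤ H / 2 := by positivity
  classical
  by_cases hex : ((Ico (r0 + 1) r).filter S).Nonempty
  · set l := ((Ico (r0 + 1) r).filter S).max' hex with hl
    have hlm : l ∈ (Ico (r0 + 1) r).filter S := Finset.max'_mem _ _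
    rw [mem_filter, mem_Ico] at hlm
    obtain ⟨⟨hl0, hl1⟩, hSl⟩ := hlm
    have hmax : ∀ t, l < t → t < r → ¬ S t := by
      intro t h1t h2t hSt
      have : t ≤ l := Finset.le_max' _ _ (by rw [mem_filter, mem_Ico]; exact ⟨⟨by omega, h2t⟩, hSt⟩)
      omega
    -- no S at l - 2
    have hno2 : ∀ l', S l' → l' + 2 = l → False := by
      intro l' hS' h2'
      rcases h5 l' l hS' hSl (by omega) (by omega) with h | h <;> omega
    -- F (l+1) ≤ H/2
    have hF1 : ∑ t ∈ Ico (r0 + 1) (l + 1), (w t - 1) ≤ H / 2 := by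
      rw [Finset.sum_Ico_succ_top hl0]
      by_cases hS1 : S (l - 1) ∧ r0 < l - 1
      · obtain ⟨hS1, hl2⟩ := hS1
        have hl3 : l = (l - 1) + 1 := by omega
        rw [hl3, Finset.sum_Ico_succ_top (by omega), ← hl3]
        have hc := (ih (l - 1) (by omega) (by omega)).2 (by
          intro l' h0' h1' hS'
          rcases h5 l' (l - 1) hS' hS1 (by omega) (by omega) with h | h
          · exact absurd (by omega) (fun hh => hno2 l' hS' hh)
          · omega)
        have hp := h4 (l - 1) hl2 (by omega) hS1 (by rwa [← hl3])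
        rw [← hl3] at hp
        linarith
      · by_cases hl2 : r0 < l - 1
        · have hS1' : ¬ S (l - 1) := fun hh => hS1 ⟨hh, hl2⟩
          have hc := (ih l (by omega) (by omega)).2 (by
            intro l' h0' h1' hS'
            rcases h5 l' l hS' hSl (by omega) (by omega) with h | h
            · exfalso; apply hS1'; rw [h]; simpa using hS'
            · omega)
          have := h3 l (by omega) (by omega) hSl
          linarith
        · have : l = r0 + 1 := by omega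
          rw [this]
          have h3' := h3 l (by omega) (by omega) hSl
          rw [this] at h3'
          simp only [Ico_self, sum_empty]
          linarith
    have hsplit : ∑ t ∈ Ico (r0 + 1) r, (w t - 1) = ∑ t ∈ Ico (r0 + 1) (l + 1), (w t - 1) +
        ∑ t ∈ Ico (l + 1) r, (w t - 1) :=
      (Finset.sum_Ico_consecutive _ (by omega) (by omega)).symm
    have hrest : ∀ t ∈ Ico (l + 1) r, w t - 1 ≤ 0 := by
      intro t ht
      rw [mem_Ico] at ht
      have := h1 t (by omega) (by omega) (hmax t (by omega) ht.2)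
      linarith
    refine ⟨?_, ?_⟩
    · rw [hsplit]
      have := Finset.sum_nonpos hrest
      linarith
    · intro hclear
      have hcl := hclear l (by omega) hl1 hSl
      rw [hsplit]
      by_cases hH0 : H = 0
      · have := Finset.sum_nonpos hrest
        subst hH0
        simp at hF1 this ⊢
        linarith
      have hS1 : ¬ S (l + 1) := hmax (l + 1) (by omega) (by omega)
      have hs2 : ∑ t ∈ Ico (l + 1) r, (w t - 1) = ∑ t ∈ Ico (l + 1) (l + 2), (w t - 1) +
          (∑ t ∈ Ico (l + 2) (l + 2 + H), (w t - 1) + ∑ t ∈ Ico (l + 2 + H) r, (w t - 1)) := by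
        rw [Finset.sum_Ico_consecutive _ (by omega) (by omega),
          Finset.sum_Ico_consecutive _ (by omega) (by omega)]
      rw [hs2]
      have q1 : ∑ t ∈ Ico (l + 1) (l + 2), (w t - 1) ≤ 0 :=
        Finset.sum_nonpos (fun t ht => hrest t (by rw [mem_Ico] at ht ⊢; omega))
      have q3 : ∑ t ∈ Ico (l + 2 + H) r, (w t - 1) ≤ 0 :=
        Finset.sum_nonpos (fun t ht => hrest t (by rw [mem_Ico] at ht ⊢; omega))
      have q2 : ∑ t ∈ Ico (l + 2) (l + 2 + H), (w t - 1) ≤ -(H / 2 : ℝ) := by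
        have : ∑ t ∈ Ico (l + 2) (l + 2 + H), (w t - 1) ≤
            (Ico (l + 2) (l + 2 + H)).card • (-(1 / 2) : ℝ) := by
          apply Finset.sum_le_card_nsmul
          intro t ht
          rw [mem_Ico] at ht
          have := h2 l t hSl hS1 ht.1 (by omega) (by omega) (by omega)
          linarith
        rw [Nat.card_Ico] at this
        simp only [nsmul_eq_mul] at this
        rw [show l + 2 + H - (l + 2) = H by omega] at this
        linarith
      linarith
  · have hno : ∀ t ∈ Ico (r0 + 1) r, w t - 1 ≤ 0 := by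
      intro t ht
      have hS : ¬ S t := by
        intro hS
        exact hex ⟨t, by rw [mem_filter]; exact ⟨ht, hS⟩⟩
      rw [mem_Ico] at ht
      have := h1 t (by omega) (by omega) hS
      linarith
    have := Finset.sum_nonpos hno
    exact ⟨by linarith, fun _ => this⟩

/-- the load of a cut -/
noncomputable def load (n : ℕ) (e : ℕ → ℕ → ℕ) (w : ℕ → ℝ) (t : ℕ) : ℝ :=
  ∑ i ∈ range t, ∑ k ∈ Ico t n, (e i k : ℝ) * ∑ s ∈ Ioc i k, w s

lemma load_self (n : ℕ) (e : ℕ → ℕ → ℕ) (w : ℕ → ℝ) (hw : ∀ s, 0 ≤ w s) (t : ℕ) :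
    w t * (cutN n e t : ℝ) ≤ load n e w t := by
  unfold load cutN
  push_cast
  rw [Finset.mul_sum]
  apply Finset.sum_le_sum
  intro i hi
  rw [Finset.mul_sum]
  apply Finset.sum_le_sum
  intro k hk
  rw [mul_comm]
  apply mul_le_mul_of_nonneg_left _ (Nat.cast_nonneg _)
  rw [mem_range] at hi
  rw [mem_Ico] at hk
  exact Finset.single_le_sum (f := w) (fun s _ => hw s) (by rw [mem_Ioc]; omega)

lemma alpha_prof (w : ℕ → ℝ) (hw : ∀ s, 0 ≤ w s) (t : ℕ) (a1 a2 a3 a4 : ℝ)
    (h1 : 2 ≤ t → a1 ≤ w (t - 1)) (h2 : 3 ≤ t → a2 ≤ w (t - 1) + w (t - 2))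
    (h3 : 4 ≤ t → a3 ≤ w (t - 1) + w (t - 2) + w (t - 3))
    (h4 : 5 ≤ t → a4 ≤ w (t - 1) + w (t - 2) + w (t - 3) + w (t - 4)) (s : ℕ) (hs : s < t) :
    pf a1 a2 a3 a4 s ≤ ∑ u ∈ Ioc (t - 1 - s) (t - 1), w u := by
  unfold pf
  by_cases s0 : s = 0
  · subst s0; simp
  rw [if_neg s0]
  by_cases s1 : s = 1
  · subst s1
    rw [if_pos rfl]
    refine (h1 (by omega)).trans ?_
    exact Finset.single_le_sum (f := w) (fun s _ => hw s) (by rw [mem_Ioc]; omega)
  rw [if_neg s1]
  by_cases s2 : s = 2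
  · subst s2
    rw [if_pos rfl]
    refine (h2 (by omega)).trans ?_
    have : ({t - 1, t - 2} : Finset ℕ) ⊆ Ioc (t - 1 - 2) (t - 1) := by
      intro u; simp only [mem_insert, mem_singleton, mem_Ioc]; omega
    refine le_trans ?_ (Finset.sum_le_sum_of_subset_of_nonneg this (fun u _ _ => hw u))
    rw [Finset.sum_pair (by omega)]
  rw [if_neg s2]
  by_cases s3 : s = 3
  · subst s3
    rw [if_pos rfl]
    refine (h3 (by omega)).trans ?_
    have : ({t - 1, t - 2, t - 3} : Finset ℕ) ⊆ Ioc (t - 1 - 3) (t - 1) := by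
      intro u; simp only [mem_insert, mem_singleton, mem_Ioc]; omega
    refine le_trans ?_ (Finset.sum_le_sum_of_subset_of_nonneg this (fun u _ _ => hw u))
    rw [Finset.sum_insert (by simp only [mem_insert, mem_singleton]; omega),
      Finset.sum_pair (by omega)]
    linarith
  rw [if_neg s3]
  refine (h4 (by omega)).trans ?_
  have : ({t - 1, t - 2, t - 3, t - 4} : Finset ℕ) ⊆ Ioc (t - 1 - s) (t - 1) := by
    intro u; simp only [mem_insert, mem_singleton, mem_Ioc]; omega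
  refine le_trans ?_ (Finset.sum_le_sum_of_subset_of_nonneg this (fun u _ _ => hw u))
  rw [Finset.sum_insert (by simp only [mem_insert, mem_singleton]; omega),
    Finset.sum_insert (by simp only [mem_insert, mem_singleton]; omega),
    Finset.sum_pair (by omega)]
  linarith

lemma beta_prof (w : ℕ → ℝ) (hw : ∀ s, 0 ≤ w s) (t : ℕ) (a1 a2 a3 a4 : ℝ)
    (h1 : a1 ≤ w (t + 1)) (h2 : a2 ≤ w (t + 1) + w (t + 2))
    (h3 : a3 ≤ w (t + 1) + w (t + 2) + w (t + 3))
    (h4 : a4 ≤ w (t + 1) + w (t + 2) + w (t + 3) + w (t + 4)) (s : ℕ) :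
    pf a1 a2 a3 a4 s ≤ ∑ u ∈ Ioc t (t + s), w u := by
  unfold pf
  by_cases s0 : s = 0
  · subst s0; simp
  rw [if_neg s0]
  by_cases s1 : s = 1
  · subst s1
    rw [if_pos rfl]
    refine h1.trans ?_
    exact Finset.single_le_sum (f := w) (fun s _ => hw s) (by rw [mem_Ioc]; omega)
  rw [if_neg s1]
  by_cases s2 : s = 2
  · subst s2
    rw [if_pos rfl]
    refine h2.trans ?_
    have : ({t + 1, t + 2} : Finset ℕ) ⊆ Ioc t (t + 2) := by
      intro u; simp only [mem_insert, mem_singleton, mem_Ioc]; omega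
    refine le_trans ?_ (Finset.sum_le_sum_of_subset_of_nonneg this (fun u _ _ => hw u))
    rw [Finset.sum_pair (by omega)]
  rw [if_neg s2]
  by_cases s3 : s = 3
  · subst s3
    rw [if_pos rfl]
    refine h3.trans ?_
    have : ({t + 1, t + 2, t + 3} : Finset ℕ) ⊆ Ioc t (t + 3) := by
      intro u; simp only [mem_insert, mem_singleton, mem_Ioc]; omega
    refine le_trans ?_ (Finset.sum_le_sum_of_subset_of_nonneg this (fun u _ _ => hw u))
    rw [Finset.sum_insert (by simp only [mem_insert, mem_singleton]; omega),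
      Finset.sum_pair (by omega)]
    linarith
  rw [if_neg s3]
  refine h4.trans ?_
  have : ({t + 1, t + 2, t + 3, t + 4} : Finset ℕ) ⊆ Ioc t (t + s) := by
    intro u; simp only [mem_insert, mem_singleton, mem_Ioc]; omega
  refine le_trans ?_ (Finset.sum_le_sum_of_subset_of_nonneg this (fun u _ _ => hw u))
  rw [Finset.sum_insert (by simp only [mem_insert, mem_singleton]; omega),
    Finset.sum_insert (by simp only [mem_insert, mem_singleton]; omega),
    Finset.sum_pair (by omega)]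
  linarith

/-- box version of the lens lemma, with all deficits explicit. -/
lemma load_ge (n : ℕ) (e : ℕ → ℕ → ℕ) (he : ∀ i k, e i k ≤ 1) (t : ℕ) (ht : 1 ≤ t)
    (w : ℕ → ℝ) (hw : ∀ s, 0 ≤ w s) (τ wt a1 a2 a3 a4 b1 b2 b3 b4 Df : ℝ)
    (h1 : 2 ≤ t → a1 ≤ w (t - 1)) (h2 : 3 ≤ t → a2 ≤ w (t - 1) + w (t - 2))
    (h3 : 4 ≤ t → a3 ≤ w (t - 1) + w (t - 2) + w (t - 3))
    (h4 : 5 ≤ t → a4 ≤ w (t - 1) + w (t - 2) + w (t - 3) + w (t - 4))
    (g1 : b1 ≤ w (t + 1)) (g2 : b2 ≤ w (t + 1) + w (t + 2))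
    (g3 : b3 ≤ w (t + 1) + w (t + 2) + w (t + 3))
    (g4 : b4 ≤ w (t + 1) + w (t + 2) + w (t + 3) + w (t + 4))
    (hwt : wt ≤ w t)
    (ha : τ ≤ wt + a4) (hb : τ ≤ wt + b4) (ha0 : 0 ≤ a1 ∧ 0 ≤ a2 ∧ 0 ≤ a3 ∧ 0 ≤ a4)
    (hb0 : 0 ≤ b1 ∧ 0 ≤ b2 ∧ 0 ≤ b3 ∧ 0 ≤ b4)
    (hD : ∑ s ∈ range 4, ∑ r ∈ range 4, max 0 (τ - wt - pf a1 a2 a3 a4 s - pf b1 b2 b3 b4 r)
      ≤ Df) :
    τ * (cutN n e t : ℝ) - Df ≤ load n e w t := by
  have hl := lens n e he t ht w τ a1 a2 a3 a4 b1 b2 b3 b4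
    (fun s hs => alpha_prof w hw t a1 a2 a3 a4 h1 h2 h3 h4 s hs)
    (fun s _ => beta_prof w hw t b1 b2 b3 b4 g1 g2 g3 g4 s)
    (by linarith) (by linarith) ha0 hb0
  have h5 : ∑ s ∈ range 4, ∑ r ∈ range 4, max 0 (τ - w t - pf a1 a2 a3 a4 s - pf b1 b2 b3 b4 r) ≤
      ∑ s ∈ range 4, ∑ r ∈ range 4, max 0 (τ - wt - pf a1 a2 a3 a4 s - pf b1 b2 b3 b4 r) := by
    apply Finset.sum_le_sum; intro s _
    apply Finset.sum_le_sum; intro r _
    apply max_le_max le_rfl
    linarith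
  unfold load
  linarith

/-- column version: edges ending at vertex `t`. -/
lemma load_col (n : ℕ) (e : ℕ → ℕ → ℕ) (he : ∀ i k, e i k ≤ 1) (t : ℕ) (htn : t < n)
    (w : ℕ → ℝ) (hw : ∀ s, 0 ≤ w s)
    (h1 : 2 ≤ t → 1 ≤ w (t - 1)) (h2 : 3 ≤ t → 3 / 2 ≤ w (t - 1) + w (t - 2))
    (h3 : 4 ≤ t → 2 ≤ w (t - 1) + w (t - 2) + w (t - 3)) :
    w t * (cutN n e t : ℝ) + 2 * ((∑ i ∈ range t, e i t : ℕ) : ℝ) - 7 / 2 ≤ load n e w t := by
  have hsplit : ∀ i < t, ∀ k, t ≤ k → ∑ s ∈ Ioc i k, w s =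
      ∑ u ∈ Ioc i (t - 1), w u + w t + ∑ u ∈ Ioc t k, w u := by
    intro i hi k hk
    rw [← Finset.sum_Ioc_consecutive w (show i ≤ t by omega) hk]
    congr 1
    rw [← Finset.sum_Ioc_consecutive w (show i ≤ t - 1 by omega) (show t - 1 ≤ t by omega)]
    congr 1
    have : Ioc (t - 1) t = {t} := by ext u; simp only [mem_Ioc, mem_singleton]; omega
    rw [this, Finset.sum_singleton]
  have e1 : ∑ i ∈ range t, (∑ k ∈ Ico t n, (e i k : ℝ) * w t +
      (e i t : ℝ) * ∑ u ∈ Ioc i (t - 1), w u) ≤ load n e w t := by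
    unfold load
    apply Finset.sum_le_sum
    intro i hi
    rw [mem_range] at hi
    rw [Finset.sum_eq_sum_Ico_succ_bot htn, Finset.sum_eq_sum_Ico_succ_bot htn,
      hsplit i hi t le_rfl]
    have hrest : ∑ k ∈ Ico (t + 1) n, (e i k : ℝ) * w t ≤
        ∑ k ∈ Ico (t + 1) n, (e i k : ℝ) * ∑ s ∈ Ioc i k, w s := by
      apply Finset.sum_le_sum
      intro k hk
      rw [mem_Ico] at hk
      apply mul_le_mul_of_nonneg_left _ (Nat.cast_nonneg _)
      exact Finset.single_le_sum (f := w) (fun s _ => hw s) (by rw [mem_Ioc]; omega)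
    simp only [Ioc_self, sum_empty, add_zero]
    nlinarith [hrest]
  rw [Finset.sum_add_distrib] at e1
  have e2 : ∑ i ∈ range t, ∑ k ∈ Ico t n, (e i k : ℝ) * w t = w t * (cutN n e t : ℝ) := by
    unfold cutN
    push_cast
    rw [Finset.mul_sum]
    apply Finset.sum_congr rfl; intro i _
    rw [Finset.mul_sum]
    apply Finset.sum_congr rfl; intro k _
    ring
  have e3 : ∑ i ∈ range t, (e i t : ℝ) * (2 - ∑ u ∈ Ioc i (t - 1), w u) ≤ 7 / 2 := by
    rw [← Finset.sum_range_reflect]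
    have hb := double_sum_box t 1 4 1 (fun s _ => (e (t - 1 - s) t : ℝ) *
      (2 - ∑ u ∈ Ioc (t - 1 - s) (t - 1), w u)) (fun s _ => max 0 (2 - pf 1 (3 / 2) 2 2 s))
      (fun s r => le_max_left _ _) ?_ ?_
    · simp only [range_one, sum_singleton] at hb
      refine hb.trans ?_
      rw [Finset.sum_range_succ, Finset.sum_range_succ, Finset.sum_range_succ,
        Finset.sum_range_succ]
      unfold pf
      norm_num
    · intro s hs r _ _ _
      have hp := alpha_prof w hw t 1 (3 / 2) 2 2 h1 h2 h3 (fun h5 => by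
        have := h3 (by omega); have := hw (t - 4); linarith) s hs
      have he1 : (e (t - 1 - s) t : ℝ) = 0 ∨ (e (t - 1 - s) t : ℝ) = 1 := by
        have := he (t - 1 - s) t
        interval_cases (e (t - 1 - s) t)
        · left; norm_num
        · right; norm_num
      rcases he1 with h0 | h0
      · rw [h0, zero_mul]; exact le_max_left _ _
      · rw [h0, one_mul]
        refine le_trans ?_ (le_max_right _ _)
        linarith
    · intro s hs r hr hor
      have hs4 : 4 ≤ s := by omega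
      have hp := alpha_prof w hw t 1 (3 / 2) 2 2 h1 h2 h3 (fun h5 => by
        have := h3 (by omega); have := hw (t - 4); linarith) s hs
      unfold pf at hp
      rw [if_neg (by omega), if_neg (by omega), if_neg (by omega), if_neg (by omega)] at hp
      apply mul_nonpos_of_nonneg_of_nonpos (Nat.cast_nonneg _)
      linarith
  have e4 : ∑ i ∈ range t, (e i t : ℝ) * (2 - ∑ u ∈ Ioc i (t - 1), w u) =
      2 * ((∑ i ∈ range t, e i t : ℕ) : ℝ) - ∑ i ∈ range t, (e i t : ℝ) * ∑ u ∈ Ioc i (t - 1), w u := by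
    push_cast
    rw [Finset.mul_sum, ← Finset.sum_sub_distrib]
    apply Finset.sum_congr rfl; intro i _
    ring
  linarith

/-- row version: edges starting at vertex `t - 1`. -/
lemma load_row (n : ℕ) (e : ℕ → ℕ → ℕ) (he : ∀ i k, e i k ≤ 1) (t : ℕ) (ht : 1 ≤ t)
    (w : ℕ → ℝ) (hw : ∀ s, 0 ≤ w s)
    (h1 : 1 ≤ w (t + 1)) (h2 : 3 / 2 ≤ w (t + 1) + w (t + 2))
    (h3 : 2 ≤ w (t + 1) + w (t + 2) + w (t + 3)) :
    w t * (cutN n e t : ℝ) + 2 * ((∑ k ∈ Ico t n, e (t - 1) k : ℕ) : ℝ) - 7 / 2 ≤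
      load n e w t := by
  have hsplit : ∀ i < t, ∀ k, t ≤ k → ∑ s ∈ Ioc i k, w s =
      ∑ u ∈ Ioc i (t - 1), w u + w t + ∑ u ∈ Ioc t k, w u := by
    intro i hi k hk
    rw [← Finset.sum_Ioc_consecutive w (show i ≤ t by omega) hk]
    congr 1
    rw [← Finset.sum_Ioc_consecutive w (show i ≤ t - 1 by omega) (show t - 1 ≤ t by omega)]
    congr 1
    have : Ioc (t - 1) t = {t} := by ext u; simp only [mem_Ioc, mem_singleton]; omega
    rw [this, Finset.sum_singleton]
  have e1 : ∑ i ∈ range t, ∑ k ∈ Ico t n, (e i k : ℝ) * w t +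
      ∑ k ∈ Ico t n, (e (t - 1) k : ℝ) * ∑ u ∈ Ioc t k, w u ≤ load n e w t := by
    unfold load
    have ht' : t = (t - 1) + 1 := by omega
    have f1 : ∀ F : ℕ → ℝ, ∑ i ∈ range t, F i = ∑ i ∈ range (t - 1), F i + F (t - 1) := by
      intro F
      conv_lhs => rw [ht']
      rw [Finset.sum_range_succ]
    rw [f1, f1]
    have g1 : ∑ i ∈ range (t - 1), ∑ k ∈ Ico t n, (e i k : ℝ) * w t ≤
        ∑ i ∈ range (t - 1), ∑ k ∈ Ico t n, (e i k : ℝ) * ∑ s ∈ Ioc i k, w s := by
      apply Finset.sum_le_sum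
      intro i hi
      rw [mem_range] at hi
      apply Finset.sum_le_sum
      intro k hk
      rw [mem_Ico] at hk
      apply mul_le_mul_of_nonneg_left _ (Nat.cast_nonneg _)
      exact Finset.single_le_sum (f := w) (fun s _ => hw s) (by rw [mem_Ioc]; omega)
    have g2 : ∑ k ∈ Ico t n, (e (t - 1) k : ℝ) * w t +
        ∑ k ∈ Ico t n, (e (t - 1) k : ℝ) * ∑ u ∈ Ioc t k, w u ≤
        ∑ k ∈ Ico t n, (e (t - 1) k : ℝ) * ∑ s ∈ Ioc (t - 1) k, w s := by
      rw [← Finset.sum_add_distrib]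
      apply Finset.sum_le_sum
      intro k hk
      rw [mem_Ico] at hk
      rw [hsplit (t - 1) (by omega) k hk.1]
      simp only [Ioc_self, sum_empty, zero_add]
      nlinarith [Nat.cast_nonneg (α := ℝ) (e (t - 1) k)]
    linarith
  have e2 : ∑ i ∈ range t, ∑ k ∈ Ico t n, (e i k : ℝ) * w t = w t * (cutN n e t : ℝ) := by
    unfold cutN
    push_cast
    rw [Finset.mul_sum]
    apply Finset.sum_congr rfl; intro i _
    rw [Finset.mul_sum]
    apply Finset.sum_congr rfl; intro k _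
    ring
  have e3 : ∑ k ∈ Ico t n, (e (t - 1) k : ℝ) * (2 - ∑ u ∈ Ioc t k, w u) ≤ 7 / 2 := by
    rw [Finset.sum_Ico_eq_sum_range]
    have hpr : ∀ s, pf 1 (3 / 2) 2 2 s ≤ ∑ u ∈ Ioc t (t + s), w u := fun s =>
      beta_prof w hw t 1 (3 / 2) 2 2 h1 h2 h3 (by have := hw (t + 4); linarith) s
    have hb := double_sum_box (n - t) 1 4 1 (fun s _ => (e (t - 1) (t + s) : ℝ) *
      (2 - ∑ u ∈ Ioc t (t + s), w u)) (fun s _ => max 0 (2 - pf 1 (3 / 2) 2 2 s))
      (fun s r => le_max_left _ _) ?_ ?_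
    · simp only [range_one, sum_singleton] at hb
      refine hb.trans ?_
      rw [Finset.sum_range_succ, Finset.sum_range_succ, Finset.sum_range_succ,
        Finset.sum_range_succ]
      unfold pf
      norm_num
    · intro s hs r _ _ _
      have hp := hpr s
      have he1 : (e (t - 1) (t + s) : ℝ) = 0 ∨ (e (t - 1) (t + s) : ℝ) = 1 := by
        have := he (t - 1) (t + s)
        interval_cases (e (t - 1) (t + s))
        · left; norm_num
        · right; norm_num
      rcases he1 with h0 | h0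
      · rw [h0, zero_mul]; exact le_max_left _ _
      · rw [h0, one_mul]
        refine le_trans ?_ (le_max_right _ _)
        linarith
    · intro s hs r hr hor
      have hs4 : 4 ≤ s := by omega
      have hp := hpr s
      unfold pf at hp
      rw [if_neg (by omega), if_neg (by omega), if_neg (by omega), if_neg (by omega)] at hp
      apply mul_nonpos_of_nonneg_of_nonpos (Nat.cast_nonneg _)
      linarith
  have e4 : ∑ k ∈ Ico t n, (e (t - 1) k : ℝ) * (2 - ∑ u ∈ Ioc t k, w u) =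
      2 * ((∑ k ∈ Ico t n, e (t - 1) k : ℕ) : ℝ) -
        ∑ k ∈ Ico t n, (e (t - 1) k : ℝ) * ∑ u ∈ Ioc t k, w u := by
    push_cast
    rw [Finset.mul_sum, ← Finset.sum_sub_distrib]
    apply Finset.sum_congr rfl; intro i _
    ring
  linarith

end Pool.Agent.Helper951.Lg
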