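import Pool.Agent.Helper951.LgB

set_option autoImplicit false

open Finset

namespace Pool.Agent.Helper951.Lg

section odd
variable {D n N : ℕ} {e : ℕ → ℕ → ℕ} {x : ℕ → ℝ} {J : ℝ}

lemma spacing_odd (h : OG D n N e x J) (l t : ℕ) (hl : 2 * cutN n e l < D)
    (ht : 2 * cutN n e t < D) (hlt : l < t) (htN : t ≤ N) : l + D + 1 ≤ t := by
  by_contra hcon
  have hd := f_ineq h l (t - l) (by omega)
  rw [show l + (t - l) = t by omega] at hd
  obtain ⟨d, hd'⟩ : ∃ d, t = l + 1 + d := ⟨t - l - 1, by omega⟩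
  have h1 : t - l = d + 1 := by omega
  rw [h1] at hd
  have h2 : d + 1 ≤ D := by omega
  obtain ⟨m, hm⟩ : ∃ m, D = d + 1 + m := ⟨D - d - 1, by omega⟩
  subst hm
  nlinarith [Nat.zero_le (d * m)]

lemma far_odd (h : OG D n N e x J) (l t : ℕ) (hl : 2 * cutN n e l < D)
    (h2 : l + 2 ≤ t) (h3 : t + 1 ≤ l + D) (htN : t ≤ N) :
    3 * ((D : ℝ) - 1) / 2 ≤ (cutN n e t : ℝ) := by
  have hd := f_ineq h l (t - l) (by omega)
  rw [show l + (t - l) = t by omega] at hd
  obtain ⟨d, hd'⟩ : ∃ d, t = l + 2 + d := ⟨t - l - 2, by omega⟩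
  have h1 : t - l = d + 2 := by omega
  rw [h1] at hd
  obtain ⟨m, hm⟩ : ∃ m, D = d + 3 + m := ⟨D - d - 3, by omega⟩
  have hl' : 2 * (cutN n e l : ℝ) ≤ (D : ℝ) - 1 := by
    have : 2 * cutN n e l + 1 ≤ D := by omega
    have : ((2 * cutN n e l + 1 : ℕ) : ℝ) ≤ (D : ℝ) := by exact_mod_cast this
    push_cast at this
    linarith
  have hd2 : ((d : ℝ) + 2) * ((D : ℝ) + 1) ≤ (cutN n e l : ℝ) + (cutN n e t : ℝ) +
      ((d : ℝ) + 2) * ((d : ℝ) + 2) := by exact_mod_cast hd
  have hDr : (D : ℝ) = (d : ℝ) + 3 + (m : ℝ) := by exact_mod_cast hm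
  have hdm : (0 : ℝ) ≤ (d : ℝ) * (m : ℝ) := by positivity
  have hd0 : (0 : ℝ) ≤ (d : ℝ) := by positivity
  rw [hDr] at hd2 hl' ⊢
  nlinarith

open Classical in
/-- rule weight, odd case -/
noncomputable def wO (D n : ℕ) (e : ℕ → ℕ → ℕ) (t : ℕ) : ℝ :=
  if 2 * cutN n e t < D then ((D : ℝ) - 1) / (cutN n e t : ℝ)
  else if ∃ l, 2 * cutN n e l < D ∧ l + 2 ≤ t ∧ t + 2 ≤ l + D then 1 / 2 else 1

theorem mid_odd (h : OG D n N e x J) (hodd : D % 2 = 1) (hD3 : 3 ≤ D) (r0 r1 : ℕ)
    (h0 : 1 ≤ r0) (h01 : r0 < r1)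
    (h1N : r1 ≤ N) (hc : ∀ t, r0 < t → t < r1 → 2 ≤ cutN n e t) (ω0 ω1 : ℝ)
    (hω0 : 1 ≤ ω0) (hω1 : 1 ≤ ω1) (hc0 : (D : ℝ) - 1 ≤ ω0 * (cutN n e r0 : ℝ))
    (hc1 : (D : ℝ) - 1 ≤ ω1 * (cutN n e r1 : ℝ)) :
    ((D : ℝ) - 1) * (x (r0 - 1) - x r1) ≤
      J * (ω0 + ω1 + ((r1 : ℝ) - r0 - 1) + ((D : ℝ) - 3) / 2) := by
  classical
  have hDr : (3 : ℝ) ≤ (D : ℝ) := by exact_mod_cast hD3
  set w : ℕ → ℝ := fun t => if t = r0 then ω0 else if t = r1 then ω1 else
    if r0 < t ∧ t < r1 then wO D n e t else 0 with hw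
  have hwr0 : w r0 = ω0 := by rw [hw]; simp
  have hwr1 : w r1 = ω1 := by rw [hw]; simp only; rw [if_neg (by omega)]; simp
  have hwin : ∀ t, r0 < t → t < r1 → w t = wO D n e t := by
    intro t ht1 ht2
    rw [hw]; simp only
    rw [if_neg (by omega), if_neg (by omega), if_pos ⟨ht1, ht2⟩]
  have hsmall : ∀ t, r0 < t → t < r1 → 2 * cutN n e t < D → 2 ≤ w t ∧
      w t ≤ 1 + ((D - 3 : ℕ) : ℝ) / 2 ∧ w t * (cutN n e t : ℝ) = (D : ℝ) - 1 := by
    intro t ht1 ht2 hs
    rw [hwin t ht1 ht2]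
    unfold wO
    rw [if_pos hs]
    have hc2 := hc t ht1 ht2
    have hc2' : (2 : ℝ) ≤ (cutN n e t : ℝ) := by exact_mod_cast hc2
    have hs' : 2 * (cutN n e t : ℝ) ≤ (D : ℝ) - 1 := by
      have : 2 * cutN n e t + 1 ≤ D := by omega
      have : ((2 * cutN n e t + 1 : ℕ) : ℝ) ≤ (D : ℝ) := by exact_mod_cast this
      push_cast at this
      linarith
    have hcast : ((D - 3 : ℕ) : ℝ) = (D : ℝ) - 3 := by
      push_cast [Nat.cast_sub hD3]; ring
    refine ⟨?_, ?_, ?_⟩
    · rw [le_div_iff₀ (by linarith)]; linarith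
    · rw [hcast, div_le_iff₀ (by linarith)]; nlinarith
    · field_simp
  have hhalf : ∀ t, r0 < t → t < r1 → 1 / 2 ≤ w t := by
    intro t ht1 ht2
    by_cases hs : 2 * cutN n e t < D
    · have := (hsmall t ht1 ht2 hs).1; linarith
    · rw [hwin t ht1 ht2]
      unfold wO
      rw [if_neg hs]
      split_ifs <;> norm_num
  have hone : ∀ t, r0 < t → t < r1 → ¬ (¬ 2 * cutN n e t < D ∧
      ∃ l, 2 * cutN n e l < D ∧ l + 2 ≤ t ∧ t + 2 ≤ l + D) → 1 ≤ w t := by
    intro t ht1 ht2 hH
    by_cases hs : 2 * cutN n e t < D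
    · have := (hsmall t ht1 ht2 hs).1; linarith
    · rw [hwin t ht1 ht2]
      unfold wO
      rw [if_neg hs, if_neg (fun hh => hH ⟨hs, hh⟩)]
  have hw0 : ∀ t, 0 ≤ w t := by
    intro t
    by_cases h1 : t = r0
    · rw [h1, hwr0]; linarith
    by_cases h2 : t = r1
    · rw [h2, hwr1]; linarith
    by_cases h3 : r0 < t ∧ t < r1
    · have := hhalf t h3.1 h3.2; linarith
    · rw [hw]; simp only
      rw [if_neg h1, if_neg h2, if_neg h3]
  have hwz : ∀ s, s ∉ Icc r0 r1 → w s = 0 := by
    intro s hs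
    rw [mem_Icc] at hs
    rw [hw]; simp only
    rw [if_neg (by omega), if_neg (by omega), if_neg (by omega)]
  have hhalf' : ∀ t, r0 ≤ t → t ≤ r1 → 1 / 2 ≤ w t := by
    intro t ht1 ht2
    by_cases e1 : t = r0
    · rw [e1, hwr0]; linarith
    by_cases e2 : t = r1
    · rw [e2, hwr1]; linarith
    exact hhalf t (by omega) (by omega)
  have hone' : ∀ t, r0 ≤ t → t ≤ r1 → (¬ (¬ 2 * cutN n e t < D ∧
      ∃ l, 2 * cutN n e l < D ∧ l + 2 ≤ t ∧ t + 2 ≤ l + D) ∨ t = r0 ∨ t = r1) → 1 ≤ w t := by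
    intro t ht1 ht2 hh
    by_cases e1 : t = r0
    · rw [e1, hwr0]; linarith
    by_cases e2 : t = r1
    · rw [e2, hwr1]; linarith
    rcases hh with hh | hh | hh
    · exact hone t (by omega) (by omega) hh
    · exact absurd hh e1
    · exact absurd hh e2
  -- local conditions
  have hload : ∀ t ∈ Icc r0 r1, (D : ℝ) - 1 ≤ load n e w t := by
    intro t ht
    rw [mem_Icc] at ht
    by_cases e1 : t = r0
    · rw [e1]
      have := load_self n e w hw0 r0
      rw [hwr0] at this
      linarith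
    by_cases e2 : t = r1
    · rw [e2]
      have := load_self n e w hw0 r1
      rw [hwr1] at this
      linarith
    have ht1 : r0 < t := by omega
    have ht2 : t < r1 := by omega
    by_cases hs : 2 * cutN n e t < D
    · have := load_self n e w hw0 t
      rw [(hsmall t ht1 ht2 hs).2.2] at this
      exact this
    have hct : (D : ℝ) + 1 ≤ 2 * (cutN n e t : ℝ) := by
      have : D + 1 ≤ 2 * cutN n e t := by omega
      exact_mod_cast this
    by_cases hH : ∃ l, 2 * cutN n e l < D ∧ l + 2 ≤ t ∧ t + 2 ≤ l + D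
    · obtain ⟨l, hl1, hl2, hl3⟩ := hH
      have hfar := far_odd h l t hl1 hl2 (by omega) (by omega)
      have ha := hhalf' (t - 1) (by omega) (by omega)
      have hb := hhalf' (t + 1) (by omega) (by omega)
      have hl := load_ge n e h.le1 t (by omega) w hw0 1 (1/2) (1/2) (1/2) (1/2) (1/2)
        (1/2) (1/2) (1/2) (1/2) (1/2)
        (fun _ => ha) (fun _ => by have := hw0 (t - 2); linarith)
        (fun _ => by have := hw0 (t - 2); have := hw0 (t - 3); linarith)
        (fun _ => by have := hw0 (t - 2); have := hw0 (t - 3); have := hw0 (t - 4); linarith)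
        hb (by have := hw0 (t + 2); linarith)
        (by have := hw0 (t + 2); have := hw0 (t + 3); linarith)
        (by have := hw0 (t + 2); have := hw0 (t + 3); have := hw0 (t + 4); linarith)
        (hhalf t ht1 ht2) (by norm_num) (by norm_num) (by norm_num) (by norm_num)
        (by simp only [Finset.sum_range_succ, Finset.sum_range_zero, pf]; norm_num)
      linarith
    have hwt : w t = 1 := by
      rw [hwin t ht1 ht2]; unfold wO; rw [if_neg hs, if_neg hH]
    by_cases hsp : 2 * cutN n e (t - 1) < D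
    · have ha : 2 ≤ w (t - 1) := by
        by_cases e3 : t - 1 = r0
        · rw [e3, hwr0]
          rw [e3] at hsp
          have hs' : 2 * (cutN n e r0 : ℝ) ≤ (D : ℝ) - 1 := by
            have : 2 * cutN n e r0 + 1 ≤ D := by omega
            have : ((2 * cutN n e r0 + 1 : ℕ) : ℝ) ≤ (D : ℝ) := by exact_mod_cast this
            push_cast at this
            linarith
          have hpos : (0 : ℝ) ≤ (cutN n e r0 : ℝ) := by positivity
          nlinarith
        · exact (hsmall (t - 1) (by omega) (by omega) hsp).1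
      have hb := hhalf' (t + 1) (by omega) (by omega)
      have hb2 : 1 ≤ w (t + 1) + w (t + 2) := by
        by_cases e3 : t + 1 = r1
        · have := hw0 (t + 2); rw [e3, hwr1]; linarith
        · have := hhalf' (t + 2) (by omega) (by omega); linarith
      have hl := load_ge n e h.le1 t (by omega) w hw0 2 1 2 2 2 2
        (1/2) 1 1 1 (3/2)
        (fun _ => ha) (fun _ => by have := hw0 (t - 2); linarith)
        (fun _ => by have := hw0 (t - 2); have := hw0 (t - 3); linarith)
        (fun _ => by have := hw0 (t - 2); have := hw0 (t - 3); have := hw0 (t - 4); linarith)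
        hb hb2
        (by have := hw0 (t + 3); linarith)
        (by have := hw0 (t + 3); have := hw0 (t + 4); linarith)
        (by rw [hwt]) (by norm_num) (by norm_num) (by norm_num) (by norm_num)
        (by simp only [Finset.sum_range_succ, Finset.sum_range_zero, pf]; norm_num)
      linarith
    -- is `t - 1` in the half zone ?
    by_cases hH1 : ∃ l, 2 * cutN n e l < D ∧ l + 2 ≤ t - 1 ∧ t - 1 + 2 ≤ l + D
    · obtain ⟨l, hl1, hl2, hl3⟩ := hH1
      have : ¬ (t + 2 ≤ l + D) := fun hh => hH ⟨l, hl1, by omega, hh⟩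
      have hfar := far_odd h l t hl1 (by omega) (by omega) (by omega)
      have := load_self n e w hw0 t
      rw [hwt] at this
      linarith
    have ha : 1 ≤ w (t - 1) := hone' (t - 1) (by omega) (by omega) (Or.inl (fun hh => hH1 hh.2))
    have hb : 1 ≤ w (t + 1) := by
      apply hone' (t + 1) (by omega) (by omega)
      by_cases e3 : t + 1 = r1
      · right; right; exact e3
      left
      rintro ⟨_, l, hl1, hl2, hl3⟩
      by_cases e4 : l + 1 = t
      · apply hsp; rw [← e4]; simpa using hl1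
      · exact hH ⟨l, hl1, by omega, by omega⟩
    have hl := load_ge n e h.le1 t (by omega) w hw0 2 1 1 1 1 1
        1 1 1 1 1
        (fun _ => ha) (fun _ => by have := hw0 (t - 2); linarith)
        (fun _ => by have := hw0 (t - 2); have := hw0 (t - 3); linarith)
        (fun _ => by have := hw0 (t - 2); have := hw0 (t - 3); have := hw0 (t - 4); linarith)
        hb (by have := hw0 (t + 2); linarith)
        (by have := hw0 (t + 2); have := hw0 (t + 3); linarith)
        (by have := hw0 (t + 2); have := hw0 (t + 3); have := hw0 (t + 4); linarith)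
        (by rw [hwt]) (by norm_num) (by norm_num) (by norm_num) (by norm_num)
        (by simp only [Finset.sum_range_succ, Finset.sum_range_zero, pf]; norm_num)
    linarith
  have hdual := dual h r0 r1 h0 h01.le h1N w hw0 hwz ((D : ℝ) - 1) hload
  refine hdual.trans ?_
  apply mul_le_mul_of_nonneg_left _ (J_nonneg h)
  have hex := (excess w (fun t => 2 * cutN n e t < D) (D - 3) r0 r1
    (by
      intro t ht1 ht2 hs
      rw [hwin t ht1 ht2]
      unfold wO
      rw [if_neg hs]
      split_ifs <;> norm_num)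
    (by
      intro l t hl _ hlt1 hlt2 ht1 ht2
      rw [hwin t ht1 ht2]
      unfold wO
      rw [if_neg, if_pos ⟨l, hl, hlt1, by omega⟩]
      intro hs
      have := spacing_odd h l t hl hs (by omega) (by omega)
      omega)
    (by
      intro t ht1 ht2 hs
      exact (hsmall t ht1 ht2 hs).2.1)
    (by
      intro t ht1 ht2 hs hs1
      have := spacing_odd h t (t + 1) hs hs1 (by omega) (by omega)
      omega)
    (by
      intro l t hl hs hlt htr
      right
      have := spacing_odd h l t hl hs hlt (by omega)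
      omega) r1 le_rfl).1
  have hcast : ((D - 3 : ℕ) : ℝ) = (D : ℝ) - 3 := by
    push_cast [Nat.cast_sub hD3]; ring
  rw [hcast] at hex
  have hsum : ∑ s ∈ Icc r0 r1, w s = ω0 + ω1 + ∑ t ∈ Ico (r0 + 1) r1, w t := by
    have e1 : Icc r0 r1 = Ico r0 (r1 + 1) := by ext s; simp only [mem_Icc, mem_Ico]; omega
    rw [e1, Finset.sum_Ico_succ_top (by omega), Finset.sum_eq_sum_Ico_succ_bot (by omega),
      hwr0, hwr1]
    ring
  rw [hsum]
  rw [Finset.sum_sub_distrib] at hex
  simp only [sum_const, Nat.card_Ico, nsmul_eq_mul, mul_one] at hex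
  have hc3 : ((r1 - (r0 + 1) : ℕ) : ℝ) = (r1 : ℝ) - r0 - 1 := by
    rw [Nat.cast_sub (by omega)]; push_cast; ring
  rw [hc3] at hex
  linarith

end odd

end Pool.Agent.Helper951.Lg
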