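import Pool.Agent.Helper951.LgC

set_option autoImplicit false

open Finset

namespace Pool.Agent.Helper951.Lg

section even
variable {D n N : ℕ} {e : ℕ → ℕ → ℕ} {x : ℕ → ℝ} {J : ℝ}

lemma spacing_even (h : OG D n N e x J) (l t : ℕ) (hl : cutN n e l + 4 ≤ D)
    (ht : cutN n e t + 4 ≤ D) (hlt : l < t) (htN : t ≤ N) : t = l + 1 ∨ l + D ≤ t := by
  by_contra hcon
  push Not at hcon
  have hd := f_ineq h l (t - l) (by omega)
  rw [show l + (t - l) = t by omega] at hd
  obtain ⟨d, hd'⟩ : ∃ d, t = l + 2 + d := ⟨t - l - 2, by omega⟩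
  have h1 : t - l = d + 2 := by omega
  rw [h1] at hd
  obtain ⟨m, hm⟩ : ∃ m, D = d + 3 + m := ⟨D - d - 3, by omega⟩
  subst hm
  nlinarith [Nat.zero_le (d * m)]

lemma far_even (h : OG D n N e x J) (l t : ℕ) (hl : cutN n e l + 4 ≤ D)
    (h2 : l + 2 ≤ t) (h3 : t + 1 ≤ l + D) (htN : t ≤ N) :
    D + 2 ≤ cutN n e t := by
  have hd := f_ineq h l (t - l) (by omega)
  rw [show l + (t - l) = t by omega] at hd
  obtain ⟨d, hd'⟩ : ∃ d, t = l + 2 + d := ⟨t - l - 2, by omega⟩
  have h1 : t - l = d + 2 := by omega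
  rw [h1] at hd
  obtain ⟨m, hm⟩ : ∃ m, D = d + 3 + m := ⟨D - d - 3, by omega⟩
  subst hm
  nlinarith [Nat.zero_le (d * m)]

lemma far_even2 (h : OG D n N e x J) (l : ℕ) (hl : cutN n e l + 4 ≤ D)
    (htN : l + D - 2 ≤ N) :
    2 * D - 2 ≤ cutN n e (l + D - 2) := by
  have hd := f_ineq h l (D - 2) (by omega)
  rw [show l + (D - 2) = l + D - 2 by omega] at hd
  obtain ⟨m, hm⟩ : ∃ m, D = m + 4 := ⟨D - 4, by omega⟩
  have h1 : D - 2 = m + 2 := by omega
  have h2 : l + D - 2 = l + m + 2 := by omega
  rw [h1] at hd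
  subst hm
  rw [h2] at hd ⊢
  have : 2 * (m + 4) - 2 = 2 * m + 6 := by omega
  rw [this]
  nlinarith

lemma even_cut (h : OG D n N e x J) (heven : D % 2 = 0) (t : ℕ) (ht : t ≤ N) :
    cutN n e t % 2 = 0 := by
  have := parity h t ht
  obtain ⟨m, hm⟩ : ∃ m, D = 2 * m := ⟨D / 2, by omega⟩
  rw [hm] at this
  have h2 : t * (2 * m) = 2 * (t * m) := by ring
  rw [h2] at this
  omega

open Classical in
/-- rule weight, even case -/
noncomputable def wE (D n : ℕ) (e : ℕ → ℕ → ℕ) (t : ℕ) : ℝ :=
  if cutN n e t + 4 ≤ D then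
    (if cutN n e (t + 1) + 4 ≤ D ∨ cutN n e (t - 1) + 4 ≤ D then
      (2 * (D : ℝ) - 17 / 2) / (cutN n e t : ℝ)
    else (2 * (D : ℝ) - 4) / (cutN n e t : ℝ))
  else if ∃ l, cutN n e l + 4 ≤ D ∧ ¬ cutN n e (l + 1) + 4 ≤ D ∧ l + 2 ≤ t ∧ t + 3 ≤ l + D
    then 1 / 2 else 1

theorem mid_even (h : OG D n N e x J) (heven : D % 2 = 0) (hD6 : 6 ≤ D) (r0 r1 : ℕ)
    (h0 : 1 ≤ r0) (h01 : r0 < r1)
    (h1N : r1 ≤ N) (hc : ∀ t, r0 ≤ t → t ≤ r1 → 4 ≤ cutN n e t) (ω0 ω1 : ℝ)
    (hω0 : 2 ≤ ω0) (hω1 : 2 ≤ ω1) (hc0 : 2 * (D : ℝ) - 4 ≤ ω0 * (cutN n e r0 : ℝ))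
    (hc1 : 2 * (D : ℝ) - 4 ≤ ω1 * (cutN n e r1 : ℝ)) :
    (2 * (D : ℝ) - 4) * (x (r0 - 1) - x r1) ≤
      J * (ω0 + ω1 + ((r1 : ℝ) - r0 - 1) + if D = 6 then 0 else ((D : ℝ) - 4) / 2) := by
  classical
  have hDr : (6 : ℝ) ≤ (D : ℝ) := by exact_mod_cast hD6
  set w : ℕ → ℝ := fun t => if t = r0 then ω0 else if t = r1 then ω1 else
    if r0 < t ∧ t < r1 then wE D n e t else 0 with hw
  have hwr0 : w r0 = ω0 := by rw [hw]; simp
  have hwr1 : w r1 = ω1 := by rw [hw]; simp only; rw [if_neg (by omega)]; simp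
  have hwin : ∀ t, r0 < t → t < r1 → w t = wE D n e t := by
    intro t ht1 ht2
    rw [hw]; simp only
    rw [if_neg (by omega), if_neg (by omega), if_pos ⟨ht1, ht2⟩]
  have hcr : ∀ t, cutN n e t + 4 ≤ D → (cutN n e t : ℝ) ≤ (D : ℝ) - 4 := by
    intro t ht
    have : ((cutN n e t + 4 : ℕ) : ℝ) ≤ (D : ℝ) := by exact_mod_cast ht
    push_cast at this
    linarith
  have hc4r : ∀ t, r0 ≤ t → t ≤ r1 → (4 : ℝ) ≤ (cutN n e t : ℝ) := by
    intro t h1 h2; exact_mod_cast hc t h1 h2
  have hcast : ((D - 4 : ℕ) : ℝ) = (D : ℝ) - 4 := by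
    push_cast [Nat.cast_sub (show 4 ≤ D by omega)]; ring
  have hpair : ∀ t, r0 < t → t < r1 → cutN n e t + 4 ≤ D →
      (cutN n e (t + 1) + 4 ≤ D ∨ cutN n e (t - 1) + 4 ≤ D) →
      w t * (cutN n e t : ℝ) = 2 * (D : ℝ) - 17 / 2 := by
    intro t ht1 ht2 hs hor
    have hc4 := hc4r t ht1.le ht2.le
    rw [hwin t ht1 ht2]
    unfold wE
    rw [if_pos hs, if_pos hor]
    field_simp
  have hsing : ∀ t, r0 < t → t < r1 → cutN n e t + 4 ≤ D →
      ¬ (cutN n e (t + 1) + 4 ≤ D ∨ cutN n e (t - 1) + 4 ≤ D) →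
      w t * (cutN n e t : ℝ) = 2 * (D : ℝ) - 4 := by
    intro t ht1 ht2 hs hor
    have hc4 := hc4r t ht1.le ht2.le
    rw [hwin t ht1 ht2]
    unfold wE
    rw [if_pos hs, if_neg hor]
    field_simp
  have hsmall : ∀ t, r0 < t → t < r1 → cutN n e t + 4 ≤ D → 1 ≤ w t ∧
      w t ≤ 1 + ((D - 4 : ℕ) : ℝ) / 2 := by
    intro t ht1 ht2 hs
    have hc4 := hc4r t ht1.le ht2.le
    have hcD := hcr t hs
    rw [hcast]
    by_cases hor : (cutN n e (t + 1) + 4 ≤ D ∨ cutN n e (t - 1) + 4 ≤ D)
    · have := hpair t ht1 ht2 hs hor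
      constructor
      · by_contra hcon; push Not at hcon; nlinarith
      · by_contra hcon; push Not at hcon; nlinarith
    · have := hsing t ht1 ht2 hs hor
      constructor
      · by_contra hcon; push Not at hcon; nlinarith
      · by_contra hcon; push Not at hcon; nlinarith
  have hhalf : ∀ t, r0 < t → t < r1 → 1 / 2 ≤ w t := by
    intro t ht1 ht2
    by_cases hs : cutN n e t + 4 ≤ D
    · have := (hsmall t ht1 ht2 hs).1; linarith
    · rw [hwin t ht1 ht2]
      unfold wE
      rw [if_neg hs]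
      split_ifs <;> norm_num
  have hone : ∀ t, r0 < t → t < r1 → ¬ (¬ cutN n e t + 4 ≤ D ∧
      ∃ l, cutN n e l + 4 ≤ D ∧ ¬ cutN n e (l + 1) + 4 ≤ D ∧ l + 2 ≤ t ∧ t + 3 ≤ l + D) →
      1 ≤ w t := by
    intro t ht1 ht2 hH
    by_cases hs : cutN n e t + 4 ≤ D
    · exact (hsmall t ht1 ht2 hs).1
    · rw [hwin t ht1 ht2]
      unfold wE
      rw [if_neg hs, if_neg (fun hh => hH ⟨hs, hh⟩)]
  have hw0 : ∀ t, 0 ≤ w t := by
    intro t
    by_cases h1 : t = r0
    · rw [h1, hwr0]; linarith
    by_cases h2 : t = r1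
    · rw [h2, hwr1]; linarith
    by_cases h3 : r0 < t ∧ t < r1
    · have := hhalf t h3.1 h3.2; linarith
    · rw [hw]; simp only
      rw [if_neg h1, if_neg h2, if_neg h3]
  have hwz : ∀ s, s ∉ Icc r0 r1 → w s = 0 := by
    intro s hs
    rw [mem_Icc] at hs
    rw [hw]; simp only
    rw [if_neg (by omega), if_neg (by omega), if_neg (by omega)]
  have hhalf' : ∀ t, r0 ≤ t → t ≤ r1 → 1 / 2 ≤ w t := by
    intro t ht1 ht2
    by_cases e1 : t = r0
    · rw [e1, hwr0]; linarith
    by_cases e2 : t = r1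
    · rw [e2, hwr1]; linarith
    exact hhalf t (by omega) (by omega)
  have hone' : ∀ t, r0 ≤ t → t ≤ r1 → ¬ (∃ l, cutN n e l + 4 ≤ D ∧ ¬ cutN n e (l + 1) + 4 ≤ D ∧
      l + 2 ≤ t ∧ t + 3 ≤ l + D) → 1 ≤ w t := by
    intro t ht1 ht2 hh
    by_cases e1 : t = r0
    · rw [e1, hwr0]; linarith
    by_cases e2 : t = r1
    · rw [e2, hwr1]; linarith
    exact hone t (by omega) (by omega) (fun hc => hh hc.2)
  -- upward cumulative bounds
  have up1 : ∀ t, r0 < t → t < r1 → 1 / 2 ≤ w (t - 1) := fun t h1 h2 =>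
    hhalf' (t - 1) (by omega) (by omega)
  have up2 : ∀ t, r0 < t → t < r1 → 1 ≤ w (t - 1) + w (t - 2) := by
    intro t h1 h2
    by_cases e3 : t - 1 = r0
    · have := hw0 (t - 2); rw [e3, hwr0]; linarith
    · have := hhalf' (t - 1) (by omega) (by omega)
      have := hhalf' (t - 2) (by omega) (by omega)
      linarith
  have up3 : ∀ t, r0 < t → t < r1 → 3 / 2 ≤ w (t - 1) + w (t - 2) + w (t - 3) := by
    intro t h1 h2
    by_cases e3 : t - 1 = r0
    · have := hw0 (t - 2); have := hw0 (t - 3); rw [e3, hwr0]; linarith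
    by_cases e4 : t - 2 = r0
    · have := hw0 (t - 1); have := hw0 (t - 3); rw [e4, hwr0]; linarith
    · have := hhalf' (t - 1) (by omega) (by omega)
      have := hhalf' (t - 2) (by omega) (by omega)
      have := hhalf' (t - 3) (by omega) (by omega)
      linarith
  have dn1 : ∀ t, r0 < t → t < r1 → 1 / 2 ≤ w (t + 1) := fun t h1 h2 =>
    hhalf' (t + 1) (by omega) (by omega)
  have dn2 : ∀ t, r0 < t → t < r1 → 1 ≤ w (t + 1) + w (t + 2) := by
    intro t h1 h2
    by_cases e3 : t + 1 = r1
    · have := hw0 (t + 2); rw [e3, hwr1]; linarith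
    · have := hhalf' (t + 1) (by omega) (by omega)
      have := hhalf' (t + 2) (by omega) (by omega)
      linarith
  have dn3 : ∀ t, r0 < t → t < r1 → 3 / 2 ≤ w (t + 1) + w (t + 2) + w (t + 3) := by
    intro t h1 h2
    by_cases e3 : t + 1 = r1
    · have := hw0 (t + 2); have := hw0 (t + 3); rw [e3, hwr1]; linarith
    by_cases e4 : t + 2 = r1
    · have := hw0 (t + 1); have := hw0 (t + 3); rw [e4, hwr1]; linarith
    · have := hhalf' (t + 1) (by omega) (by omega)
      have := hhalf' (t + 2) (by omega) (by omega)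
      have := hhalf' (t + 3) (by omega) (by omega)
      linarith
  have dn4 : ∀ t, r0 < t → t < r1 → 2 ≤ w (t + 1) + w (t + 2) + w (t + 3) + w (t + 4) := by
    intro t h1 h2
    by_cases e3 : t + 1 = r1
    · have := hw0 (t + 2); have := hw0 (t + 3); have := hw0 (t + 4); rw [e3, hwr1]; linarith
    by_cases e4 : t + 2 = r1
    · have := hw0 (t + 1); have := hw0 (t + 3); have := hw0 (t + 4); rw [e4, hwr1]; linarith
    by_cases e5 : t + 3 = r1
    · have := hw0 (t + 1); have := hw0 (t + 2); have := hw0 (t + 4); rw [e5, hwr1]; linarith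
    · have := hhalf' (t + 1) (by omega) (by omega)
      have := hhalf' (t + 2) (by omega) (by omega)
      have := hhalf' (t + 3) (by omega) (by omega)
      have := hhalf' (t + 4) (by omega) (by omega)
      linarith
  -- local conditions
  have hload : ∀ t ∈ Icc r0 r1, 2 * (D : ℝ) - 4 ≤ load n e w t := by
    intro t ht
    rw [mem_Icc] at ht
    by_cases e1 : t = r0
    · rw [e1]
      have := load_self n e w hw0 r0
      rw [hwr0] at this
      linarith
    by_cases e2 : t = r1
    · rw [e2]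
      have := load_self n e w hw0 r1
      rw [hwr1] at this
      linarith
    have ht1 : r0 < t := by omega
    have ht2 : t < r1 := by omega
    have htN : t < N := by omega
    have htn : t < n := lt_of_lt_of_le htN h.hN
    have hc4 := hc t ht.1 ht.2
    by_cases hs : cutN n e t + 4 ≤ D
    · have h8 : 8 ≤ D := by omega
      by_cases hs1 : cutN n e (t + 1) + 4 ≤ D
      · -- first of pair
        have hself := hpair t ht1 ht2 hs (Or.inl hs1)
        have hst := step h t htN
        have hup : 4 ≤ ∑ i ∈ range t, e i t := by omega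
        have hS1 : ¬ cutN n e (t - 1) + 4 ≤ D := by
          intro hh
          rcases spacing_even h (t - 1) (t + 1) hh hs1 (by omega) (by omega) with q | q <;> omega
        have hnH1 : ¬ (∃ l, cutN n e l + 4 ≤ D ∧ ¬ cutN n e (l + 1) + 4 ≤ D ∧
            l + 2 ≤ t - 1 ∧ t - 1 + 3 ≤ l + D) := by
          rintro ⟨l, hl1, hl2, hl3, hl4⟩
          rcases spacing_even h l t hl1 hs (by omega) (by omega) with q | q <;> omega
        have hnH2 : r0 ≤ t - 2 → ¬ (∃ l, cutN n e l + 4 ≤ D ∧ ¬ cutN n e (l + 1) + 4 ≤ D ∧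
            l + 2 ≤ t - 2 ∧ t - 2 + 3 ≤ l + D) := by
          rintro hr ⟨l, hl1, hl2, hl3, hl4⟩
          rcases spacing_even h l t hl1 hs (by omega) (by omega) with q | q <;> omega
        have a1 : 1 ≤ w (t - 1) := hone' (t - 1) (by omega) (by omega) hnH1
        have a2 : 2 ≤ w (t - 1) + w (t - 2) := by
          by_cases e3 : t - 1 = r0
          · have := hw0 (t - 2); rw [e3, hwr0]; linarith
          · have := hone' (t - 2) (by omega) (by omega) (hnH2 (by omega)); linarith
        have hl := load_col n e h.le1 t htn w hw0 (fun _ => a1) (fun _ => by linarith)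
          (fun _ => by have := hw0 (t - 3); linarith)
        rw [hself] at hl
        have hupr : (4 : ℝ) ≤ ((∑ i ∈ range t, e i t : ℕ) : ℝ) := by exact_mod_cast hup
        linarith
      by_cases hs2 : cutN n e (t - 1) + 4 ≤ D
      · -- second of pair
        have hself := hpair t ht1 ht2 hs (Or.inr hs2)
        have hst := step h (t - 1) (by omega)
        rw [show t - 1 + 1 = t by omega] at hst
        have hdeg := h.deg (t - 1) (by omega)
        rw [sum_split _ (show t ≤ n by omega)] at hdeg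
        have hdeg2 : ∑ k ∈ range t, e (t - 1) k = ∑ i ∈ range (t - 1), e i (t - 1) := by
          conv_lhs => rw [show t = (t - 1) + 1 by omega]
          rw [Finset.sum_range_succ]
          simp only [Nat.add_sub_cancel]
          rw [h.irr, add_zero]
          exact Finset.sum_congr rfl (fun i _ => h.symm _ _)
        have hdn : 4 ≤ ∑ k ∈ Ico t n, e (t - 1) k := by omega
        have b1 : 1 ≤ w (t + 1) := by
          apply hone' (t + 1) (by omega) (by omega)
          rintro ⟨l, hl1, hl2, hl3, hl4⟩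
          by_cases q0 : l = t
          · omega
          by_cases q1 : l + 1 = t
          · rw [← q1] at hs; exact hl2 hs
          rcases spacing_even h l t hl1 hs (by omega) (by omega) with q | q <;> omega
        have b2 : 3 / 2 ≤ w (t + 1) + w (t + 2) := by
          by_cases e3 : t + 1 = r1
          · have := hw0 (t + 2); rw [e3, hwr1]; linarith
          · have := hhalf' (t + 2) (by omega) (by omega); linarith
        have b3 : 2 ≤ w (t + 1) + w (t + 2) + w (t + 3) := by
          by_cases e3 : t + 1 = r1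
          · have := hw0 (t + 2); have := hw0 (t + 3); rw [e3, hwr1]; linarith
          by_cases e4 : t + 2 = r1
          · have := hw0 (t + 3); rw [e4, hwr1]; linarith
          · have := hhalf' (t + 3) (by omega) (by omega); linarith
        have hl := load_row n e h.le1 t (by omega) w hw0 b1 b2 b3
        rw [hself] at hl
        have hupr : (4 : ℝ) ≤ ((∑ k ∈ Ico t n, e (t - 1) k : ℕ) : ℝ) := by exact_mod_cast hdn
        linarith
      · have hself := hsing t ht1 ht2 hs (fun hh => hh.elim hs1 hs2)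
        have hl := load_self n e w hw0 t
        rw [hself] at hl
        exact hl
    have hpar := even_cut h heven t htN.le
    have hct' : D ≤ cutN n e t + 2 := by omega
    have hct : (D : ℝ) ≤ (cutN n e t : ℝ) + 2 := by exact_mod_cast hct'
    by_cases hH : ∃ l, cutN n e l + 4 ≤ D ∧ ¬ cutN n e (l + 1) + 4 ≤ D ∧ l + 2 ≤ t ∧ t + 3 ≤ l + D
    · obtain ⟨l, hl1, hl2, hl3, hl4⟩ := hH
      have hfar := far_even h l t hl1 hl3 (by omega) htN.le
      have hfar' : (D : ℝ) + 2 ≤ (cutN n e t : ℝ) := by exact_mod_cast hfar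
      have hl := load_ge n e h.le1 t (by omega) w hw0 2 (1/2) (1/2) 1 (3/2) (3/2)
        (1/2) 1 (3/2) (3/2) 5
        (fun _ => up1 t ht1 ht2) (fun _ => up2 t ht1 ht2) (fun _ => up3 t ht1 ht2)
        (fun _ => by have := up3 t ht1 ht2; have := hw0 (t - 4); linarith)
        (dn1 t ht1 ht2) (dn2 t ht1 ht2) (dn3 t ht1 ht2)
        (by have := dn3 t ht1 ht2; have := hw0 (t + 4); linarith)
        (hhalf t ht1 ht2) (by norm_num) (by norm_num) (by norm_num) (by norm_num)
        (by simp only [Finset.sum_range_succ, Finset.sum_range_zero, pf]; norm_num)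
      linarith
    have hwt : w t = 1 := by
      rw [hwin t ht1 ht2]; unfold wE; rw [if_neg hs, if_neg hH]
    by_cases hsp : cutN n e (t - 1) + 4 ≤ D
    · have h8 : 8 ≤ D := by
        have := hc (t - 1) (by omega) (by omega)
        omega
      have h8r : (8 : ℝ) ≤ (D : ℝ) := by exact_mod_cast h8
      by_cases hsp2 : cutN n e (t - 2) + 4 ≤ D
      · have hfar := far_even h (t - 2) t hsp2 (by omega) (by omega) htN.le
        have hfar' : (D : ℝ) + 2 ≤ (cutN n e t : ℝ) := by exact_mod_cast hfar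
        have ha : 1 ≤ w (t - 1) := by
          by_cases e3 : t - 1 = r0
          · rw [e3, hwr0]; linarith
          · exact (hsmall (t - 1) (by omega) (by omega) hsp).1
        have hl := load_ge n e h.le1 t (by omega) w hw0 2 1 1 1 1 1
          (1/2) 1 1 1 (3/2)
          (fun _ => ha) (fun _ => by have := hw0 (t - 2); linarith)
          (fun _ => by have := hw0 (t - 2); have := hw0 (t - 3); linarith)
          (fun _ => by have := hw0 (t - 2); have := hw0 (t - 3); have := hw0 (t - 4); linarith)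
          (dn1 t ht1 ht2) (dn2 t ht1 ht2)
          (by have := dn2 t ht1 ht2; have := hw0 (t + 3); linarith)
          (by have := dn2 t ht1 ht2; have := hw0 (t + 3); have := hw0 (t + 4); linarith)
          (by rw [hwt]) (by norm_num) (by norm_num) (by norm_num) (by norm_num)
          (by simp only [Finset.sum_range_succ, Finset.sum_range_zero, pf]; norm_num)
        linarith
      · have ha : 2 ≤ w (t - 1) := by
          by_cases e3 : t - 1 = r0
          · rw [e3, hwr0]; linarith
          · have hq := hsing (t - 1) (by omega) (by omega) hsp (by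
              rintro (hh | hh)
              · rw [show t - 1 + 1 = t by omega] at hh; exact hs hh
              · rw [show t - 1 - 1 = t - 2 by omega] at hh; exact hsp2 hh)
            have hcD := hcr (t - 1) hsp
            have hc4' := hc4r (t - 1) (by omega) (by omega)
            by_contra hcon; push Not at hcon; nlinarith
        have hl := load_ge n e h.le1 t (by omega) w hw0 3 1 2 2 2 2
          (1/2) 1 (3/2) 2 5
          (fun _ => ha) (fun _ => by have := hw0 (t - 2); linarith)
          (fun _ => by have := hw0 (t - 2); have := hw0 (t - 3); linarith)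
          (fun _ => by have := hw0 (t - 2); have := hw0 (t - 3); have := hw0 (t - 4); linarith)
          (dn1 t ht1 ht2) (dn2 t ht1 ht2) (dn3 t ht1 ht2) (dn4 t ht1 ht2)
          (by rw [hwt]) (by norm_num) (by norm_num) (by norm_num) (by norm_num)
          (by simp only [Finset.sum_range_succ, Finset.sum_range_zero, pf]; norm_num)
        linarith
    -- no small cut at t - 1
    by_cases hH1 : ∃ l, cutN n e l + 4 ≤ D ∧ ¬ cutN n e (l + 1) + 4 ≤ D ∧ l + 2 ≤ t - 1 ∧
        t - 1 + 3 ≤ l + D
    · obtain ⟨l, hl1, hl2, hl3, hl4⟩ := hH1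
      have : ¬ (t + 3 ≤ l + D) := fun hh => hH ⟨l, hl1, hl2, by omega, hh⟩
      have hfar := far_even2 h l hl1 (by omega)
      rw [show l + D - 2 = t by omega] at hfar
      have hfar' : 2 * (D : ℝ) - 2 ≤ (cutN n e t : ℝ) := by
        have : 2 * D ≤ cutN n e t + 2 := by omega
        have : (2 * (D : ℝ)) ≤ (cutN n e t : ℝ) + 2 := by exact_mod_cast this
        linarith
      have := load_self n e w hw0 t
      rw [hwt] at this
      linarith
    have ha : 1 ≤ w (t - 1) := hone' (t - 1) (by omega) (by omega) hH1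
    have hb : 1 ≤ w (t + 1) := by
      apply hone' (t + 1) (by omega) (by omega)
      rintro ⟨l, hl1, hl2, hl3, hl4⟩
      by_cases e4 : l + 1 = t
      · apply hsp; rw [← e4]; simpa using hl1
      · exact hH ⟨l, hl1, hl2, by omega, by omega⟩
    by_cases hH2 : ∃ l, cutN n e l + 4 ≤ D ∧ ¬ cutN n e (l + 1) + 4 ≤ D ∧ l + 2 ≤ t - 2 ∧
        t - 2 + 3 ≤ l + D
    · obtain ⟨l, hl1, hl2, hl3, hl4⟩ := hH2
      have q1 : ¬ (t + 3 ≤ l + D) := fun hh => hH ⟨l, hl1, hl2, by omega, hh⟩
      have q2 : ¬ (t - 1 + 3 ≤ l + D) := fun hh => hH1 ⟨l, hl1, hl2, by omega, hh⟩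
      have hfar := far_even h l t hl1 (by omega) (by omega) htN.le
      have hfar' : (D : ℝ) + 2 ≤ (cutN n e t : ℝ) := by exact_mod_cast hfar
      have hl := load_ge n e h.le1 t (by omega) w hw0 2 1 1 1 1 1
          1 1 1 1 1
          (fun _ => ha) (fun _ => by have := hw0 (t - 2); linarith)
          (fun _ => by have := hw0 (t - 2); have := hw0 (t - 3); linarith)
          (fun _ => by have := hw0 (t - 2); have := hw0 (t - 3); have := hw0 (t - 4); linarith)
          hb (by have := hw0 (t + 2); linarith)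
          (by have := hw0 (t + 2); have := hw0 (t + 3); linarith)
          (by have := hw0 (t + 2); have := hw0 (t + 3); have := hw0 (t + 4); linarith)
          (by rw [hwt]) (by norm_num) (by norm_num) (by norm_num) (by norm_num)
          (by simp only [Finset.sum_range_succ, Finset.sum_range_zero, pf]; norm_num)
      linarith
    have ha2 : 2 ≤ w (t - 1) + w (t - 2) := by
      by_cases e3 : t - 1 = r0
      · have := hw0 (t - 2); rw [e3, hwr0]; linarith
      · have := hone' (t - 2) (by omega) (by omega) hH2; linarith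
    have hb2 : 2 ≤ w (t + 1) + w (t + 2) := by
      by_cases e3 : t + 1 = r1
      · have := hw0 (t + 2); rw [e3, hwr1]; linarith
      · have : 1 ≤ w (t + 2) := by
          apply hone' (t + 2) (by omega) (by omega)
          rintro ⟨l, hl1, hl2, hl3, hl4⟩
          by_cases e4 : l + 1 = t
          · apply hsp; rw [← e4]; simpa using hl1
          by_cases e5 : l = t
          · apply hs; rw [← e5]; exact hl1
          · exact hH ⟨l, hl1, hl2, by omega, by omega⟩
        linarith
    have hl := load_ge n e h.le1 t (by omega) w hw0 3 1 1 2 2 2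
          1 2 2 2 4
          (fun _ => ha) (fun _ => ha2)
          (fun _ => by have := hw0 (t - 3); linarith)
          (fun _ => by have := hw0 (t - 3); have := hw0 (t - 4); linarith)
          hb hb2
          (by have := hw0 (t + 3); linarith)
          (by have := hw0 (t + 3); have := hw0 (t + 4); linarith)
          (by rw [hwt]) (by norm_num) (by norm_num) (by norm_num) (by norm_num)
          (by simp only [Finset.sum_range_succ, Finset.sum_range_zero, pf]; norm_num)
    linarith
  have hdual := dual h r0 r1 h0 h01.le h1N w hw0 hwz (2 * (D : ℝ) - 4) hload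
  refine hdual.trans ?_
  apply mul_le_mul_of_nonneg_left _ (J_nonneg h)
  have hexc := (excess w (fun t => cutN n e t + 4 ≤ D) (D - 4) r0 r1
    (by
      intro t ht1 ht2 hs
      rw [hwin t ht1 ht2]
      unfold wE
      rw [if_neg hs]
      split_ifs <;> norm_num)
    (by
      intro l t hl hl' hlt1 hlt2 ht1 ht2
      rw [hwin t ht1 ht2]
      unfold wE
      rw [if_neg, if_pos ⟨l, hl, hl', hlt1, by omega⟩]
      intro hs
      rcases spacing_even h l t hl hs (by omega) (by omega) with q | q <;> omega)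
    (by
      intro t ht1 ht2 hs
      exact (hsmall t ht1 ht2 hs).2)
    (by
      intro t ht1 ht2 hs hs1
      have p1 := hpair t ht1 (by omega) hs (Or.inl hs1)
      have p2 := hpair (t + 1) (by omega) ht2 hs1 (Or.inr (by simpa using hs))
      have c1 := hc4r t ht1.le (by omega)
      have c2 := hc4r (t + 1) (by omega) (by omega)
      have d1 := hcr t hs
      have d2 := hcr (t + 1) hs1
      have hf := f_ineq h t 1 (by omega)
      have hf' : (D : ℝ) ≤ (cutN n e t : ℝ) + (cutN n e (t + 1) : ℝ) := by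
        have : D ≤ cutN n e t + cutN n e (t + 1) := by omega
        exact_mod_cast this
      rw [hcast]
      set k := (cutN n e t : ℝ) with hk
      set k' := (cutN n e (t + 1) : ℝ) with hk'
      have e1 : w t = (2 * (D : ℝ) - 17 / 2) / k := by
        rw [eq_div_iff (by linarith)]; exact p1
      have e2 : w (t + 1) = (2 * (D : ℝ) - 17 / 2) / k' := by
        rw [eq_div_iff (by linarith)]; exact p2
      rw [e1, e2, div_add_div _ _ (by linarith) (by linarith), div_le_iff₀ (by nlinarith)]
      have hkk : 4 * (k + k') - 16 ≤ k * k' := by nlinarith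
      have hs0 : (D : ℝ) ≤ k + k' := hf'
      have h8' : (8 : ℝ) ≤ (D : ℝ) := by linarith
      -- (2D - 17/2)(k+k') ≤ (D/2) k k'
      have g1 : (D : ℝ) / 2 * (4 * (k + k') - 16) ≤ (D : ℝ) / 2 * (k * k') :=
        mul_le_mul_of_nonneg_left hkk (by linarith)
      nlinarith)
    (by
      intro l t hl hs hlt htr
      rcases spacing_even h l t hl hs hlt (by omega) with q | q
      · left; exact q
      · right; omega) r1 le_rfl)
  have hsum : ∑ s ∈ Icc r0 r1, w s = ω0 + ω1 + ∑ t ∈ Ico (r0 + 1) r1, w t := by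
    have e1 : Icc r0 r1 = Ico r0 (r1 + 1) := by ext s; simp only [mem_Icc, mem_Ico]; omega
    rw [e1, Finset.sum_Ico_succ_top (by omega), Finset.sum_eq_sum_Ico_succ_bot (by omega),
      hwr0, hwr1]
    ring
  rw [hsum]
  have hc3 : ((r1 - (r0 + 1) : ℕ) : ℝ) = (r1 : ℝ) - r0 - 1 := by
    rw [Nat.cast_sub (by omega)]; push_cast; ring
  have hss : ∑ t ∈ Ico (r0 + 1) r1, w t = ∑ t ∈ Ico (r0 + 1) r1, (w t - 1) + ((r1 : ℝ) - r0 - 1) := by
    rw [Finset.sum_sub_distrib]
    simp only [sum_const, Nat.card_Ico, nsmul_eq_mul, mul_one]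
    rw [hc3]; ring
  rw [hss]
  split_ifs with h6
  · have hno := hexc.2 (by
      intro l hl0 hl1 hS
      have := hc l hl0.le hl1.le
      omega)
    linarith
  · have := hexc.1
    rw [hcast] at this
    linarith

end even

end Pool.Agent.Helper951.Lg
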