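import Pool.Agent.Helper951.LgD

set_option autoImplicit false

open Finset

namespace Pool.Agent.Helper951.Lg

/-- number of edges from the top of cut `p` to `v` -/
def upc (e : ℕ → ℕ → ℕ) (p v : ℕ) : ℕ := ∑ i ∈ range p, e i v
/-- number of edges from `u` to the bottom of cut `p` -/
def dnc (n : ℕ) (e : ℕ → ℕ → ℕ) (p u : ℕ) : ℕ := ∑ k ∈ Ico p n, e u k

lemma sum_upc (n : ℕ) (e : ℕ → ℕ → ℕ) (p : ℕ) : ∑ v ∈ Ico p n, upc e p v = cutN n e p := by
  unfold upc cutN
  rw [Finset.sum_comm]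

lemma sum_dnc (n : ℕ) (e : ℕ → ℕ → ℕ) (p : ℕ) : ∑ u ∈ range p, dnc n e p u = cutN n e p := rfl

section win
variable {D n N : ℕ} {e : ℕ → ℕ → ℕ} {x : ℕ → ℝ} {J : ℝ} (h : OG D n N e x J)
include h

/-- entries: flow out of `range p ∪ Q` -/
lemma flow_entries (p : ℕ) (hpN : p ≤ N) (Q : Finset ℕ) (hQ1 : ∀ q ∈ Q, p ≤ q ∧ q < N) :
    ∑ q ∈ Q, ∑ k ∈ Ico p n \ Q, (e q k : ℝ) * (x q - x k) ≤ J := by
  have hNn := h.hN
  have hf := h.flow (range p ∪ Q) (by
    intro i hi
    rw [mem_union, mem_range] at hi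
    rw [mem_range]
    rcases hi with hi | hi
    · omega
    · exact (hQ1 i hi).2)
  have hset : range n \ (range p ∪ Q) = Ico p n \ Q := by
    ext k
    simp only [mem_sdiff, mem_union, mem_range, mem_Ico, not_or, not_lt]
    tauto
  rw [hset, Finset.sum_union (by
    rw [Finset.disjoint_left]
    intro i hi hi2
    rw [mem_range] at hi
    have := (hQ1 i hi2).1
    omega)] at hf
  have h1 : 0 ≤ ∑ i ∈ range p, ∑ k ∈ Ico p n \ Q, (e i k : ℝ) * (x i - x k) := by
    apply Finset.sum_nonneg; intro i hi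
    apply Finset.sum_nonneg; intro k hk
    rw [mem_range] at hi
    rw [mem_sdiff, mem_Ico] at hk
    have := h.anti (show i ≤ k by omega)
    exact mul_nonneg (Nat.cast_nonneg _) (by linarith)
  linarith

lemma flow_exits (p : ℕ) (hpN : p ≤ N) (R : Finset ℕ) (hR1 : ∀ q ∈ R, q < p) :
    ∑ r ∈ R, ∑ i ∈ range p \ R, (e r i : ℝ) * (x i - x r) ≤ J := by
  have hNn := h.hN
  have hf := h.flow (range p \ R) (by
    intro i hi
    rw [mem_sdiff, mem_range] at hi
    rw [mem_range]
    omega)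
  have hset : range n \ (range p \ R) = Ico p n ∪ R := by
    ext k
    simp only [mem_sdiff, mem_union, mem_range, mem_Ico]
    constructor
    · rintro ⟨hk, hk2⟩
      by_cases hkp : k < p
      · right; by_contra hc; exact hk2 ⟨hkp, hc⟩
      · left; omega
    · rintro (hk | hk)
      · exact ⟨hk.2, fun hh => by omega⟩
      · have := hR1 k hk
        exact ⟨by omega, fun hh => hh.2 hk⟩
  rw [hset] at hf
  have hsp : ∀ i, ∑ k ∈ Ico p n ∪ R, (e i k : ℝ) * (x i - x k) =
      ∑ k ∈ Ico p n, (e i k : ℝ) * (x i - x k) + ∑ k ∈ R, (e i k : ℝ) * (x i - x k) := by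
    intro i
    apply Finset.sum_union
    rw [Finset.disjoint_left]
    intro k hk hk2
    rw [mem_Ico] at hk
    have := hR1 k hk2
    omega
  rw [Finset.sum_congr rfl (fun i _ => hsp i), Finset.sum_add_distrib] at hf
  have h1 : 0 ≤ ∑ i ∈ range p \ R, ∑ k ∈ Ico p n, (e i k : ℝ) * (x i - x k) := by
    apply Finset.sum_nonneg; intro i hi
    apply Finset.sum_nonneg; intro k hk
    rw [mem_sdiff, mem_range] at hi
    rw [mem_Ico] at hk
    have := h.anti (show i ≤ k by omega)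
    exact mul_nonneg (Nat.cast_nonneg _) (by linarith)
  rw [Finset.sum_comm] at hf
  have h2 : ∑ k ∈ R, ∑ i ∈ range p \ R, (e i k : ℝ) * (x i - x k) =
      ∑ r ∈ R, ∑ i ∈ range p \ R, (e r i : ℝ) * (x i - x r) := by
    apply Finset.sum_congr rfl; intro r _
    apply Finset.sum_congr rfl; intro i _
    rw [h.symm r i]
  have h3 : ∑ k ∈ R, ∑ i ∈ range p \ R, (e i k : ℝ) * (x i - x k) =
      ∑ i ∈ range p \ R, ∑ k ∈ R, (e i k : ℝ) * (x i - x k) := Finset.sum_comm
  rw [← h2]
  have h4 : ∑ i ∈ range p \ R, ∑ k ∈ Ico p n, (e i k : ℝ) * (x i - x k) =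
    ∑ k ∈ Ico p n, ∑ i ∈ range p \ R, (e i k : ℝ) * (x i - x k) := Finset.sum_comm
  linarith

theorem win_post (p M : ℕ) (hpN : p + M ≤ N) (Q : Finset ℕ)
    (hQ : Q ⊆ Ico p (p + M)) (hup : ∀ v ∈ Ico p (p + M), v ∉ Q → upc e p v = 0) :
    ∑ q ∈ Q, ((∑ k ∈ Ico p n \ Q, e q k : ℕ) : ℝ) * (x q - x (p + M)) ≤
      J + (Q.card : ℝ) * ∑ k ∈ Ico p (p + M) \ Q, (x k - x (p + M)) ∧
    ((D : ℝ) + 1 - M) * ∑ k ∈ Ico p (p + M) \ Q, (x k - x (p + M)) +
      ∑ q ∈ Q, ((D : ℝ) + 1 - M - (upc e p q : ℝ)) * (x q - x (p + M)) ≤ J ∧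
    ((D : ℝ) + 1 - M) * ∑ k ∈ Ico p (p + M) \ Q, (x k - x (p + M)) ≤ J ∧
    0 ≤ ∑ k ∈ Ico p (p + M) \ Q, (x k - x (p + M)) := by
  have hNn := h.hN
  have hnn : ∀ k ∈ Ico p (p + M), 0 ≤ x k - x (p + M) := by
    intro k hk
    rw [mem_Ico] at hk
    have := h.anti (show k ≤ p + M by omega)
    linarith
  -- level inequality
  have hdn : ∀ i ∈ Ico p (p + M), (D : ℝ) + 1 - M - (upc e p i : ℝ) ≤
      ((∑ k ∈ Ico (p + M) n, e i k : ℕ) : ℝ) := by
    intro i hi
    have hi' := hi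
    rw [mem_Ico] at hi'
    have hdeg := h.deg i (by omega)
    rw [sum_split _ (show p ≤ n by omega), sum_Ico_split _ (show p ≤ p + M by omega) (by omega)]
      at hdeg
    have h1 : ∑ k ∈ range p, e i k = upc e p i := Finset.sum_congr rfl (fun k _ => h.symm _ _)
    have h2 : ∑ k ∈ Ico p (p + M), e i k + 1 ≤ M := by
      rw [← Finset.add_sum_erase _ _ hi, h.irr i, zero_add]
      have := Finset.sum_le_card_nsmul ((Ico p (p + M)).erase i) (fun k => e i k) 1
        (fun k _ => h.le1 i k)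
      rw [Finset.card_erase_of_mem hi, Nat.card_Ico] at this
      simp only [smul_eq_mul, mul_one] at this
      omega
    rw [h1] at hdeg
    have h3 : D + 1 ≤ upc e p i + M + ∑ k ∈ Ico (p + M) n, e i k := by omega
    have h4 : ((D + 1 : ℕ) : ℝ) ≤ ((upc e p i + M + ∑ k ∈ Ico (p + M) n, e i k : ℕ) : ℝ) := by
      exact_mod_cast h3
    rw [Nat.cast_add, Nat.cast_add, Nat.cast_add] at h4
    push_cast at h4 ⊢
    linarith
  have hlevel : ∑ i ∈ Ico p (p + M), ((∑ k ∈ Ico (p + M) n, e i k : ℕ) : ℝ) *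
      (x i - x (p + M)) ≤ J := by
    refine le_trans ?_ (flow_prefix h (p + M) hpN)
    calc ∑ i ∈ Ico p (p + M), ((∑ k ∈ Ico (p + M) n, e i k : ℕ) : ℝ) * (x i - x (p + M))
        ≤ ∑ i ∈ Ico p (p + M), ∑ k ∈ Ico (p + M) n, (e i k : ℝ) * (x i - x k) := by
          apply Finset.sum_le_sum
          intro i _
          push_cast
          rw [Finset.sum_mul]
          apply Finset.sum_le_sum
          intro k hk
          rw [mem_Ico] at hk
          apply mul_le_mul_of_nonneg_left _ (Nat.cast_nonneg _)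
          have := h.anti (show p + M ≤ k by omega)
          linarith
      _ ≤ _ := by
          apply Finset.sum_le_sum_of_subset_of_nonneg
          · intro i hi; rw [mem_Ico] at hi; rw [mem_range]; omega
          · intro i hi _
            rw [mem_range] at hi
            apply Finset.sum_nonneg
            intro k hk
            rw [mem_Ico] at hk
            have := h.anti (show i ≤ k by omega)
            exact mul_nonneg (Nat.cast_nonneg _) (by linarith)
  have hsplitW : ∀ f : ℕ → ℝ, ∑ i ∈ Ico p (p + M), f i =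
      ∑ i ∈ Ico p (p + M) \ Q, f i + ∑ i ∈ Q, f i := fun f => (Finset.sum_sdiff hQ).symm
  have h2 : ((D : ℝ) + 1 - M) * ∑ k ∈ Ico p (p + M) \ Q, (x k - x (p + M)) ≤
      ∑ i ∈ Ico p (p + M) \ Q, ((∑ k ∈ Ico (p + M) n, e i k : ℕ) : ℝ) * (x i - x (p + M)) := by
    rw [Finset.mul_sum]
    apply Finset.sum_le_sum
    intro i hi
    rw [mem_sdiff] at hi
    have h5 := hdn i hi.1
    rw [hup i hi.1 hi.2] at h5
    apply mul_le_mul_of_nonneg_right _ (hnn i hi.1)
    simpa using h5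
  rw [hsplitW] at hlevel
  refine ⟨?_, ?_, ?_, ?_⟩
  · have hfe := flow_entries h p (by omega) Q (by
      intro q hq
      have := hQ hq
      rw [mem_Ico] at this
      omega)
    have e1 : ∑ q ∈ Q, ∑ k ∈ Ico p n \ Q, (e q k : ℝ) * (x q - x k) =
        ∑ q ∈ Q, ((∑ k ∈ Ico p n \ Q, e q k : ℕ) : ℝ) * (x q - x (p + M)) -
        ∑ q ∈ Q, ∑ k ∈ Ico p n \ Q, (e q k : ℝ) * (x k - x (p + M)) := by
      rw [← Finset.sum_sub_distrib]
      apply Finset.sum_congr rfl; intro q _
      push_cast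
      rw [Finset.sum_mul, ← Finset.sum_sub_distrib]
      apply Finset.sum_congr rfl; intro k _
      ring
    have e2 : ∑ q ∈ Q, ∑ k ∈ Ico p n \ Q, (e q k : ℝ) * (x k - x (p + M)) ≤
        (Q.card : ℝ) * ∑ k ∈ Ico p (p + M) \ Q, (x k - x (p + M)) := by
      have : ∀ q ∈ Q, ∑ k ∈ Ico p n \ Q, (e q k : ℝ) * (x k - x (p + M)) ≤
          ∑ k ∈ Ico p (p + M) \ Q, (x k - x (p + M)) := by
        intro q _
        have hs : ∑ k ∈ Ico p n \ Q, (e q k : ℝ) * (x k - x (p + M)) ≤
            ∑ k ∈ Ico p n \ Q, if k < p + M then (x k - x (p + M)) else 0 := by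
          apply Finset.sum_le_sum
          intro k hk
          rw [mem_sdiff, mem_Ico] at hk
          have he : (e q k : ℝ) ≤ 1 := by exact_mod_cast h.le1 q k
          have he0 : (0 : ℝ) ≤ (e q k : ℝ) := Nat.cast_nonneg _
          split_ifs with hkM
          · have := hnn k (by rw [mem_Ico]; omega)
            nlinarith
          · have := h.anti (show p + M ≤ k by omega)
            apply mul_nonpos_of_nonneg_of_nonpos he0
            linarith
        refine hs.trans (le_of_eq ?_)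
        rw [← Finset.sum_filter]
        apply Finset.sum_congr _ (fun _ _ => rfl)
        ext k
        simp only [mem_filter, mem_sdiff, mem_Ico]
        constructor
        · rintro ⟨⟨hk1, hk2⟩, hk3⟩; exact ⟨by omega, hk2⟩
        · rintro ⟨hk1, hk2⟩; exact ⟨⟨by omega, hk2⟩, by omega⟩
      have h6 := Finset.sum_le_sum this
      simp only [sum_const, nsmul_eq_mul] at h6
      exact h6
    linarith
  · have h3 : ∑ q ∈ Q, ((D : ℝ) + 1 - M - (upc e p q : ℝ)) * (x q - x (p + M)) ≤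
        ∑ i ∈ Q, ((∑ k ∈ Ico (p + M) n, e i k : ℕ) : ℝ) * (x i - x (p + M)) := by
      apply Finset.sum_le_sum
      intro i hi
      exact mul_le_mul_of_nonneg_right (hdn i (hQ hi)) (hnn i (hQ hi))
    linarith
  · have h3 : 0 ≤ ∑ i ∈ Q, ((∑ k ∈ Ico (p + M) n, e i k : ℕ) : ℝ) * (x i - x (p + M)) :=
      Finset.sum_nonneg (fun i hi => mul_nonneg (Nat.cast_nonneg _) (hnn i (hQ hi)))
    linarith
  · apply Finset.sum_nonneg
    intro k hk
    rw [mem_sdiff] at hk
    exact hnn k hk.1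

theorem win_pre (s M : ℕ) (hs : 1 ≤ s) (hpN : s + M ≤ N) (R : Finset ℕ)
    (hR : R ⊆ Ico s (s + M)) (hdn : ∀ v ∈ Ico s (s + M), v ∉ R → dnc n e (s + M) v = 0) :
    ∑ q ∈ R, ((∑ k ∈ range (s + M) \ R, e q k : ℕ) : ℝ) * (x (s - 1) - x q) ≤
      J + (R.card : ℝ) * ∑ k ∈ Ico s (s + M) \ R, (x (s - 1) - x k) ∧
    ((D : ℝ) + 1 - M) * ∑ k ∈ Ico s (s + M) \ R, (x (s - 1) - x k) +
      ∑ q ∈ R, ((D : ℝ) + 1 - M - (dnc n e (s + M) q : ℝ)) * (x (s - 1) - x q) ≤ J ∧
    ((D : ℝ) + 1 - M) * ∑ k ∈ Ico s (s + M) \ R, (x (s - 1) - x k) ≤ J ∧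
    0 ≤ ∑ k ∈ Ico s (s + M) \ R, (x (s - 1) - x k) := by
  have hNn := h.hN
  have hnn : ∀ k ∈ Ico s (s + M), 0 ≤ x (s - 1) - x k := by
    intro k hk
    rw [mem_Ico] at hk
    have := h.anti (show s - 1 ≤ k by omega)
    linarith
  have hup : ∀ i ∈ Ico s (s + M), (D : ℝ) + 1 - M - (dnc n e (s + M) i : ℝ) ≤
      ((∑ k ∈ range s, e k i : ℕ) : ℝ) := by
    intro i hi
    have hi' := hi
    rw [mem_Ico] at hi'
    have hdeg := h.deg i (by omega)
    rw [sum_split _ (show s ≤ n by omega), sum_Ico_split _ (show s ≤ s + M by omega) (by omega)]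
      at hdeg
    have h1 : ∑ k ∈ range s, e i k = ∑ k ∈ range s, e k i :=
      Finset.sum_congr rfl (fun k _ => h.symm _ _)
    have h2 : ∑ k ∈ Ico s (s + M), e i k + 1 ≤ M := by
      rw [← Finset.add_sum_erase _ _ hi, h.irr i, zero_add]
      have := Finset.sum_le_card_nsmul ((Ico s (s + M)).erase i) (fun k => e i k) 1
        (fun k _ => h.le1 i k)
      rw [Finset.card_erase_of_mem hi, Nat.card_Ico] at this
      simp only [smul_eq_mul, mul_one] at this
      omega
    rw [h1] at hdeg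
    have h0 : dnc n e (s + M) i = ∑ k ∈ Ico (s + M) n, e i k := rfl
    have h3 : D + 1 ≤ dnc n e (s + M) i + M + ∑ k ∈ range s, e k i := by omega
    have h4 : ((D + 1 : ℕ) : ℝ) ≤ ((dnc n e (s + M) i + M + ∑ k ∈ range s, e k i : ℕ) : ℝ) := by
      exact_mod_cast h3
    rw [Nat.cast_add, Nat.cast_add, Nat.cast_add] at h4
    push_cast at h4 ⊢
    linarith
  have hlevel : ∑ i ∈ Ico s (s + M), ((∑ k ∈ range s, e k i : ℕ) : ℝ) *
      (x (s - 1) - x i) ≤ J := by
    have hf := flow_prefix h s (by omega)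
    rw [Finset.sum_comm] at hf
    refine le_trans ?_ hf
    calc ∑ i ∈ Ico s (s + M), ((∑ k ∈ range s, e k i : ℕ) : ℝ) * (x (s - 1) - x i)
        ≤ ∑ i ∈ Ico s (s + M), ∑ k ∈ range s, (e k i : ℝ) * (x k - x i) := by
          apply Finset.sum_le_sum
          intro i _
          push_cast
          rw [Finset.sum_mul]
          apply Finset.sum_le_sum
          intro k hk
          rw [mem_range] at hk
          apply mul_le_mul_of_nonneg_left _ (Nat.cast_nonneg _)
          have := h.anti (show k ≤ s - 1 by omega)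
          linarith
      _ ≤ _ := by
          apply Finset.sum_le_sum_of_subset_of_nonneg
          · intro i hi; rw [mem_Ico] at hi ⊢; omega
          · intro i hi _
            rw [mem_Ico] at hi
            apply Finset.sum_nonneg
            intro k hk
            rw [mem_range] at hk
            have := h.anti (show k ≤ i by omega)
            exact mul_nonneg (Nat.cast_nonneg _) (by linarith)
  have hsplitW : ∀ f : ℕ → ℝ, ∑ i ∈ Ico s (s + M), f i =
      ∑ i ∈ Ico s (s + M) \ R, f i + ∑ i ∈ R, f i := fun f => (Finset.sum_sdiff hR).symm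
  have h2 : ((D : ℝ) + 1 - M) * ∑ k ∈ Ico s (s + M) \ R, (x (s - 1) - x k) ≤
      ∑ i ∈ Ico s (s + M) \ R, ((∑ k ∈ range s, e k i : ℕ) : ℝ) * (x (s - 1) - x i) := by
    rw [Finset.mul_sum]
    apply Finset.sum_le_sum
    intro i hi
    rw [mem_sdiff] at hi
    have h5 := hup i hi.1
    rw [hdn i hi.1 hi.2] at h5
    apply mul_le_mul_of_nonneg_right _ (hnn i hi.1)
    simpa using h5
  rw [hsplitW] at hlevel
  refine ⟨?_, ?_, ?_, ?_⟩
  · have hfe := flow_exits h (s + M) (by omega) R (by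
      intro q hq
      have := hR hq
      rw [mem_Ico] at this
      omega)
    have e1 : ∑ q ∈ R, ∑ k ∈ range (s + M) \ R, (e q k : ℝ) * (x k - x q) =
        ∑ q ∈ R, ((∑ k ∈ range (s + M) \ R, e q k : ℕ) : ℝ) * (x (s - 1) - x q) -
        ∑ q ∈ R, ∑ k ∈ range (s + M) \ R, (e q k : ℝ) * (x (s - 1) - x k) := by
      rw [← Finset.sum_sub_distrib]
      apply Finset.sum_congr rfl; intro q _
      push_cast
      rw [Finset.sum_mul, ← Finset.sum_sub_distrib]
      apply Finset.sum_congr rfl; intro k _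
      ring
    have e2 : ∑ q ∈ R, ∑ k ∈ range (s + M) \ R, (e q k : ℝ) * (x (s - 1) - x k) ≤
        (R.card : ℝ) * ∑ k ∈ Ico s (s + M) \ R, (x (s - 1) - x k) := by
      have : ∀ q ∈ R, ∑ k ∈ range (s + M) \ R, (e q k : ℝ) * (x (s - 1) - x k) ≤
          ∑ k ∈ Ico s (s + M) \ R, (x (s - 1) - x k) := by
        intro q _
        have hs : ∑ k ∈ range (s + M) \ R, (e q k : ℝ) * (x (s - 1) - x k) ≤
            ∑ k ∈ range (s + M) \ R, if s ≤ k then (x (s - 1) - x k) else 0 := by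
          apply Finset.sum_le_sum
          intro k hk
          rw [mem_sdiff, mem_range] at hk
          have he : (e q k : ℝ) ≤ 1 := by exact_mod_cast h.le1 q k
          have he0 : (0 : ℝ) ≤ (e q k : ℝ) := Nat.cast_nonneg _
          split_ifs with hkM
          · have := hnn k (by rw [mem_Ico]; omega)
            nlinarith
          · have := h.anti (show k ≤ s - 1 by omega)
            apply mul_nonpos_of_nonneg_of_nonpos he0
            linarith
        refine hs.trans (le_of_eq ?_)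
        rw [← Finset.sum_filter]
        apply Finset.sum_congr _ (fun _ _ => rfl)
        ext k
        simp only [mem_filter, mem_sdiff, mem_Ico, mem_range]
        constructor
        · rintro ⟨⟨hk1, hk2⟩, hk3⟩; exact ⟨by omega, hk2⟩
        · rintro ⟨hk1, hk2⟩; exact ⟨⟨by omega, hk2⟩, by omega⟩
      have h6 := Finset.sum_le_sum this
      simp only [sum_const, nsmul_eq_mul] at h6
      exact h6
    linarith
  · have h3 : ∑ q ∈ R, ((D : ℝ) + 1 - M - (dnc n e (s + M) q : ℝ)) * (x (s - 1) - x q) ≤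
        ∑ i ∈ R, ((∑ k ∈ range s, e k i : ℕ) : ℝ) * (x (s - 1) - x i) := by
      apply Finset.sum_le_sum
      intro i hi
      exact mul_le_mul_of_nonneg_right (hup i (hR hi)) (hnn i (hR hi))
    linarith
  · have h3 : 0 ≤ ∑ i ∈ R, ((∑ k ∈ range s, e k i : ℕ) : ℝ) * (x (s - 1) - x i) :=
      Finset.sum_nonneg (fun i hi => mul_nonneg (Nat.cast_nonneg _) (hnn i (hR hi)))
    linarith
  · apply Finset.sum_nonneg
    intro k hk
    rw [mem_sdiff] at hk
    exact hnn k hk.1

end win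

end Pool.Agent.Helper951.Lg
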