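import Pool.Agent.Helper951.LgE

set_option autoImplicit false

open Finset

namespace Pool.Agent.Helper951.Lg

lemma sum_eq_one_cases (s : Finset ℕ) (f : ℕ → ℕ) (h : ∑ v ∈ s, f v = 1) :
    ∃ q ∈ s, f q = 1 ∧ ∀ v ∈ s, v ≠ q → f v = 0 := by
  have hne : ∃ q ∈ s, f q ≠ 0 := by
    by_contra hcon
    push Not at hcon
    rw [Finset.sum_eq_zero hcon] at h
    omega
  obtain ⟨q, hq, hfq⟩ := hne
  rw [← Finset.add_sum_erase _ _ hq] at h
  refine ⟨q, hq, by omega, fun v hv hvq => ?_⟩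
  have : f v ≤ ∑ v ∈ s.erase q, f v :=
    Finset.single_le_sum (f := f) (fun _ _ => Nat.zero_le _) (mem_erase.2 ⟨hvq, hv⟩)
  omega

lemma sum_eq_two_cases (s : Finset ℕ) (f : ℕ → ℕ) (h : ∑ v ∈ s, f v = 2) :
    (∃ q ∈ s, f q = 2 ∧ ∀ v ∈ s, v ≠ q → f v = 0) ∨
    (∃ q1 ∈ s, ∃ q2 ∈ s, q1 ≠ q2 ∧ f q1 = 1 ∧ f q2 = 1 ∧
      ∀ v ∈ s, v ≠ q1 → v ≠ q2 → f v = 0) := by
  have hne : ∃ q ∈ s, f q ≠ 0 := by
    by_contra hcon
    push Not at hcon
    rw [Finset.sum_eq_zero hcon] at h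
    omega
  obtain ⟨q, hq, hfq⟩ := hne
  rw [← Finset.add_sum_erase _ _ hq] at h
  by_cases h2 : f q = 2
  · left
    refine ⟨q, hq, h2, fun v hv hvq => ?_⟩
    have : f v ≤ ∑ v ∈ s.erase q, f v :=
      Finset.single_le_sum (f := f) (fun _ _ => Nat.zero_le _) (mem_erase.2 ⟨hvq, hv⟩)
    omega
  · right
    have h1 : f q = 1 := by omega
    have h3 : ∑ v ∈ s.erase q, f v = 1 := by omega
    obtain ⟨q2, hq2, hf2, hoth⟩ := sum_eq_one_cases _ _ h3
    rw [mem_erase] at hq2
    refine ⟨q, hq, q2, hq2.2, hq2.1.symm, h1, hf2, fun v hv hv1 hv2 => ?_⟩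
    exact hoth v (mem_erase.2 ⟨hv1, hv⟩) hv2

/-- lower side weighted sum -/
noncomputable def BB (n : ℕ) (e : ℕ → ℕ → ℕ) (x : ℕ → ℝ) (p : ℕ) : ℝ :=
  ∑ v ∈ Ico p n, (upc e p v : ℝ) * x v
/-- upper side weighted sum -/
noncomputable def TT (n : ℕ) (e : ℕ → ℕ → ℕ) (x : ℕ → ℝ) (p : ℕ) : ℝ :=
  ∑ u ∈ range p, (dnc n e p u : ℝ) * x u

lemma sum_mul_one (s : Finset ℕ) (f : ℕ → ℕ) (x : ℕ → ℝ) (q : ℕ) (hq : q ∈ s) (c : ℕ)
    (h1 : f q = c) (h0 : ∀ v ∈ s, v ≠ q → f v = 0) : ∑ v ∈ s, (f v : ℝ) * x v = c * x q := by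
  rw [← Finset.add_sum_erase _ _ hq, h1, Finset.sum_eq_zero, add_zero]
  intro v hv
  rw [mem_erase] at hv
  rw [h0 v hv.2 hv.1]
  simp

lemma sum_mul_two (s : Finset ℕ) (f : ℕ → ℕ) (x : ℕ → ℝ) (q1 q2 : ℕ) (hq1 : q1 ∈ s)
    (hq2 : q2 ∈ s) (hne : q1 ≠ q2) (h1 : f q1 = 1) (h2 : f q2 = 1)
    (h0 : ∀ v ∈ s, v ≠ q1 → v ≠ q2 → f v = 0) :
    ∑ v ∈ s, (f v : ℝ) * x v = x q1 + x q2 := by
  have hm : q2 ∈ s.erase q1 := mem_erase.2 ⟨hne.symm, hq2⟩
  rw [← Finset.add_sum_erase _ _ hq1, ← Finset.add_sum_erase _ _ hm, h1, h2,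
    Finset.sum_eq_zero]
  · push_cast; ring
  intro v hv
  rw [mem_erase, mem_erase] at hv
  rw [h0 v hv.2.2 hv.2.1 hv.1]
  simp

section win
variable {D n N : ℕ} {e : ℕ → ℕ → ℕ} {x : ℕ → ℝ} {J : ℝ} (h : OG D n N e x J)
include h

lemma TT_sub_BB (p : ℕ) (hp : p ≤ N) : TT n e x p - BB n e x p ≤ J := by
  refine le_trans (le_of_eq ?_) (flow_prefix h p hp)
  have h1 : ∑ i ∈ range p, ∑ k ∈ Ico p n, (e i k : ℝ) * (x i - x k) =
      ∑ i ∈ range p, ∑ k ∈ Ico p n, (e i k : ℝ) * x i -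
      ∑ i ∈ range p, ∑ k ∈ Ico p n, (e i k : ℝ) * x k := by
    rw [← Finset.sum_sub_distrib]
    apply Finset.sum_congr rfl; intro i _
    rw [← Finset.sum_sub_distrib]
    apply Finset.sum_congr rfl; intro k _
    ring
  rw [h1]
  congr 1
  · unfold TT dnc
    apply Finset.sum_congr rfl; intro i _
    push_cast
    rw [Finset.sum_mul]
  · unfold BB upc
    rw [Finset.sum_comm]
    apply Finset.sum_congr rfl; intro i _
    push_cast
    rw [Finset.sum_mul]

lemma TT_ge (p : ℕ) (hp1 : 1 ≤ p) : (cutN n e p : ℝ) * x (p - 1) ≤ TT n e x p := by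
  unfold TT
  rw [← sum_dnc]
  push_cast
  rw [Finset.sum_mul]
  apply Finset.sum_le_sum
  intro u hu
  rw [mem_range] at hu
  exact mul_le_mul_of_nonneg_left (h.anti (by omega)) (Nat.cast_nonneg _)

lemma BB_le (p : ℕ) : BB n e x p ≤ (cutN n e p : ℝ) * x p := by
  unfold BB
  rw [← sum_upc]
  push_cast
  rw [Finset.sum_mul]
  apply Finset.sum_le_sum
  intro u hu
  rw [mem_Ico] at hu
  exact mul_le_mul_of_nonneg_left (h.anti (by omega)) (Nat.cast_nonneg _)

/-- degree below the cut, outside `Q` -/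
lemma deg_below (p q : ℕ) (hq1 : p ≤ q) (hqN : q < N) (Q : Finset ℕ) (hQ : Q ⊆ Ico p n) :
    ∑ k ∈ Ico p n \ Q, e q k + ∑ k ∈ Q, e q k + upc e p q = D := by
  have hNn := h.hN
  have hdeg := h.deg q hqN
  rw [sum_split _ (show p ≤ n by omega), ← Finset.sum_sdiff hQ] at hdeg
  have h1 : ∑ k ∈ range p, e q k = upc e p q := Finset.sum_congr rfl (fun k _ => h.symm _ _)
  omega

lemma deg_above (p q : ℕ) (hp : p ≤ N) (hq1 : q < p) (R : Finset ℕ) (hR : R ⊆ range p) :
    ∑ k ∈ range p \ R, e q k + ∑ k ∈ R, e q k + dnc n e p q = D := by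
  have hNn := h.hN
  have hdeg := h.deg q (by omega)
  rw [sum_split _ (show p ≤ n by omega), ← Finset.sum_sdiff hR] at hdeg
  have h1 : ∑ k ∈ Ico p n, e q k = dnc n e p q := rfl
  omega

/-- single entry windows -/
theorem post_single (p M κ : ℕ) (hM : M ≤ D) (hpN : p + M ≤ N)
    (q : ℕ) (hq : q ∈ Ico p n) (hq1 : upc e p q = κ)
    (hq0 : ∀ v ∈ Ico p n, v ≠ q → upc e p v = 0) (hκ : κ ≤ D) :
    ((D : ℝ) + 1 - M) * (((D : ℝ) - κ) * (x q - x (p + M))) ≤ J * ((D : ℝ) + 1 - M + 1) := by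
  have hNn := h.hN
  have hJ := J_nonneg h
  have hMr : (M : ℝ) ≤ D := by exact_mod_cast hM
  have hκr : (κ : ℝ) ≤ D := by exact_mod_cast hκ
  rw [mem_Ico] at hq
  by_cases hqM : q < p + M
  · obtain ⟨w1, w2, w3, w4⟩ := win_post h p M hpN {q}
      (by intro k hk; rw [mem_singleton] at hk; rw [mem_Ico]; omega)
      (by intro v hv hvq; rw [mem_singleton] at hvq; rw [mem_Ico] at hv
          exact hq0 v (by rw [mem_Ico]; omega) hvq)
    have hd := deg_below h p q hq.1 (by omega) {q}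
      (by intro k hk; rw [mem_singleton] at hk; rw [mem_Ico]; omega)
    rw [Finset.sum_singleton, h.irr, hq1] at hd
    rw [Finset.sum_singleton, Finset.card_singleton] at w1
    have hdr : ((∑ k ∈ Ico p n \ {q}, e q k : ℕ) : ℝ) = (D : ℝ) - κ := by
      have : ((∑ k ∈ Ico p n \ {q}, e q k + 0 + κ : ℕ) : ℝ) = (D : ℝ) := by exact_mod_cast hd
      rw [Nat.cast_add, Nat.cast_add] at this
      push_cast at this ⊢
      linarith
    rw [hdr] at w1
    push_cast at w1
    have ht : (0 : ℝ) ≤ (D : ℝ) + 1 - M := by linarith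
    nlinarith
  · have hx : x q - x (p + M) ≤ 0 := by
      have := h.anti (show p + M ≤ q by omega)
      linarith
    have h1 : ((D : ℝ) + 1 - M) * (((D : ℝ) - κ) * (x q - x (p + M))) ≤ 0 := by
      apply mul_nonpos_of_nonneg_of_nonpos (by linarith)
      exact mul_nonpos_of_nonneg_of_nonpos (by linarith) hx
    have h2 : 0 ≤ J * ((D : ℝ) + 1 - M + 1) := mul_nonneg hJ (by linarith)
    linarith

theorem pre_single (p M κ : ℕ) (hM : M ≤ D) (hp : p ≤ N) (hMp : M + 1 ≤ p)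
    (u : ℕ) (hu : u ∈ range p) (hu1 : dnc n e p u = κ)
    (hu0 : ∀ v ∈ range p, v ≠ u → dnc n e p v = 0) (hκ : κ ≤ D) :
    ((D : ℝ) + 1 - M) * (((D : ℝ) - κ) * (x (p - M - 1) - x u)) ≤ J * ((D : ℝ) + 1 - M + 1) := by
  have hNn := h.hN
  have hJ := J_nonneg h
  have hMr : (M : ℝ) ≤ D := by exact_mod_cast hM
  have hκr : (κ : ℝ) ≤ D := by exact_mod_cast hκ
  rw [mem_range] at hu
  have hps : p - M + M = p := by omega
  by_cases hqM : p - M ≤ u
  · obtain ⟨w1, w2, w3, w4⟩ := win_pre h (p - M) M (by omega) (by omega) {u}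
      (by intro k hk; rw [mem_singleton] at hk; rw [mem_Ico]; omega)
      (by intro v hv hvq; rw [mem_singleton] at hvq; rw [mem_Ico] at hv
          rw [hps]
          exact hu0 v (by rw [mem_range]; omega) hvq)
    rw [hps] at w1 w2 w3 w4
    have hd := deg_above h p u hp (by omega) {u}
      (by intro k hk; rw [mem_singleton] at hk; rw [mem_range]; omega)
    rw [Finset.sum_singleton, h.irr, hu1] at hd
    rw [Finset.sum_singleton, Finset.card_singleton] at w1
    have hdr : ((∑ k ∈ range p \ {u}, e u k : ℕ) : ℝ) = (D : ℝ) - κ := by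
      have : ((∑ k ∈ range p \ {u}, e u k + 0 + κ : ℕ) : ℝ) = (D : ℝ) := by exact_mod_cast hd
      rw [Nat.cast_add, Nat.cast_add] at this
      push_cast at this ⊢
      linarith
    rw [hdr] at w1
    push_cast at w1
    have ht : (0 : ℝ) ≤ (D : ℝ) + 1 - M := by linarith
    nlinarith
  · have hx : x (p - M - 1) - x u ≤ 0 := by
      have := h.anti (show u ≤ p - M - 1 by omega)
      linarith
    have h1 : ((D : ℝ) + 1 - M) * (((D : ℝ) - κ) * (x (p - M - 1) - x u)) ≤ 0 := by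
      apply mul_nonpos_of_nonneg_of_nonpos (by linarith)
      exact mul_nonpos_of_nonneg_of_nonpos (by linarith) hx
    have h2 : 0 ≤ J * ((D : ℝ) + 1 - M + 1) := mul_nonneg hJ (by linarith)
    linarith

/-- double entry windows; `t = D + 1 - M ≥ 1`. -/
theorem post_double (p M : ℕ) (hD : 3 ≤ D) (hM : M ≤ D) (hpN : p + M ≤ N)
    (q1 q2 : ℕ) (hq1 : q1 ∈ Ico p n) (hq2 : q2 ∈ Ico p n) (hne : q1 ≠ q2)
    (hu1 : upc e p q1 = 1) (hu2 : upc e p q2 = 1)
    (hq0 : ∀ v ∈ Ico p n, v ≠ q1 → v ≠ q2 → upc e p v = 0) :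
    (((D : ℝ) + 1 - M) * D - 2) * (x q1 + x q2 - 2 * x (p + M)) ≤
      J * ((D : ℝ) + 1 - M + 2) := by
  have hNn := h.hN
  have hJ := J_nonneg h
  have hMr : (M : ℝ) ≤ D := by exact_mod_cast hM
  have hDr : (3 : ℝ) ≤ D := by exact_mod_cast hD
  rw [mem_Ico] at hq1 hq2
  set t : ℝ := (D : ℝ) + 1 - M with ht
  have ht1 : 1 ≤ t := by rw [ht]; linarith
  have one : ∀ q q' : ℕ, p ≤ q → q < p + M → q < n → p + M ≤ q' → q ≠ q' → upc e p q = 1 →
      (∀ v ∈ Ico p n, v ≠ q → v ≠ q' → upc e p v = 0) →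
      (t * D - 2) * (x q + x q' - 2 * x (p + M)) ≤ J * (t + 2) := by
    intro q q' hpq hqM hqn hq'M hqq' huq h0
    obtain ⟨w1, w2, w3, w4⟩ := win_post h p M hpN {q}
      (by intro k hk; rw [mem_singleton] at hk; rw [mem_Ico]; omega)
      (by intro v hv hvq; rw [mem_singleton] at hvq; rw [mem_Ico] at hv
          exact h0 v (by rw [mem_Ico]; omega) hvq (by omega))
    have hd := deg_below h p q hpq (by omega) {q}
      (by intro k hk; rw [mem_singleton] at hk; rw [mem_Ico]; omega)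
    rw [Finset.sum_singleton, h.irr, huq] at hd
    rw [Finset.sum_singleton, Finset.card_singleton] at w1
    rw [Finset.sum_singleton, huq] at w2
    have hdr : ((∑ k ∈ Ico p n \ {q}, e q k : ℕ) : ℝ) = (D : ℝ) - 1 := by
      have : ((∑ k ∈ Ico p n \ {q}, e q k + 0 + 1 : ℕ) : ℝ) = (D : ℝ) := by exact_mod_cast hd
      rw [Nat.cast_add, Nat.cast_add] at this
      push_cast at this ⊢
      linarith
    rw [hdr] at w1
    push_cast at w1 w2
    rw [← ht] at w2
    have hX2 : x q' - x (p + M) ≤ 0 := by have := h.anti hq'M; linarith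
    have hX1 : 0 ≤ x q - x (p + M) := by have := h.anti hqM.le; linarith
    set X := x q - x (p + M) with hX
    set Y := ∑ k ∈ Ico p (p + M) \ {q}, (x k - x (p + M)) with hY
    have e1 : (t * D - 1) * X ≤ J * (t + 1) := by
      have := mul_le_mul_of_nonneg_left w1 (by linarith : (0 : ℝ) ≤ t)
      nlinarith
    have e2 : x q + x q' - 2 * x (p + M) ≤ X := by rw [hX]; linarith
    have e3 : (t * D - 2) * (x q + x q' - 2 * x (p + M)) ≤ (t * D - 2) * X :=
      mul_le_mul_of_nonneg_left e2 (by nlinarith)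
    nlinarith
  by_cases h1 : q1 < p + M
  · by_cases h2 : q2 < p + M
    · obtain ⟨w1, w2, w3, w4⟩ := win_post h p M hpN {q1, q2}
        (by intro k hk; rw [mem_insert, mem_singleton] at hk; rw [mem_Ico]; omega)
        (by intro v hv hvq; rw [mem_insert, mem_singleton] at hvq; rw [mem_Ico] at hv
            push Not at hvq
            exact hq0 v (by rw [mem_Ico]; omega) hvq.1 hvq.2)
      have hd1 := deg_below h p q1 hq1.1 (by omega) {q1, q2}
        (by intro k hk; rw [mem_insert, mem_singleton] at hk; rw [mem_Ico]; omega)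
      have hd2 := deg_below h p q2 hq2.1 (by omega) {q1, q2}
        (by intro k hk; rw [mem_insert, mem_singleton] at hk; rw [mem_Ico]; omega)
      rw [Finset.sum_pair hne, h.irr, hu1] at hd1
      rw [Finset.sum_pair hne, h.irr, hu2] at hd2
      rw [Finset.sum_pair hne, Finset.card_pair hne] at w1
      rw [Finset.sum_pair hne, hu1, hu2] at w2
      have hl1 := h.le1 q1 q2
      have hl2 := h.le1 q2 q1
      have hdr1 : (D : ℝ) - 2 ≤ ((∑ k ∈ Ico p n \ {q1, q2}, e q1 k : ℕ) : ℝ) := by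
        have : D ≤ ∑ k ∈ Ico p n \ {q1, q2}, e q1 k + 2 := by omega
        have : (D : ℝ) ≤ ((∑ k ∈ Ico p n \ {q1, q2}, e q1 k + 2 : ℕ) : ℝ) := by exact_mod_cast this
        rw [Nat.cast_add] at this
        push_cast at this ⊢
        linarith
      have hdr2 : (D : ℝ) - 2 ≤ ((∑ k ∈ Ico p n \ {q1, q2}, e q2 k : ℕ) : ℝ) := by
        have : D ≤ ∑ k ∈ Ico p n \ {q1, q2}, e q2 k + 2 := by omega
        have : (D : ℝ) ≤ ((∑ k ∈ Ico p n \ {q1, q2}, e q2 k + 2 : ℕ) : ℝ) := by exact_mod_cast this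
        rw [Nat.cast_add] at this
        push_cast at this ⊢
        linarith
      have hX1 : 0 ≤ x q1 - x (p + M) := by have := h.anti h1.le; linarith
      have hX2 : 0 ≤ x q2 - x (p + M) := by have := h.anti h2.le; linarith
      have g1 := mul_le_mul_of_nonneg_right hdr1 hX1
      have g2 := mul_le_mul_of_nonneg_right hdr2 hX2
      rw [← ht] at w2
      push_cast at w1 w2 g1 g2
      set X1 := x q1 - x (p + M) with hX1'
      set X2 := x q2 - x (p + M) with hX2'
      set Y := ∑ k ∈ Ico p (p + M) \ {q1, q2}, (x k - x (p + M)) with hY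
      have e0 : x q1 + x q2 - 2 * x (p + M) = X1 + X2 := by rw [hX1', hX2']; ring
      rw [e0]
      have e1 : ((D : ℝ) - 2) * (X1 + X2) ≤ J + 2 * Y := by linarith
      have e2 := mul_le_mul_of_nonneg_left e1 (by linarith : (0 : ℝ) ≤ t)
      nlinarith
    · exact one q1 q2 hq1.1 h1 hq1.2 (by omega) hne hu1 hq0
  · by_cases h2 : q2 < p + M
    · have := one q2 q1 hq2.1 h2 hq2.2 (by omega) hne.symm hu2 (fun v hv a b => hq0 v hv b a)
      rw [show x q1 + x q2 - 2 * x (p + M) = x q2 + x q1 - 2 * x (p + M) by ring]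
      exact this
    · have a1 := h.anti (show p + M ≤ q1 by omega)
      have a2 := h.anti (show p + M ≤ q2 by omega)
      have h3 : (t * D - 2) * (x q1 + x q2 - 2 * x (p + M)) ≤ 0 := by
        apply mul_nonpos_of_nonneg_of_nonpos
        · nlinarith
        · linarith
      have h4 : 0 ≤ J * (t + 2) := mul_nonneg hJ (by linarith)
      linarith

theorem pre_double (p M : ℕ) (hD : 3 ≤ D) (hM : M ≤ D) (hp : p ≤ N) (hMp : M + 1 ≤ p)
    (q1 q2 : ℕ) (hq1 : q1 ∈ range p) (hq2 : q2 ∈ range p) (hne : q1 ≠ q2)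
    (hu1 : dnc n e p q1 = 1) (hu2 : dnc n e p q2 = 1)
    (hq0 : ∀ v ∈ range p, v ≠ q1 → v ≠ q2 → dnc n e p v = 0) :
    (((D : ℝ) + 1 - M) * D - 2) * (2 * x (p - M - 1) - x q1 - x q2) ≤
      J * ((D : ℝ) + 1 - M + 2) := by
  have hNn := h.hN
  have hJ := J_nonneg h
  have hMr : (M : ℝ) ≤ D := by exact_mod_cast hM
  have hDr : (3 : ℝ) ≤ D := by exact_mod_cast hD
  rw [mem_range] at hq1 hq2
  have hps : p - M + M = p := by omega
  set t : ℝ := (D : ℝ) + 1 - M with ht
  have ht1 : 1 ≤ t := by rw [ht]; linarith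
  have one : ∀ q q' : ℕ, q < p → p - M ≤ q → q' < p - M → q ≠ q' → dnc n e p q = 1 →
      (∀ v ∈ range p, v ≠ q → v ≠ q' → dnc n e p v = 0) →
      (t * D - 2) * (2 * x (p - M - 1) - x q - x q') ≤ J * (t + 2) := by
    intro q q' hpq hqM hq'M hqq' huq h0
    obtain ⟨w1, w2, w3, w4⟩ := win_pre h (p - M) M (by omega) (by omega) {q}
      (by intro k hk; rw [mem_singleton] at hk; rw [mem_Ico]; omega)
      (by intro v hv hvq; rw [mem_singleton] at hvq; rw [mem_Ico] at hv
          rw [hps]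
          exact h0 v (by rw [mem_range]; omega) hvq (by omega))
    rw [hps] at w1 w2 w3 w4
    have hd := deg_above h p q hp (by omega) {q}
      (by intro k hk; rw [mem_singleton] at hk; rw [mem_range]; omega)
    rw [Finset.sum_singleton, h.irr, huq] at hd
    rw [Finset.sum_singleton, Finset.card_singleton] at w1
    rw [Finset.sum_singleton, huq] at w2
    have hdr : ((∑ k ∈ range p \ {q}, e q k : ℕ) : ℝ) = (D : ℝ) - 1 := by
      have : ((∑ k ∈ range p \ {q}, e q k + 0 + 1 : ℕ) : ℝ) = (D : ℝ) := by exact_mod_cast hd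
      rw [Nat.cast_add, Nat.cast_add] at this
      push_cast at this ⊢
      linarith
    rw [hdr] at w1
    push_cast at w1 w2
    rw [← ht] at w2
    have hX2 : x (p - M - 1) - x q' ≤ 0 := by
      have := h.anti (show q' ≤ p - M - 1 by omega); linarith
    have hX1 : 0 ≤ x (p - M - 1) - x q := by
      have := h.anti (show p - M - 1 ≤ q by omega); linarith
    set X := x (p - M - 1) - x q with hX
    set Y := ∑ k ∈ Ico (p - M) p \ {q}, (x (p - M - 1) - x k) with hY
    have e1 : (t * D - 1) * X ≤ J * (t + 1) := by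
      have := mul_le_mul_of_nonneg_left w1 (by linarith : (0 : ℝ) ≤ t)
      nlinarith
    have e2 : 2 * x (p - M - 1) - x q - x q' ≤ X := by rw [hX]; linarith
    have e3 : (t * D - 2) * (2 * x (p - M - 1) - x q - x q') ≤ (t * D - 2) * X :=
      mul_le_mul_of_nonneg_left e2 (by nlinarith)
    nlinarith
  by_cases h1 : p - M ≤ q1
  · by_cases h2 : p - M ≤ q2
    · obtain ⟨w1, w2, w3, w4⟩ := win_pre h (p - M) M (by omega) (by omega) {q1, q2}
        (by intro k hk; rw [mem_insert, mem_singleton] at hk; rw [mem_Ico]; omega)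
        (by intro v hv hvq; rw [mem_insert, mem_singleton] at hvq; rw [mem_Ico] at hv
            push Not at hvq
            rw [hps]
            exact hq0 v (by rw [mem_range]; omega) hvq.1 hvq.2)
      rw [hps] at w1 w2 w3 w4
      have hd1 := deg_above h p q1 hp (by omega) {q1, q2}
        (by intro k hk; rw [mem_insert, mem_singleton] at hk; rw [mem_range]; omega)
      have hd2 := deg_above h p q2 hp (by omega) {q1, q2}
        (by intro k hk; rw [mem_insert, mem_singleton] at hk; rw [mem_range]; omega)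
      rw [Finset.sum_pair hne, h.irr, hu1] at hd1
      rw [Finset.sum_pair hne, h.irr, hu2] at hd2
      rw [Finset.sum_pair hne, Finset.card_pair hne] at w1
      rw [Finset.sum_pair hne, hu1, hu2] at w2
      have hl1 := h.le1 q1 q2
      have hl2 := h.le1 q2 q1
      have hdr1 : (D : ℝ) - 2 ≤ ((∑ k ∈ range p \ {q1, q2}, e q1 k : ℕ) : ℝ) := by
        have : D ≤ ∑ k ∈ range p \ {q1, q2}, e q1 k + 2 := by omega
        have : (D : ℝ) ≤ ((∑ k ∈ range p \ {q1, q2}, e q1 k + 2 : ℕ) : ℝ) := by exact_mod_cast this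
        rw [Nat.cast_add] at this
        push_cast at this ⊢
        linarith
      have hdr2 : (D : ℝ) - 2 ≤ ((∑ k ∈ range p \ {q1, q2}, e q2 k : ℕ) : ℝ) := by
        have : D ≤ ∑ k ∈ range p \ {q1, q2}, e q2 k + 2 := by omega
        have : (D : ℝ) ≤ ((∑ k ∈ range p \ {q1, q2}, e q2 k + 2 : ℕ) : ℝ) := by exact_mod_cast this
        rw [Nat.cast_add] at this
        push_cast at this ⊢
        linarith
      have hX1 : 0 ≤ x (p - M - 1) - x q1 := by
        have := h.anti (show p - M - 1 ≤ q1 by omega); linarith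
      have hX2 : 0 ≤ x (p - M - 1) - x q2 := by
        have := h.anti (show p - M - 1 ≤ q2 by omega); linarith
      have g1 := mul_le_mul_of_nonneg_right hdr1 hX1
      have g2 := mul_le_mul_of_nonneg_right hdr2 hX2
      rw [← ht] at w2
      push_cast at w1 w2 g1 g2
      set X1 := x (p - M - 1) - x q1 with hX1'
      set X2 := x (p - M - 1) - x q2 with hX2'
      set Y := ∑ k ∈ Ico (p - M) p \ {q1, q2}, (x (p - M - 1) - x k) with hY
      have e0 : 2 * x (p - M - 1) - x q1 - x q2 = X1 + X2 := by rw [hX1', hX2']; ring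
      rw [e0]
      have e1 : ((D : ℝ) - 2) * (X1 + X2) ≤ J + 2 * Y := by linarith
      have e2 := mul_le_mul_of_nonneg_left e1 (by linarith : (0 : ℝ) ≤ t)
      nlinarith
    · exact one q1 q2 hq1 h1 (by omega) hne hu1 hq0
  · by_cases h2 : p - M ≤ q2
    · have := one q2 q1 hq2 h2 (by omega) hne.symm hu2 (fun v hv a b => hq0 v hv b a)
      rw [show 2 * x (p - M - 1) - x q1 - x q2 = 2 * x (p - M - 1) - x q2 - x q1 by ring]
      exact this
    · have a1 := h.anti (show q1 ≤ p - M - 1 by omega)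
      have a2 := h.anti (show q2 ≤ p - M - 1 by omega)
      have h3 : (t * D - 2) * (2 * x (p - M - 1) - x q1 - x q2) ≤ 0 := by
        apply mul_nonpos_of_nonneg_of_nonpos
        · nlinarith
        · linarith
      have h4 : 0 ≤ J * (t + 2) := mul_nonneg hJ (by linarith)
      linarith

end win

end Pool.Agent.Helper951.Lg
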