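import Pool.Agent.Helper951.LgF

set_option autoImplicit false

open Finset

namespace Pool.Agent.Helper951.Lg

section piece
variable {D n N : ℕ} {e : ℕ → ℕ → ℕ} {x : ℕ → ℝ} {J : ℝ} (h : OG D n N e x J)
include h

lemma in_entries (p p' : ℕ) (hpp : p ≤ p') (hp' : p' ≤ N) (Q : Finset ℕ) (hQ : Q ⊆ Ico p p') :
    ∑ q ∈ Q, ∑ k ∈ Ico p p' \ Q, (e q k : ℝ) * (x q - x k) ≤ J := by
  have hNn := h.hN
  have hQ' : ∀ q ∈ Q, p ≤ q ∧ q < p' := by
    intro q hq
    have := hQ hq
    rwa [mem_Ico] at this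
  have hf := flow_entries h p (by omega) Q (fun q hq => by have := hQ' q hq; omega)
  refine le_trans ?_ hf
  apply Finset.sum_le_sum
  intro q hq
  apply Finset.sum_le_sum_of_subset_of_nonneg
  · intro k hk
    rw [mem_sdiff, mem_Ico] at hk ⊢
    exact ⟨by omega, hk.2⟩
  · intro k hk hk2
    rw [mem_sdiff, mem_Ico] at hk hk2
    have : p' ≤ k := by
      by_contra hc
      exact hk2 ⟨by omega, hk.2⟩
    have h2 := h.anti (show q ≤ k by have := hQ' q hq; omega)
    exact mul_nonneg (Nat.cast_nonneg _) (by linarith)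

lemma in_exits (p p' : ℕ) (hp' : p' ≤ N) (R : Finset ℕ) (hR : R ⊆ Ico p p') :
    ∑ r ∈ R, ∑ i ∈ Ico p p' \ R, (e r i : ℝ) * (x i - x r) ≤ J := by
  have hNn := h.hN
  have hR' : ∀ q ∈ R, p ≤ q ∧ q < p' := by
    intro q hq
    have := hR hq
    rwa [mem_Ico] at this
  have hf := flow_exits h p' hp' R (fun q hq => by have := hR' q hq; omega)
  refine le_trans ?_ hf
  apply Finset.sum_le_sum
  intro q hq
  apply Finset.sum_le_sum_of_subset_of_nonneg
  · intro k hk
    rw [mem_sdiff, mem_Ico] at hk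
    rw [mem_sdiff, mem_range]
    exact ⟨by omega, hk.2⟩
  · intro k hk hk2
    rw [mem_sdiff, mem_range] at hk
    rw [mem_sdiff, mem_Ico] at hk2
    have : k < p := by
      by_contra hc
      exact hk2 ⟨by omega, hk.2⟩
    have h2 := h.anti (show k ≤ q by have := hR' q hq; omega)
    exact mul_nonneg (Nat.cast_nonneg _) (by linarith)

lemma counts (p p' : ℕ) (hpp : p ≤ p') (hp' : p' ≤ N) :
    ∑ v ∈ Ico p p', upc e p v + ∑ i ∈ range p, ∑ k ∈ Ico p' n, e i k = cutN n e p ∧
    ∑ v ∈ Ico p p', dnc n e p' v + ∑ i ∈ range p, ∑ k ∈ Ico p' n, e i k = cutN n e p' := by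
  have hNn := h.hN
  constructor
  · unfold upc cutN
    rw [Finset.sum_comm, ← Finset.sum_add_distrib]
    apply Finset.sum_congr rfl
    intro i _
    rw [sum_Ico_split (e i) hpp (show p' ≤ n by omega)]
  · unfold dnc cutN
    rw [sum_split (fun i => ∑ k ∈ Ico p' n, e i k) hpp]
    ring

lemma row (p p' v : ℕ) (hpp : p ≤ p') (hp' : p' ≤ N) (hv : v ∈ Ico p p') :
    ∑ w ∈ Ico p p', e v w + upc e p v + dnc n e p' v = D := by
  have hNn := h.hN
  rw [mem_Ico] at hv
  have hdeg := h.deg v (by omega)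
  rw [sum_split _ (show p ≤ n by omega), sum_Ico_split _ hpp (show p' ≤ n by omega)] at hdeg
  have h1 : ∑ k ∈ range p, e v k = upc e p v := Finset.sum_congr rfl (fun k _ => h.symm _ _)
  have h2 : ∑ k ∈ Ico p' n, e v k = dnc n e p' v := rfl
  omega

lemma out_pos (p p' : ℕ) (hp1 : 1 ≤ p) (hpp : p < p') (hp' : p' ≤ N) :
    0 < ∑ v ∈ Ico p p', upc e p v + ∑ v ∈ Ico p p', dnc n e p' v := by
  have hNn := h.hN
  obtain ⟨i, hi, k, hk, hik⟩ := h.conn (Ico p p')
    (by intro i; simp only [mem_Ico, mem_range]; omega) ⟨p, by rw [mem_Ico]; omega⟩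
    (by intro hc; have : 0 ∈ Ico p p' := by rw [hc, mem_range]; omega
        rw [mem_Ico] at this; omega)
  rw [mem_sdiff, mem_range] at hk
  have hk2 := hk.2
  rw [mem_Ico] at hk2
  by_cases hkp : k < p
  · have h1 : e k i ≤ upc e p i :=
      Finset.single_le_sum (f := fun k => e k i) (fun _ _ => Nat.zero_le _) (mem_range.2 hkp)
    have h2 : upc e p i ≤ ∑ v ∈ Ico p p', upc e p v :=
      Finset.single_le_sum (f := fun v => upc e p v) (fun _ _ => Nat.zero_le _) hi
    rw [h.symm] at h1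
    omega
  · have h1 : e i k ≤ dnc n e p' i :=
      Finset.single_le_sum (f := fun k => e i k) (fun _ _ => Nat.zero_le _)
        (by rw [mem_Ico]; omega)
    have h2 : dnc n e p' i ≤ ∑ v ∈ Ico p p', dnc n e p' v :=
      Finset.single_le_sum (f := fun v => dnc n e p' v) (fun _ _ => Nat.zero_le _) hi
    omega

/-- a vertex without outer edges in a piece of `D + 1` vertices is adjacent to everything -/
lemma full_vertex (p v w : ℕ) (hp' : p + D + 1 ≤ N) (hv : v ∈ Ico p (p + D + 1))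
    (hw : w ∈ Ico p (p + D + 1)) (hvw : v ≠ w) (h1 : upc e p v = 0)
    (h2 : dnc n e (p + D + 1) v = 0) : e v w = 1 := by
  have hr := row h p (p + D + 1) v (by omega) hp' hv
  rw [h1, h2, ← Finset.add_sum_erase _ _ hv, h.irr, zero_add, add_zero, add_zero] at hr
  by_contra hne
  have hz : e v w = 0 := by have := h.le1 v w; omega
  have hm : w ∈ (Ico p (p + D + 1)).erase v := mem_erase.2 ⟨hvw.symm, hw⟩
  rw [← Finset.add_sum_erase _ _ hm, hz, zero_add] at hr
  have := Finset.sum_le_card_nsmul (((Ico p (p + D + 1)).erase v).erase w) (fun k => e v k) 1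
    (fun k _ => h.le1 v k)
  rw [Finset.card_erase_of_mem hm, Finset.card_erase_of_mem hv, Nat.card_Ico] at this
  simp only [smul_eq_mul, mul_one] at this
  have hD : 1 ≤ D := by
    by_contra hD0
    rw [mem_Ico] at hv hw
    omega
  omega

/-- splitting for special sets -/
lemma entries_split (p p' : ℕ) (hpp : p ≤ p') (hp' : p' ≤ N) (T Q : Finset ℕ)
    (hT : T ⊆ Ico p p') (hQ : Q ⊆ T) (hfull : ∀ v ∈ T, ∀ w ∈ Ico p p' \ T, e v w = 1) :
    ∑ q ∈ Q, (((Ico p p' \ T).card : ℝ) * x q - ∑ k ∈ Ico p p' \ T, x k +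
      ∑ k ∈ T \ Q, (e q k : ℝ) * (x q - x k)) ≤ J := by
  have h1 := in_entries h p p' hpp hp' Q (hQ.trans hT)
  refine le_trans (le_of_eq ?_) h1
  apply Finset.sum_congr rfl
  intro q hq
  have hset : Ico p p' \ Q = (Ico p p' \ T) ∪ (T \ Q) := by
    ext k
    simp only [mem_sdiff, mem_union]
    constructor
    · rintro ⟨a, b⟩
      by_cases hk : k ∈ T
      · right; exact ⟨hk, b⟩
      · left; exact ⟨a, hk⟩
    · rintro (⟨a, b⟩ | ⟨a, b⟩)
      · exact ⟨a, fun hh => b (hQ hh)⟩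
      · exact ⟨hT a, b⟩
  rw [hset, Finset.sum_union (by
    rw [Finset.disjoint_left]
    intro k hk hk2
    rw [mem_sdiff] at hk hk2
    exact hk.2 hk2.1)]
  congr 1
  have : ∑ k ∈ Ico p p' \ T, (e q k : ℝ) * (x q - x k) = ∑ k ∈ Ico p p' \ T, (x q - x k) := by
    apply Finset.sum_congr rfl
    intro k hk
    rw [hfull q (hQ hq) k hk]
    push_cast; ring
  rw [this, Finset.sum_sub_distrib, Finset.sum_const, nsmul_eq_mul]

lemma exits_split (p p' : ℕ) (hp' : p' ≤ N) (T R : Finset ℕ)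
    (hT : T ⊆ Ico p p') (hR : R ⊆ T) (hfull : ∀ v ∈ T, ∀ w ∈ Ico p p' \ T, e v w = 1) :
    ∑ r ∈ R, (∑ k ∈ Ico p p' \ T, x k - ((Ico p p' \ T).card : ℝ) * x r +
      ∑ k ∈ T \ R, (e r k : ℝ) * (x k - x r)) ≤ J := by
  have h1 := in_exits h p p' hp' R (hR.trans hT)
  refine le_trans (le_of_eq ?_) h1
  apply Finset.sum_congr rfl
  intro q hq
  have hset : Ico p p' \ R = (Ico p p' \ T) ∪ (T \ R) := by
    ext k
    simp only [mem_sdiff, mem_union]
    constructor
    · rintro ⟨a, b⟩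
      by_cases hk : k ∈ T
      · right; exact ⟨hk, b⟩
      · left; exact ⟨a, hk⟩
    · rintro (⟨a, b⟩ | ⟨a, b⟩)
      · exact ⟨a, fun hh => b (hR hh)⟩
      · exact ⟨hT a, b⟩
  rw [hset, Finset.sum_union (by
    rw [Finset.disjoint_left]
    intro k hk hk2
    rw [mem_sdiff] at hk hk2
    exact hk.2 hk2.1)]
  congr 1
  have : ∑ k ∈ Ico p p' \ T, (e q k : ℝ) * (x k - x q) = ∑ k ∈ Ico p p' \ T, (x k - x q) := by
    apply Finset.sum_congr rfl
    intro k hk
    rw [hfull q (hR hq) k hk]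
    push_cast; ring
  rw [this, Finset.sum_sub_distrib, Finset.sum_const, nsmul_eq_mul]

/-- full vertices outside of a special set -/
lemma full_of_special (p : ℕ) (hp' : p + D + 1 ≤ N) (T : Finset ℕ)
    (hT : T ⊆ Ico p (p + D + 1))
    (h0 : ∀ v ∈ Ico p (p + D + 1), v ∉ T → upc e p v = 0 ∧ dnc n e (p + D + 1) v = 0) :
    ∀ v ∈ T, ∀ w ∈ Ico p (p + D + 1) \ T, e v w = 1 := by
  intro v hv w hw
  rw [mem_sdiff] at hw
  have := h0 w hw.1 hw.2
  rw [h.symm]
  exact full_vertex h p w v hp' hw.1 (hT hv) (fun hh => hw.2 (hh ▸ hv)) this.1 this.2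

lemma row_special (p p' v : ℕ) (hpp : p ≤ p') (hp' : p' ≤ N) (T : Finset ℕ)
    (hT : T ⊆ Ico p p') (hv : v ∈ T) (hfull : ∀ v ∈ T, ∀ w ∈ Ico p p' \ T, e v w = 1) :
    (Ico p p' \ T).card + ∑ w ∈ T, e v w + upc e p v + dnc n e p' v = D := by
  have hr := row h p p' v hpp hp' (hT hv)
  rw [← Finset.sum_sdiff hT] at hr
  have : ∑ w ∈ Ico p p' \ T, e v w = (Ico p p' \ T).card := by
    rw [Finset.sum_congr rfl (fun w hw => hfull v hv w hw)]
    simp
  omega

/-- exact piece with one entry and one exit (both simple) -/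
theorem exact_one (p q r : ℕ) (hD : 1 ≤ D) (hp' : p + D + 1 ≤ N)
    (hq : q ∈ Ico p (p + D + 1)) (hr : r ∈ Ico p (p + D + 1))
    (hq1 : upc e p q = 1) (hr1 : dnc n e (p + D + 1) r = 1)
    (hq0 : ∀ v ∈ Ico p (p + D + 1), v ≠ q → upc e p v = 0)
    (hr0 : ∀ v ∈ Ico p (p + D + 1), v ≠ r → dnc n e (p + D + 1) v = 0) :
    ((D : ℝ) - 1) * (x q - x r) ≤ 2 * J := by
  have hqr : q ≠ r := by
    intro hqr
    subst hqr
    have hfull := full_of_special h p hp' {q} (by intro k hk; rw [mem_singleton] at hk; rw [hk]; exact hq)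
      (fun v hv hvq => by
        rw [mem_singleton] at hvq
        exact ⟨hq0 v hv hvq, hr0 v hv hvq⟩)
    have hrow := row_special h p (p + D + 1) q (by omega) hp' {q}
      (by intro k hk; rw [mem_singleton] at hk; rw [hk]; exact hq) (mem_singleton_self q) hfull
    rw [hq1, hr1, Finset.card_sdiff_of_subset (by intro k hk; rw [mem_singleton] at hk; rw [hk]; exact hq),
      Nat.card_Ico, Finset.card_singleton] at hrow
    omega
  have hT : ({q, r} : Finset ℕ) ⊆ Ico p (p + D + 1) := by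
    intro k hk
    rw [mem_insert, mem_singleton] at hk
    rcases hk with hk | hk <;> rw [hk] <;> assumption
  have hfull := full_of_special h p hp' {q, r} hT (fun v hv hvq => by
    rw [mem_insert, mem_singleton] at hvq
    push Not at hvq
    exact ⟨hq0 v hv hvq.1, hr0 v hv hvq.2⟩)
  have hcard : (Ico p (p + D + 1) \ {q, r}).card = D - 1 := by
    rw [Finset.card_sdiff_of_subset hT, Nat.card_Ico, Finset.card_pair hqr]
    omega
  have hen := entries_split h p (p + D + 1) (by omega) hp' {q, r} {q} hT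
    (by intro k hk; rw [mem_singleton] at hk; rw [hk]; simp) hfull
  have hex := exits_split h p (p + D + 1) hp' {q, r} {r} hT
    (by intro k hk; rw [mem_singleton] at hk; rw [hk]; simp) hfull
  have hrow := row_special h p (p + D + 1) q (by omega) hp' {q, r} hT (by simp) hfull
  rw [hcard, Finset.sum_pair hqr, h.irr, hq1, hr0 q hq hqr] at hrow
  have heqr : e q r = 0 := by omega
  have s1 : ({q, r} : Finset ℕ) \ {q} = {r} := by
    ext k; simp only [mem_sdiff, mem_insert, mem_singleton]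
    constructor
    · rintro ⟨a | a, b⟩
      · exact absurd a b
      · exact a
    · intro a; exact ⟨Or.inr a, fun hh => hqr (hh ▸ a)⟩
  have s2 : ({q, r} : Finset ℕ) \ {r} = {q} := by
    ext k; simp only [mem_sdiff, mem_insert, mem_singleton]
    constructor
    · rintro ⟨a | a, b⟩
      · exact a
      · exact absurd a b
    · intro a; exact ⟨Or.inl a, fun hh => hqr (a ▸ hh)⟩
  rw [Finset.sum_singleton, s1, Finset.sum_singleton, heqr, hcard] at hen
  rw [Finset.sum_singleton, s2, Finset.sum_singleton, h.symm r q, heqr, hcard] at hex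
  have hc : ((D - 1 : ℕ) : ℝ) = (D : ℝ) - 1 := by push_cast [Nat.cast_sub hD]; ring
  rw [hc] at hen hex
  push_cast at hen hex
  nlinarith

end piece

end Pool.Agent.Helper951.Lg
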