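import Pool.Agent.Helper951.LgG

set_option autoImplicit false

open Finset

namespace Pool.Agent.Helper951.Lg

section piece
variable {D n N : ℕ} {e : ℕ → ℕ → ℕ} {x : ℕ → ℝ} {J : ℝ} (h : OG D n N e x J)
include h

theorem exact_SD (p q r1 r2 : ℕ) (hD : 3 ≤ D) (hp' : p + D + 1 ≤ N)
    (hq : q ∈ Ico p (p + D + 1)) (hr1 : r1 ∈ Ico p (p + D + 1)) (hr2 : r2 ∈ Ico p (p + D + 1))
    (hne : r1 ≠ r2) (hq2 : upc e p q = 2) (h1 : dnc n e (p + D + 1) r1 = 1)
    (h2 : dnc n e (p + D + 1) r2 = 1)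
    (hq0 : ∀ v ∈ Ico p (p + D + 1), v ≠ q → upc e p v = 0)
    (hr0 : ∀ v ∈ Ico p (p + D + 1), v ≠ r1 → v ≠ r2 → dnc n e (p + D + 1) v = 0) :
    ((D : ℝ) - 2) * (2 * x q - x r1 - x r2) ≤ 3 * J := by
  have bad : ∀ r r' : ℕ, r ∈ Ico p (p + D + 1) → r' ∈ Ico p (p + D + 1) → r ≠ r' → q = r →
      dnc n e (p + D + 1) r = 1 →
      (∀ v ∈ Ico p (p + D + 1), v ≠ r → v ≠ r' → dnc n e (p + D + 1) v = 0) → False := by
    intro r r' hr hr' hrr hqr hdr h0
    subst hqr
    have hT : ({q, r'} : Finset ℕ) ⊆ Ico p (p + D + 1) := by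
      intro k hk
      rw [mem_insert, mem_singleton] at hk
      rcases hk with hk | hk <;> rw [hk] <;> assumption
    have hfull := full_of_special h p hp' {q, r'} hT (fun v hv hvq => by
      rw [mem_insert, mem_singleton] at hvq
      push Not at hvq
      exact ⟨hq0 v hv hvq.1, h0 v hv hvq.1 hvq.2⟩)
    have hrow := row_special h p (p + D + 1) q (by omega) hp' {q, r'} hT (by simp) hfull
    rw [hq2, hdr, Finset.card_sdiff_of_subset hT, Nat.card_Ico, Finset.card_pair hrr] at hrow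
    omega
  have hqr1 : q ≠ r1 := fun hh => bad r1 r2 hr1 hr2 hne hh h1 hr0
  have hqr2 : q ≠ r2 := fun hh => bad r2 r1 hr2 hr1 hne.symm hh h2 (fun v hv a b => hr0 v hv b a)
  have hT : ({q, r1, r2} : Finset ℕ) ⊆ Ico p (p + D + 1) := by
    intro k hk
    rw [mem_insert, mem_insert, mem_singleton] at hk
    rcases hk with hk | hk | hk <;> rw [hk] <;> assumption
  have hfull := full_of_special h p hp' {q, r1, r2} hT (fun v hv hvq => by
    rw [mem_insert, mem_insert, mem_singleton] at hvq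
    push Not at hvq
    exact ⟨hq0 v hv hvq.1, hr0 v hv hvq.2.1 hvq.2.2⟩)
  have hc3 : ({q, r1, r2} : Finset ℕ).card = 3 := Finset.card_eq_three.2 ⟨q, r1, r2, hqr1, hqr2, hne, rfl⟩
  have hcard : (Ico p (p + D + 1) \ {q, r1, r2}).card = D - 2 := by
    rw [Finset.card_sdiff_of_subset hT, Nat.card_Ico, hc3]
    omega
  have hrow := row_special h p (p + D + 1) q (by omega) hp' {q, r1, r2} hT (by simp) hfull
  rw [hcard, Finset.sum_insert (by rw [mem_insert, mem_singleton]; omega), Finset.sum_pair hne,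
    h.irr, hq2, hr0 q hq hqr1 hqr2] at hrow
  have e1 : e q r1 = 0 := by omega
  have e2 : e q r2 = 0 := by omega
  have hen := entries_split h p (p + D + 1) (by omega) hp' {q, r1, r2} {q} hT
    (by intro k hk; rw [mem_singleton] at hk; rw [hk]; simp) hfull
  have hex := exits_split h p (p + D + 1) hp' {q, r1, r2} {r1, r2} hT
    (by intro k hk; rw [mem_insert, mem_singleton] at hk; rcases hk with hk | hk <;> rw [hk] <;> simp) hfull
  have s1 : ({q, r1, r2} : Finset ℕ) \ {q} = {r1, r2} := by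
    ext k; simp only [mem_sdiff, mem_insert, mem_singleton]; omega
  have s2 : ({q, r1, r2} : Finset ℕ) \ {r1, r2} = {q} := by
    ext k; simp only [mem_sdiff, mem_insert, mem_singleton]; omega
  rw [Finset.sum_singleton, s1, Finset.sum_pair hne, e1, e2, hcard] at hen
  rw [Finset.sum_pair hne, s2, Finset.sum_singleton, Finset.sum_singleton, h.symm r1 q,
    h.symm r2 q, e1, e2, hcard] at hex
  have hc : ((D - 2 : ℕ) : ℝ) = (D : ℝ) - 2 := by push_cast [Nat.cast_sub (show 2 ≤ D by omega)]; ring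
  rw [hc] at hen hex
  push_cast at hen hex
  linarith

theorem exact_DS (p r q1 q2 : ℕ) (hD : 3 ≤ D) (hp' : p + D + 1 ≤ N)
    (hr : r ∈ Ico p (p + D + 1)) (hq1 : q1 ∈ Ico p (p + D + 1)) (hq2 : q2 ∈ Ico p (p + D + 1))
    (hne : q1 ≠ q2) (hr2 : dnc n e (p + D + 1) r = 2) (h1 : upc e p q1 = 1)
    (h2 : upc e p q2 = 1)
    (hr0 : ∀ v ∈ Ico p (p + D + 1), v ≠ r → dnc n e (p + D + 1) v = 0)
    (hq0 : ∀ v ∈ Ico p (p + D + 1), v ≠ q1 → v ≠ q2 → upc e p v = 0) :
    ((D : ℝ) - 2) * (x q1 + x q2 - 2 * x r) ≤ 3 * J := by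
  have bad : ∀ q q' : ℕ, q ∈ Ico p (p + D + 1) → q' ∈ Ico p (p + D + 1) → q ≠ q' → r = q →
      upc e p q = 1 →
      (∀ v ∈ Ico p (p + D + 1), v ≠ q → v ≠ q' → upc e p v = 0) → False := by
    intro q q' hq hq' hrr hqr hdr h0
    subst hqr
    have hT : ({r, q'} : Finset ℕ) ⊆ Ico p (p + D + 1) := by
      intro k hk
      rw [mem_insert, mem_singleton] at hk
      rcases hk with hk | hk <;> rw [hk] <;> assumption
    have hfull := full_of_special h p hp' {r, q'} hT (fun v hv hvq => by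
      rw [mem_insert, mem_singleton] at hvq
      push Not at hvq
      exact ⟨h0 v hv hvq.1 hvq.2, hr0 v hv hvq.1⟩)
    have hrow := row_special h p (p + D + 1) r (by omega) hp' {r, q'} hT (by simp) hfull
    rw [hr2, hdr, Finset.card_sdiff_of_subset hT, Nat.card_Ico, Finset.card_pair hrr] at hrow
    omega
  have hrq1 : r ≠ q1 := fun hh => bad q1 q2 hq1 hq2 hne hh h1 hq0
  have hrq2 : r ≠ q2 := fun hh => bad q2 q1 hq2 hq1 hne.symm hh h2 (fun v hv a b => hq0 v hv b a)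
  have hT : ({r, q1, q2} : Finset ℕ) ⊆ Ico p (p + D + 1) := by
    intro k hk
    rw [mem_insert, mem_insert, mem_singleton] at hk
    rcases hk with hk | hk | hk <;> rw [hk] <;> assumption
  have hfull := full_of_special h p hp' {r, q1, q2} hT (fun v hv hvq => by
    rw [mem_insert, mem_insert, mem_singleton] at hvq
    push Not at hvq
    exact ⟨hq0 v hv hvq.2.1 hvq.2.2, hr0 v hv hvq.1⟩)
  have hc3 : ({r, q1, q2} : Finset ℕ).card = 3 := Finset.card_eq_three.2 ⟨r, q1, q2, hrq1, hrq2, hne, rfl⟩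
  have hcard : (Ico p (p + D + 1) \ {r, q1, q2}).card = D - 2 := by
    rw [Finset.card_sdiff_of_subset hT, Nat.card_Ico, hc3]
    omega
  have hrow := row_special h p (p + D + 1) r (by omega) hp' {r, q1, q2} hT (by simp) hfull
  rw [hcard, Finset.sum_insert (by rw [mem_insert, mem_singleton]; omega), Finset.sum_pair hne,
    h.irr, hr2, hq0 r hr hrq1 hrq2] at hrow
  have e1 : e r q1 = 0 := by omega
  have e2 : e r q2 = 0 := by omega
  have hen := entries_split h p (p + D + 1) (by omega) hp' {r, q1, q2} {q1, q2} hT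
    (by intro k hk; rw [mem_insert, mem_singleton] at hk; rcases hk with hk | hk <;> rw [hk] <;> simp) hfull
  have hex := exits_split h p (p + D + 1) hp' {r, q1, q2} {r} hT
    (by intro k hk; rw [mem_singleton] at hk; rw [hk]; simp) hfull
  have s1 : ({r, q1, q2} : Finset ℕ) \ {r} = {q1, q2} := by
    ext k; simp only [mem_sdiff, mem_insert, mem_singleton]; omega
  have s2 : ({r, q1, q2} : Finset ℕ) \ {q1, q2} = {r} := by
    ext k; simp only [mem_sdiff, mem_insert, mem_singleton]; omega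
  rw [Finset.sum_singleton, s1, Finset.sum_pair hne, e1, e2, hcard] at hex
  rw [Finset.sum_pair hne, s2, Finset.sum_singleton, Finset.sum_singleton, h.symm q1 r,
    h.symm q2 r, e1, e2, hcard] at hen
  have hc : ((D - 2 : ℕ) : ℝ) = (D : ℝ) - 2 := by push_cast [Nat.cast_sub (show 2 ≤ D by omega)]; ring
  rw [hc] at hen hex
  push_cast at hen hex
  linarith

theorem exact_DD1 (p a b c : ℕ) (hD : 3 ≤ D) (hp' : p + D + 1 ≤ N)
    (ha : a ∈ Ico p (p + D + 1)) (hb : b ∈ Ico p (p + D + 1)) (hc : c ∈ Ico p (p + D + 1))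
    (hab : a ≠ b) (hac : a ≠ c) (hbc : b ≠ c)
    (ua : upc e p a = 1) (ub : upc e p b = 1) (da : dnc n e (p + D + 1) a = 1)
    (_dc : dnc n e (p + D + 1) c = 1)
    (hu0 : ∀ v ∈ Ico p (p + D + 1), v ≠ a → v ≠ b → upc e p v = 0)
    (hd0 : ∀ v ∈ Ico p (p + D + 1), v ≠ a → v ≠ c → dnc n e (p + D + 1) v = 0) :
    ((D : ℝ) - 1) * (x b - x c) ≤ 2 * J := by
  have hJ := J_nonneg h
  have hT : ({a, b, c} : Finset ℕ) ⊆ Ico p (p + D + 1) := by
    intro k hk
    rw [mem_insert, mem_insert, mem_singleton] at hk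
    rcases hk with hk | hk | hk <;> rw [hk] <;> assumption
  have hfull := full_of_special h p hp' {a, b, c} hT (fun v hv hvq => by
    rw [mem_insert, mem_insert, mem_singleton] at hvq
    push Not at hvq
    exact ⟨hu0 v hv hvq.1 hvq.2.1, hd0 v hv hvq.1 hvq.2.2⟩)
  have hc3 : ({a, b, c} : Finset ℕ).card = 3 := Finset.card_eq_three.2 ⟨a, b, c, hab, hac, hbc, rfl⟩
  have hcard : (Ico p (p + D + 1) \ {a, b, c}).card = D - 2 := by
    rw [Finset.card_sdiff_of_subset hT, Nat.card_Ico, hc3]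
    omega
  have hrow := row_special h p (p + D + 1) a (by omega) hp' {a, b, c} hT (by simp) hfull
  rw [hcard, Finset.sum_insert (by rw [mem_insert, mem_singleton]; omega), Finset.sum_pair hbc,
    h.irr, ua, da] at hrow
  have hrow2 := row_special h p (p + D + 1) b (by omega) hp' {a, b, c} hT (by simp) hfull
  rw [hcard, Finset.sum_insert (by rw [mem_insert, mem_singleton]; omega), Finset.sum_pair hbc,
    h.irr, ub, hd0 b hb hab.symm hbc, h.symm b a] at hrow2
  have e1 : e a b = 0 := by omega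
  have e2 : e a c = 0 := by omega
  have e3 : e b c = 1 := by omega
  have hen := entries_split h p (p + D + 1) (by omega) hp' {a, b, c} {a, b} hT
    (by intro k hk; rw [mem_insert, mem_singleton] at hk; rcases hk with hk | hk <;> rw [hk] <;> simp) hfull
  have hex := exits_split h p (p + D + 1) hp' {a, b, c} {a, c} hT
    (by intro k hk; rw [mem_insert, mem_singleton] at hk; rcases hk with hk | hk <;> rw [hk] <;> simp) hfull
  have s1 : ({a, b, c} : Finset ℕ) \ {a, b} = {c} := by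
    ext k; simp only [mem_sdiff, mem_insert, mem_singleton]; omega
  have s2 : ({a, b, c} : Finset ℕ) \ {a, c} = {b} := by
    ext k; simp only [mem_sdiff, mem_insert, mem_singleton]; omega
  rw [Finset.sum_pair hab, s1, Finset.sum_singleton, Finset.sum_singleton, e2, e3, hcard] at hen
  rw [Finset.sum_pair hac, s2, Finset.sum_singleton, Finset.sum_singleton, e1, h.symm c b, e3,
    hcard] at hex
  have hc' : ((D - 2 : ℕ) : ℝ) = (D : ℝ) - 2 := by push_cast [Nat.cast_sub (show 2 ≤ D by omega)]; ring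
  rw [hc'] at hen hex
  push_cast at hen hex
  have hDr : (3 : ℝ) ≤ D := by exact_mod_cast hD
  have key : (D : ℝ) * (x b - x c) ≤ 2 * J := by linarith
  rcases le_or_gt 0 (x b - x c) with hy | hy
  · linarith
  · nlinarith

theorem exact_DD0 (p q1 q2 r1 r2 : ℕ) (hD : 3 ≤ D) (hp' : p + D + 1 ≤ N)
    (hq1 : q1 ∈ Ico p (p + D + 1)) (hq2 : q2 ∈ Ico p (p + D + 1)) (hr1 : r1 ∈ Ico p (p + D + 1))
    (hr2 : r2 ∈ Ico p (p + D + 1))
    (n1 : q1 ≠ q2) (n2 : r1 ≠ r2) (n3 : q1 ≠ r1) (n4 : q1 ≠ r2) (n5 : q2 ≠ r1) (n6 : q2 ≠ r2)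
    (u1 : upc e p q1 = 1) (u2 : upc e p q2 = 1) (d1 : dnc n e (p + D + 1) r1 = 1)
    (d2 : dnc n e (p + D + 1) r2 = 1)
    (hu0 : ∀ v ∈ Ico p (p + D + 1), v ≠ q1 → v ≠ q2 → upc e p v = 0)
    (hd0 : ∀ v ∈ Ico p (p + D + 1), v ≠ r1 → v ≠ r2 → dnc n e (p + D + 1) v = 0) :
    ((D : ℝ) - 1) * (x q1 + x q2 - x r1 - x r2) ≤ 2 * J := by
  have hJ := J_nonneg h
  have hT : ({q1, q2, r1, r2} : Finset ℕ) ⊆ Ico p (p + D + 1) := by
    intro k hk
    rw [mem_insert, mem_insert, mem_insert, mem_singleton] at hk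
    rcases hk with hk | hk | hk | hk <;> rw [hk] <;> assumption
  have hfull := full_of_special h p hp' {q1, q2, r1, r2} hT (fun v hv hvq => by
    rw [mem_insert, mem_insert, mem_insert, mem_singleton] at hvq
    push Not at hvq
    exact ⟨hu0 v hv hvq.1 hvq.2.1, hd0 v hv hvq.2.2.1 hvq.2.2.2⟩)
  have hc4 : ({q1, q2, r1, r2} : Finset ℕ).card = 4 := by
    rw [Finset.card_insert_of_notMem (by simp only [mem_insert, mem_singleton]; omega),
      Finset.card_insert_of_notMem (by simp only [mem_insert, mem_singleton]; omega),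
      Finset.card_pair n2]
  have hcard : (Ico p (p + D + 1) \ {q1, q2, r1, r2}).card = D - 3 := by
    rw [Finset.card_sdiff_of_subset hT, Nat.card_Ico, hc4]
    omega
  have hs4 : ∀ f : ℕ → ℕ, ∑ w ∈ ({q1, q2, r1, r2} : Finset ℕ), f w = f q1 + (f q2 + (f r1 + f r2)) := by
    intro f
    rw [Finset.sum_insert (by simp only [mem_insert, mem_singleton]; omega),
      Finset.sum_insert (by simp only [mem_insert, mem_singleton]; omega), Finset.sum_pair n2]
  have w1 := row_special h p (p + D + 1) q1 (by omega) hp' {q1, q2, r1, r2} hT (by simp) hfull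
  have w2 := row_special h p (p + D + 1) q2 (by omega) hp' {q1, q2, r1, r2} hT (by simp) hfull
  have w3 := row_special h p (p + D + 1) r1 (by omega) hp' {q1, q2, r1, r2} hT (by simp) hfull
  have w4 := row_special h p (p + D + 1) r2 (by omega) hp' {q1, q2, r1, r2} hT (by simp) hfull
  rw [hcard, hs4, h.irr, u1, hd0 q1 hq1 n3 n4] at w1
  rw [hcard, hs4, h.irr, u2, hd0 q2 hq2 n5 n6, h.symm q2 q1] at w2
  rw [hcard, hs4, h.irr, d1, hu0 r1 hr1 n3.symm n5.symm, h.symm r1 q1, h.symm r1 q2] at w3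
  rw [hcard, hs4, h.irr, d2, hu0 r2 hr2 n4.symm n6.symm, h.symm r2 q1, h.symm r2 q2,
    h.symm r2 r1] at w4
  have l1 := h.le1 q1 q2
  have l2 := h.le1 q1 r1
  have l3 := h.le1 q1 r2
  have l4 := h.le1 q2 r1
  have l5 := h.le1 q2 r2
  have l6 := h.le1 r1 r2
  have hen := entries_split h p (p + D + 1) (by omega) hp' {q1, q2, r1, r2} {q1, q2} hT
    (by intro k hk; rw [mem_insert, mem_singleton] at hk; rcases hk with hk | hk <;> rw [hk] <;> simp) hfull
  have hex := exits_split h p (p + D + 1) hp' {q1, q2, r1, r2} {r1, r2} hT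
    (by intro k hk; rw [mem_insert, mem_singleton] at hk; rcases hk with hk | hk <;> rw [hk] <;> simp) hfull
  have s1 : ({q1, q2, r1, r2} : Finset ℕ) \ {q1, q2} = {r1, r2} := by
    ext k; simp only [mem_sdiff, mem_insert, mem_singleton]; omega
  have s2 : ({q1, q2, r1, r2} : Finset ℕ) \ {r1, r2} = {q1, q2} := by
    ext k; simp only [mem_sdiff, mem_insert, mem_singleton]; omega
  rw [Finset.sum_pair n1, s1, Finset.sum_pair n2, Finset.sum_pair n2, hcard] at hen
  rw [Finset.sum_pair n2, s2, Finset.sum_pair n1, Finset.sum_pair n1, hcard,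
    h.symm r1 q1, h.symm r1 q2, h.symm r2 q1, h.symm r2 q2] at hex
  have hc' : ((D - 3 : ℕ) : ℝ) = (D : ℝ) - 3 := by push_cast [Nat.cast_sub hD]; ring
  rw [hc'] at hen hex
  have hDr : (3 : ℝ) ≤ D := by exact_mod_cast hD
  have hcases : (e q1 r1 = 1 ∧ e q1 r2 = 1 ∧ e q2 r1 = 1 ∧ e q2 r2 = 1) ∨
      (e q1 r1 = 1 ∧ e q1 r2 = 0 ∧ e q2 r1 = 0 ∧ e q2 r2 = 1) ∨
      (e q1 r1 = 0 ∧ e q1 r2 = 1 ∧ e q2 r1 = 1 ∧ e q2 r2 = 0) := by omega
  rcases hcases with ⟨a1, a2, a3, a4⟩ | ⟨a1, a2, a3, a4⟩ | ⟨a1, a2, a3, a4⟩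
  · rw [a1, a2, a3, a4] at hen hex
    push_cast at hen hex
    rcases le_or_gt 0 (x q1 + x q2 - x r1 - x r2) with hy | hy
    · have key : ((D : ℝ) + 1) * (x q1 + x q2 - x r1 - x r2) ≤ 2 * J := by linarith
      nlinarith
    · nlinarith
  · rw [a1, a2, a3, a4] at hen hex
    push_cast at hen hex
    linarith
  · rw [a1, a2, a3, a4] at hen hex
    push_cast at hen hex
    linarith

theorem exact_DD (p q1 q2 r1 r2 : ℕ) (hD : 3 ≤ D) (hp' : p + D + 1 ≤ N)
    (hq1 : q1 ∈ Ico p (p + D + 1)) (hq2 : q2 ∈ Ico p (p + D + 1)) (hr1 : r1 ∈ Ico p (p + D + 1))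
    (hr2 : r2 ∈ Ico p (p + D + 1)) (n1 : q1 ≠ q2) (n2 : r1 ≠ r2)
    (u1 : upc e p q1 = 1) (u2 : upc e p q2 = 1) (d1 : dnc n e (p + D + 1) r1 = 1)
    (d2 : dnc n e (p + D + 1) r2 = 1)
    (hu0 : ∀ v ∈ Ico p (p + D + 1), v ≠ q1 → v ≠ q2 → upc e p v = 0)
    (hd0 : ∀ v ∈ Ico p (p + D + 1), v ≠ r1 → v ≠ r2 → dnc n e (p + D + 1) v = 0) :
    ((D : ℝ) - 1) * (x q1 + x q2 - x r1 - x r2) ≤ 2 * J := by
  have bad : ∀ a b : ℕ, a ∈ Ico p (p + D + 1) → b ∈ Ico p (p + D + 1) → a ≠ b →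
      upc e p a = 1 → dnc n e (p + D + 1) a = 1 →
      (∀ v ∈ Ico p (p + D + 1), v ≠ a → v ≠ b → upc e p v = 0) →
      (∀ v ∈ Ico p (p + D + 1), v ≠ a → v ≠ b → dnc n e (p + D + 1) v = 0) → False := by
    intro a b ha hb hab ua da h1 h2
    have hT : ({a, b} : Finset ℕ) ⊆ Ico p (p + D + 1) := by
      intro k hk
      rw [mem_insert, mem_singleton] at hk
      rcases hk with hk | hk <;> rw [hk] <;> assumption
    have hfull := full_of_special h p hp' {a, b} hT (fun v hv hvq => by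
      rw [mem_insert, mem_singleton] at hvq
      push Not at hvq
      exact ⟨h1 v hv hvq.1 hvq.2, h2 v hv hvq.1 hvq.2⟩)
    have hrow := row_special h p (p + D + 1) a (by omega) hp' {a, b} hT (by simp) hfull
    rw [ua, da, Finset.card_sdiff_of_subset hT, Nat.card_Ico, Finset.card_pair hab] at hrow
    omega
  by_cases c1 : q1 = r1
  · subst c1
    by_cases c2 : q2 = r2
    · subst c2
      exact (bad q1 q2 hq1 hq2 n1 u1 d1 hu0 hd0).elim
    · have := exact_DD1 h p q1 q2 r2 hD hp' hq1 hq2 hr2 n1 n2 c2 u1 u2 d1 d2 hu0 hd0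
      rw [show x q1 + x q2 - x q1 - x r2 = x q2 - x r2 by ring]
      exact this
  by_cases c2 : q1 = r2
  · subst c2
    by_cases c3 : q2 = r1
    · subst c3
      exact (bad q1 q2 hq1 hq2 n1 u1 d2 hu0 (fun v hv a b => hd0 v hv b a)).elim
    · have := exact_DD1 h p q1 q2 r1 hD hp' hq1 hq2 hr1 n1 c1 c3 u1 u2 d2 d1 hu0
        (fun v hv a b => hd0 v hv b a)
      rw [show x q1 + x q2 - x r1 - x q1 = x q2 - x r1 by ring]
      exact this
  by_cases c3 : q2 = r1
  · subst c3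
    have := exact_DD1 h p q2 q1 r2 hD hp' hq2 hq1 hr2 n1.symm n2 c2 u2 u1 d1 d2
      (fun v hv a b => hu0 v hv b a) hd0
    rw [show x q1 + x q2 - x q2 - x r2 = x q1 - x r2 by ring]
    exact this
  by_cases c4 : q2 = r2
  · subst c4
    have := exact_DD1 h p q2 q1 r1 hD hp' hq2 hq1 hr1 n1.symm n2.symm c1 u2 u1 d2 d1
      (fun v hv a b => hu0 v hv b a) (fun v hv a b => hd0 v hv b a)
    rw [show x q1 + x q2 - x r1 - x q2 = x q1 - x r1 by ring]
    exact this
  exact exact_DD0 h p q1 q2 r1 r2 hD hp' hq1 hq2 hr1 hr2 n1 n2 c1 c2 c3 c4 u1 u2 d1 d2 hu0 hd0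

end piece

end Pool.Agent.Helper951.Lg
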