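import Pool.Agent.Helper951.LgH

set_option autoImplicit false

open Finset

namespace Pool.Agent.Helper951.Lg

section oddpiece
variable {D n N : ℕ} {e : ℕ → ℕ → ℕ} {x : ℕ → ℝ} {J : ℝ} (h : OG D n N e x J)
include h

lemma gap_le (t : ℕ) (ht : 1 ≤ t) (htN : t ≤ N) : (cutN n e t : ℝ) * (x (t - 1) - x t) ≤ J := by
  refine le_trans ?_ (flow_prefix h t htN)
  unfold cutN
  push_cast
  rw [Finset.sum_mul]
  apply Finset.sum_le_sum
  intro i hi
  rw [Finset.sum_mul]
  apply Finset.sum_le_sum
  intro k hk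
  rw [mem_range] at hi
  rw [mem_Ico] at hk
  apply mul_le_mul_of_nonneg_left _ (Nat.cast_nonneg _)
  have h1 := h.anti (show i ≤ t - 1 by omega)
  have h2 := h.anti (show t ≤ k by omega)
  linarith

lemma gap_nonneg (t : ℕ) : 0 ≤ x (t - 1) - x t := by
  have := h.anti (show t - 1 ≤ t by omega)
  linarith

theorem piece_odd (hodd : D % 2 = 1) (hD : 3 ≤ D) (p p' : ℕ) (hp1 : 1 ≤ p) (hpp : p < p')
    (hp' : p' ≤ N) (hc : cutN n e p = 1) (hc' : cutN n e p' = 1)
    (hbet : ∀ t, p < t → t < p' → 2 ≤ cutN n e t) :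
    ((D : ℝ) - 1) * (BB n e x p - TT n e x p') ≤ J * ((p' : ℝ) - p - D + 1) := by
  have hNn := h.hN
  have hJ := J_nonneg h
  have hDr : (3 : ℝ) ≤ D := by exact_mod_cast hD
  -- length
  have hlen : p + D + 1 ≤ p' := by
    by_contra hcon
    obtain ⟨m, hm⟩ : ∃ m, p' = p + 1 + m := ⟨p' - p - 1, by omega⟩
    have hf := f_ineq h p (m + 1) (by omega)
    rw [show p + (m + 1) = p' by omega, hc, hc'] at hf
    obtain ⟨k, hk⟩ : ∃ k, D = m + 1 + k := ⟨D - m - 1, by omega⟩
    subst hk
    nlinarith [Nat.zero_le (m * k)]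
  obtain ⟨q, hq, hq1, hq0⟩ := sum_eq_one_cases (Ico p n) (upc e p) (by rw [sum_upc]; exact hc)
  obtain ⟨u, hu, hu1, hu0⟩ := sum_eq_one_cases (range p') (dnc n e p') (by rw [sum_dnc]; exact hc')
  have hBB : BB n e x p = x q := by
    unfold BB
    rw [sum_mul_one _ _ x q hq 1 hq1 hq0]
    push_cast; ring
  have hTT : TT n e x p' = x u := by
    unfold TT
    rw [sum_mul_one _ _ x u hu 1 hu1 hu0]
    push_cast; ring
  rw [hBB, hTT]
  rcases hlen.lt_or_eq with hlt | heq
  · -- windows
    have hM : D - 1 ≤ D := by omega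
    have hcM : ((D - 1 : ℕ) : ℝ) = (D : ℝ) - 1 := by push_cast [Nat.cast_sub (show 1 ≤ D by omega)]; ring
    have post := post_single h p (D - 1) 1 hM (by omega) q hq hq1 hq0 (by omega)
    have pre := pre_single h p' (D - 1) 1 hM hp' (by omega) u hu hu1 hu0 (by omega)
    rw [hcM] at post pre
    rw [show p + (D - 1) = p + D - 1 by omega] at post
    rw [show p' - (D - 1) - 1 = p' - D by omega] at pre
    push_cast at post pre
    have hlt' : (p : ℝ) + D + 2 ≤ p' := by
      have : p + D + 2 ≤ p' := by omega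
      exact_mod_cast this
    by_cases hm : p' ≤ p + 2 * D - 1
    · have hx : x (p + D - 1) ≤ x (p' - D) := h.anti (by omega)
      have h1 : ((D : ℝ) - 1) * (x q - x u) ≤ 3 * J := by nlinarith
      have h2 : 3 * J ≤ J * ((p' : ℝ) - p - D + 1) := by nlinarith
      linarith
    · have hcr0 : (D : ℝ) - 1 ≤ (cutN n e (p + D) : ℝ) := by
        have hf := f_ineq h p D (by omega)
        rw [hc] at hf
        have : D ≤ 1 + cutN n e (p + D) := by nlinarith
        have : (D : ℝ) ≤ 1 + (cutN n e (p + D) : ℝ) := by exact_mod_cast this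
        linarith
      have hcr1 : (D : ℝ) - 1 ≤ (cutN n e (p' - D) : ℝ) := by
        have hf := f_ineq h (p' - D) D (by omega)
        rw [show p' - D + D = p' by omega, hc'] at hf
        have : D ≤ 1 + cutN n e (p' - D) := by nlinarith
        have : (D : ℝ) ≤ 1 + (cutN n e (p' - D) : ℝ) := by exact_mod_cast this
        linarith
      have hcp : ((p' - D : ℕ) : ℝ) = (p' : ℝ) - D := by push_cast [Nat.cast_sub (show D ≤ p' by omega)]; ring
      have hmr : (p : ℝ) + 2 * D ≤ p' := by
        have : p + 2 * D ≤ p' := by omega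
        exact_mod_cast this
      rcases (show p + D ≤ p' - D by omega).lt_or_eq with hr | hr
      · have hmid := mid_odd h hodd hD (p + D) (p' - D) (by omega) hr (by omega)
          (fun t h1 h2 => hbet t (by omega) (by omega)) 1 1 le_rfl le_rfl (by linarith) (by linarith)
        rw [show p + D - 1 = p + D - 1 from rfl, hcp] at hmid
        push_cast at hmid
        have hmr1 : (p : ℝ) + 2 * D + 1 ≤ p' := by
          have : p + 2 * D + 1 ≤ p' := by omega
          exact_mod_cast this
        have h1 : ((D : ℝ) - 1) * (x q - x u) ≤ 3 * J +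
            J * (1 + 1 + ((p' : ℝ) - D - (p + D) - 1) + ((D : ℝ) - 3) / 2) := by nlinarith
        have h2 : 3 * J + J * (1 + 1 + ((p' : ℝ) - D - (p + D) - 1) + ((D : ℝ) - 3) / 2) ≤
            J * ((p' : ℝ) - p - D + 1) := by nlinarith
        linarith
      · have hg := gap_le h (p + D) (by omega) (by omega)
        have hg0 := gap_nonneg h (p + D)
        rw [hr] at hcr0
        have h3 : ((D : ℝ) - 1) * (x (p + D - 1) - x (p' - D)) ≤ J := by
          rw [← hr] at hcr0 ⊢
          calc ((D : ℝ) - 1) * (x (p + D - 1) - x (p + D))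
              ≤ (cutN n e (p + D) : ℝ) * (x (p + D - 1) - x (p + D)) :=
                mul_le_mul_of_nonneg_right hcr0 hg0
            _ ≤ J := hg
        have h1 : ((D : ℝ) - 1) * (x q - x u) ≤ 4 * J := by nlinarith
        have h2 : 4 * J ≤ J * ((p' : ℝ) - p - D + 1) := by nlinarith
        linarith
  · -- exact
    subst heq
    have hct := counts h p (p + D + 1) (by omega) hp'
    rw [hc, hc'] at hct
    have hout := out_pos h p (p + D + 1) hp1 (by omega) hp'
    have hs1 : ∑ v ∈ Ico p (p + D + 1), upc e p v = 1 := by omega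
    have hs2 : ∑ v ∈ Ico p (p + D + 1), dnc n e (p + D + 1) v = 1 := by omega
    obtain ⟨q', hq', hq1', hq0'⟩ := sum_eq_one_cases _ _ hs1
    obtain ⟨u', hu', hu1', hu0'⟩ := sum_eq_one_cases _ _ hs2
    have eq1 : q' = q := by
      by_contra hne
      rw [mem_Ico] at hq'
      have := hq0 q' (by rw [mem_Ico]; omega) hne
      omega
    have eq2 : u' = u := by
      by_contra hne
      rw [mem_Ico] at hu'
      have := hu0 u' (by rw [mem_range]; omega) hne
      omega
    subst eq1 eq2
    have := exact_one h p q' u' (by omega) hp' hq' hu' hq1' hu1' hq0' hu0'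
    push_cast
    nlinarith

lemma crude_odd (hodd : D % 2 = 1) (hD : 3 ≤ D) (a b : ℕ) (ha : 1 ≤ a) (hab : a ≤ b) (hb : b ≤ N)
    (hc : ∀ t, a ≤ t → t ≤ b → 2 ≤ cutN n e t) :
    ((D : ℝ) - 1) * (x (a - 1) - x b) ≤ J * ((b : ℝ) - a + 1 + 3 * D) := by
  have hJ := J_nonneg h
  have hDr : (3 : ℝ) ≤ D := by exact_mod_cast hD
  have hca : (2 : ℝ) ≤ (cutN n e a : ℝ) := by exact_mod_cast hc a le_rfl hab
  have hcb : (2 : ℝ) ≤ (cutN n e b : ℝ) := by exact_mod_cast hc b hab le_rfl
  rcases hab.lt_or_eq with hlt | heq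
  · have hmid := mid_odd h hodd hD a b ha hlt hb (fun t h1 h2 => hc t h1.le h2.le) D D
      (by linarith) (by linarith) (by nlinarith) (by nlinarith)
    have : J * ((D : ℝ) + D + ((b : ℝ) - a - 1) + ((D : ℝ) - 3) / 2) ≤
        J * ((b : ℝ) - a + 1 + 3 * D) := mul_le_mul_of_nonneg_left (by linarith) hJ
    linarith
  · subst heq
    have hg := gap_le h a ha hb
    have hg0 := gap_nonneg h a
    have h1 : x (a - 1) - x a ≤ J := by nlinarith
    have h2 : ((D : ℝ) - 1) * (x (a - 1) - x a) ≤ ((D : ℝ) - 1) * J :=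
      mul_le_mul_of_nonneg_left h1 (by linarith)
    nlinarith

lemma chain_odd (hodd : D % 2 = 1) (hD : 3 ≤ D) (hNn' : N < n) (b : ℕ) (hb : b ≤ N) :
    ∀ k p : ℕ, b - p = k → 1 ≤ p → p ≤ b → cutN n e p = 1 →
      ((D : ℝ) - 1) * (BB n e x p - x b) ≤ J * ((b : ℝ) - p + 3 * D) := by
  have hJ := J_nonneg h
  have hDr : (3 : ℝ) ≤ D := by exact_mod_cast hD
  intro k
  induction k using Nat.strong_induction_on with
  | _ k ih =>
  intro p hk hp1 hpb hc
  have hBB := BB_le h p
  rw [hc] at hBB
  push_cast at hBB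
  rw [one_mul] at hBB
  classical
  by_cases hex : ((Ioc p b).filter (fun t => cutN n e t = 1)).Nonempty
  · set p' := ((Ioc p b).filter (fun t => cutN n e t = 1)).min' hex with hp'
    have hm : p' ∈ (Ioc p b).filter (fun t => cutN n e t = 1) := Finset.min'_mem _ _
    rw [mem_filter, mem_Ioc] at hm
    have hbet : ∀ t, p < t → t < p' → 2 ≤ cutN n e t := by
      intro t h1 h2
      have hpos := cut_pos h t (by omega) (by omega)
      by_contra hcon
      have : t ∈ (Ioc p b).filter (fun t => cutN n e t = 1) := by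
        rw [mem_filter, mem_Ioc]; exact ⟨by omega, by omega⟩
      have := Finset.min'_le _ _ this
      omega
    have hpc := piece_odd h hodd hD p p' hp1 hm.1.1 (by omega) hc hm.2 hbet
    have htb := TT_sub_BB h p' (by omega)
    have hrec := ih (b - p') (by omega) p' rfl (by omega) hm.1.2 hm.2
    nlinarith
  · have hge : ∀ t, p + 1 ≤ t → t ≤ b → 2 ≤ cutN n e t := by
      intro t h1 h2
      have hpos := cut_pos h t (by omega) (by omega)
      by_contra hcon
      exact hex ⟨t, by rw [mem_filter, mem_Ioc]; exact ⟨by omega, by omega⟩⟩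
    rcases hpb.lt_or_eq with hlt | heq
    · have hcr := crude_odd h hodd hD (p + 1) b (by omega) (by omega) hb hge
      simp only [Nat.add_sub_cancel] at hcr
      push_cast at hcr
      nlinarith
    · subst heq
      have h1 : ((D : ℝ) - 1) * (BB n e x p - x p) ≤ 0 :=
        mul_nonpos_of_nonneg_of_nonpos (by linarith) (by linarith)
      have h2 : 0 ≤ J * ((p : ℝ) - p + 3 * D) := mul_nonneg hJ (by linarith)
      linarith

theorem T_odd (hodd : D % 2 = 1) (hD : 3 ≤ D) (hNn' : N < n) (a b : ℕ) (ha : 1 ≤ a)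
    (hab : a ≤ b) (hb : b ≤ N) :
    ((D : ℝ) - 1) * (x (a - 1) - x b) ≤ J * ((b : ℝ) - a + 10 * D) := by
  have hJ := J_nonneg h
  have hDr : (3 : ℝ) ≤ D := by exact_mod_cast hD
  classical
  by_cases hex : ((Icc a b).filter (fun t => cutN n e t = 1)).Nonempty
  · set p := ((Icc a b).filter (fun t => cutN n e t = 1)).min' hex with hp
    have hm : p ∈ (Icc a b).filter (fun t => cutN n e t = 1) := Finset.min'_mem _ _
    rw [mem_filter, mem_Icc] at hm
    have hbet : ∀ t, a ≤ t → t < p → 2 ≤ cutN n e t := by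
      intro t h1 h2
      have hpos := cut_pos h t (by omega) (by omega)
      by_contra hcon
      have : t ∈ (Icc a b).filter (fun t => cutN n e t = 1) := by
        rw [mem_filter, mem_Icc]; exact ⟨by omega, by omega⟩
      have := Finset.min'_le _ _ this
      omega
    have h1 : ((D : ℝ) - 1) * (x (a - 1) - x (p - 1)) ≤ J * ((p : ℝ) - a + 3 * D) := by
      by_cases hap : a = p
      · rw [← hap]
        have : 0 ≤ J * ((a : ℝ) - a + 3 * D) := mul_nonneg hJ (by linarith)
        linarith
      · have hcr := crude_odd h hodd hD a (p - 1) ha (by omega) (by omega)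
          (fun t h1 h2 => hbet t h1 (by omega))
        have hc : ((p - 1 : ℕ) : ℝ) = (p : ℝ) - 1 := by
          push_cast [Nat.cast_sub (show 1 ≤ p by omega)]; ring
        rw [hc] at hcr
        nlinarith
    have h2 := TT_sub_BB h p (by omega)
    have h3 := TT_ge h p (by omega)
    rw [hm.2] at h3
    push_cast at h3
    have h4 := chain_odd h hodd hD hNn' b hb (b - p) p rfl (by omega) hm.1.2 hm.2
    have h5 : ((D : ℝ) - 1) * (x (p - 1) - BB n e x p) ≤ ((D : ℝ) - 1) * J :=
      mul_le_mul_of_nonneg_left (by linarith) (by linarith)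
    nlinarith
  · have hge : ∀ t, a ≤ t → t ≤ b → 2 ≤ cutN n e t := by
      intro t h1 h2
      have hpos := cut_pos h t (by omega) (by omega)
      by_contra hcon
      exact hex ⟨t, by rw [mem_filter, mem_Icc]; exact ⟨by omega, by omega⟩⟩
    have hcr := crude_odd h hodd hD a b ha hab hb hge
    nlinarith

end oddpiece

end Pool.Agent.Helper951.Lg
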