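import Pool.Agent.Helper951.LgI

set_option autoImplicit false
set_option linter.unusedSectionVars false

open Finset

namespace Pool.Agent.Helper951.Lg

open Classical in
/-- sign of the lower side of a 2-cut -/
noncomputable def lo (n : ℕ) (e : ℕ → ℕ → ℕ) (p : ℕ) : ℝ :=
  if ∃ q ∈ Ico p n, upc e p q = 2 then 1 else -1
open Classical in
/-- sign of the upper side of a 2-cut -/
noncomputable def hi (n : ℕ) (e : ℕ → ℕ → ℕ) (p : ℕ) : ℝ :=
  if ∃ u ∈ range p, dnc n e p u = 2 then 1 else -1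

/-- amortisation constant -/
noncomputable def sg (D : ℕ) : ℝ := if D = 4 then 1 / 2 else 1 / 2 + 1 / ((D : ℝ) - 1)

section evenpiece
variable {D n N : ℕ} {e : ℕ → ℕ → ℕ} {x : ℕ → ℝ} {J : ℝ} (h : OG D n N e x J)
include h

lemma lo_cases (p : ℕ) (hc : cutN n e p = 2) :
    (lo n e p = 1 ∧ ∃ q ∈ Ico p n, upc e p q = 2 ∧ (∀ v ∈ Ico p n, v ≠ q → upc e p v = 0) ∧
      BB n e x p = 2 * x q) ∨
    (lo n e p = -1 ∧ ∃ q1 ∈ Ico p n, ∃ q2 ∈ Ico p n, q1 ≠ q2 ∧ upc e p q1 = 1 ∧ upc e p q2 = 1 ∧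
      (∀ v ∈ Ico p n, v ≠ q1 → v ≠ q2 → upc e p v = 0) ∧ BB n e x p = x q1 + x q2) := by
  rcases sum_eq_two_cases (Ico p n) (upc e p) (by rw [sum_upc]; exact hc) with
    ⟨q, hq, hq2, hq0⟩ | ⟨q1, hq1, q2, hq2, hne, h1, h2, h0⟩
  · left
    refine ⟨?_, q, hq, hq2, hq0, ?_⟩
    · unfold lo
      rw [if_pos ⟨q, hq, hq2⟩]
    · unfold BB
      rw [sum_mul_one _ _ x q hq 2 hq2 hq0]
      push_cast; ring
  · right
    refine ⟨?_, q1, hq1, q2, hq2, hne, h1, h2, h0, ?_⟩
    · unfold lo
      rw [if_neg]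
      rintro ⟨q, hq, hq2'⟩
      by_cases c1 : q = q1
      · rw [c1] at hq2'; omega
      by_cases c2 : q = q2
      · rw [c2] at hq2'; omega
      have := h0 q hq c1 c2
      omega
    · unfold BB
      exact sum_mul_two _ _ x q1 q2 hq1 hq2 hne h1 h2 h0

lemma hi_cases (p : ℕ) (hc : cutN n e p = 2) :
    (hi n e p = 1 ∧ ∃ q ∈ range p, dnc n e p q = 2 ∧ (∀ v ∈ range p, v ≠ q → dnc n e p v = 0) ∧
      TT n e x p = 2 * x q) ∨
    (hi n e p = -1 ∧ ∃ q1 ∈ range p, ∃ q2 ∈ range p, q1 ≠ q2 ∧ dnc n e p q1 = 1 ∧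
      dnc n e p q2 = 1 ∧
      (∀ v ∈ range p, v ≠ q1 → v ≠ q2 → dnc n e p v = 0) ∧ TT n e x p = x q1 + x q2) := by
  rcases sum_eq_two_cases (range p) (dnc n e p) (by rw [sum_dnc]; exact hc) with
    ⟨q, hq, hq2, hq0⟩ | ⟨q1, hq1, q2, hq2, hne, h1, h2, h0⟩
  · left
    refine ⟨?_, q, hq, hq2, hq0, ?_⟩
    · unfold hi
      rw [if_pos ⟨q, hq, hq2⟩]
    · unfold TT
      rw [sum_mul_one _ _ x q hq 2 hq2 hq0]
      push_cast; ring
  · right
    refine ⟨?_, q1, hq1, q2, hq2, hne, h1, h2, h0, ?_⟩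
    · unfold hi
      rw [if_neg]
      rintro ⟨q, hq, hq2'⟩
      by_cases c1 : q = q1
      · rw [c1] at hq2'; omega
      by_cases c2 : q = q2
      · rw [c2] at hq2'; omega
      have := h0 q hq c1 c2
      omega
    · unfold TT
      exact sum_mul_two _ _ x q1 q2 hq1 hq2 hne h1 h2 h0

lemma lo_hi (p : ℕ) (hc : cutN n e p = 2) : lo n e p + hi n e p ≤ 0 := by
  rcases lo_cases h p hc with ⟨l1, q, hq, hq2, hq0, _⟩ | ⟨l1, _⟩
  · rcases hi_cases h p hc with ⟨l2, u, hu, hu2, hu0, _⟩ | ⟨l2, _⟩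
    · exfalso
      have h1 : dnc n e p u = e u q := by
        unfold dnc
        rw [← Finset.add_sum_erase _ _ hq, Finset.sum_eq_zero, add_zero]
        intro k hk
        rw [mem_erase] at hk
        have h3 := hq0 k hk.2 hk.1
        have h4 : e u k ≤ upc e p k :=
          Finset.single_le_sum (f := fun i => e i k) (fun _ _ => Nat.zero_le _) hu
        omega
      have := h.le1 u q
      omega
    · rw [l1, l2]; norm_num
  · rcases hi_cases h p hc with ⟨l2, _⟩ | ⟨l2, _⟩ <;> rw [l1, l2] <;> norm_num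

/-- post-window bound -/
lemma post_bound (p M : ℕ) (hD : 4 ≤ D) (hM : M + 1 ≤ D) (hpN : p + M ≤ N)
    (hc : cutN n e p = 2) :
    (lo n e p = 1 → ((D : ℝ) + 1 - M) * (((D : ℝ) - 2) * (BB n e x p - 2 * x (p + M))) ≤
      2 * J * ((D : ℝ) + 1 - M + 1)) ∧
    (lo n e p = -1 → (((D : ℝ) + 1 - M) * D - 2) * (BB n e x p - 2 * x (p + M)) ≤
      J * ((D : ℝ) + 1 - M + 2)) := by
  constructor
  · intro hl
    rcases lo_cases h p hc with ⟨l1, q, hq, hq2, hq0, hBB⟩ | ⟨l1, _⟩
    · have := post_single h p M 2 (by omega) hpN q hq hq2 hq0 (by omega)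
      rw [hBB]
      push_cast at this
      nlinarith
    · rw [l1] at hl; norm_num at hl
  · intro hl
    rcases lo_cases h p hc with ⟨l1, _⟩ | ⟨l1, q1, hq1, q2, hq2, hne, h1, h2, h0, hBB⟩
    · rw [l1] at hl; norm_num at hl
    · rw [hBB]
      exact post_double h p M (by omega) (by omega) hpN q1 q2 hq1 hq2 hne h1 h2 h0

lemma pre_bound (p M : ℕ) (hD : 4 ≤ D) (hM : M + 1 ≤ D) (hp : p ≤ N) (hMp : M + 1 ≤ p)
    (hc : cutN n e p = 2) :
    (hi n e p = 1 → ((D : ℝ) + 1 - M) * (((D : ℝ) - 2) * (2 * x (p - M - 1) - TT n e x p)) ≤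
      2 * J * ((D : ℝ) + 1 - M + 1)) ∧
    (hi n e p = -1 → (((D : ℝ) + 1 - M) * D - 2) * (2 * x (p - M - 1) - TT n e x p) ≤
      J * ((D : ℝ) + 1 - M + 2)) := by
  constructor
  · intro hl
    rcases hi_cases h p hc with ⟨l1, q, hq, hq2, hq0, hTT⟩ | ⟨l1, _⟩
    · have := pre_single h p M 2 (by omega) hp hMp q hq hq2 hq0 (by omega)
      rw [hTT]
      push_cast at this
      nlinarith
    · rw [l1] at hl; norm_num at hl
  · intro hl
    rcases hi_cases h p hc with ⟨l1, _⟩ | ⟨l1, q1, hq1, q2, hq2, hne, h1, h2, h0, hTT⟩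
    · rw [l1] at hl; norm_num at hl
    · rw [hTT]
      have := pre_double h p M (by omega) (by omega) hp hMp q1 q2 hq1 hq2 hne h1 h2 h0
      rw [show 2 * x (p - M - 1) - (x q1 + x q2) = 2 * x (p - M - 1) - x q1 - x q2 by ring]
      exact this

/-- windows with `M = D - 1` -/
lemma post2 (p : ℕ) (hD : 4 ≤ D) (hpN : p + D - 1 ≤ N) (hc : cutN n e p = 2) :
    (lo n e p = 1 → ((D : ℝ) - 2) * (BB n e x p - 2 * x (p + D - 1)) ≤ 3 * J) ∧
    (lo n e p = -1 → ((D : ℝ) - 1) * (BB n e x p - 2 * x (p + D - 1)) ≤ 2 * J) := by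
  have hb := post_bound h p (D - 1) hD (by omega) (by omega) hc
  have hcM : ((D - 1 : ℕ) : ℝ) = (D : ℝ) - 1 := by push_cast [Nat.cast_sub (show 1 ≤ D by omega)]; ring
  rw [hcM, show p + (D - 1) = p + D - 1 by omega] at hb
  exact ⟨fun hl => by have := hb.1 hl; linarith, fun hl => by have := hb.2 hl; linarith⟩

lemma pre2 (p : ℕ) (hD : 4 ≤ D) (hp : p ≤ N) (hMp : D ≤ p) (hc : cutN n e p = 2) :
    (hi n e p = 1 → ((D : ℝ) - 2) * (2 * x (p - D) - TT n e x p) ≤ 3 * J) ∧
    (hi n e p = -1 → ((D : ℝ) - 1) * (2 * x (p - D) - TT n e x p) ≤ 2 * J) := by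
  have hb := pre_bound h p (D - 1) hD (by omega) hp (by omega) hc
  have hcM : ((D - 1 : ℕ) : ℝ) = (D : ℝ) - 1 := by push_cast [Nat.cast_sub (show 1 ≤ D by omega)]; ring
  rw [hcM, show p - (D - 1) - 1 = p - D by omega] at hb
  exact ⟨fun hl => by have := hb.1 hl; linarith, fun hl => by have := hb.2 hl; linarith⟩

/-- long pieces, abstract middle part -/
lemma piece_long (p p' : ℕ) (hD : 4 ≤ D) (hp' : p' ≤ N) (hlen : p + D + 3 ≤ p')
    (hc : cutN n e p = 2) (hc' : cutN n e p' = 2) (Md : ℝ)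
    (hmid : ((D : ℝ) - 2) * (2 * x (p + D - 1) - 2 * x (p' - D)) ≤ J * Md)
    (b1 : 6 + Md ≤ (p' : ℝ) - p - D + 2 + 2 * sg D)
    (b2 : 3 + (2 - 2 / ((D : ℝ) - 1)) + Md ≤ (p' : ℝ) - p - D + 2)
    (b3 : 2 * (2 - 2 / ((D : ℝ) - 1)) + Md ≤ (p' : ℝ) - p - D + 2 - 2 * sg D) :
    ((D : ℝ) - 2) * (BB n e x p - TT n e x p') ≤
      J * ((p' : ℝ) - p - D + 2 + sg D * (lo n e p + hi n e p')) := by
  have hJ := J_nonneg h
  have hDr : (4 : ℝ) ≤ D := by exact_mod_cast hD
  have hpo := post2 h p hD (by omega) hc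
  have hpr := pre2 h p' hD hp' (by omega) hc'
  have hD1 : (D : ℝ) - 1 ≠ 0 := by linarith
  have hfr : ((D : ℝ) - 2) / ((D : ℝ) - 1) * 2 = 2 - 2 / ((D : ℝ) - 1) := by
    field_simp; ring
  have hpo' : lo n e p = -1 → ((D : ℝ) - 2) * (BB n e x p - 2 * x (p + D - 1)) ≤
      J * (2 - 2 / ((D : ℝ) - 1)) := by
    intro hl
    have h1 := hpo.2 hl
    have h2 : 0 ≤ ((D : ℝ) - 2) / ((D : ℝ) - 1) := div_nonneg (by linarith) (by linarith)
    have h3 := mul_le_mul_of_nonneg_left h1 h2
    rw [← hfr]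
    have h4 : ((D : ℝ) - 2) / ((D : ℝ) - 1) * (((D : ℝ) - 1) * (BB n e x p - 2 * x (p + D - 1))) =
        ((D : ℝ) - 2) * (BB n e x p - 2 * x (p + D - 1)) := by
      field_simp
    rw [h4] at h3
    linarith
  have hpr' : hi n e p' = -1 → ((D : ℝ) - 2) * (2 * x (p' - D) - TT n e x p') ≤
      J * (2 - 2 / ((D : ℝ) - 1)) := by
    intro hl
    have h1 := hpr.2 hl
    have h2 : 0 ≤ ((D : ℝ) - 2) / ((D : ℝ) - 1) := div_nonneg (by linarith) (by linarith)
    have h3 := mul_le_mul_of_nonneg_left h1 h2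
    rw [← hfr]
    have h4 : ((D : ℝ) - 2) / ((D : ℝ) - 1) * (((D : ℝ) - 1) * (2 * x (p' - D) - TT n e x p')) =
        ((D : ℝ) - 2) * (2 * x (p' - D) - TT n e x p') := by
      field_simp
    rw [h4] at h3
    linarith
  rcases lo_cases h p hc with ⟨l1, _⟩ | ⟨l1, _⟩
  · rcases hi_cases h p' hc' with ⟨l2, _⟩ | ⟨l2, _⟩
    · have h1 := hpo.1 l1
      have h2 := hpr.1 l2
      rw [l1, l2]
      have := mul_le_mul_of_nonneg_left b1 hJ
      nlinarith
    · have h1 := hpo.1 l1
      have h2 := hpr' l2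
      rw [l1, l2]
      have := mul_le_mul_of_nonneg_left b2 hJ
      nlinarith
  · rcases hi_cases h p' hc' with ⟨l2, _⟩ | ⟨l2, _⟩
    · have h1 := hpo' l1
      have h2 := hpr.1 l2
      rw [l1, l2]
      have := mul_le_mul_of_nonneg_left b2 hJ
      nlinarith
    · have h1 := hpo' l1
      have h2 := hpr' l2
      rw [l1, l2]
      have := mul_le_mul_of_nonneg_left b3 hJ
      nlinarith

/-- medium pieces `m = D + 2`, except for SS when `D = 4` -/
lemma piece_med (p : ℕ) (hD : 4 ≤ D) (heven : D % 2 = 0) (hp' : p + D + 2 ≤ N)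
    (hc : cutN n e p = 2) (hc' : cutN n e (p + D + 2) = 2)
    (hno : D = 4 → ¬ (lo n e p = 1 ∧ hi n e (p + D + 2) = 1)) :
    ((D : ℝ) - 2) * (BB n e x p - TT n e x (p + D + 2)) ≤
      J * (4 + sg D * (lo n e p + hi n e (p + D + 2))) := by
  have hJ := J_nonneg h
  obtain ⟨m, hm⟩ : ∃ m, D = 2 * m := ⟨D / 2, by omega⟩
  have hm2 : 2 ≤ m := by omega
  have hmr : (2 : ℝ) ≤ m := by exact_mod_cast hm2
  have hDm : (D : ℝ) = 2 * m := by exact_mod_cast hm
  have hpo := post_bound h p (m + 1) hD (by omega) (by omega) hc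
  have hpr := pre_bound h (p + D + 2) m hD (by omega) hp' (by omega) hc'
  rw [show p + D + 2 - m - 1 = p + (m + 1) by omega] at hpr
  push_cast at hpo hpr
  rw [hDm] at hpo hpr ⊢
  have hs1 : sg D = if D = 4 then 1 / 2 else 1 / 2 + 1 / (2 * (m : ℝ) - 1) := by
    unfold sg; rw [hDm]
  set y := x (p + (m + 1)) with hy
  set B := BB n e x p with hB
  set T := TT n e x (p + D + 2) with hT
  have ht : 2 * (m : ℝ) + 1 - (m + 1) = m := by ring
  have ht' : 2 * (m : ℝ) + 1 - m = m + 1 := by ring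
  rw [ht] at hpo
  rw [ht'] at hpr
  have hmpos : (0 : ℝ) < m := by linarith
  -- D-type bounds in the common normalisation
  have fS : lo n e p = 1 → (2 * (m : ℝ) - 2) * (B - 2 * y) ≤ J * (2 + 2 / m) := by
    intro hl
    have h1 := hpo.1 hl
    have h2 : (m : ℝ) * ((2 * (m : ℝ) - 2) * (B - 2 * y)) ≤ (m : ℝ) * (J * (2 + 2 / m)) := by
      have : (m : ℝ) * (J * (2 + 2 / m)) = 2 * J * (m + 1) := by field_simp
      rw [this]; exact h1
    exact le_of_mul_le_mul_left h2 hmpos
  have fD : lo n e p = -1 → (2 * (m : ℝ) - 2) * (B - 2 * y) ≤ J * ((m + 2) / (m + 1)) := by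
    intro hl
    have h1 := hpo.2 hl
    have h2 : ((m : ℝ) + 1) * ((2 * (m : ℝ) - 2) * (B - 2 * y)) ≤
        ((m : ℝ) + 1) * (J * ((m + 2) / (m + 1))) := by
      have e1 : ((m : ℝ) + 1) * (J * ((m + 2) / (m + 1))) = J * (m + 2) := by field_simp
      rw [e1]
      have e2 : ((m : ℝ) + 1) * ((2 * (m : ℝ) - 2) * (B - 2 * y)) =
        (m * (2 * m) - 2) * (B - 2 * y) := by ring
      rw [e2]; exact h1
    exact le_of_mul_le_mul_left h2 (by linarith)
  have gS : hi n e (p + D + 2) = 1 → (2 * (m : ℝ) - 2) * (2 * y - T) ≤ J * (2 + 2 / (m + 1)) := by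
    intro hl
    have h1 := hpr.1 hl
    have h2 : ((m : ℝ) + 1) * ((2 * (m : ℝ) - 2) * (2 * y - T)) ≤
        ((m : ℝ) + 1) * (J * (2 + 2 / (m + 1))) := by
      have : ((m : ℝ) + 1) * (J * (2 + 2 / (m + 1))) = 2 * J * (m + 1 + 1) := by field_simp
      rw [this]; exact h1
    exact le_of_mul_le_mul_left h2 (by linarith)
  have gD : hi n e (p + D + 2) = -1 → (2 * (m : ℝ) - 2) * (2 * y - T) ≤
      J * ((2 * m - 2) * (m + 3) / ((m + 1) * (2 * m) - 2)) := by
    intro hl
    have h1 := hpr.2 hl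
    have hpos : (0 : ℝ) < ((m : ℝ) + 1) * (2 * m) - 2 := by nlinarith
    have h2 : (((m : ℝ) + 1) * (2 * m) - 2) * ((2 * (m : ℝ) - 2) * (2 * y - T)) ≤
        (((m : ℝ) + 1) * (2 * m) - 2) * (J * ((2 * m - 2) * (m + 3) / ((m + 1) * (2 * m) - 2))) := by
      have e1 : (((m : ℝ) + 1) * (2 * m) - 2) *
          (J * ((2 * m - 2) * (m + 3) / ((m + 1) * (2 * m) - 2))) =
          (2 * m - 2) * (J * (m + 1 + 2)) := by
        have hne := hpos.ne'
        rw [mul_left_comm, mul_div_cancel₀ _ hne]; ring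
      rw [e1]
      have := mul_le_mul_of_nonneg_left h1 (show (0 : ℝ) ≤ 2 * m - 2 by linarith)
      nlinarith
    exact le_of_mul_le_mul_left h2 hpos
  have hposq : (0 : ℝ) < ((m : ℝ) + 1) * (2 * m) - 2 := by nlinarith
  have hgD' : ((2 * (m : ℝ) - 2) * (m + 3) / ((m + 1) * (2 * m) - 2)) ≤ 2 - 2 / m := by
    rw [div_le_iff₀ hposq]
    have : (2 - 2 / (m : ℝ)) * ((m + 1) * (2 * m) - 2) = (2 * m - 2) * (2 * (m + 1) - 2 / m) := by
      field_simp
    rw [this]
    apply mul_le_mul_of_nonneg_left _ (by linarith)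
    have : 2 / (m : ℝ) ≤ 1 := by rw [div_le_one hmpos]; exact hmr
    linarith
  rcases lo_cases h p hc with ⟨l1, _⟩ | ⟨l1, _⟩
  · rcases hi_cases h (p + D + 2) hc' with ⟨l2, _⟩ | ⟨l2, _⟩
    · have h4 : D ≠ 4 := fun hh => hno hh ⟨l1, l2⟩
      have hm3 : (3 : ℝ) ≤ m := by
        have : 3 ≤ m := by omega
        exact_mod_cast this
      rw [if_neg h4] at hs1
      have h1 := fS l1
      have h2 := gS l2
      rw [l1, l2, hs1]
      have key : 2 + 2 / (m : ℝ) + (2 + 2 / (m + 1)) ≤ 4 + (1 / 2 + 1 / (2 * (m : ℝ) - 1)) * (1 + 1) := by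
        have hm1 : (0 : ℝ) < 2 * m - 1 := by linarith
        have hm4 : (0 : ℝ) < m + 1 := by linarith
        have : 2 / (m : ℝ) + 2 / (m + 1) ≤ 1 + 2 / (2 * (m : ℝ) - 1) := by
          have e1 : 2 / (m : ℝ) + 2 / (m + 1) - 2 / (2 * (m : ℝ) - 1) =
              (2 * (m + 1) * (2 * m - 1) + 2 * m * (2 * m - 1) - 2 * m * (m + 1)) /
                (m * (m + 1) * (2 * m - 1)) := by
            field_simp
          have e2 : 2 / (m : ℝ) + 2 / (m + 1) - 2 / (2 * (m : ℝ) - 1) ≤ 1 := by
            rw [e1, div_le_one (by positivity)]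
            nlinarith [mul_nonneg (show (0 : ℝ) ≤ m - 3 by linarith) (show (0 : ℝ) ≤ m - 3 by linarith),
              mul_nonneg (mul_nonneg (show (0 : ℝ) ≤ m - 3 by linarith) (show (0 : ℝ) ≤ m - 3 by linarith)) (show (0 : ℝ) ≤ m - 3 by linarith)]
          linarith
        have e3 : (1 / 2 + 1 / (2 * (m : ℝ) - 1)) * (1 + 1) = 1 + 2 / (2 * (m : ℝ) - 1) := by
          field_simp; ring
        rw [e3]; linarith
      have := mul_le_mul_of_nonneg_left key hJ
      linarith
    · have h1 := fS l1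
      have h2 := gD l2
      rw [l1, l2]
      have key : 2 + 2 / (m : ℝ) + (2 * m - 2) * (m + 3) / ((m + 1) * (2 * m) - 2) ≤
          4 + sg D * (1 + -1) := by
        have : sg D * (1 + -1) = 0 := by ring
        rw [this]
        linarith
      have := mul_le_mul_of_nonneg_left key hJ
      linarith
  · rcases hi_cases h (p + D + 2) hc' with ⟨l2, _⟩ | ⟨l2, _⟩
    · have h1 := fD l1
      have h2 := gS l2
      rw [l1, l2]
      have key : ((m : ℝ) + 2) / (m + 1) + (2 + 2 / (m + 1)) ≤ 4 + sg D * (-1 + 1) := by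
        have : sg D * (-1 + 1) = 0 := by ring
        rw [this]
        have e1 : ((m : ℝ) + 2) / (m + 1) + 2 / (m + 1) ≤ 2 := by
          rw [← add_div, div_le_iff₀ (by linarith)]
          linarith
        linarith
      have := mul_le_mul_of_nonneg_left key hJ
      linarith
    · have h1 := fD l1
      have h2 := gD l2
      rw [l1, l2]
      have key : ((m : ℝ) + 2) / (m + 1) + (2 * m - 2) * (m + 3) / ((m + 1) * (2 * m) - 2) ≤
          4 + sg D * (-1 + -1) := by
        rw [hs1]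
        have e0 : ((m : ℝ) + 2) / (m + 1) = 1 + 1 / (m + 1) := by field_simp; ring
        rw [e0]
        split_ifs with h4
        · have : (m : ℝ) = 2 := by
            have : m = 2 := by omega
            exact_mod_cast this
          rw [this]; norm_num
        · have hm3 : (3 : ℝ) ≤ m := by
            have : 3 ≤ m := by omega
            exact_mod_cast this
          -- use the sharper bound for the second fraction
          have e1 : (2 * (m : ℝ) - 2) * (m + 3) / ((m + 1) * (2 * m) - 2) ≤ 1 + 1 / (m + 1) := by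
            rw [div_le_iff₀ hposq]
            have : (1 + 1 / ((m : ℝ) + 1)) * ((m + 1) * (2 * m) - 2) =
                (m + 2) * (2 * m) - 2 - 2 / (m + 1) := by field_simp; ring
            rw [this]
            have : 2 / ((m : ℝ) + 1) ≤ 1 := by rw [div_le_one (by linarith)]; linarith
            nlinarith
          have e2 : 1 / ((m : ℝ) + 1) ≤ 1 / 4 := one_div_le_one_div_of_le (by norm_num) (by linarith)
          have e3 : 1 / (2 * (m : ℝ) - 1) ≤ 1 / 5 := one_div_le_one_div_of_le (by norm_num) (by linarith)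
          nlinarith
      have := mul_le_mul_of_nonneg_left key hJ
      linarith

/-- pieces with `m = D + 1` -/
lemma piece_exact (p : ℕ) (hD : 4 ≤ D) (hp1 : 1 ≤ p) (hp' : p + D + 1 ≤ N)
    (hc : cutN n e p = 2) (hc' : cutN n e (p + D + 1) = 2) :
    ((D : ℝ) - 2) * (BB n e x p - TT n e x (p + D + 1)) ≤
      J * (3 + sg D * (lo n e p + hi n e (p + D + 1))) := by
  have hNn := h.hN
  have hJ := J_nonneg h
  have hDr : (4 : ℝ) ≤ D := by exact_mod_cast hD
  have hct := counts h p (p + D + 1) (by omega) hp'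
  rw [hc, hc'] at hct
  have hout := out_pos h p (p + D + 1) hp1 (by omega) hp'
  -- membership helper facts
  have memq : ∀ q, q ∈ Ico p n → upc e p q ≠ 0 →
      (∀ v ∈ Ico p n, v ≠ q → upc e p v = 0) → q ∈ Ico p (p + D + 1) := by
    intro q hq hq0 hoth
    by_contra hcon
    have : ∑ v ∈ Ico p (p + D + 1), upc e p v = 0 := by
      apply Finset.sum_eq_zero
      intro v hv
      apply hoth v _ (fun hh => hcon (hh ▸ hv))
      rw [mem_Ico] at hv ⊢; omega
    omega
  have memr : ∀ q, q ∈ range (p + D + 1) → dnc n e (p + D + 1) q ≠ 0 →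
      (∀ v ∈ range (p + D + 1), v ≠ q → dnc n e (p + D + 1) v = 0) → q ∈ Ico p (p + D + 1) := by
    intro q hq hq0 hoth
    by_contra hcon
    have : ∑ v ∈ Ico p (p + D + 1), dnc n e (p + D + 1) v = 0 := by
      apply Finset.sum_eq_zero
      intro v hv
      apply hoth v _ (fun hh => hcon (hh ▸ hv))
      rw [mem_Ico] at hv; rw [mem_range]; omega
    omega
  have Rres : ∀ v ∈ Ico p (p + D + 1), v ∈ range (p + D + 1) := by
    intro v hv; rw [mem_Ico] at hv; rw [mem_range]; omega
  have Qres : ∀ v ∈ Ico p (p + D + 1), v ∈ Ico p n := by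
    intro v hv; rw [mem_Ico] at hv ⊢; omega
  -- both members of a pair are inside when the sum is 2
  have pairq : ∀ q1 q2, q1 ≠ q2 → upc e p q1 = 1 → upc e p q2 = 1 →
      (∀ v ∈ Ico p n, v ≠ q1 → v ≠ q2 → upc e p v = 0) →
      ∑ v ∈ Ico p (p + D + 1), upc e p v = 2 → q1 ∈ Ico p (p + D + 1) := by
    intro q1 q2 hne h1 h2 h0 hsum
    by_contra hcon
    have : ∑ v ∈ Ico p (p + D + 1), upc e p v ≤ 1 := by
      by_cases hq2 : q2 ∈ Ico p (p + D + 1)
      · have hz : ∑ v ∈ (Ico p (p + D + 1)).erase q2, upc e p v = 0 := by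
          apply Finset.sum_eq_zero
          intro v hv
          rw [mem_erase] at hv
          exact h0 v (Qres v hv.2) (fun hh => hcon (hh ▸ hv.2)) hv.1
        rw [← Finset.add_sum_erase _ _ hq2, h2, hz]
      · rw [Finset.sum_eq_zero]
        · omega
        intro v hv
        exact h0 v (Qres v hv) (fun hh => hcon (hh ▸ hv)) (fun hh => hq2 (hh ▸ hv))
    omega
  have pairr : ∀ q1 q2, q1 ≠ q2 → dnc n e (p + D + 1) q1 = 1 → dnc n e (p + D + 1) q2 = 1 →
      (∀ v ∈ range (p + D + 1), v ≠ q1 → v ≠ q2 → dnc n e (p + D + 1) v = 0) →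
      ∑ v ∈ Ico p (p + D + 1), dnc n e (p + D + 1) v = 2 → q1 ∈ Ico p (p + D + 1) := by
    intro q1 q2 hne h1 h2 h0 hsum
    by_contra hcon
    have : ∑ v ∈ Ico p (p + D + 1), dnc n e (p + D + 1) v ≤ 1 := by
      by_cases hq2 : q2 ∈ Ico p (p + D + 1)
      · have hz : ∑ v ∈ (Ico p (p + D + 1)).erase q2, dnc n e (p + D + 1) v = 0 := by
          apply Finset.sum_eq_zero
          intro v hv
          rw [mem_erase] at hv
          exact h0 v (Rres v hv.2) (fun hh => hcon (hh ▸ hv.2)) hv.1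
        rw [← Finset.add_sum_erase _ _ hq2, h2, hz]
      · rw [Finset.sum_eq_zero]
        · omega
        intro v hv
        exact h0 v (Rres v hv) (fun hh => hcon (hh ▸ hv)) (fun hh => hq2 (hh ▸ hv))
    omega
  -- SS impossible, SD, DS, DD
  rcases lo_cases h p hc with ⟨l1, q, hq, hq2, hq0, hBB⟩ | ⟨l1, q1, hq1, q2, hq2, hne, u1, u2, h0, hBB⟩
  · have hqP := memq q hq (by omega) hq0
    have hsq : 2 ≤ ∑ v ∈ Ico p (p + D + 1), upc e p v := by
      calc 2 = upc e p q := hq2.symm
        _ ≤ _ := Finset.single_le_sum (f := fun v => upc e p v) (fun _ _ => Nat.zero_le _) hqP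
    have hsr : ∑ v ∈ Ico p (p + D + 1), dnc n e (p + D + 1) v = 2 := by omega
    rcases hi_cases h (p + D + 1) hc' with ⟨l2, u, hu, hu2, hu0, hTT⟩ |
      ⟨l2, r1, hr1, r2, hr2, hner, d1, d2, hd0, hTT⟩
    · -- SS impossible
      exfalso
      have huP := memr u hu (by omega) hu0
      by_cases hqu : q = u
      · subst hqu
        have hT : ({q} : Finset ℕ) ⊆ Ico p (p + D + 1) := by
          intro k hk; rw [mem_singleton] at hk; rw [hk]; exact hqP
        have hfull := full_of_special h p hp' {q} hT (fun v hv hvq => by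
          rw [mem_singleton] at hvq
          exact ⟨hq0 v (Qres v hv) hvq, hu0 v (Rres v hv) hvq⟩)
        have hrow := row_special h p (p + D + 1) q (by omega) hp' {q} hT (by simp) hfull
        rw [hq2, hu2, Finset.card_sdiff_of_subset hT, Nat.card_Ico, Finset.card_singleton] at hrow
        omega
      · have hT : ({q, u} : Finset ℕ) ⊆ Ico p (p + D + 1) := by
          intro k hk
          rw [mem_insert, mem_singleton] at hk
          rcases hk with hk | hk <;> rw [hk] <;> assumption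
        have hfull := full_of_special h p hp' {q, u} hT (fun v hv hvq => by
          rw [mem_insert, mem_singleton] at hvq
          push Not at hvq
          exact ⟨hq0 v (Qres v hv) hvq.1, hu0 v (Rres v hv) hvq.2⟩)
        have hrow := row_special h p (p + D + 1) q (by omega) hp' {q, u} hT (by simp) hfull
        rw [hq2, hu0 q (Rres q hqP) hqu, Finset.card_sdiff_of_subset hT, Nat.card_Ico,
          Finset.card_pair hqu] at hrow
        omega
    · have hr1P := pairr r1 r2 hner d1 d2 hd0 hsr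
      have hr2P := pairr r2 r1 hner.symm d2 d1 (fun v hv a b => hd0 v hv b a) hsr
      have := exact_SD h p q r1 r2 (by omega) hp' hqP hr1P hr2P hner hq2 d1 d2
        (fun v hv hvq => hq0 v (Qres v hv) hvq) (fun v hv a b => hd0 v (Rres v hv) a b)
      rw [l1, l2, hBB, hTT]
      linarith
  · rcases hi_cases h (p + D + 1) hc' with ⟨l2, u, hu, hu2, hu0, hTT⟩ |
      ⟨l2, r1, hr1, r2, hr2, hner, d1, d2, hd0, hTT⟩
    · have huP := memr u hu (by omega) hu0
      have hsq : 2 ≤ ∑ v ∈ Ico p (p + D + 1), dnc n e (p + D + 1) v := by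
        calc 2 = dnc n e (p + D + 1) u := hu2.symm
          _ ≤ _ := Finset.single_le_sum (f := fun v => dnc n e (p + D + 1) v)
            (fun _ _ => Nat.zero_le _) huP
      have hsr : ∑ v ∈ Ico p (p + D + 1), upc e p v = 2 := by omega
      have hq1P := pairq q1 q2 hne u1 u2 h0 hsr
      have hq2P := pairq q2 q1 hne.symm u2 u1 (fun v hv a b => h0 v hv b a) hsr
      have := exact_DS h p u q1 q2 (by omega) hp' huP hq1P hq2P hne hu2 u1 u2
        (fun v hv hvq => hu0 v (Rres v hv) hvq) (fun v hv a b => h0 v (Qres v hv) a b)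
      rw [l1, l2, hBB, hTT]
      linarith
    · -- DD
      have key : ((D : ℝ) - 1) * (BB n e x p - TT n e x (p + D + 1)) ≤ 2 * J := by
        by_cases hs2 : ∑ v ∈ Ico p (p + D + 1), upc e p v = 2
        · have hsr : ∑ v ∈ Ico p (p + D + 1), dnc n e (p + D + 1) v = 2 := by omega
          have hq1P := pairq q1 q2 hne u1 u2 h0 hs2
          have hq2P := pairq q2 q1 hne.symm u2 u1 (fun v hv a b => h0 v hv b a) hs2
          have hr1P := pairr r1 r2 hner d1 d2 hd0 hsr
          have hr2P := pairr r2 r1 hner.symm d2 d1 (fun v hv a b => hd0 v hv b a) hsr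
          have := exact_DD h p q1 q2 r1 r2 (by omega) hp' hq1P hq2P hr1P hr2P hne hner u1 u2 d1 d2
            (fun v hv a b => h0 v (Qres v hv) a b) (fun v hv a b => hd0 v (Rres v hv) a b)
          rw [hBB, hTT, show x q1 + x q2 - (x r1 + x r2) = x q1 + x q2 - x r1 - x r2 by ring]
          exact this
        · have hs1 : ∑ v ∈ Ico p (p + D + 1), upc e p v = 1 := by omega
          have hs1' : ∑ v ∈ Ico p (p + D + 1), dnc n e (p + D + 1) v = 1 := by omega
          obtain ⟨q, hq, hqu, hqo⟩ := sum_eq_one_cases _ _ hs1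
          obtain ⟨r, hr, hrd, hro⟩ := sum_eq_one_cases _ _ hs1'
          have hex := exact_one h p q r (by omega) hp' hq hr hqu hrd hqo hro
          -- BB ≤ x q + x p', TT ≥ x r + x (p - 1)
          have hB : BB n e x p ≤ x q + x (p + D + 1) := by
            rw [hBB]
            have hcase : ∀ a b, a ≠ b → a ∈ Ico p n → b ∈ Ico p n → upc e p a = 1 →
                upc e p b = 1 → q = a → x a + x b ≤ x q + x (p + D + 1) := by
              intro a b hab ha hb ua ub hqa
              rw [hqa]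
              have : p + D + 1 ≤ b := by
                by_contra hcon
                rw [mem_Ico] at hb
                have hbP : b ∈ Ico p (p + D + 1) := by rw [mem_Ico]; omega
                have := hqo b hbP (by rw [hqa]; exact hab.symm)
                omega
              have := h.anti this
              linarith
            by_cases c1 : q = q1
            · exact hcase q1 q2 hne hq1 hq2 u1 u2 c1
            · by_cases c2 : q = q2
              · have := hcase q2 q1 hne.symm hq2 hq1 u2 u1 c2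
                linarith
              · have := h0 q (Qres q hq) c1 c2
                omega
          have hT : x r + x (p - 1) ≤ TT n e x (p + D + 1) := by
            rw [hTT]
            have hcase : ∀ a b, a ≠ b → a ∈ range (p + D + 1) → b ∈ range (p + D + 1) →
                dnc n e (p + D + 1) a = 1 →
                dnc n e (p + D + 1) b = 1 → r = a → x r + x (p - 1) ≤ x a + x b := by
              intro a b hab ha hb ua ub hqa
              rw [hqa]
              have : b ≤ p - 1 := by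
                by_contra hcon
                rw [mem_range] at hb
                have hbP : b ∈ Ico p (p + D + 1) := by rw [mem_Ico]; omega
                have := hro b hbP (by rw [hqa]; exact hab.symm)
                omega
              have := h.anti this
              linarith
            by_cases c1 : r = r1
            · exact hcase r1 r2 hner hr1 hr2 d1 d2 c1
            · by_cases c2 : r = r2
              · have := hcase r2 r1 hner.symm hr2 hr1 d2 d1 c2
                linarith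
              · have := hd0 r (Rres r hr) c1 c2
                omega
          have hpx := h.anti (show p - 1 ≤ p + D + 1 by omega)
          have h5 : BB n e x p - TT n e x (p + D + 1) ≤ x q - x r := by linarith
          have h6 := mul_le_mul_of_nonneg_left h5 (show (0 : ℝ) ≤ (D : ℝ) - 1 by linarith)
          linarith
      rw [l1, l2]
      have h2 : 0 ≤ ((D : ℝ) - 2) / ((D : ℝ) - 1) := div_nonneg (by linarith) (by linarith)
      have h3 := mul_le_mul_of_nonneg_left key h2
      have h4 : ((D : ℝ) - 2) / ((D : ℝ) - 1) * (((D : ℝ) - 1) * (BB n e x p - TT n e x (p + D + 1))) =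
          ((D : ℝ) - 2) * (BB n e x p - TT n e x (p + D + 1)) := by
        have : (D : ℝ) - 1 ≠ 0 := by linarith
        field_simp
      rw [h4] at h3
      refine h3.trans ?_
      have hfr : ((D : ℝ) - 2) / ((D : ℝ) - 1) * 2 = 2 - 2 / ((D : ℝ) - 1) := by
        have : (D : ℝ) - 1 ≠ 0 := by linarith
        field_simp; ring
      have h7 : ((D : ℝ) - 2) / ((D : ℝ) - 1) * (2 * J) = J * (2 - 2 / ((D : ℝ) - 1)) := by
        rw [← hfr]; ring
      rw [h7]
      apply mul_le_mul_of_nonneg_left _ hJ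
      unfold sg
      have hpos : 0 ≤ 1 / ((D : ℝ) - 1) := by
        apply div_nonneg <;> linarith
      split_ifs with h4'
      · have : 2 / ((D : ℝ) - 1) = 2 * (1 / ((D : ℝ) - 1)) := by ring
        rw [this]; linarith
      · have : 2 / ((D : ℝ) - 1) = 2 * (1 / ((D : ℝ) - 1)) := by ring
        rw [this]; linarith

end evenpiece

end Pool.Agent.Helper951.Lg
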