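import Pool.Agent.Helper951.LgJ

set_option autoImplicit false
set_option linter.unusedSectionVars false

open Finset

namespace Pool.Agent.Helper951.Lg

section evenchain
variable {D n N : ℕ} {e : ℕ → ℕ → ℕ} {x : ℕ → ℝ} {J : ℝ} (h : OG D n N e x J)
include h

lemma gap4 (a : ℕ) (ha : 1 ≤ a) : ∀ d, a + d ≤ N → (∀ t, a ≤ t → t ≤ a + d → 4 ≤ cutN n e t) →
    4 * (x (a - 1) - x (a + d)) ≤ J * ((d : ℝ) + 1) := by
  intro d
  induction d with
  | zero =>
    intro hN hc
    have hg := gap_le h a ha (by omega)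
    have hg0 := gap_nonneg h a
    have h4 : (4 : ℝ) ≤ (cutN n e a : ℝ) := by exact_mod_cast hc a le_rfl (by omega)
    have := mul_le_mul_of_nonneg_right h4 hg0
    simp only [Nat.add_zero, Nat.cast_zero]
    linarith
  | succ d ih =>
    intro hN hc
    have h1 := ih (by omega) (fun t h1 h2 => hc t h1 (by omega))
    have hg := gap_le h (a + d + 1) (by omega) (by omega)
    have hg0 := gap_nonneg h (a + d + 1)
    have h4 : (4 : ℝ) ≤ (cutN n e (a + d + 1) : ℝ) := by
      exact_mod_cast hc (a + d + 1) (by omega) (by omega)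
    have := mul_le_mul_of_nonneg_right h4 hg0
    rw [show a + d + 1 - 1 = a + d by omega] at *
    rw [show a + (d + 1) = a + d + 1 by omega]
    push_cast
    linarith

/-- support of `BB` -/
lemma BB_restrict (p p' : ℕ) (hpp : p ≤ p') (hp' : p' ≤ N)
    (hz : ∑ i ∈ range p, ∑ k ∈ Ico p' n, e i k = 0) :
    BB n e x p = ∑ v ∈ Ico p p', (upc e p v : ℝ) * x v := by
  have hNn := h.hN
  unfold BB
  rw [sum_Ico_split (fun v => (upc e p v : ℝ) * x v) hpp (show p' ≤ n by omega)]
  have : ∑ v ∈ Ico p' n, (upc e p v : ℝ) * x v = 0 := by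
    apply Finset.sum_eq_zero
    intro v hv
    have hv0 : upc e p v = 0 := by
      unfold upc
      apply Finset.sum_eq_zero
      intro i hi
      have h1 := (Finset.sum_eq_zero_iff.1 hz) i hi
      exact (Finset.sum_eq_zero_iff.1 h1) v hv
    rw [hv0]; simp
  rw [this, add_zero]

lemma TT_restrict (p p' : ℕ) (hpp : p ≤ p') (hp' : p' ≤ N)
    (hz : ∑ i ∈ range p, ∑ k ∈ Ico p' n, e i k = 0) :
    TT n e x p' = ∑ v ∈ Ico p p', (dnc n e p' v : ℝ) * x v := by
  unfold TT
  rw [sum_split (fun v => (dnc n e p' v : ℝ) * x v) hpp]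
  have : ∑ v ∈ range p, (dnc n e p' v : ℝ) * x v = 0 := by
    apply Finset.sum_eq_zero
    intro v hv
    have hv0 : dnc n e p' v = 0 := (Finset.sum_eq_zero_iff.1 hz) v hv
    rw [hv0]; simp
  rw [this, zero_add]

lemma upc_zero_above (p p' v : ℕ) 
    (hz : ∑ i ∈ range p, ∑ k ∈ Ico p' n, e i k = 0) (hv : v ∈ Ico p' n) : upc e p v = 0 := by
  unfold upc
  apply Finset.sum_eq_zero
  intro i hi
  have h1 := (Finset.sum_eq_zero_iff.1 hz) i hi
  exact (Finset.sum_eq_zero_iff.1 h1) v hv

lemma inner_le (p m v : ℕ) (hv : v ∈ Ico p (p + m)) : ∑ w ∈ Ico p (p + m), e v w + 1 ≤ m := by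
  rw [← Finset.add_sum_erase _ _ hv, h.irr, zero_add]
  have := Finset.sum_le_card_nsmul ((Ico p (p + m)).erase v) (fun k => e v k) 1
    (fun k _ => h.le1 v k)
  rw [Finset.card_erase_of_mem hv, Nat.card_Ico] at this
  simp only [smul_eq_mul, mul_one] at this
  rw [mem_Ico] at hv
  omega

/-- `D = 4`, pieces of length 4 -/
lemma piece4 (hD : D = 4) (p : ℕ) (hp' : p + 4 ≤ N)
    (hc : cutN n e p = 2) (hc' : cutN n e (p + 4) = 2) :
    lo n e p = -1 ∧ hi n e (p + 4) = -1 ∧ 2 * (BB n e x p - TT n e x (p + 4)) ≤ J := by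
  have hNn := h.hN
  have hct := counts h p (p + 4) (by omega) hp'
  rw [hc, hc'] at hct
  have hrow : ∀ v ∈ Ico p (p + 4), ∑ w ∈ Ico p (p + 4), e v w + upc e p v + dnc n e (p + 4) v = 4 := by
    intro v hv
    have := row h p (p + 4) v (by omega) hp' hv
    omega
  have hge : ∀ v ∈ Ico p (p + 4), 1 ≤ upc e p v + dnc n e (p + 4) v := by
    intro v hv
    have h1 := hrow v hv
    have h2 := inner_le h p 4 v hv
    omega
  have hsum : ∑ v ∈ Ico p (p + 4), (upc e p v + dnc n e (p + 4) v) = 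
      ∑ v ∈ Ico p (p + 4), upc e p v + ∑ v ∈ Ico p (p + 4), dnc n e (p + 4) v :=
    Finset.sum_add_distrib
  have h4 : 4 ≤ ∑ v ∈ Ico p (p + 4), (upc e p v + dnc n e (p + 4) v) := by
    have := Finset.card_nsmul_le_sum (Ico p (p + 4)) (fun v => upc e p v + dnc n e (p + 4) v) 1 hge
    rw [Nat.card_Ico] at this
    simp only [smul_eq_mul, mul_one] at this
    omega
  have hz : ∑ i ∈ range p, ∑ k ∈ Ico (p + 4) n, e i k = 0 := by omega
  have hu2 : ∑ v ∈ Ico p (p + 4), upc e p v = 2 := by omega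
  have hd2 : ∑ v ∈ Ico p (p + 4), dnc n e (p + 4) v = 2 := by omega
  have heq : ∀ v ∈ Ico p (p + 4), upc e p v + dnc n e (p + 4) v = 1 := by
    intro v hv
    by_contra hne
    have h2 : 2 ≤ upc e p v + dnc n e (p + 4) v := by have := hge v hv; omega
    have h5 : 5 ≤ ∑ v ∈ Ico p (p + 4), (upc e p v + dnc n e (p + 4) v) := by
      rw [← Finset.add_sum_erase _ _ hv]
      have := Finset.card_nsmul_le_sum ((Ico p (p + 4)).erase v)
        (fun v => upc e p v + dnc n e (p + 4) v) 1 (fun w hw => hge w (Finset.mem_of_mem_erase hw))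
      rw [Finset.card_erase_of_mem hv, Nat.card_Ico] at this
      simp only [smul_eq_mul, mul_one] at this
      omega
    omega
  have hadj : ∀ v ∈ Ico p (p + 4), ∀ w ∈ Ico p (p + 4), v ≠ w → e v w = 1 := by
    intro v hv w hw hvw
    have h1 := hrow v hv
    have h2 := heq v hv
    by_contra hne
    have h3 : e v w = 0 := by have := h.le1 v w; omega
    have hm : w ∈ (Ico p (p + 4)).erase v := mem_erase.2 ⟨hvw.symm, hw⟩
    rw [← Finset.add_sum_erase _ _ hv, h.irr, zero_add, ← Finset.add_sum_erase _ _ hm, h3, zero_add] at h1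
    have := Finset.sum_le_card_nsmul (((Ico p (p + 4)).erase v).erase w) (fun k => e v k) 1
      (fun k _ => h.le1 v k)
    rw [Finset.card_erase_of_mem hm, Finset.card_erase_of_mem hv, Nat.card_Ico] at this
    simp only [smul_eq_mul, mul_one] at this
    omega
  refine ⟨?_, ?_, ?_⟩
  · unfold lo
    rw [if_neg]
    rintro ⟨q, hq, hq2⟩
    by_cases hqP : q ∈ Ico p (p + 4)
    · have := heq q hqP; omega
    · have := upc_zero_above h p (p + 4) q hz (by rw [mem_Ico] at hq hqP ⊢; omega)
      omega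
  · unfold hi
    rw [if_neg]
    rintro ⟨q, hq, hq2⟩
    by_cases hqP : q ∈ Ico p (p + 4)
    · have := heq q hqP; omega
    · have : dnc n e (p + 4) q = 0 :=
        (Finset.sum_eq_zero_iff.1 hz) q (by rw [mem_Ico] at hqP; rw [mem_range] at hq ⊢; omega)
      omega
  · rw [BB_restrict h p (p + 4) (by omega) hp' hz, TT_restrict h p (p + 4) (by omega) hp' hz]
    set Q := (Ico p (p + 4)).filter (fun v => upc e p v = 1) with hQ
    have hQs : Q ⊆ Ico p (p + 4) := Finset.filter_subset _ _
    have e1 : ∑ v ∈ Ico p (p + 4), (upc e p v : ℝ) * x v = ∑ v ∈ Q, x v := by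
      rw [hQ, Finset.sum_filter]
      apply Finset.sum_congr rfl
      intro v hv
      split_ifs with h1
      · rw [h1]; simp
      · have := heq v hv
        have : upc e p v = 0 := by omega
        rw [this]; simp
    have hR : ∀ v ∈ Ico p (p + 4) \ Q, upc e p v = 0 ∧ dnc n e (p + 4) v = 1 := by
      intro v hv
      rw [mem_sdiff, hQ, mem_filter] at hv
      have h1 := heq v hv.1
      have h2 : upc e p v ≠ 1 := fun hh => hv.2 ⟨hv.1, hh⟩
      omega
    have e2 : ∑ v ∈ Ico p (p + 4), (dnc n e (p + 4) v : ℝ) * x v = ∑ v ∈ Ico p (p + 4) \ Q, x v := by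
      rw [← Finset.sum_sdiff hQs]
      have : ∑ v ∈ Q, (dnc n e (p + 4) v : ℝ) * x v = 0 := by
        apply Finset.sum_eq_zero
        intro v hv
        rw [hQ, mem_filter] at hv
        have := heq v hv.1
        have : dnc n e (p + 4) v = 0 := by omega
        rw [this]; simp
      rw [this, add_zero]
      apply Finset.sum_congr rfl
      intro v hv
      rw [(hR v hv).2]; simp
    have hcard : Q.card = 2 := by
      have : Q.card = ∑ v ∈ Ico p (p + 4), upc e p v := by
        rw [Finset.card_eq_sum_ones, hQ, Finset.sum_filter]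
        apply Finset.sum_congr rfl
        intro v hv
        have := heq v hv
        split_ifs with h1 <;> omega
      omega
    have hcard' : (Ico p (p + 4) \ Q).card = 2 := by
      rw [Finset.card_sdiff_of_subset hQs, hcard, Nat.card_Ico]; omega
    have hen := in_entries h p (p + 4) (by omega) hp' Q hQs
    rw [e1, e2]
    have e3 : ∑ q ∈ Q, ∑ k ∈ Ico p (p + 4) \ Q, (e q k : ℝ) * (x q - x k) =
        2 * (∑ v ∈ Q, x v) - 2 * ∑ v ∈ Ico p (p + 4) \ Q, x v := by
      have : ∀ q ∈ Q, ∑ k ∈ Ico p (p + 4) \ Q, (e q k : ℝ) * (x q - x k) =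
          2 * x q - ∑ v ∈ Ico p (p + 4) \ Q, x v := by
        intro q hq
        have h1 : ∑ k ∈ Ico p (p + 4) \ Q, (e q k : ℝ) * (x q - x k) =
            ∑ k ∈ Ico p (p + 4) \ Q, (x q - x k) := by
          apply Finset.sum_congr rfl
          intro k hk
          rw [mem_sdiff] at hk
          rw [hadj q (hQs hq) k hk.1 (fun hh => hk.2 (hh ▸ hq))]
          push_cast; ring
        rw [h1, Finset.sum_sub_distrib, Finset.sum_const, hcard', nsmul_eq_mul]
        norm_num
      rw [Finset.sum_congr rfl this, Finset.sum_sub_distrib, Finset.sum_const, hcard, ← Finset.mul_sum,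
        nsmul_eq_mul]
      norm_num
    rw [e3] at hen
    linarith

end evenchain

end Pool.Agent.Helper951.Lg
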