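import Pool.Agent.Helper951.LgK

set_option autoImplicit false
set_option linter.unusedSectionVars false

open Finset

namespace Pool.Agent.Helper951.Lg

section six
variable {D n N : ℕ} {e : ℕ → ℕ → ℕ} {x : ℕ → ℝ} {J : ℝ} (h : OG D n N e x J)
include h

/-- `D = 4`, pieces of length 6 with both sides single -/
lemma piece6 (hD : D = 4) (p q r : ℕ) (hp1 : 1 ≤ p) (hp' : p + 6 ≤ N)
    (hc : cutN n e p = 2) (hc' : cutN n e (p + 6) = 2)
    (hq : q ∈ Ico p n) (hq2 : upc e p q = 2) (hq0 : ∀ v ∈ Ico p n, v ≠ q → upc e p v = 0)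
    (hr : r ∈ range (p + 6)) (hr2 : dnc n e (p + 6) r = 2)
    (hr0 : ∀ v ∈ range (p + 6), v ≠ r → dnc n e (p + 6) v = 0) :
    2 * (2 * x q - 2 * x r) ≤ 5 * J := by
  have hNn := h.hN
  have hJ := J_nonneg h
  have hct := counts h p (p + 6) (by omega) hp'
  rw [hc, hc'] at hct
  have hout := out_pos h p (p + 6) hp1 (by omega) hp'
  have hqP : q ∈ Ico p (p + 6) := by
    by_contra hcon
    have h1 : ∑ v ∈ Ico p (p + 6), upc e p v = 0 := by
      apply Finset.sum_eq_zero
      intro v hv
      apply hq0 v _ (fun hh => hcon (hh ▸ hv))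
      rw [mem_Ico] at hv ⊢; omega
    omega
  have hrP : r ∈ Ico p (p + 6) := by
    by_contra hcon
    have h1 : ∑ v ∈ Ico p (p + 6), dnc n e (p + 6) v = 0 := by
      apply Finset.sum_eq_zero
      intro v hv
      apply hr0 v _ (fun hh => hcon (hh ▸ hv))
      rw [mem_Ico] at hv; rw [mem_range]; omega
    omega
  by_cases hqr : q = r
  · rw [hqr]; linarith
  have hu0 : ∀ v ∈ Ico p (p + 6), v ≠ q → upc e p v = 0 := by
    intro v hv hvq
    apply hq0 v _ hvq
    rw [mem_Ico] at hv ⊢; omega
  have hd0 : ∀ v ∈ Ico p (p + 6), v ≠ r → dnc n e (p + 6) v = 0 := by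
    intro v hv hvq
    apply hr0 v _ hvq
    rw [mem_Ico] at hv; rw [mem_range]; omega
  have hrow : ∀ v ∈ Ico p (p + 6), ∑ w ∈ Ico p (p + 6), e v w + upc e p v + dnc n e (p + 6) v = 4 := by
    intro v hv
    have := row h p (p + 6) v (by omega) hp' hv
    omega
  set T : Finset ℕ := {q, r} with hT
  have hTs : T ⊆ Ico p (p + 6) := by
    intro k hk
    rw [hT, mem_insert, mem_singleton] at hk
    rcases hk with hk | hk <;> rw [hk] <;> assumption
  set W := Ico p (p + 6) \ T with hW
  have hWc : W.card = 4 := by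
    rw [hW, Finset.card_sdiff_of_subset hTs, Nat.card_Ico, hT, Finset.card_pair hqr]; omega
  have hWm : ∀ w ∈ W, w ∈ Ico p (p + 6) ∧ w ≠ q ∧ w ≠ r := by
    intro w hw
    rw [hW, mem_sdiff, hT, mem_insert, mem_singleton] at hw
    push Not at hw
    exact hw
  -- splitting a sum over the piece
  have hsp : ∀ v, ∑ w ∈ Ico p (p + 6), e v w = ∑ w ∈ W, e v w + (e v q + e v r) := by
    intro v
    rw [← Finset.sum_sdiff hTs, ← hW, hT, Finset.sum_pair hqr]
  have hqrow : ∑ w ∈ W, e q w + e q r = 2 := by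
    have h1 := hrow q hqP
    rw [hsp, h.irr, hq2, hd0 q hqP hqr] at h1
    omega
  have hrrow : ∑ w ∈ W, e r w + e r q = 2 := by
    have h1 := hrow r hrP
    rw [hsp, h.irr, hr2, hu0 r hrP (Ne.symm hqr)] at h1
    omega
  have hWin : ∀ w ∈ W, ∑ v ∈ W, e w v + 1 ≤ 4 := by
    intro w hw
    rw [← Finset.add_sum_erase _ _ hw, h.irr, zero_add]
    have := Finset.sum_le_card_nsmul (W.erase w) (fun k => e w k) 1
      (fun k _ => h.le1 w k)
    rw [Finset.card_erase_of_mem hw, hWc] at this
    simp only [smul_eq_mul, mul_one] at this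
    omega
  have hwrow : ∀ w ∈ W, ∑ v ∈ W, e w v + (e q w + e r w) = 4 := by
    intro w hw
    obtain ⟨h1, h2, h3⟩ := hWm w hw
    have h4 := hrow w h1
    rw [hsp, hu0 w h1 h2, hd0 w h1 h3, h.symm w q, h.symm w r] at h4
    omega
  have hge : ∀ w ∈ W, 1 ≤ e q w + e r w := by
    intro w hw
    have := hwrow w hw
    have := hWin w hw
    omega
  have hsum : ∑ w ∈ W, (e q w + e r w) = ∑ w ∈ W, e q w + ∑ w ∈ W, e r w := Finset.sum_add_distrib
  have h4 : 4 ≤ ∑ w ∈ W, (e q w + e r w) := by
    have := Finset.card_nsmul_le_sum W (fun w => e q w + e r w) 1 hge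
    rw [hWc] at this
    simp only [smul_eq_mul, mul_one] at this
    omega
  have heqr : e q r = 0 := by
    have := h.symm q r
    omega
  have heq : ∀ w ∈ W, e q w + e r w = 1 := by
    intro v hv
    by_contra hne
    have h2 : 2 ≤ e q v + e r v := by have := hge v hv; omega
    have h5 : 5 ≤ ∑ w ∈ W, (e q w + e r w) := by
      rw [← Finset.add_sum_erase _ _ hv]
      have := Finset.card_nsmul_le_sum (W.erase v) (fun w => e q w + e r w) 1
        (fun w hw => hge w (Finset.mem_of_mem_erase hw))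
      rw [Finset.card_erase_of_mem hv, hWc] at this
      simp only [smul_eq_mul, mul_one] at this
      omega
    have := h.symm q r
    omega
  have hadj : ∀ v ∈ W, ∀ w ∈ W, v ≠ w → e v w = 1 := by
    intro v hv w hw hvw
    have h1 := hwrow v hv
    have h2 := heq v hv
    by_contra hne
    have h3 : e v w = 0 := by have := h.le1 v w; omega
    have hm : w ∈ W.erase v := mem_erase.2 ⟨hvw.symm, hw⟩
    rw [← Finset.add_sum_erase _ _ hv, h.irr, zero_add, ← Finset.add_sum_erase _ _ hm, h3, zero_add] at h1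
    have := Finset.sum_le_card_nsmul ((W.erase v).erase w) (fun k => e v k) 1
      (fun k _ => h.le1 v k)
    rw [Finset.card_erase_of_mem hm, Finset.card_erase_of_mem hv, hWc] at this
    simp only [smul_eq_mul, mul_one] at this
    omega
  set A := W.filter (fun w => e q w = 1) with hA
  set B := W \ A with hB
  have hAs : A ⊆ W := Finset.filter_subset _ _
  have hAm : ∀ w ∈ A, e q w = 1 ∧ e r w = 0 := by
    intro w hw
    have h1 := heq w (hAs hw)
    rw [hA, mem_filter] at hw
    omega
  have hBm : ∀ w ∈ B, e q w = 0 ∧ e r w = 1 := by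
    intro w hw
    rw [hB, mem_sdiff, hA, mem_filter] at hw
    have h1 := heq w hw.1
    have h2 : e q w ≠ 1 := fun hh => hw.2 ⟨hw.1, hh⟩
    omega
  have hqW : ∑ w ∈ W, e q w = 2 := by omega
  have hAc : A.card = 2 := by
    have : A.card = ∑ w ∈ W, e q w := by
      rw [Finset.card_eq_sum_ones, hA, Finset.sum_filter]
      apply Finset.sum_congr rfl
      intro v hv
      have := heq v hv
      split_ifs with h1 <;> omega
    omega
  have hBc : B.card = 2 := by
    rw [hB, Finset.card_sdiff_of_subset hAs, hWc, hAc]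
  have hWs : W ⊆ Ico p (p + 6) := Finset.sdiff_subset
  -- the three flows
  have hqW' : q ∉ W := fun hh => (hWm q hh).2.1 rfl
  have hrW' : r ∉ W := fun hh => (hWm r hh).2.2 rfl
  have F1 := in_entries h p (p + 6) (by omega) hp' {q} (by
    intro k hk; rw [mem_singleton] at hk; rw [hk]; exact hqP)
  have F3 := in_exits h p (p + 6) hp' {r} (by
    intro k hk; rw [mem_singleton] at hk; rw [hk]; exact hrP)
  have F2 := in_entries h p (p + 6) (by omega) hp' (insert q A) (by
    intro k hk
    rw [mem_insert] at hk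
    rcases hk with hk | hk
    · rw [hk]; exact hqP
    · exact hWs (hAs hk))
  have s1 : Ico p (p + 6) \ {q} = insert r W := by
    ext k
    rw [hW, hT]
    simp only [mem_sdiff, mem_insert, mem_singleton]
    constructor
    · rintro ⟨a, b⟩
      by_cases hk : k = r
      · left; exact hk
      · right; exact ⟨a, by tauto⟩
    · rintro (a | ⟨a, b⟩)
      · rw [a]; exact ⟨hrP, fun hh => hqr hh.symm⟩
      · exact ⟨a, fun hh => b (Or.inl hh)⟩
  have s3 : Ico p (p + 6) \ {r} = insert q W := by
    ext k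
    rw [hW, hT]
    simp only [mem_sdiff, mem_insert, mem_singleton]
    constructor
    · rintro ⟨a, b⟩
      by_cases hk : k = q
      · left; exact hk
      · right; exact ⟨a, by tauto⟩
    · rintro (a | ⟨a, b⟩)
      · rw [a]; exact ⟨hqP, fun hh => hqr hh⟩
      · exact ⟨a, fun hh => b (Or.inr hh)⟩
  have s2 : Ico p (p + 6) \ (insert q A) = insert r B := by
    ext k
    rw [hB]
    simp only [mem_sdiff, mem_insert]
    constructor
    · rintro ⟨a, b⟩
      by_cases hk : k = r
      · left; exact hk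
      · right
        refine ⟨?_, by tauto⟩
        rw [hW, hT]
        simp only [mem_sdiff, mem_insert, mem_singleton]
        exact ⟨a, by tauto⟩
    · rintro (a | ⟨a, b⟩)
      · rw [a]
        refine ⟨hrP, ?_⟩
        rintro (hh | hh)
        · exact hqr hh.symm
        · exact hrW' (hAs hh)
      · refine ⟨hWs a, ?_⟩
        rintro (hh | hh)
        · rw [hh] at a; exact hqW' a
        · exact b hh
  have hrB : r ∉ B := fun hh => hrW' (Finset.sdiff_subset hh)
  have hqA : q ∉ A := fun hh => hqW' (hAs hh)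
  rw [Finset.sum_singleton, s1, Finset.sum_insert hrW', heqr] at F1
  rw [Finset.sum_singleton, s3, Finset.sum_insert hqW', h.symm r q, heqr] at F3
  have g1 : ∑ k ∈ W, (e q k : ℝ) * (x q - x k) = 2 * x q - ∑ k ∈ A, x k := by
    rw [← Finset.sum_sdiff hAs, ← hB]
    have z : ∑ k ∈ B, (e q k : ℝ) * (x q - x k) = 0 := by
      apply Finset.sum_eq_zero
      intro k hk
      rw [(hBm k hk).1]; simp
    rw [z, zero_add]
    have : ∑ k ∈ A, (e q k : ℝ) * (x q - x k) = ∑ k ∈ A, (x q - x k) := by
      apply Finset.sum_congr rfl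
      intro k hk
      rw [(hAm k hk).1]; simp
    rw [this, Finset.sum_sub_distrib, Finset.sum_const, hAc, nsmul_eq_mul]
    norm_num
  have g3 : ∑ k ∈ W, (e r k : ℝ) * (x k - x r) = ∑ k ∈ B, x k - 2 * x r := by
    rw [← Finset.sum_sdiff hAs, ← hB]
    have z : ∑ k ∈ A, (e r k : ℝ) * (x k - x r) = 0 := by
      apply Finset.sum_eq_zero
      intro k hk
      rw [(hAm k hk).2]; simp
    rw [z, add_zero]
    have : ∑ k ∈ B, (e r k : ℝ) * (x k - x r) = ∑ k ∈ B, (x k - x r) := by
      apply Finset.sum_congr rfl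
      intro k hk
      rw [(hBm k hk).2]; simp
    rw [this, Finset.sum_sub_distrib, Finset.sum_const, hBc, nsmul_eq_mul]
    norm_num
  rw [g1] at F1
  rw [g3] at F3
  have g2 : 2 * ∑ k ∈ A, x k - 2 * ∑ k ∈ B, x k ≤ J := by
    refine le_trans (le_of_eq ?_) F2
    rw [s2, Finset.sum_insert hqA]
    have z1 : ∑ k ∈ insert r B, (e q k : ℝ) * (x q - x k) = 0 := by
      apply Finset.sum_eq_zero
      intro k hk
      rw [mem_insert] at hk
      rcases hk with hk | hk
      · rw [hk, heqr]; simp
      · rw [(hBm k hk).1]; simp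
    rw [z1, zero_add]
    have : ∀ v ∈ A, ∑ k ∈ insert r B, (e v k : ℝ) * (x v - x k) = 2 * x v - ∑ k ∈ B, x k := by
      intro v hv
      rw [Finset.sum_insert hrB, h.symm v r, (hAm v hv).2]
      have h1 : ∑ k ∈ B, (e v k : ℝ) * (x v - x k) = ∑ k ∈ B, (x v - x k) := by
        apply Finset.sum_congr rfl
        intro k hk
        rw [hadj v (hAs hv) k (Finset.sdiff_subset hk) (fun hh => by
          rw [hB, mem_sdiff] at hk
          exact hk.2 (hh ▸ hv))]
        simp
      rw [h1, Finset.sum_sub_distrib, Finset.sum_const, hBc, nsmul_eq_mul]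
      norm_num
    rw [Finset.sum_congr rfl this, Finset.sum_sub_distrib, Finset.sum_const, hAc, ← Finset.mul_sum,
      nsmul_eq_mul]
    norm_num
  simp only [Nat.cast_zero, zero_mul, zero_add] at F1 F3
  linarith

end six

end Pool.Agent.Helper951.Lg
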