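import Pool.Agent.Helper951.LgL

set_option autoImplicit false
set_option linter.unusedSectionVars false

open Finset

namespace Pool.Agent.Helper951.Lg

lemma sg_nonneg {D : ℕ} (hD : 4 ≤ D) : 0 ≤ sg D := by
  have hDr : (4 : ℝ) ≤ D := by exact_mod_cast hD
  unfold sg
  split_ifs
  · norm_num
  · have : 0 ≤ 1 / ((D : ℝ) - 1) := div_nonneg (by norm_num) (by linarith)
    linarith

lemma sg_le {D : ℕ} (hD : 4 ≤ D) : sg D ≤ 1 := by
  have hDr : (4 : ℝ) ≤ D := by exact_mod_cast hD
  unfold sg
  split_ifs
  · norm_num
  · have : 1 / ((D : ℝ) - 1) ≤ 1 / 3 := one_div_le_one_div_of_le (by norm_num) (by linarith)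
    linarith

section evenchain
variable {D n N : ℕ} {e : ℕ → ℕ → ℕ} {x : ℕ → ℝ} {J : ℝ} (h : OG D n N e x J)
include h

theorem piece_even (heven : D % 2 = 0) (hD : 4 ≤ D) (p p' : ℕ) (hp1 : 1 ≤ p) (hpp : p < p')
    (hp' : p' ≤ N) (hc : cutN n e p = 2) (hc' : cutN n e p' = 2)
    (hbet : ∀ t, p < t → t < p' → 4 ≤ cutN n e t) :
    ((D : ℝ) - 2) * (BB n e x p - TT n e x p') ≤
      J * ((p' : ℝ) - p - D + 2 + sg D * (lo n e p + hi n e p')) := by
  have hNn := h.hN
  have hJ := J_nonneg h
  have hDr : (4 : ℝ) ≤ D := by exact_mod_cast hD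
  obtain ⟨m, hm⟩ : ∃ m, p' = p + m := ⟨p' - p, by omega⟩
  have hm1 : 1 ≤ m := by omega
  have hf := f_ineq h p m (by omega)
  rw [← hm, hc, hc'] at hf
  by_cases hD4 : D = 4
  · -- D = 4
    have hsg : sg D = 1 / 2 := by unfold sg; rw [if_pos hD4]
    subst hm
    have hm23 : m = 1 ∨ m = 4 ∨ m = 5 ∨ m = 6 ∨ 7 ≤ m := by
      have h1 : m ≠ 2 := by intro hh; subst hh; omega
      have h2 : m ≠ 3 := by intro hh; subst hh; omega
      omega
    rcases hm23 with h1 | h1 | h1 | h1 | h1
    · subst h1
      -- single vertex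
      have hst := step h p (by omega)
      rw [hc, hc'] at hst
      have hup : upc e p p = 2 := by unfold upc; omega
      have hrow := row h p (p + 1) p (by omega) hp' (by rw [mem_Ico]; omega)
      have hs : ∑ w ∈ Ico p (p + 1), e p w = 0 := by
        rw [Nat.Ico_succ_singleton, Finset.sum_singleton]; exact h.irr p
      have hdn : dnc n e (p + 1) p = 2 := by omega
      have e1 : lo n e p = 1 := by
        unfold lo; rw [if_pos ⟨p, by rw [mem_Ico]; omega, hup⟩]
      have e2 : hi n e (p + 1) = 1 := by
        unfold hi; rw [if_pos ⟨p, by rw [mem_range]; omega, hdn⟩]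
      have hct := counts h p (p + 1) (by omega) hp'
      rw [hc, hc', Nat.Ico_succ_singleton, Finset.sum_singleton, Finset.sum_singleton] at hct
      have hz : ∑ i ∈ range p, ∑ k ∈ Ico (p + 1) n, e i k = 0 := by omega
      rw [BB_restrict h p (p + 1) (by omega) hp' hz, TT_restrict h p (p + 1) (by omega) hp' hz,
        Nat.Ico_succ_singleton, Finset.sum_singleton, Finset.sum_singleton, hup, hdn, e1, e2, hsg, hD4]
      push_cast
      linarith
    · subst h1
      obtain ⟨e1, e2, e3⟩ := piece4 h hD4 p hp' hc hc'
      rw [e1, e2, hsg, hD4]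
      push_cast
      linarith
    · subst h1
      have := piece_exact h p hD hp1 (by omega) hc (by rw [hD4]; exact hc')
      rw [show p + D + 1 = p + 5 by omega] at this
      refine this.trans (le_of_eq ?_)
      rw [hD4]
      push_cast; ring
    · subst h1
      by_cases hss : lo n e p = 1 ∧ hi n e (p + 6) = 1
      · rcases lo_cases h p hc with ⟨l1, q, hq, hq2, hq0, hBB⟩ | ⟨l1, _⟩
        · rcases hi_cases h (p + 6) hc' with ⟨l2, r, hr, hr2, hr0, hTT⟩ | ⟨l2, _⟩
          · have := piece6 h hD4 p q r hp1 hp' hc hc' hq hq2 hq0 hr hr2 hr0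
            rw [l1, l2, hBB, hTT, hsg, hD4]
            push_cast
            linarith
          · rw [l2] at hss; norm_num at hss
        · rw [l1] at hss; norm_num at hss
      · have := piece_med h p hD heven (by omega) hc (by rw [hD4]; exact hc')
          (fun _ hh => hss (by rw [show p + D + 2 = p + 6 by omega] at hh; exact hh))
        rw [show p + D + 2 = p + 6 by omega] at this
        refine this.trans (le_of_eq ?_)
        rw [hD4]
        push_cast; ring
    · -- long
      have hmr : (7 : ℝ) ≤ m := by exact_mod_cast h1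
      have hDr4 : (D : ℝ) = 4 := by exact_mod_cast hD4
      refine piece_long h p (p + m) hD hp' (by omega) hc hc' ((m : ℝ) - 7) ?_ ?_ ?_ ?_
      · rw [hDr4, show p + D - 1 = p + 4 - 1 by omega, show p + m - D = p + m - 4 by omega]
        rcases h1.lt_or_eq with h2 | h2
        · obtain ⟨d, hd⟩ : ∃ d, m = 8 + d := ⟨m - 8, by omega⟩
          have hg := gap4 h (p + 4) (by omega) d (by omega) (fun t t1 t2 => hbet t (by omega) (by omega))
          rw [show p + m - 4 = p + 4 + d by omega]
          have hmd : (m : ℝ) = 8 + d := by exact_mod_cast hd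
          rw [hmd]
          have : J * ((8 : ℝ) + d - 7) = J * (d + 1) := by ring
          rw [this]
          linarith
        · rw [show p + m - 4 = p + 4 - 1 by omega, ← h2]
          push_cast
          linarith
      all_goals
        push_cast
        try rw [hsg]
        rw [hDr4]
        norm_num
        try linarith
  · -- D ≥ 6
    have hD6 : 6 ≤ D := by omega
    have hDr6 : (6 : ℝ) ≤ D := by exact_mod_cast hD6
    have hsg : sg D = 1 / 2 + 1 / ((D : ℝ) - 1) := by unfold sg; rw [if_neg hD4]
    have hlen : D + 1 ≤ m := by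
      by_contra hcon
      obtain ⟨k, hk⟩ : ∃ k, D = m + k := ⟨D - m, by omega⟩
      obtain ⟨m', hm'⟩ : ∃ m', m = m' + 1 := ⟨m - 1, by omega⟩
      rw [hk, hm'] at hf
      rw [hk, hm'] at hD6
      nlinarith [Nat.zero_le (m' * k)]
    subst hm
    have hcast : ((p + m : ℕ) : ℝ) = (p : ℝ) + m := by push_cast; ring
    rcases hlen.lt_or_eq with hlt | heq
    · rcases (show D + 2 ≤ m by omega).lt_or_eq with hlt2 | heq2
      · -- long
        have hm3 : D + 3 ≤ m := by omega
        have hm3r : (D : ℝ) + 3 ≤ m := by exact_mod_cast hm3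
        have hpos1 : 0 ≤ 1 / ((D : ℝ) - 1) := div_nonneg (by norm_num) (by linarith)
        have h21 : 2 / ((D : ℝ) - 1) = 2 * (1 / ((D : ℝ) - 1)) := by ring
        by_cases hm : m ≤ 2 * D - 1
        · refine piece_long h p (p + m) hD hp' (by omega) hc hc' 0 ?_ ?_ ?_ ?_
          · have hx : x (p + D - 1) ≤ x (p + m - D) := h.anti (by omega)
            have := mul_nonneg (show (0 : ℝ) ≤ (D : ℝ) - 2 by linarith)
              (show (0 : ℝ) ≤ 2 * x (p + m - D) - 2 * x (p + D - 1) by linarith)
            linarith
          all_goals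
            rw [hcast]
            try rw [hsg]
            try rw [h21]
            linarith
        · have hm2 : 2 * D ≤ m := by omega
          have hm2r : 2 * (D : ℝ) ≤ m := by exact_mod_cast hm2
          have hcr0 : (D : ℝ) - 2 ≤ (cutN n e (p + D) : ℝ) := by
            have hf := f_ineq h p D (by omega)
            rw [hc] at hf
            have : D ≤ 2 + cutN n e (p + D) := by nlinarith
            have : (D : ℝ) ≤ 2 + (cutN n e (p + D) : ℝ) := by exact_mod_cast this
            linarith
          have hcr1 : (D : ℝ) - 2 ≤ (cutN n e (p + m - D) : ℝ) := by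
            have hf := f_ineq h (p + m - D) D (by omega)
            rw [show p + m - D + D = p + m by omega, hc'] at hf
            have : D ≤ 2 + cutN n e (p + m - D) := by nlinarith
            have : (D : ℝ) ≤ 2 + (cutN n e (p + m - D) : ℝ) := by exact_mod_cast this
            linarith
          have hcp : ((p + m - D : ℕ) : ℝ) = (p : ℝ) + m - D := by
            push_cast [Nat.cast_sub (show D ≤ p + m by omega)]; ring
          rcases (show p + D ≤ p + m - D by omega).lt_or_eq with hr | hr
          · have hmid := mid_even h heven hD6 (p + D) (p + m - D) (by omega) hr (by omega)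
              (fun t h1 h2 => hbet t (by omega) (by omega)) 2 2 le_rfl le_rfl (by linarith) (by linarith)
            rw [hcp] at hmid
            push_cast at hmid
            have hE : (2 : ℝ) + 2 + ((p : ℝ) + m - D - (p + D) - 1) +
                (if D = 6 then (0 : ℝ) else ((D : ℝ) - 4) / 2) ≤ (m : ℝ) - D - 3 := by
              split_ifs with h6
              · rw [h6] at hm2r ⊢; push_cast; linarith
              · have : 8 ≤ D := by omega
                have : (8 : ℝ) ≤ D := by exact_mod_cast this
                linarith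
            have hE2 := mul_le_mul_of_nonneg_left hE hJ
            refine piece_long h p (p + m) hD hp' (by omega) hc hc' ((m : ℝ) - D - 3) ?_ ?_ ?_ ?_
            · have : ((D : ℝ) - 2) * (2 * x (p + D - 1) - 2 * x (p + m - D)) =
                  (2 * (D : ℝ) - 4) * (x (p + D - 1) - x (p + m - D)) := by ring
              rw [this]
              linarith
            all_goals
              rw [hcast]
              try rw [hsg]
              try rw [h21]
              linarith
          · have hg := gap_le h (p + D) (by omega) (by omega)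
            have hg0 := gap_nonneg h (p + D)
            have h3 : ((D : ℝ) - 2) * (x (p + D - 1) - x (p + m - D)) ≤ J := by
              rw [← hr]
              calc ((D : ℝ) - 2) * (x (p + D - 1) - x (p + D))
                  ≤ (cutN n e (p + D) : ℝ) * (x (p + D - 1) - x (p + D)) :=
                    mul_le_mul_of_nonneg_right hcr0 hg0
                _ ≤ J := hg
            refine piece_long h p (p + m) hD hp' (by omega) hc hc' 2 ?_ ?_ ?_ ?_
            · linarith
            all_goals
              rw [hcast]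
              try rw [hsg]
              try rw [h21]
              linarith
      · subst heq2
        rw [show p + (D + 2) = p + D + 2 by ring] at hc' ⊢
        have := piece_med h p hD heven (by omega) hc hc'
          (fun hh => absurd hh hD4)
        refine this.trans (le_of_eq ?_)
        push_cast; ring
    · subst heq
      rw [show p + (D + 1) = p + D + 1 by ring] at hc' ⊢
      have := piece_exact h p hD hp1 (by omega) hc hc'
      refine this.trans (le_of_eq ?_)
      push_cast; ring

lemma crude_even (heven : D % 2 = 0) (hD : 4 ≤ D) (a b : ℕ) (ha : 1 ≤ a) (hab : a ≤ b)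
    (hb : b ≤ N) (hc : ∀ t, a ≤ t → t ≤ b → 4 ≤ cutN n e t) :
    (2 * (D : ℝ) - 4) * (x (a - 1) - x b) ≤ J * ((b : ℝ) - a + 1 + 3 * D) := by
  have hJ := J_nonneg h
  have hDr : (4 : ℝ) ≤ D := by exact_mod_cast hD
  have hca : (4 : ℝ) ≤ (cutN n e a : ℝ) := by exact_mod_cast hc a le_rfl hab
  have hcb : (4 : ℝ) ≤ (cutN n e b : ℝ) := by exact_mod_cast hc b hab le_rfl
  by_cases hD4 : D = 4
  · obtain ⟨d, hd⟩ : ∃ d, b = a + d := ⟨b - a, by omega⟩
    subst hd
    have hg := gap4 h a ha d hb hc
    rw [hD4]
    push_cast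
    nlinarith
  · have hD6 : 6 ≤ D := by omega
    rcases hab.lt_or_eq with hlt | heq
    · have hmid := mid_even h heven hD6 a b ha hlt hb hc D D
        (by linarith) (by linarith) (by nlinarith) (by nlinarith)
      have hE : (D : ℝ) + D + ((b : ℝ) - a - 1) + (if D = 6 then (0 : ℝ) else ((D : ℝ) - 4) / 2) ≤
          (b : ℝ) - a + 1 + 3 * D := by
        split_ifs <;> linarith
      have := mul_le_mul_of_nonneg_left hE hJ
      linarith
    · subst heq
      have hg := gap_le h a ha hb
      have hg0 := gap_nonneg h a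
      have h1 : x (a - 1) - x a ≤ J := by nlinarith
      have h2 : (2 * (D : ℝ) - 4) * (x (a - 1) - x a) ≤ (2 * (D : ℝ) - 4) * J :=
        mul_le_mul_of_nonneg_left h1 (by linarith)
      nlinarith

lemma four_le (heven : D % 2 = 0) (hNn' : N < n) (t : ℕ) (h1 : 1 ≤ t) (h2 : t ≤ N)
    (h3 : cutN n e t ≠ 2) : 4 ≤ cutN n e t := by
  have hpos := cut_pos h t (by omega) (by omega)
  have hpar := parity h t h2
  have : (t * D) % 2 = 0 := by rw [Nat.mul_mod, heven]; simp
  omega

lemma chain_even (heven : D % 2 = 0) (hD : 4 ≤ D) (hNn' : N < n) (b : ℕ) (hb : b ≤ N) :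
    ∀ k p : ℕ, b - p = k → 1 ≤ p → p ≤ b → cutN n e p = 2 →
      ((D : ℝ) - 2) * (BB n e x p - 2 * x b) ≤
        J * ((b : ℝ) - p + (3 * D + 1) + sg D * lo n e p) := by
  have hJ := J_nonneg h
  have hDr : (4 : ℝ) ≤ D := by exact_mod_cast hD
  have hs0 := sg_nonneg hD
  have hs1 := sg_le hD
  intro k
  induction k using Nat.strong_induction_on with
  | _ k ih =>
  intro p hk hp1 hpb hc
  have hBB := BB_le h p
  rw [hc] at hBB
  push_cast at hBB
  have hlo : -1 ≤ lo n e p := by
    rcases lo_cases h p hc with ⟨l1, _⟩ | ⟨l1, _⟩ <;> rw [l1] <;> norm_num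
  have hlo2 : -1 ≤ sg D * lo n e p := by nlinarith
  classical
  by_cases hex : ((Ioc p b).filter (fun t => cutN n e t = 2)).Nonempty
  · set p' := ((Ioc p b).filter (fun t => cutN n e t = 2)).min' hex with hp'
    have hm : p' ∈ (Ioc p b).filter (fun t => cutN n e t = 2) := Finset.min'_mem _ _
    rw [mem_filter, mem_Ioc] at hm
    have hbet : ∀ t, p < t → t < p' → 4 ≤ cutN n e t := by
      intro t h1 h2
      apply four_le h heven hNn' t (by omega) (by omega)
      intro hcon
      have : t ∈ (Ioc p b).filter (fun t => cutN n e t = 2) := by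
        rw [mem_filter, mem_Ioc]; exact ⟨by omega, by omega⟩
      have := Finset.min'_le _ _ this
      omega
    have hpc := piece_even h heven hD p p' hp1 hm.1.1 (by omega) hc hm.2 hbet
    have htb := TT_sub_BB h p' (by omega)
    have hrec := ih (b - p') (by omega) p' rfl (by omega) hm.1.2 hm.2
    have hlh := lo_hi h p' hm.2
    have h1 : ((D : ℝ) - 2) * (TT n e x p' - BB n e x p') ≤ ((D : ℝ) - 2) * J :=
      mul_le_mul_of_nonneg_left htb (by linarith)
    have h2 : J * (sg D * (lo n e p' + hi n e p')) ≤ 0 :=
      mul_nonpos_of_nonneg_of_nonpos hJ (mul_nonpos_of_nonneg_of_nonpos hs0 hlh)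
    nlinarith
  · have hge : ∀ t, p + 1 ≤ t → t ≤ b → 4 ≤ cutN n e t := by
      intro t h1 h2
      apply four_le h heven hNn' t (by omega) (by omega)
      intro hcon
      exact hex ⟨t, by rw [mem_filter, mem_Ioc]; exact ⟨by omega, by omega⟩⟩
    rcases hpb.lt_or_eq with hlt | heq
    · have hcr := crude_even h heven hD (p + 1) b (by omega) (by omega) hb hge
      simp only [Nat.add_sub_cancel] at hcr
      push_cast at hcr
      have h1 : ((D : ℝ) - 2) * (BB n e x p - 2 * x b) ≤ ((D : ℝ) - 2) * (2 * x p - 2 * x b) :=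
        mul_le_mul_of_nonneg_left (by linarith) (by linarith)
      have h2 : J * (-1) ≤ J * (sg D * lo n e p) := mul_le_mul_of_nonneg_left hlo2 hJ
      nlinarith
    · subst heq
      have h1 : ((D : ℝ) - 2) * (BB n e x p - 2 * x p) ≤ 0 :=
        mul_nonpos_of_nonneg_of_nonpos (by linarith) (by linarith)
      have h2 : 0 ≤ J * ((p : ℝ) - p + (3 * D + 1) + sg D * lo n e p) := mul_nonneg hJ (by linarith)
      linarith

theorem T_even (heven : D % 2 = 0) (hD : 4 ≤ D) (hNn' : N < n) (a b : ℕ) (ha : 1 ≤ a)
    (hab : a ≤ b) (hb : b ≤ N) :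
    (2 * (D : ℝ) - 4) * (x (a - 1) - x b) ≤ J * ((b : ℝ) - a + 10 * D) := by
  have hJ := J_nonneg h
  have hDr : (4 : ℝ) ≤ D := by exact_mod_cast hD
  have hs0 := sg_nonneg hD
  have hs1 := sg_le hD
  classical
  by_cases hex : ((Icc a b).filter (fun t => cutN n e t = 2)).Nonempty
  · set p := ((Icc a b).filter (fun t => cutN n e t = 2)).min' hex with hp
    have hm : p ∈ (Icc a b).filter (fun t => cutN n e t = 2) := Finset.min'_mem _ _
    rw [mem_filter, mem_Icc] at hm
    have hbet : ∀ t, a ≤ t → t < p → 4 ≤ cutN n e t := by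
      intro t h1 h2
      apply four_le h heven hNn' t (by omega) (by omega)
      intro hcon
      have : t ∈ (Icc a b).filter (fun t => cutN n e t = 2) := by
        rw [mem_filter, mem_Icc]; exact ⟨by omega, by omega⟩
      have := Finset.min'_le _ _ this
      omega
    have h1 : (2 * (D : ℝ) - 4) * (x (a - 1) - x (p - 1)) ≤ J * ((p : ℝ) - a + 3 * D) := by
      by_cases hap : a = p
      · rw [← hap]
        have : 0 ≤ J * ((a : ℝ) - a + 3 * D) := mul_nonneg hJ (by linarith)
        linarith
      · have hcr := crude_even h heven hD a (p - 1) ha (by omega) (by omega)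
          (fun t h1 h2 => hbet t h1 (by omega))
        have hc : ((p - 1 : ℕ) : ℝ) = (p : ℝ) - 1 := by
          push_cast [Nat.cast_sub (show 1 ≤ p by omega)]; ring
        rw [hc] at hcr
        nlinarith
    have h2 := TT_sub_BB h p (by omega)
    have h3 := TT_ge h p (by omega)
    rw [hm.2] at h3
    push_cast at h3
    have h4 := chain_even h heven hD hNn' b hb (b - p) p rfl (by omega) hm.1.2 hm.2
    have h5 : ((D : ℝ) - 2) * (2 * x (p - 1) - BB n e x p) ≤ ((D : ℝ) - 2) * J :=
      mul_le_mul_of_nonneg_left (by linarith) (by linarith)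
    have hlo : lo n e p ≤ 1 := by
      rcases lo_cases h p hm.2 with ⟨l1, _⟩ | ⟨l1, _⟩ <;> rw [l1] <;> norm_num
    have hlo2 : sg D * lo n e p ≤ 1 := by nlinarith
    have h6 : J * (sg D * lo n e p) ≤ J * 1 := mul_le_mul_of_nonneg_left hlo2 hJ
    nlinarith
  · have hge : ∀ t, a ≤ t → t ≤ b → 4 ≤ cutN n e t := by
      intro t h1 h2
      apply four_le h heven hNn' t (by omega) (by omega)
      intro hcon
      exact hex ⟨t, by rw [mem_filter, mem_Icc]; exact ⟨by omega, by omega⟩⟩
    have hcr := crude_even h heven hD a b ha hab hb hge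
    nlinarith

end evenchain

end Pool.Agent.Helper951.Lg
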