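import Mathlib

set_option autoImplicit false

open Finset

namespace Pool.Agent.Helper951.Lg

/-- discrete Sturm comparison (one step version) -/
lemma sturm_step (K ω θ : ℝ) (hK : 0 ≤ K) (hs : 0 < Real.sin (ω / 2))
    (hθ : θ * K ≤ 4 * Real.sin (ω / 2) ^ 2) (m : ℕ) (hm : ω * m ≤ Real.pi / 2) (hω : 0 < ω)
    (y s : ℕ → ℝ) (hs0 : s 0 = 0) (hspos : ∀ i, 0 ≤ s i)
    (h1 : ∀ i, i < m → y i - y (i + 1) ≤ θ * s (i + 1))
    (h2 : ∀ i, i < m → s (i + 1) ≤ s i + K * y i) (hy : ∀ i, 0 ≤ y i) :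
    s m * Real.cos (ω * (m + 1 / 2)) ≤ y m * (K * Real.sin (ω * m) / (2 * Real.sin (ω / 2))) := by
  have hpi := Real.pi_pos
  have key : ∀ i, i ≤ m → s i * Real.cos (ω * (i + 1 / 2)) ≤
      y i * (K * Real.sin (ω * i) / (2 * Real.sin (ω / 2))) := by
    intro i
    induction i with
    | zero =>
      intro _
      rw [hs0]
      simp
    | succ i ih =>
      intro hi
      have ihi := ih (by omega)
      have hilt : (i : ℝ) + 1 ≤ m := by exact_mod_cast hi
      have hmi : ω * (i + 1) ≤ ω * m := mul_le_mul_of_nonneg_left hilt hω.le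
      set A : ℝ := K * Real.sin (ω * i) / (2 * Real.sin (ω / 2)) with hA
      set A' : ℝ := K * Real.sin (ω * ((i + 1 : ℕ) : ℝ)) / (2 * Real.sin (ω / 2)) with hA'
      set B : ℝ := Real.cos (ω * (i + 1 / 2)) with hB
      set B' : ℝ := Real.cos (ω * (((i + 1 : ℕ) : ℝ) + 1 / 2)) with hB'
      have i0 : (0 : ℝ) ≤ i := Nat.cast_nonneg i
      have hA'pos : 0 ≤ A' := by
        rw [hA']
        apply div_nonneg _ (by linarith)
        apply mul_nonneg hK
        apply Real.sin_nonneg_of_nonneg_of_le_pi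
        · push_cast; positivity
        · push_cast; linarith
      have hBpos : 0 ≤ B := by
        rw [hB]
        apply Real.cos_nonneg_of_neg_pi_div_two_le_of_le
        · have : 0 ≤ ω * ((i : ℝ) + 1 / 2) := by positivity
          linarith
        · have : ω * ((i : ℝ) + 1 / 2) ≤ ω * (i + 1) := mul_le_mul_of_nonneg_left (by linarith) hω.le
          linarith
      have e1 : A' - A = K * B := by
        rw [hA, hA', hB, ← sub_div, ← mul_sub, Real.sin_sub_sin]
        have : (ω * ((i + 1 : ℕ) : ℝ) - ω * i) / 2 = ω / 2 := by push_cast; ring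
        rw [this]
        have : (ω * ((i + 1 : ℕ) : ℝ) + ω * i) / 2 = ω * (i + 1 / 2) := by push_cast; ring
        rw [this]
        field_simp
      have e2 : B' - B = -(2 * Real.sin (ω * ((i + 1 : ℕ) : ℝ)) * Real.sin (ω / 2)) := by
        rw [hB, hB', Real.cos_sub_cos]
        have : (ω * (((i + 1 : ℕ) : ℝ) + 1 / 2) - ω * (i + 1 / 2)) / 2 = ω / 2 := by
          push_cast; ring
        rw [this]
        have : (ω * (((i + 1 : ℕ) : ℝ) + 1 / 2) + ω * (i + 1 / 2)) / 2 = ω * ((i + 1 : ℕ) : ℝ) := by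
          push_cast; ring
        rw [this]; ring
      have hsin : 0 ≤ Real.sin (ω * ((i + 1 : ℕ) : ℝ)) := by
        apply Real.sin_nonneg_of_nonneg_of_le_pi
        · push_cast; positivity
        · push_cast; linarith
      have e3 : θ * A' ≤ B - B' := by
        have : B - B' = 2 * Real.sin (ω * ((i + 1 : ℕ) : ℝ)) * Real.sin (ω / 2) := by linarith
        rw [this, hA']
        have h3 : θ * (K * Real.sin (ω * ((i + 1 : ℕ) : ℝ)) / (2 * Real.sin (ω / 2))) =
            (θ * K) * (Real.sin (ω * ((i + 1 : ℕ) : ℝ)) / (2 * Real.sin (ω / 2))) := by ring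
        rw [h3]
        calc (θ * K) * (Real.sin (ω * ((i + 1 : ℕ) : ℝ)) / (2 * Real.sin (ω / 2))) ≤
            (4 * Real.sin (ω / 2) ^ 2) * (Real.sin (ω * ((i + 1 : ℕ) : ℝ)) / (2 * Real.sin (ω / 2))) := by
              apply mul_le_mul_of_nonneg_right hθ
              apply div_nonneg hsin (by linarith)
          _ = 2 * Real.sin (ω * ((i + 1 : ℕ) : ℝ)) * Real.sin (ω / 2) := by
              field_simp
              ring
      have g1 := h1 i (by omega)
      have g2 := h2 i (by omega)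
      have k1 : (y i - θ * s (i + 1)) * A' ≤ y (i + 1) * A' :=
        mul_le_mul_of_nonneg_right (by linarith) hA'pos
      have k2 : s (i + 1) * (θ * A') ≤ s (i + 1) * (B - B') :=
        mul_le_mul_of_nonneg_left e3 (hspos _)
      have k3 : s (i + 1) * B ≤ (s i + K * y i) * B := mul_le_mul_of_nonneg_right g2 hBpos
      have k4 : y i * (A' - A) = y i * (K * B) := by rw [e1]
      nlinarith
  exact key m le_rfl

theorem sturm (c C η : ℝ) (hc : 0 < c) (hC : 0 ≤ C) (hη : 0 < η) :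
    ∃ n0 : ℕ, ∀ n : ℕ, n0 ≤ n → ∀ N : ℕ, N ≤ n → ∀ ε : ℝ, 0 ≤ ε → ∀ x : ℕ → ℝ, Antitone x →
      (∀ i, 0 ≤ x i) → x 0 = 1 → x N ≤ ε * n →
      (∀ a b : ℕ, 1 ≤ a → a ≤ b → b ≤ N →
        c * (x (a - 1) - x b) ≤ ε * (∑ i ∈ range b, x i) * ((b : ℝ) - a + C)) →
      c * Real.pi ^ 2 / 4 - η ≤ (n : ℝ) ^ 2 * ε := by
  have hpi := Real.pi_pos
  have hpi3 := Real.pi_gt_three
  have hpi4 : Real.pi < 3.15 := Real.pi_lt_d2
  by_cases hbig : c * Real.pi ^ 2 / 4 ≤ η
  · refine ⟨0, fun n _ N _ ε hε x _ _ _ _ _ => ?_⟩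
    have : 0 ≤ (n : ℝ) ^ 2 * ε := by positivity
    linarith
  push Not at hbig
  set β : ℝ := η / (2 * c * Real.pi) with hβ
  have hβpos : 0 < β := by positivity
  have hβeq : c * Real.pi * β = η / 2 := by rw [hβ]; field_simp
  have hβlt : β < Real.pi / 8 := by
    rw [hβ, div_lt_div_iff₀ (by positivity) (by norm_num)]
    nlinarith
  set α : ℝ := Real.pi / 2 - β with hα
  have hαpos : 0 < α := by linarith
  have hα1 : 1 < α := by linarith
  have hα2 : α < Real.pi / 2 := by linarith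
  have hαsq : c * Real.pi ^ 2 / 4 - η / 2 ≤ c * α ^ 2 := by
    rw [hα]
    have : c * (Real.pi / 2 - β) ^ 2 = c * Real.pi ^ 2 / 4 - c * Real.pi * β + c * β ^ 2 := by ring
    rw [this, hβeq]
    have : 0 ≤ c * β ^ 2 := by positivity
    linarith
  have hα3 : α ^ 2 ≤ 3 := by nlinarith
  obtain ⟨K, hK⟩ := exists_nat_gt (12 * c * C / η + 1)
  have hK1 : (1 : ℝ) < K := by
    have : 0 ≤ 12 * c * C / η := by positivity
    linarith
  have hKC : 12 * c * C ≤ η * K := by
    have h1 : 12 * c * C / η ≤ K := by linarith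
    rw [div_le_iff₀ hη] at h1
    linarith
  set M : ℝ := c * Real.pi ^ 2 / 4 with hM
  have hMpos : 0 < M := by positivity
  set U : ℝ := M + M / c * (K + C) with hU
  have hUpos : 0 < U := by positivity
  set b0 : ℝ := Real.sin (β / 2) with hb0
  have hb0pos : 0 < b0 := Real.sin_pos_of_pos_of_lt_pi (by linarith) (by linarith)
  obtain ⟨n1, hn1⟩ := exists_nat_gt (8 * M * U / (c * b0))
  obtain ⟨n2, hn2⟩ := exists_nat_gt (2 * U)
  obtain ⟨n3, hn3⟩ := exists_nat_gt C
  obtain ⟨n4, hn4⟩ := exists_nat_gt (2 * K / β)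
  obtain ⟨n5, hn5⟩ := exists_nat_gt (2 * K : ℝ)
  obtain ⟨n6, hn6⟩ := exists_nat_gt (3 * c * K ^ 2 * 3 / η)
  refine ⟨n1 + n2 + n3 + n4 + n5 + n6 + 1, ?_⟩
  intro n hn N hN ε hε x hanti hx0 hx1 hxN hT
  by_contra hcon
  push Not at hcon
  have hnr : ((n1 : ℝ) + n2 + n3 + n4 + n5 + n6 + 1) ≤ n := by exact_mod_cast hn
  have p1 : (0 : ℝ) ≤ n1 := Nat.cast_nonneg _
  have p2 : (0 : ℝ) ≤ n2 := Nat.cast_nonneg _
  have p3 : (0 : ℝ) ≤ n3 := Nat.cast_nonneg _
  have p4 : (0 : ℝ) ≤ n4 := Nat.cast_nonneg _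
  have p5 : (0 : ℝ) ≤ n5 := Nat.cast_nonneg _
  have p6 : (0 : ℝ) ≤ n6 := Nat.cast_nonneg _
  have hnpos : (0 : ℝ) < n := by linarith
  have hn1' : (1 : ℝ) ≤ n := by linarith
  have hεM : ε * n ^ 2 ≤ M := by linarith
  have hS : ∀ b, b ≤ N → ∑ i ∈ range b, x i ≤ n := by
    intro b hb
    calc ∑ i ∈ range b, x i ≤ ∑ i ∈ range b, (1 : ℝ) :=
          Finset.sum_le_sum (fun i _ => by rw [← hx1]; exact hanti (Nat.zero_le i))
      _ = b := by simp
      _ ≤ n := by exact_mod_cast hb.trans hN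
  have hSpos : ∀ b, 0 ≤ ∑ i ∈ range b, x i := fun b => Finset.sum_nonneg (fun i _ => hx0 i)
  -- number of blocks
  have hKn : 1 < K := by exact_mod_cast hK1
  set m : ℕ := N / K with hm
  have hmK : m * K ≤ N := Nat.div_mul_le_self N K
  have hNm : N < m * K + K := by
    have := Nat.lt_div_mul_add (a := N) (b := K) (by omega)
    exact this
  -- upper bound on the last value
  have hεn : ε * n ≤ M / n := by
    rw [le_div_iff₀ hnpos]
    have : ε * n * n = ε * n ^ 2 := by ring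
    linarith
  have hupper : x (m * K) ≤ U / n := by
    have hstep : x (m * K) - x N ≤ ε / c * n * (K + C) := by
      rcases hmK.lt_or_eq with hlt | heq
      · have h1 := hT (m * K + 1) N (by omega) (by omega) le_rfl
        rw [Nat.add_sub_cancel] at h1
        have h2 : (N : ℝ) - ((m * K + 1 : ℕ) : ℝ) + C ≤ K + C := by
          have : (N : ℝ) < (m : ℝ) * K + K := by exact_mod_cast hNm
          push_cast
          linarith
        have h3 : ε * (∑ i ∈ range N, x i) * ((N : ℝ) - ((m * K + 1 : ℕ) : ℝ) + C) ≤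
            ε * n * (K + C) := by
          have h4 : ε * (∑ i ∈ range N, x i) ≤ ε * n := mul_le_mul_of_nonneg_left (hS N le_rfl) hε
          calc _ ≤ ε * (∑ i ∈ range N, x i) * (K + C) :=
                mul_le_mul_of_nonneg_left h2 (mul_nonneg hε (hSpos N))
            _ ≤ _ := mul_le_mul_of_nonneg_right h4 (by linarith)
        have h5 : c * (x (m * K) - x N) ≤ ε * n * (K + C) := h1.trans h3
        have h6 : x (m * K) - x N ≤ ε * n * (K + C) / c := by
          rw [le_div_iff₀ hc]; linarith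
        refine h6.trans (le_of_eq ?_)
        ring
      · rw [heq, sub_self]
        have : (0 : ℝ) ≤ K + C := by linarith
        positivity
    have h7 : ε / c * n * (K + C) ≤ M / c * (K + C) / n := by
      rw [le_div_iff₀ hnpos]
      have : ε / c * n * (K + C) * n = (ε * n ^ 2) * ((K + C) / c) := by ring
      rw [this]
      have : M / c * (K + C) = M * ((K + C) / c) := by ring
      rw [this]
      apply mul_le_mul_of_nonneg_right hεM
      apply div_nonneg (by linarith) hc.le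
    have h8 : U / n = M / n + M / c * (K + C) / n := by rw [hU, add_div]
    rw [h8]
    linarith
  have hUn : U / n ≤ 1 / 2 := by
    rw [div_le_iff₀ hnpos]; linarith
  have hm1 : 1 ≤ m := by
    by_contra hcon2
    have : m = 0 := Nat.lt_one_iff.1 (not_le.1 hcon2)
    rw [this, Nat.zero_mul, hx1] at hupper
    linarith
  have hmKpos : 1 ≤ m * K := Nat.mul_pos hm1 (by omega)
  -- lower bound on s_m
  have hmKn : ((m * K : ℕ) : ℝ) ≤ n := by exact_mod_cast hmK.trans hN
  have hsm : c * n / (4 * M) ≤ ∑ i ∈ range (m * K), x i := by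
    have h1 := hT 1 (m * K) le_rfl hmKpos hmK
    rw [Nat.sub_self, hx1] at h1
    have h2 : c * (1 / 2) ≤ c * (1 - x (m * K)) := mul_le_mul_of_nonneg_left (by linarith) hc.le
    have h3 : ((m * K : ℕ) : ℝ) - ((1 : ℕ) : ℝ) + C ≤ 2 * n := by
      push_cast at hmKn ⊢; linarith
    have h4 : ε * (∑ i ∈ range (m * K), x i) * (((m * K : ℕ) : ℝ) - ((1 : ℕ) : ℝ) + C) ≤
        ε * (∑ i ∈ range (m * K), x i) * (2 * n) :=
      mul_le_mul_of_nonneg_left h3 (mul_nonneg hε (hSpos _))
    have h5 : c * (1 / 2) ≤ ε * (∑ i ∈ range (m * K), x i) * (2 * n) := by linarith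
    have h6 : c * (1 / 2) * n ≤ ε * (∑ i ∈ range (m * K), x i) * (2 * n) * n :=
      mul_le_mul_of_nonneg_right h5 hnpos.le
    have h7 : ε * (∑ i ∈ range (m * K), x i) * (2 * n) * n =
      2 * (ε * n ^ 2) * (∑ i ∈ range (m * K), x i) := by ring
    have h8 : 2 * (ε * n ^ 2) * (∑ i ∈ range (m * K), x i) ≤ 2 * M * (∑ i ∈ range (m * K), x i) :=
      mul_le_mul_of_nonneg_right (by linarith) (hSpos _)
    rw [div_le_iff₀ (by positivity)]
    linarith
  -- Sturm
  set ω : ℝ := α * K / n with hω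
  have hKpos : (0 : ℝ) < K := by linarith
  have hωpos : 0 < ω := by positivity
  have hωβ : ω ≤ β := by
    rw [hω, div_le_iff₀ hnpos]
    have h1 : 2 * K / β < n := by linarith
    rw [div_lt_iff₀ hβpos] at h1
    have : α * K ≤ 2 * K := mul_le_mul_of_nonneg_right (by linarith) (by linarith)
    linarith
  have hω1 : ω ≤ 1 := by
    rw [hω, div_le_iff₀ hnpos]
    have : α * K ≤ 2 * K := mul_le_mul_of_nonneg_right (by linarith) (by linarith)
    linarith
  have hωsq : ω ^ 2 * n ^ 2 = α ^ 2 * K ^ 2 := by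
    rw [hω]; field_simp
  have hsin : 0 < Real.sin (ω / 2) := Real.sin_pos_of_pos_of_lt_pi (by linarith) (by linarith)
  have hsin2 : ω / 2 - (ω / 2) ^ 3 / 6 < Real.sin (ω / 2) :=
    Real.sin_gt_sub_cube (by linarith)
  have hmω : ω * m ≤ α := by
    have : ω * m = α * ((m * K : ℕ) : ℝ) / n := by rw [hω]; push_cast; ring
    rw [this, div_le_iff₀ hnpos]
    exact mul_le_mul_of_nonneg_left hmKn hαpos.le
  have hθ : ε / c * (K + C) * K ≤ 4 * Real.sin (ω / 2) ^ 2 := by
    have h1 : ω ^ 2 * (1 - ω ^ 2 / 8) ≤ 4 * Real.sin (ω / 2) ^ 2 := by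
      have h2 : 0 ≤ ω / 2 - (ω / 2) ^ 3 / 6 := by
        have h20 : ω / 2 - (ω / 2) ^ 3 / 6 = ω / 2 * (1 - ω ^ 2 / 24) := by ring
        rw [h20]
        apply mul_nonneg (by linarith)
        have : ω ^ 2 ≤ 1 := pow_le_one₀ hωpos.le hω1
        linarith
      have h3 : (ω / 2 - (ω / 2) ^ 3 / 6) ^ 2 ≤ Real.sin (ω / 2) ^ 2 := by
        apply pow_le_pow_left₀ h2 hsin2.le
      have h31 : 4 * (ω / 2 - (ω / 2) ^ 3 / 6) ^ 2 = ω ^ 2 * (1 - ω ^ 2 / 8) +
        (ω ^ 4 / 24 + ω ^ 6 / 576) := by ring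
      have h32 : 0 ≤ ω ^ 4 / 24 + ω ^ 6 / 576 := by positivity
      linarith
    refine le_trans ?_ h1
    -- multiply by n^2 * c
    have hcn : 0 < c * (n : ℝ) ^ 2 := by positivity
    apply le_of_mul_le_mul_left _ hcn
    have h4 : c * (n : ℝ) ^ 2 * (ε / c * (K + C) * K) = (n ^ 2 * ε) * ((K + C) * K) := by
      field_simp
    rw [h4]
    have h5 : c * (n : ℝ) ^ 2 * (ω ^ 2 * (1 - ω ^ 2 / 8)) =
        c * α ^ 2 * K ^ 2 * (1 - ω ^ 2 / 8) := by
      calc c * (n : ℝ) ^ 2 * (ω ^ 2 * (1 - ω ^ 2 / 8)) = c * (ω ^ 2 * n ^ 2) * (1 - ω ^ 2 / 8) := by ring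
        _ = _ := by rw [hωsq]; ring
    rw [h5]
    have h6 : (n : ℝ) ^ 2 * ε ≤ c * α ^ 2 - η / 2 := by linarith
    have h7 : (n ^ 2 * ε) * ((K + C) * K) ≤ (c * α ^ 2 - η / 2) * ((K + C) * K) :=
      mul_le_mul_of_nonneg_right h6 (by positivity)
    refine h7.trans ?_
    -- (cα² - η/2)(K+C)K ≤ cα²K²(1-ω²/8)
    have h8 : c * α ^ 2 * C ≤ η / 4 * K := by
      have h80 := mul_le_mul_of_nonneg_left hα3 (mul_nonneg hc.le hC)
      linarith
    have h9 : c * α ^ 2 * ω ^ 2 / 8 ≤ η / 4 := by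
      have hω2 : ω ^ 2 ≤ η / (3 * c) := by
        rw [le_div_iff₀ (by positivity)]
        have h10 : ω ^ 2 * n ≤ α ^ 2 * K ^ 2 := by
          have : ω ^ 2 * n ≤ ω ^ 2 * n ^ 2 := by
            apply mul_le_mul_of_nonneg_left _ (sq_nonneg ω)
            have : (n : ℝ) * 1 ≤ n * n := mul_le_mul_of_nonneg_left hn1' hnpos.le
            linarith [sq (n : ℝ)]
          linarith
        have h11 : 3 * c * K ^ 2 * 3 / η < n := by linarith
        rw [div_lt_iff₀ hη] at h11
        have h12 : ω ^ 2 * (3 * c) * n ≤ η * n := by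
          have : ω ^ 2 * (3 * c) * n = (ω ^ 2 * n) * (3 * c) := by ring
          rw [this]
          have h13 : (ω ^ 2 * n) * (3 * c) ≤ (α ^ 2 * K ^ 2) * (3 * c) :=
            mul_le_mul_of_nonneg_right h10 (by positivity)
          have h14 : (α ^ 2 * K ^ 2) * (3 * c) ≤ (3 * K ^ 2) * (3 * c) := by
            apply mul_le_mul_of_nonneg_right _ (by positivity)
            apply mul_le_mul_of_nonneg_right hα3 (by positivity)
          linarith
        exact le_of_mul_le_mul_right h12 hnpos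
      have : c * α ^ 2 * ω ^ 2 / 8 ≤ c * 3 * (η / (3 * c)) / 8 := by
        apply div_le_div_of_nonneg_right _ (by norm_num)
        apply mul_le_mul _ hω2 (sq_nonneg _) (by positivity)
        apply mul_le_mul_of_nonneg_left hα3 hc.le
      have e : c * 3 * (η / (3 * c)) / 8 = η / 8 := by field_simp
      rw [e] at this
      linarith
    have h10 : 0 ≤ η / 2 * (C * K) := by positivity
    have h11 : (c * α ^ 2 * C) * K ≤ (η / 4 * K) * K := mul_le_mul_of_nonneg_right h8 hKpos.le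
    have h12 : (c * α ^ 2 * ω ^ 2 / 8) * K ^ 2 ≤ η / 4 * K ^ 2 :=
      mul_le_mul_of_nonneg_right h9 (by positivity)
    have h13 : c * α ^ 2 * K ^ 2 * (1 - ω ^ 2 / 8) - (c * α ^ 2 - η / 2) * ((K + C) * K) =
      (η / 4 * K * K - c * α ^ 2 * C * K) + (η / 4 * K ^ 2 - c * α ^ 2 * ω ^ 2 / 8 * K ^ 2) +
        η / 2 * (C * K) := by ring
    linarith
  have hfin := sturm_step (K : ℝ) ω (ε / c * (K + C)) hKpos.le hsin hθ m (by linarith) hωpos
    (fun i => x (i * K)) (fun i => ∑ j ∈ range (i * K), x j) (by simp) (fun i => hSpos _)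
    (by
      intro i hi
      have hle : (i + 1) * K ≤ N := le_trans (Nat.mul_le_mul_right K hi) hmK
      have e1 : (i + 1) * K = i * K + K := by ring
      have h1 := hT (i * K + 1) ((i + 1) * K) (by omega) (by omega) hle
      rw [Nat.add_sub_cancel] at h1
      have h2 : (((i + 1) * K : ℕ) : ℝ) - ((i * K + 1 : ℕ) : ℝ) + C ≤ K + C := by
        push_cast; linarith
      have h3 : c * (x (i * K) - x ((i + 1) * K)) ≤
          ε * (∑ j ∈ range ((i + 1) * K), x j) * (K + C) :=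
        h1.trans (mul_le_mul_of_nonneg_left h2 (mul_nonneg hε (hSpos _)))
      have h4 : x (i * K) - x ((i + 1) * K) ≤ ε * (∑ j ∈ range ((i + 1) * K), x j) * (K + C) / c := by
        rw [le_div_iff₀ hc]; linarith
      refine h4.trans (le_of_eq ?_)
      ring)
    (by
      intro i hi
      have e1 : (i + 1) * K = i * K + K := by ring
      rw [e1, Finset.sum_range_add]
      have : ∑ j ∈ range K, x (i * K + j) ≤ ∑ j ∈ range K, x (i * K) :=
        Finset.sum_le_sum (fun j _ => hanti (by omega))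
      rw [Finset.sum_const, card_range, nsmul_eq_mul] at this
      linarith)
    (fun i => hx0 _)
  -- bounds
  have hA : (K : ℝ) * Real.sin (ω * m) / (2 * Real.sin (ω / 2)) ≤ 2 * n := by
    have h1 : 2 / Real.pi * (ω / 2) ≤ Real.sin (ω / 2) := Real.mul_le_sin (by linarith) (by linarith)
    rw [div_le_iff₀ (by linarith)]
    have h2 : (K : ℝ) * Real.sin (ω * m) ≤ K := by
      have := mul_le_mul_of_nonneg_left (Real.sin_le_one (ω * m)) hKpos.le
      linarith
    have h3 : (K : ℝ) ≤ 2 * n * (2 * (2 / Real.pi * (ω / 2))) := by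
      have : 2 * (n : ℝ) * (2 * (2 / Real.pi * (ω / 2))) = 4 * α * K / Real.pi := by
        rw [hω]; field_simp; norm_num
      rw [this, le_div_iff₀ hpi]
      have h40 : Real.pi ≤ 4 * α := by linarith
      have := mul_le_mul_of_nonneg_left h40 hKpos.le
      linarith
    have h4 : 2 * (n : ℝ) * (2 * (2 / Real.pi * (ω / 2))) ≤ 2 * n * (2 * Real.sin (ω / 2)) :=
      mul_le_mul_of_nonneg_left (by linarith) (by linarith)
    linarith
  have hB : b0 ≤ Real.cos (ω * (m + 1 / 2)) := by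
    rw [hb0, ← Real.cos_pi_div_two_sub]
    apply Real.cos_le_cos_of_nonneg_of_le_pi
    · positivity
    · linarith
    · have : ω * ((m : ℝ) + 1 / 2) = ω * m + ω / 2 := by ring
      rw [this]
      linarith
  have k1 : c * n / (4 * M) * b0 ≤ (∑ j ∈ range (m * K), x j) * Real.cos (ω * (m + 1 / 2)) :=
    mul_le_mul hsm hB hb0pos.le (hSpos _)
  have k2 : x (m * K) * (K * Real.sin (ω * m) / (2 * Real.sin (ω / 2))) ≤ U / n * (2 * n) := by
    apply mul_le_mul hupper hA
    · apply div_nonneg _ (by linarith)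
      apply mul_nonneg hKpos.le
      apply Real.sin_nonneg_of_nonneg_of_le_pi (by positivity) (by linarith)
    · positivity
  have k3 : U / n * (2 * n) = 2 * U := by field_simp
  have k4 : c * n / (4 * M) * b0 ≤ 2 * U := by linarith
  have k5 : c * n / (4 * M) * b0 = n * (c * b0) / (4 * M) := by ring
  rw [k5, div_le_iff₀ (by positivity)] at k4
  have k6 : 8 * M * U / (c * b0) < n := by linarith
  rw [div_lt_iff₀ (by positivity)] at k6
  linarith

end Pool.Agent.Helper951.Lg
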