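import Pool.Agent.Helper951.LgM
import Pool.Agent.Helper951.LgN
import Pool.Agent.Helper951.Spec

set_option autoImplicit false
set_option linter.unusedSectionVars false

open Finset

namespace Pool.Agent.Helper951.Lg

open Pool.Agent.Helper951.Spec

/-- the constant -/
noncomputable def cst (D : ℕ) : ℝ := if D % 2 = 1 then (D : ℝ) - 1 else 2 * (D : ℝ) - 4

lemma cst_pos {D : ℕ} (hD : 3 ≤ D) : 0 < cst D := by
  have hDr : (3 : ℝ) ≤ D := by exact_mod_cast hD
  unfold cst
  split_ifs <;> linarith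

theorem T_all {D n N : ℕ} {e : ℕ → ℕ → ℕ} {x : ℕ → ℝ} {J : ℝ} (h : OG D n N e x J)
    (hD : 3 ≤ D) (hNn : N < n) (a b : ℕ) (ha : 1 ≤ a) (hab : a ≤ b) (hb : b ≤ N) :
    cst D * (x (a - 1) - x b) ≤ J * ((b : ℝ) - a + 10 * D) := by
  unfold cst
  split_ifs with hodd
  · exact T_odd h hodd hD hNn a b ha hab hb
  · exact T_even h (by omega) (by omega) hNn a b ha hab hb

section graph
variable {n : ℕ} (G : SimpleGraph (Fin n)) [DecidableRel G.Adj]

/-- reordered profile -/
noncomputable def xs (σ : Equiv.Perm (Fin n)) (y : Fin n → ℝ) (i : ℕ) : ℝ :=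
  if h : i < n then y (σ ⟨i, h⟩) else 0

/-- reordered adjacency -/
def es (σ : Equiv.Perm (Fin n)) (i k : ℕ) : ℕ :=
  if h : i < n ∧ k < n then (if G.Adj (σ ⟨i, h.1⟩) (σ ⟨k, h.2⟩) then 1 else 0) else 0

lemma xs_fin (σ : Equiv.Perm (Fin n)) (y : Fin n → ℝ) (i : Fin n) : xs σ y i = y (σ i) := by
  unfold xs
  rw [dif_pos i.2]

lemma es_fin (σ : Equiv.Perm (Fin n)) (i k : Fin n) :
    es G σ i k = if G.Adj (σ i) (σ k) then 1 else 0 := by
  unfold es
  rw [dif_pos ⟨i.2, k.2⟩]

lemma sum_es (σ : Equiv.Perm (Fin n)) (f : Fin n → ℝ) (i : Fin n) :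
    ∑ k ∈ range n, (es G σ i k : ℝ) * xs σ f k = ∑ u ∈ G.neighborFinset (σ i), f u := by
  rw [Finset.sum_range]
  have h1 : ∀ k : Fin n, (es G σ i k : ℝ) * xs σ f k =
      (fun v => if G.Adj (σ i) v then f v else 0) (σ k) := by
    intro k
    rw [es_fin, xs_fin]
    simp only
    split_ifs <;> simp
  rw [Finset.sum_congr rfl (fun k _ => h1 k),
    Equiv.sum_comp σ (fun v => if G.Adj (σ i) v then f v else 0), ← Finset.sum_filter]
  apply Finset.sum_congr _ (fun _ _ => rfl)
  ext u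
  simp

lemma sum_es_deg (σ : Equiv.Perm (Fin n)) (i : Fin n) :
    ∑ k ∈ range n, es G σ i k = G.degree (σ i) := by
  rw [Finset.sum_range]
  have h1 : ∀ k : Fin n, es G σ i k = (fun v => if G.Adj (σ i) v then 1 else 0) (σ k) := by
    intro k
    rw [es_fin]
  rw [Finset.sum_congr rfl (fun k _ => h1 k),
    Equiv.sum_comp σ (fun v => if G.Adj (σ i) v then 1 else 0), ← Finset.sum_filter,
    ← Finset.card_eq_sum_ones, ← SimpleGraph.card_neighborFinset_eq_degree]
  congr 1
  ext u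
  simp

lemma conn_edge (hG : G.Connected) (S : Set (Fin n)) (a b : Fin n) (ha : a ∈ S) (hb : b ∉ S) :
    ∃ u v, u ∈ S ∧ v ∉ S ∧ G.Adj u v := by
  obtain ⟨p⟩ := hG.preconnected a b
  obtain ⟨d, _, h1, h2⟩ := p.exists_boundary_dart S ha hb
  exact ⟨d.fst, d.snd, h1, h2, d.adj⟩

lemma es_symm (σ : Equiv.Perm (Fin n)) (i k : ℕ) : es G σ i k = es G σ k i := by
  unfold es
  by_cases h : i < n ∧ k < n
  · rw [dif_pos h, dif_pos h.symm]
    by_cases h2 : G.Adj (σ ⟨i, h.1⟩) (σ ⟨k, h.2⟩)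
    · rw [if_pos h2, if_pos h2.symm]
    · rw [if_neg h2, if_neg (fun hh => h2 hh.symm)]
  · rw [dif_neg h, dif_neg (fun hh => h hh.symm)]

lemma og (D N : ℕ) (hG : G.Connected) (σ : Equiv.Perm (Fin n)) (y : Fin n → ℝ) (ρ : ℝ)
    (hy0 : ∀ v, 0 ≤ y v) (hev : ∀ v, ∑ u ∈ G.neighborFinset v, y u = ρ * y v)
    (hanti : Antitone (xs σ y)) (hρ : ρ ≤ D) (hN : N ≤ n)
    (hdeg : ∀ i : Fin n, (i : ℕ) < N → G.degree (σ i) = D) :
    OG D n N (es G σ) (xs σ y) (((D : ℝ) - ρ) * ∑ i ∈ range N, xs σ y i) := by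
  have hxs0 : ∀ i, 0 ≤ xs σ y i := by
    intro i
    unfold xs
    split_ifs
    · exact hy0 _
    · exact le_rfl
  refine ⟨?_, es_symm G σ, ?_, hN, ?_, hanti, ?_, ?_⟩
  · intro i k
    unfold es
    split_ifs <;> omega
  · intro i
    unfold es
    split_ifs with h1 h2
    · exact absurd h2 (G.loopless.irrefl _)
    · rfl
    · rfl
  · intro i hi
    have hin : i < n := by omega
    have := sum_es_deg G σ ⟨i, hin⟩
    simp only at this
    rw [this]
    exact hdeg ⟨i, hin⟩ hi
  · intro A hA hAne hAn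
    obtain ⟨i, hi⟩ := hAne
    have hin : i < n := by have := hA hi; rwa [mem_range] at this
    obtain ⟨j, hj, hjA⟩ : ∃ j ∈ range n, j ∉ A := by
      by_contra hcon
      push Not at hcon
      exact hAn (Finset.Subset.antisymm hA hcon)
    rw [mem_range] at hj
    obtain ⟨u, v, hu, hv, huv⟩ := conn_edge G hG {w | ((σ.symm w : Fin n) : ℕ) ∈ A}
      (σ ⟨i, hin⟩) (σ ⟨j, hj⟩) (by simpa using hi) (by simpa using hjA)
    refine ⟨(σ.symm u : Fin n), hu, (σ.symm v : Fin n), ?_, ?_⟩
    · rw [mem_sdiff, mem_range]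
      exact ⟨(σ.symm v).2, hv⟩
    · rw [es_fin]
      simp only [Equiv.apply_symm_apply]
      rw [if_pos huv]
  · intro A hA
    have hAn : A ⊆ range n := by
      intro i hi
      have := hA hi
      rw [mem_range] at this ⊢
      omega
    have h1 : ∑ i ∈ A, ∑ k ∈ range n, (es G σ i k : ℝ) * (xs σ y i - xs σ y k) =
        ∑ i ∈ A, ∑ k ∈ range n \ A, (es G σ i k : ℝ) * (xs σ y i - xs σ y k) +
        ∑ i ∈ A, ∑ k ∈ A, (es G σ i k : ℝ) * (xs σ y i - xs σ y k) := by
      rw [← Finset.sum_add_distrib]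
      apply Finset.sum_congr rfl
      intro i _
      rw [Finset.sum_sdiff hAn]
    have h2 : ∑ i ∈ A, ∑ k ∈ A, (es G σ i k : ℝ) * (xs σ y i - xs σ y k) = 0 := by
      have h3 : ∑ i ∈ A, ∑ k ∈ A, (es G σ i k : ℝ) * (xs σ y i - xs σ y k) =
          - ∑ i ∈ A, ∑ k ∈ A, (es G σ i k : ℝ) * (xs σ y i - xs σ y k) := by
        conv_lhs => rw [Finset.sum_comm]
        rw [← Finset.sum_neg_distrib]
        apply Finset.sum_congr rfl
        intro i _
        rw [← Finset.sum_neg_distrib]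
        apply Finset.sum_congr rfl
        intro k _
        rw [es_symm]; ring
      linarith
    have h4 : ∀ i ∈ A, ∑ k ∈ range n, (es G σ i k : ℝ) * (xs σ y i - xs σ y k) =
        ((D : ℝ) - ρ) * xs σ y i := by
      intro i hi
      have hiN : i < N := by have := hA hi; rwa [mem_range] at this
      have hin : i < n := by omega
      have e1 : ∑ k ∈ range n, (es G σ i k : ℝ) * (xs σ y i - xs σ y k) =
          ((∑ k ∈ range n, es G σ i k : ℕ) : ℝ) * xs σ y i -
            ∑ k ∈ range n, (es G σ i k : ℝ) * xs σ y k := by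
        push_cast
        rw [Finset.sum_mul, ← Finset.sum_sub_distrib]
        apply Finset.sum_congr rfl
        intro k _
        ring
      have e2 := sum_es_deg G σ ⟨i, hin⟩
      have e3 := sum_es G σ y ⟨i, hin⟩
      have e4 := xs_fin σ y ⟨i, hin⟩
      simp only at e2 e3 e4
      rw [e1, e2, e3, hdeg ⟨i, hin⟩ hiN, hev, ← e4]
      ring
    rw [h2, add_zero] at h1
    rw [← h1, Finset.sum_congr rfl h4, ← Finset.mul_sum]
    apply mul_le_mul_of_nonneg_left _ (by linarith)
    exact Finset.sum_le_sum_of_subset_of_nonneg hA (fun i _ _ => hxs0 i)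

/-- sum over all vertices -/
lemma total_deficit (y : Fin n → ℝ) (ρ : ℝ)
    (hev : ∀ v, ∑ u ∈ G.neighborFinset v, y u = ρ * y v) :
    ∑ v, (G.degree v : ℝ) * y v = ρ * ∑ v, y v := by
  have h1 := sum_swap G y (fun _ => (1 : ℝ))
  simp only [one_mul, Finset.sum_const, nsmul_eq_mul, mul_one] at h1
  rw [Finset.sum_congr rfl (fun v _ => hev v), ← Finset.mul_sum] at h1
  rw [h1]
  apply Finset.sum_congr rfl
  intro v _
  rw [SimpleGraph.card_neighborFinset_eq_degree]
  ring

end graph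

theorem lower (D : ℕ) (hD : 3 ≤ D) (η : ℝ) (hη : 0 < η) : ∃ n0 : ℕ, ∀ n : ℕ, n0 ≤ n →
    ∀ (G : SimpleGraph (Fin n)) (_ : DecidableRel G.Adj), G.Connected → (∀ v, G.degree v ≤ D) →
      (∃ v, G.degree v < D) →
      cst D * Real.pi ^ 2 / 4 - η ≤ (n : ℝ) ^ 2 * ((D : ℝ) - specRad G) := by
  obtain ⟨n0, hn0⟩ := sturm (cst D) (10 * D) η (cst_pos hD) (by positivity) hη
  refine ⟨n0, ?_⟩
  intro n hn G _ hG hdeg hdef
  have : Nonempty (Fin n) := hG.nonempty
  have hnpos : 0 < n := Fin.pos_iff_nonempty.2 inferInstance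
  obtain ⟨x0, hx1, hx0, hev0⟩ := exists_perron G
  set ρ := specRad G with hρ
  -- maximal vertex
  obtain ⟨v0, hv0⟩ := Finite.exists_max x0
  have hv0pos : 0 < x0 v0 := by
    by_contra hcon
    push Not at hcon
    have : x0 = 0 := funext (fun v => le_antisymm ((hv0 v).trans hcon) (hx0 v))
    rw [this] at hx1
    simp at hx1
  set y : Fin n → ℝ := fun v => x0 v / x0 v0 with hy
  have hy0 : ∀ v, 0 ≤ y v := fun v => div_nonneg (hx0 v) hv0pos.le
  have hy1 : ∀ v, y v ≤ 1 := fun v => by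
    rw [hy]; simp only; rw [div_le_one hv0pos]; exact hv0 v
  have hyv0 : y v0 = 1 := div_self hv0pos.ne'
  have hev : ∀ v, ∑ u ∈ G.neighborFinset v, y u = ρ * y v := by
    intro v
    rw [hy]
    simp only
    rw [← Finset.sum_div, hev0 v]
    ring
  have hρD : ρ ≤ D := by
    have h1 := hev v0
    rw [hyv0, mul_one] at h1
    rw [← h1]
    calc ∑ u ∈ G.neighborFinset v0, y u ≤ ∑ u ∈ G.neighborFinset v0, (1 : ℝ) :=
          Finset.sum_le_sum (fun u _ => hy1 u)
      _ = G.degree v0 := by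
          rw [Finset.sum_const, nsmul_eq_mul, mul_one, SimpleGraph.card_neighborFinset_eq_degree]
      _ ≤ D := by exact_mod_cast hdeg v0
  set ε : ℝ := (D : ℝ) - ρ with hε
  have hε0 : 0 ≤ ε := by linarith
  -- deficient vertices
  have hsum := total_deficit G y ρ hev
  have hdefsum : ∑ v, ((D : ℝ) - G.degree v) * y v = ε * ∑ v, y v := by
    simp only [sub_mul]
    rw [Finset.sum_sub_distrib, hsum, ← Finset.mul_sum, hε]
    ring
  have hsumn : ∑ v, y v ≤ n := by
    calc ∑ v, y v ≤ ∑ v : Fin n, (1 : ℝ) := Finset.sum_le_sum (fun v _ => hy1 v)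
      _ = n := by simp
  have hdefv : ∀ v, G.degree v < D → y v ≤ ε * n := by
    intro v hv
    have h1 : (1 : ℝ) ≤ (D : ℝ) - G.degree v := by
      have : (G.degree v : ℝ) + 1 ≤ D := by exact_mod_cast hv
      linarith
    calc y v = 1 * y v := by ring
      _ ≤ ((D : ℝ) - G.degree v) * y v := mul_le_mul_of_nonneg_right h1 (hy0 v)
      _ ≤ ∑ v, ((D : ℝ) - G.degree v) * y v := by
          apply Finset.single_le_sum (f := fun v => ((D : ℝ) - G.degree v) * y v) _ (mem_univ v)
          intro w _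
          apply mul_nonneg _ (hy0 w)
          have : (G.degree w : ℝ) ≤ D := by exact_mod_cast hdeg w
          linarith
      _ = ε * ∑ v, y v := hdefsum
      _ ≤ ε * n := mul_le_mul_of_nonneg_left hsumn hε0
  -- sorting
  set σ := Tuple.sort (fun v => - y v) with hσ
  have hmono : Monotone ((fun v => - y v) ∘ σ) := Tuple.monotone_sort _
  have hanti : Antitone (xs σ y) := by
    intro i j hij
    unfold xs
    by_cases hj : j < n
    · have hi : i < n := by omega
      rw [dif_pos hj, dif_pos hi]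
      have := hmono (show (⟨i, hi⟩ : Fin n) ≤ ⟨j, hj⟩ from hij)
      simp only [Function.comp] at this
      linarith
    · rw [dif_neg hj]
      split_ifs
      · exact hy0 _
      · exact le_rfl
  have hxs0 : ∀ i, 0 ≤ xs σ y i := by
    intro i
    unfold xs
    split_ifs
    · exact hy0 _
    · exact le_rfl
  have hx01 : xs σ y 0 = 1 := by
    apply le_antisymm
    · unfold xs
      rw [dif_pos hnpos]
      exact hy1 _
    · have h1 := hanti (Nat.zero_le ((σ.symm v0 : Fin n) : ℕ))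
      rw [xs_fin, Equiv.apply_symm_apply, hyv0] at h1
      exact h1
  obtain ⟨vd, hvd⟩ := hdef
  have hex : ∃ i, xs σ y i ≤ ε * n := by
    refine ⟨((σ.symm vd : Fin n) : ℕ), ?_⟩
    rw [xs_fin, Equiv.apply_symm_apply]
    exact hdefv vd hvd
  classical
  set N := Nat.find hex with hN
  have hNspec : xs σ y N ≤ ε * n := Nat.find_spec hex
  have hNmin : ∀ i, i < N → ε * n < xs σ y i := fun i hi => not_le.1 (Nat.find_min hex hi)
  have hNn : N < n := by
    have h1 : N ≤ ((σ.symm vd : Fin n) : ℕ) := by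
      apply Nat.find_min'
      rw [xs_fin, Equiv.apply_symm_apply]
      exact hdefv vd hvd
    have := (σ.symm vd).2
    omega
  have hfull : ∀ i : Fin n, (i : ℕ) < N → G.degree (σ i) = D := by
    intro i hi
    by_contra hne
    have h1 : G.degree (σ i) < D := lt_of_le_of_ne (hdeg _) hne
    have h2 := hdefv _ h1
    have h3 := hNmin i hi
    rw [xs_fin] at h3
    linarith
  have hmain := hn0 n hn N hNn.le ε hε0 (xs σ y) hanti hxs0 hx01 hNspec (by
    intro a b ha hab hb
    have hog := og G D b hG σ y ρ hy0 hev hanti hρD (by omega) (fun i hi => hfull i (by omega))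
    exact T_all hog hD (by omega) a b ha hab le_rfl)
  exact hmain

end Pool.Agent.Helper951.Lg
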