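import Mathlib

set_option autoImplicit false
set_option linter.unusedSectionVars false

open Finset

namespace Pool.Agent.Helper951.Lg

/-- left end of the closed neighbourhood -/
def lo' (D s m k v : ℕ) : ℕ :=
  if v < m + k * (D + 1) then
    (if (v - m) % (D + 1) = 0 then v - s
      else if (v - m) % (D + 1) + s < D + 1 then v - (v - m) % (D + 1)
      else v - (v - m) % (D + 1) + 1)
  else if v = m + k * (D + 1) then v - s else v - 1

lemma mod_aux (D m i j : ℕ) (hj : j < D + 1) : (m + i * (D + 1) + j - m) % (D + 1) = j := by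
  rw [show m + i * (D + 1) + j - m = j + i * (D + 1) by omega, Nat.add_mul_mod_self_right,
    Nat.mod_eq_of_lt hj]

lemma blk_lt (D m k i j : ℕ) (hi : i < k) (hj : j < D + 1) :
    m + i * (D + 1) + j < m + k * (D + 1) := by
  have : (i + 1) * (D + 1) ≤ k * (D + 1) := Nat.mul_le_mul_right _ hi
  have h2 : (i + 1) * (D + 1) = i * (D + 1) + (D + 1) := by ring
  omega

lemma blk_le (D m k i : ℕ) (hi : i ≤ k) : m + i * (D + 1) ≤ m + k * (D + 1) := by
  have : i * (D + 1) ≤ k * (D + 1) := Nat.mul_le_mul_right _ hi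
  omega

lemma lo_q (D s m k i : ℕ) (hi : i ≤ k) : lo' D s m k (m + i * (D + 1)) = m + i * (D + 1) - s := by
  unfold lo'
  rcases hi.lt_or_eq with h | h
  · have h1 := blk_lt D m k i 0 h (by omega)
    rw [Nat.add_zero] at h1
    rw [if_pos h1]
    have h2 := mod_aux D m i 0 (by omega)
    rw [Nat.add_zero] at h2
    rw [h2, if_pos rfl]
  · subst h
    rw [if_neg (by omega), if_pos rfl]

lemma lo_Z (D s m k i j : ℕ) (hi : i < k) (hj : 1 ≤ j) (hj2 : j + s < D + 1) :
    lo' D s m k (m + i * (D + 1) + j) = m + i * (D + 1) := by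
  unfold lo'
  rw [if_pos (blk_lt D m k i j hi (by omega)), mod_aux D m i j (by omega), if_neg (by omega),
    if_pos hj2]
  omega

lemma lo_P (D s m k i j : ℕ) (hi : i < k) (hj : 1 ≤ j) (hj1 : j < D + 1) (hj2 : D + 1 ≤ j + s) :
    lo' D s m k (m + i * (D + 1) + j) = m + i * (D + 1) + 1 := by
  unfold lo'
  rw [if_pos (blk_lt D m k i j hi (by omega)), mod_aux D m i j (by omega), if_neg (by omega),
    if_neg (by omega)]
  omega

lemma lo_tail (D s m k v : ℕ) (hv : m + k * (D + 1) < v) : lo' D s m k v = v - 1 := by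
  unfold lo'
  rw [if_neg (by omega), if_neg (by omega)]

/-- decomposition of a vertex in the blocks -/
lemma blk_dec (D m k v : ℕ) (h1 : m ≤ v) (h2 : v < m + k * (D + 1)) :
    ∃ i j, i < k ∧ j < D + 1 ∧ v = m + i * (D + 1) + j := by
  refine ⟨(v - m) / (D + 1), (v - m) % (D + 1), ?_, Nat.mod_lt _ (by omega), ?_⟩
  · rw [Nat.div_lt_iff_lt_mul (by omega)]; omega
  · have := Nat.div_add_mod' (v - m) (D + 1)
    omega

lemma lo_ge (D s m k : ℕ) (hs : s ≤ D) (t : ℕ) (ht : t ≤ k) (u : ℕ)
    (hu : m + t * (D + 1) < u) : m + t * (D + 1) ≤ lo' D s m k u := by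
  have hle := blk_le D m k t ht
  rcases lt_trichotomy u (m + k * (D + 1)) with h | h | h
  · obtain ⟨i, j, hi, hj, rfl⟩ := blk_dec D m k u (by omega) h
    have hti : t ≤ i := by
      by_contra hcon
      have : (i + 1) * (D + 1) ≤ t * (D + 1) := Nat.mul_le_mul_right _ (by omega)
      have h2 : (i + 1) * (D + 1) = i * (D + 1) + (D + 1) := by ring
      omega
    have hti2 : t * (D + 1) ≤ i * (D + 1) := Nat.mul_le_mul_right _ hti
    by_cases hj0 : j = 0
    · subst hj0
      rw [show m + i * (D + 1) + 0 = m + i * (D + 1) from rfl] at hu ⊢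
      rw [lo_q D s m k i hi.le]
      have hlt : t < i := by
        rcases hti.lt_or_eq with h3 | h3
        · exact h3
        · subst h3; omega
      have : (t + 1) * (D + 1) ≤ i * (D + 1) := Nat.mul_le_mul_right _ hlt
      have h2 : (t + 1) * (D + 1) = t * (D + 1) + (D + 1) := by ring
      omega
    · by_cases hj2 : j + s < D + 1
      · rw [lo_Z D s m k i j hi (by omega) hj2]; omega
      · rw [lo_P D s m k i j hi (by omega) hj (by omega)]; omega
  · subst h
    rw [lo_q D s m k k le_rfl]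
    have hlt : t < k := by
      rcases ht.lt_or_eq with h3 | h3
      · exact h3
      · subst h3; omega
    have : (t + 1) * (D + 1) ≤ k * (D + 1) := Nat.mul_le_mul_right _ hlt
    have h2 : (t + 1) * (D + 1) = t * (D + 1) + (D + 1) := by ring
    omega
  · rw [lo_tail D s m k u h]; omega

lemma lo_ge' (D s m k : ℕ) (hs : s ≤ D) (t : ℕ) (ht : t ≤ k) (u : ℕ)
    (hu : m + t * (D + 1) ≤ u) : m + t * (D + 1) - s ≤ lo' D s m k u := by
  rcases hu.lt_or_eq with h | h
  · have := lo_ge D s m k hs t ht u h; omega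
  · subst h
    rw [lo_q D s m k t ht]

/-- the left neighbour is always a neighbour -/
lemma lo_lt (D s m k : ℕ) (hs1 : 1 ≤ s) (hs : s + 1 ≤ D) (v : ℕ) (hm : 1 ≤ m) (hv : m ≤ v) :
    lo' D s m k v ≤ v - 1 := by
  rcases lt_trichotomy v (m + k * (D + 1)) with h | h | h
  · obtain ⟨i, j, hi, hj, rfl⟩ := blk_dec D m k v hv h
    by_cases hj0 : j = 0
    · subst hj0
      rw [Nat.add_zero, lo_q D s m k i hi.le]; omega
    · by_cases hj2 : j + s < D + 1
      · rw [lo_Z D s m k i j hi (by omega) hj2]; omega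
      · rw [lo_P D s m k i j hi (by omega) hj (by omega)]; omega
  · subst h
    rw [lo_q D s m k k le_rfl]; omega
  · rw [lo_tail D s m k v h]

/-- cap data -/
structure Cap (D s m : ℕ) (A : ℕ → ℕ → Prop) : Prop where
  symm : ∀ u v, A u v → A v u
  deg1 : ∀ v, v + s < m → ∀ (_ : DecidablePred (A v)), ((range m).filter (A v)).card = D
  deg2 : ∀ v, v < m → m ≤ v + s → ∀ (_ : DecidablePred (A v)), ((range m).filter (A v)).card + 1 = D
  irr : ∀ v, ¬ A v v
  conn : ∀ v, v + 1 < m → A v (m - 1) ∨ (A v 0 ∧ A 0 (m - 1))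
  hm : D + 1 ≤ m
  hm' : m ≤ D + 2

/-- adjacency of the extremal candidates -/
def Ad (D s m k : ℕ) (A : ℕ → ℕ → Prop) (u v : ℕ) : Prop :=
  (u < v ∧ v < m ∧ A u v) ∨ (v < u ∧ u < m ∧ A u v) ∨
    (u < v ∧ m ≤ v ∧ lo' D s m k v ≤ u) ∨ (v < u ∧ m ≤ u ∧ lo' D s m k u ≤ v)

lemma Ad_symm {D s m k : ℕ} {A : ℕ → ℕ → Prop} (hA : ∀ u v, A u v → A v u) (u v : ℕ)
    (h : Ad D s m k A u v) : Ad D s m k A v u := by
  unfold Ad at *
  rcases h with ⟨a, b, c⟩ | ⟨a, b, c⟩ | ⟨a, b, c⟩ | ⟨a, b, c⟩
  · exact Or.inr (Or.inl ⟨a, b, hA _ _ c⟩)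
  · exact Or.inl ⟨a, b, hA _ _ c⟩
  · exact Or.inr (Or.inr (Or.inr ⟨a, b, c⟩))
  · exact Or.inr (Or.inr (Or.inl ⟨a, b, c⟩))

lemma Ad_irr {D s m k : ℕ} {A : ℕ → ℕ → Prop} (u : ℕ) : ¬ Ad D s m k A u u := by
  unfold Ad; omega

section nb
variable {D s m k n : ℕ} {A : ℕ → ℕ → Prop} (hs1 : 1 ≤ s) (hs : s + 1 ≤ D) (hm : s ≤ m)
  (hn : m + k * (D + 1) < n)
include hs1 hs hm hn

lemma Ad_lt (u v : ℕ) (huv : u < v) (hv : m ≤ v) : Ad D s m k A v u ↔ lo' D s m k v ≤ u := by
  unfold Ad
  constructor
  · intro h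
    rcases h with ⟨a, b, c⟩ | ⟨a, b, c⟩ | ⟨a, b, c⟩ | ⟨a, b, c⟩ <;> omega
  · intro h
    right; right; right
    exact ⟨huv, hv, h⟩

lemma Ad_gt (u v : ℕ) (huv : v < u) (hu : m ≤ u) : Ad D s m k A v u ↔ lo' D s m k u ≤ v := by
  unfold Ad
  constructor
  · intro h
    rcases h with ⟨a, b, c⟩ | ⟨a, b, c⟩ | ⟨a, b, c⟩ | ⟨a, b, c⟩ <;> omega
  · intro h
    right; right; left
    exact ⟨huv, hu, h⟩

open Classical in
lemma nb_q (i : ℕ) (hi : i < k) : (range n).filter (Ad D s m k A (m + i * (D + 1))) =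
    (Ico (m + i * (D + 1) - s) (m + i * (D + 1) + (D + 1) - s)).erase (m + i * (D + 1)) := by
  have hblk := blk_lt D m k i D hi (by omega)
  ext u
  rw [mem_filter, mem_range, mem_erase, mem_Ico]
  rcases lt_trichotomy u (m + i * (D + 1)) with h | h | h
  · rw [Ad_lt hs1 hs hm hn u _ h (by omega), lo_q D s m k i hi.le]
    omega
  · subst h
    constructor
    · rintro ⟨_, h2⟩
      exact absurd h2 (Ad_irr _)
    · rintro ⟨h2, _⟩
      exact absurd rfl h2
  · rw [Ad_gt hs1 hs hm hn u _ h (by omega)]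
    by_cases h2 : u < m + i * (D + 1) + (D + 1)
    · obtain ⟨j, rfl⟩ : ∃ j, u = m + i * (D + 1) + j := ⟨u - (m + i * (D + 1)), by omega⟩
      by_cases hj2 : j + s < D + 1
      · rw [lo_Z D s m k i j hi (by omega) hj2]; omega
      · rw [lo_P D s m k i j hi (by omega) (by omega) (by omega)]; omega
    · have h3 := lo_ge' D s m k (by omega) (i + 1) hi u (by
        have : (i + 1) * (D + 1) = i * (D + 1) + (D + 1) := by ring
        omega)
      have : (i + 1) * (D + 1) = i * (D + 1) + (D + 1) := by ring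
      omega

open Classical in
lemma nb_Z (i j : ℕ) (hi : i < k) (hj : 1 ≤ j) (hj2 : j + s < D + 1) :
    (range n).filter (Ad D s m k A (m + i * (D + 1) + j)) =
    (Ico (m + i * (D + 1)) (m + i * (D + 1) + (D + 1))).erase (m + i * (D + 1) + j) := by
  have hblk := blk_lt D m k i D hi (by omega)
  ext u
  rw [mem_filter, mem_range, mem_erase, mem_Ico]
  rcases lt_trichotomy u (m + i * (D + 1) + j) with h | h | h
  · rw [Ad_lt hs1 hs hm hn u _ h (by omega), lo_Z D s m k i j hi hj hj2]
    omega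
  · subst h
    constructor
    · rintro ⟨_, h2⟩
      exact absurd h2 (Ad_irr _)
    · rintro ⟨h2, _⟩
      exact absurd rfl h2
  · rw [Ad_gt hs1 hs hm hn u _ h (by omega)]
    by_cases h2 : u < m + i * (D + 1) + (D + 1)
    · obtain ⟨j', rfl⟩ : ∃ j', u = m + i * (D + 1) + j' := ⟨u - (m + i * (D + 1)), by omega⟩
      by_cases hj2 : j' + s < D + 1
      · rw [lo_Z D s m k i j' hi (by omega) hj2]; omega
      · rw [lo_P D s m k i j' hi (by omega) (by omega) (by omega)]; omega
    · have h3 := lo_ge' D s m k (by omega) (i + 1) hi u (by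
        have : (i + 1) * (D + 1) = i * (D + 1) + (D + 1) := by ring
        omega)
      have : (i + 1) * (D + 1) = i * (D + 1) + (D + 1) := by ring
      omega

open Classical in
lemma nb_P (i j : ℕ) (hi : i < k) (hj1 : j < D + 1) (hj2 : D + 1 ≤ j + s) :
    (range n).filter (Ad D s m k A (m + i * (D + 1) + j)) =
    (Ico (m + i * (D + 1) + 1) (m + i * (D + 1) + 1 + (D + 1))).erase (m + i * (D + 1) + j) := by
  have hblk := blk_lt D m k i D hi (by omega)
  ext u
  rw [mem_filter, mem_range, mem_erase, mem_Ico]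
  rcases lt_trichotomy u (m + i * (D + 1) + j) with h | h | h
  · rw [Ad_lt hs1 hs hm hn u _ h (by omega), lo_P D s m k i j hi (by omega) hj1 hj2]
    omega
  · subst h
    constructor
    · rintro ⟨_, h2⟩
      exact absurd h2 (Ad_irr _)
    · rintro ⟨h2, _⟩
      exact absurd rfl h2
  · rw [Ad_gt hs1 hs hm hn u _ h (by omega)]
    have e1 : (i + 1) * (D + 1) = i * (D + 1) + (D + 1) := by ring
    have e2 := blk_le D m k (i + 1) hi
    by_cases h2 : u < m + i * (D + 1) + (D + 1)
    · obtain ⟨j', rfl⟩ : ∃ j', u = m + i * (D + 1) + j' := ⟨u - (m + i * (D + 1)), by omega⟩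
      rw [lo_P D s m k i j' hi (by omega) (by omega) (by omega)]; omega
    · by_cases h3 : u = m + i * (D + 1) + (D + 1)
      · have h4 := lo_q D s m k (i + 1) hi
        rw [e1, ← Nat.add_assoc, ← h3] at h4
        omega
      · have h4 := lo_ge D s m k (by omega) (i + 1) hi u (by omega)
        omega

open Classical in
lemma nb_tail (v : ℕ) (hv : m + k * (D + 1) ≤ v) (hvn : v < n) :
    (range n).filter (Ad D s m k A v) =
    (if v = m + k * (D + 1) then Ico (v - s) v else {v - 1}) ∪ (if v + 1 < n then {v + 1} else ∅) := by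
  ext u
  rw [mem_filter, mem_range, mem_union]
  rcases lt_trichotomy u v with h | h | h
  · rw [Ad_lt hs1 hs hm hn u _ h (by omega)]
    by_cases h1 : v = m + k * (D + 1)
    · rw [if_pos h1]
      have := lo_q D s m k k le_rfl
      rw [← h1] at this
      rw [this]
      split_ifs
      · rw [mem_Ico, mem_singleton]; omega
      · rw [mem_Ico]; simp only [notMem_empty, or_false]; omega
    · rw [if_neg h1, lo_tail D s m k v (by omega)]
      split_ifs
      · rw [mem_singleton, mem_singleton]; omega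
      · rw [mem_singleton]; simp only [notMem_empty, or_false]; omega
  · subst h
    constructor
    · rintro ⟨_, h2⟩
      exact absurd h2 (Ad_irr _)
    · intro h2
      exfalso
      split_ifs at h2
      · rw [mem_Ico, mem_singleton] at h2; omega
      · rw [mem_Ico] at h2; simp only [notMem_empty, or_false] at h2; omega
      · rw [mem_singleton, mem_singleton] at h2; omega
      · rw [mem_singleton] at h2; simp only [notMem_empty, or_false] at h2; omega
  · rw [Ad_gt hs1 hs hm hn u _ h (by omega), lo_tail D s m k u (by omega)]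
    split_ifs
    · rw [mem_Ico, mem_singleton]; omega
    · rw [mem_Ico]; simp only [notMem_empty, or_false]; omega
    · rw [mem_singleton, mem_singleton]; omega
    · rw [mem_singleton]; simp only [notMem_empty, or_false]; omega

open Classical in
lemma nb_cap (hsymm : ∀ u v, A u v → A v u) (hirr : ∀ v, ¬ A v v) (v : ℕ) (hv : v < m) :
    (range n).filter (Ad D s m k A v) =
    (range m).filter (A v) ∪ (if m ≤ v + s then {m} else ∅) := by
  ext u
  rw [mem_filter, mem_range, mem_union, mem_filter, mem_range]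
  by_cases hu : u < m
  · have h1 : Ad D s m k A v u ↔ A v u := by
      unfold Ad
      constructor
      · rintro (⟨a, b, c⟩ | ⟨a, b, c⟩ | ⟨a, b, c⟩ | ⟨a, b, c⟩)
        · exact c
        · exact c
        · omega
        · omega
      · intro h
        rcases lt_trichotomy u v with h2 | h2 | h2
        · exact Or.inr (Or.inl ⟨h2, hv, h⟩)
        · subst h2; exact absurd h (hirr _)
        · exact Or.inl ⟨h2, hu, h⟩
    rw [h1]
    constructor
    · rintro ⟨_, h⟩
      exact Or.inl ⟨hu, h⟩
    · rintro (⟨_, h⟩ | h)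
      · exact ⟨by omega, h⟩
      · split_ifs at h
        · rw [mem_singleton] at h; omega
        · simp at h
  · rw [Ad_gt hs1 hs hm hn u _ (by omega) (by omega)]
    by_cases hum : u = m
    · subst hum
      have := lo_q D s u k 0 (Nat.zero_le k)
      rw [Nat.zero_mul, Nat.add_zero] at this
      rw [this]
      split_ifs with h5
      · rw [mem_singleton]
        constructor
        · intro _; right; rfl
        · intro _; exact ⟨by omega, by omega⟩
      · simp only [notMem_empty, or_false]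
        constructor
        · rintro ⟨_, h6⟩; omega
        · rintro ⟨h6, _⟩; omega
    · have := lo_ge D s m k (by omega) 0 (Nat.zero_le k) u (by omega)
      rw [Nat.zero_mul, Nat.add_zero] at this
      constructor
      · rintro ⟨_, h6⟩; omega
      · rintro (⟨h6, _⟩ | h6)
        · omega
        · split_ifs at h6
          · rw [mem_singleton] at h6; omega
          · simp at h6

end nb

end Pool.Agent.Helper951.Lg
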