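import Pool.Agent.Helper951.LgP
import Pool.Agent.Helper951.Spec

set_option autoImplicit false
set_option linter.unusedSectionVars false

open Finset

namespace Pool.Agent.Helper951.Lg

open Pool.Agent.Helper951.Spec

/-- test vector -/
noncomputable def yv (D s m k : ℕ) (c : ℕ → ℝ) (v : ℕ) : ℝ :=
  if v < m then c 0 else if v < m + k * (D + 1) then
    (if (v - m) % (D + 1) = 0 then c ((v - m) / (D + 1))
     else if (v - m) % (D + 1) + s < D + 1 then
      c ((v - m) / (D + 1)) - s * ((c ((v - m) / (D + 1)) - c ((v - m) / (D + 1) + 1)) / (D + 1))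
     else c ((v - m) / (D + 1)) -
      (s + 1) * ((c ((v - m) / (D + 1)) - c ((v - m) / (D + 1) + 1)) / (D + 1)))
  else 0

lemma div_aux (D m i j : ℕ) (hj : j < D + 1) : (m + i * (D + 1) + j - m) / (D + 1) = i := by
  rw [show m + i * (D + 1) + j - m = j + i * (D + 1) by omega, Nat.add_mul_div_right _ _ (by omega),
    Nat.div_eq_of_lt hj, zero_add]

lemma y_cap (D s m k : ℕ) (c : ℕ → ℝ) (v : ℕ) (hv : v < m) : yv D s m k c v = c 0 := by
  unfold yv; rw [if_pos hv]

lemma y_tail (D s m k : ℕ) (c : ℕ → ℝ) (v : ℕ) (hv : m + k * (D + 1) ≤ v) :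
    yv D s m k c v = 0 := by
  unfold yv; rw [if_neg (by omega), if_neg (by omega)]

lemma y_q (D s m k : ℕ) (c : ℕ → ℝ) (hck : c k = 0) (i : ℕ) (hi : i ≤ k) :
    yv D s m k c (m + i * (D + 1)) = c i := by
  rcases hi.lt_or_eq with h | h
  · have h1 := blk_lt D m k i 0 h (by omega)
    have h2 := mod_aux D m i 0 (by omega)
    have h3 := div_aux D m i 0 (by omega)
    rw [show m + i * (D + 1) + 0 = m + i * (D + 1) from rfl] at h1 h2 h3
    unfold yv
    rw [if_neg (by omega), if_pos h1, if_pos h2, h3]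
  · subst h
    rw [y_tail D s m i c _ le_rfl, hck]

lemma y_Z (D s m k : ℕ) (c : ℕ → ℝ) (i j : ℕ) (hi : i < k) (hj : 1 ≤ j) (hj2 : j + s < D + 1) :
    yv D s m k c (m + i * (D + 1) + j) = c i - s * ((c i - c (i + 1)) / (D + 1)) := by
  unfold yv
  rw [if_neg (by omega), if_pos (blk_lt D m k i j hi (by omega)), mod_aux D m i j (by omega),
    div_aux D m i j (by omega), if_neg (by omega), if_pos hj2]

lemma y_P (D s m k : ℕ) (c : ℕ → ℝ) (i j : ℕ) (hi : i < k) (hj : 1 ≤ j) (hj1 : j < D + 1)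
    (hj2 : D + 1 ≤ j + s) :
    yv D s m k c (m + i * (D + 1) + j) = c i - (s + 1) * ((c i - c (i + 1)) / (D + 1)) := by
  unfold yv
  rw [if_neg (by omega), if_pos (blk_lt D m k i j hi (by omega)), mod_aux D m i j (by omega),
    div_aux D m i j (by omega), if_neg (by omega), if_neg (by omega)]

/-- sum of a constant function over an interval -/
lemma sum_Ico_const_of {f : ℕ → ℝ} {a b : ℕ} {t : ℝ} (h : ∀ u ∈ Ico a b, f u = t) (hab : a ≤ b) :
    ∑ u ∈ Ico a b, f u = ((b : ℝ) - a) * t := by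
  rw [Finset.sum_congr rfl h, Finset.sum_const, Nat.card_Ico, nsmul_eq_mul, Nat.cast_sub hab]

section sums
variable {D s : ℕ} (hs1 : 1 ≤ s) (hs : s + 1 ≤ D) (f : ℕ → ℝ) (B0 : ℕ) (b c : ℝ)
  (hb : ∀ j, 1 ≤ j → j + s < D + 1 → f (B0 + j) = b)
  (hc : ∀ j, j < D + 1 → D + 1 ≤ j + s → f (B0 + j) = c)
include hs1 hs hb hc

lemma S1 : ∑ u ∈ Ico (B0 + 1) (B0 + (D + 1) - s), f u = ((D : ℝ) - s) * b := by
  rw [sum_Ico_const_of (t := b) _ (by omega)]
  · rw [Nat.cast_sub (by omega)]
    push_cast; ring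
  · intro u hu
    rw [mem_Ico] at hu
    rw [show u = B0 + (u - B0) by omega]
    exact hb _ (by omega) (by omega)

lemma S2 : ∑ u ∈ Ico (B0 + (D + 1) - s) (B0 + (D + 1)), f u = (s : ℝ) * c := by
  rw [sum_Ico_const_of (t := c) _ (by omega)]
  · rw [Nat.cast_sub (by omega)]
    push_cast; ring
  · intro u hu
    rw [mem_Ico] at hu
    rw [show u = B0 + (u - B0) by omega]
    exact hc _ (by omega) (by omega)

lemma nbsum_q (hB : s ≤ B0) : ∑ u ∈ (Ico (B0 - s) (B0 + (D + 1) - s)).erase B0, f u =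
    ∑ u ∈ Ico (B0 - s) B0, f u + ((D : ℝ) - s) * b := by
  have hmem : B0 ∈ Ico (B0 - s) (B0 + (D + 1) - s) := by rw [mem_Ico]; omega
  have h1 := Finset.add_sum_erase (Ico (B0 - s) (B0 + (D + 1) - s)) f hmem
  have h2 := Finset.sum_Ico_consecutive f (show B0 - s ≤ B0 by omega)
    (show B0 ≤ B0 + (D + 1) - s by omega)
  have h3 := Finset.sum_eq_sum_Ico_succ_bot (show B0 < B0 + (D + 1) - s by omega) f
  have h4 := S1 hs1 hs f B0 b c hb hc
  linarith

lemma nbsum_Z (j : ℕ) (hj : 1 ≤ j) (hj2 : j + s < D + 1) :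
    ∑ u ∈ (Ico B0 (B0 + (D + 1))).erase (B0 + j), f u =
    f B0 + ((D : ℝ) - s) * b + s * c - b := by
  have hmem : B0 + j ∈ Ico B0 (B0 + (D + 1)) := by rw [mem_Ico]; omega
  have h1 := Finset.add_sum_erase (Ico B0 (B0 + (D + 1))) f hmem
  have h2 := Finset.sum_Ico_consecutive f (show B0 ≤ B0 + (D + 1) - s by omega)
    (show B0 + (D + 1) - s ≤ B0 + (D + 1) by omega)
  have h3 := Finset.sum_eq_sum_Ico_succ_bot (show B0 < B0 + (D + 1) - s by omega) f
  have h4 := S1 hs1 hs f B0 b c hb hc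
  have h5 := S2 hs1 hs f B0 b c hb hc
  have h6 := hb j hj hj2
  linarith

lemma nbsum_P (j : ℕ) (hj1 : j < D + 1) (hj2 : D + 1 ≤ j + s) :
    ∑ u ∈ (Ico (B0 + 1) (B0 + 1 + (D + 1))).erase (B0 + j), f u =
    ((D : ℝ) - s) * b + s * c + f (B0 + (D + 1)) - c := by
  have hmem : B0 + j ∈ Ico (B0 + 1) (B0 + 1 + (D + 1)) := by rw [mem_Ico]; omega
  have h1 := Finset.add_sum_erase (Ico (B0 + 1) (B0 + 1 + (D + 1))) f hmem
  have h2 := Finset.sum_Ico_consecutive f (show B0 + 1 ≤ B0 + (D + 1) - s by omega)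
    (show B0 + (D + 1) - s ≤ B0 + (D + 1) by omega)
  have h3 : ∑ u ∈ Ico (B0 + 1) (B0 + 1 + (D + 1)), f u = ∑ u ∈ Ico (B0 + 1) (B0 + (D + 1)), f u +
      f (B0 + (D + 1)) := by
    rw [show B0 + 1 + (D + 1) = B0 + (D + 1) + 1 by ring]
    exact Finset.sum_Ico_succ_top (by omega) f
  have h4 := S1 hs1 hs f B0 b c hb hc
  have h5 := S2 hs1 hs f B0 b c hb hc
  have h6 := hc j hj1 hj2
  linarith

end sums

/-- sums over blocks -/
lemma sum_blocks (g : ℕ → ℝ) (D m : ℕ) : ∀ k, ∑ u ∈ range (m + k * (D + 1)), g u =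
    ∑ u ∈ range m, g u + ∑ i ∈ range k, ∑ j ∈ range (D + 1), g (m + i * (D + 1) + j) := by
  intro k
  induction k with
  | zero => simp
  | succ k ih =>
    rw [show m + (k + 1) * (D + 1) = m + k * (D + 1) + (D + 1) by ring, Finset.sum_range_add, ih,
      Finset.sum_range_succ (fun i => ∑ j ∈ range (D + 1), g (m + i * (D + 1) + j)) k, add_assoc]

section main
variable {D s m k n : ℕ} {A : ℕ → ℕ → Prop} (hs1 : 1 ≤ s) (hs : s + 1 ≤ D) 
  (hcap : Cap D s m A)
  (hn : m + k * (D + 1) < n)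

/-- the graph -/
def gph (D s m k n : ℕ) (A : ℕ → ℕ → Prop) (hA : ∀ u v, A u v → A v u) : SimpleGraph (Fin n) where
  Adj u v := Ad D s m k A u v
  symm := ⟨fun u v h => Ad_symm hA u v h⟩
  loopless := ⟨fun u h => Ad_irr (u : ℕ) h⟩

include hs1 hs hcap hn

open Classical in
lemma gph_sum (f : ℕ → ℝ) (v : Fin n) :
    ∑ u ∈ (gph D s m k n A hcap.symm).neighborFinset v, f u =
      ∑ u ∈ (range n).filter (Ad D s m k A v), f u := by
  rw [Finset.sum_filter, Finset.sum_range, ← Finset.sum_filter]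
  apply Finset.sum_congr _ (fun _ _ => rfl)
  ext u
  simp [gph]

open Classical in
lemma gph_deg (v : Fin n) :
    (gph D s m k n A hcap.symm).degree v = ((range n).filter (Ad D s m k A v)).card := by
  rw [← SimpleGraph.card_neighborFinset_eq_degree, Finset.card_eq_sum_ones,
    Finset.card_eq_sum_ones, Finset.sum_filter, Finset.sum_range, ← Finset.sum_filter]
  apply Finset.sum_congr _ (fun _ _ => rfl)
  ext u
  simp [gph]

open Classical in
/-- degrees of the vertices before the tail -/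
lemma deg_body (hk : 1 ≤ k) (v : ℕ) (hv : v < m + k * (D + 1)) :
    ((range n).filter (Ad D s m k A v)).card = D := by
  have hmm := hcap.hm
  by_cases hvm : v < m
  · have h1 := nb_cap (A := A) hs1 hs (by omega) hn hcap.symm hcap.irr v hvm
    rw [h1]
    by_cases h3 : m ≤ v + s
    · rw [if_pos h3, Finset.card_union_of_disjoint]
      · rw [Finset.card_singleton]
        exact hcap.deg2 v hvm h3 _
      · rw [Finset.disjoint_singleton_right, mem_filter, mem_range]
        rintro ⟨h4, _⟩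
        omega
    · rw [if_neg h3, Finset.union_empty]
      exact hcap.deg1 v (by omega) _
  · obtain ⟨i, j, hi, hj, rfl⟩ := blk_dec D m k v (by omega) hv
    by_cases hj0 : j = 0
    · subst hj0
      have h1 := nb_q (A := A) hs1 hs (by omega) hn i hi
      have h2 : (range n).filter (Ad D s m k A (m + i * (D + 1) + 0)) =
        (Ico (m + i * (D + 1) - s) (m + i * (D + 1) + (D + 1) - s)).erase (m + i * (D + 1)) := h1
      rw [h2, Finset.card_erase_of_mem (by rw [mem_Ico]; omega), Nat.card_Ico]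
      omega
    · by_cases hj2 : j + s < D + 1
      · have h1 := nb_Z (A := A) hs1 hs (by omega) hn i j hi (by omega) hj2
        rw [h1, Finset.card_erase_of_mem (by rw [mem_Ico]; omega), Nat.card_Ico]
        omega
      · have h1 := nb_P (A := A) hs1 hs (by omega) hn i j hi hj (by omega)
        rw [h1, Finset.card_erase_of_mem (by rw [mem_Ico]; omega), Nat.card_Ico]
        omega

open Classical in
lemma deg_tail (v : ℕ) (hv : m + k * (D + 1) ≤ v) (hvn : v < n) :
    ((range n).filter (Ad D s m k A v)).card ≤ s + (if v + 1 < n then 1 else 0) := by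
  have hmm := hcap.hm
  have h1 := nb_tail (A := A) hs1 hs (by omega) hn v hv hvn
  rw [h1]
  refine (Finset.card_union_le _ _).trans ?_
  apply Nat.add_le_add
  · split_ifs
    · rw [Nat.card_Ico]; omega
    · rw [Finset.card_singleton]; exact hs1
  · split_ifs
    · rw [Finset.card_singleton]
    · simp

lemma gph_conn : (gph D s m k n A hcap.symm).Connected := by
  have hmm := hcap.hm
  have hn0 : 0 < n := by omega
  have hadj : ∀ (u v : ℕ) (hu : u < n) (hv : v < n), Ad D s m k A u v →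
      (gph D s m k n A hcap.symm).Adj ⟨u, hu⟩ ⟨v, hv⟩ := by
    intro u v hu hv h
    exact h
  have hreach : ∀ v (hv : v < n), (gph D s m k n A hcap.symm).Reachable ⟨v, hv⟩
      ⟨m - 1, by omega⟩ := by
    intro v
    induction v using Nat.strong_induction_on with
    | _ v ih =>
    intro hv
    by_cases hvm : m ≤ v
    · have h1 := ih (v - 1) (by omega) (by omega)
      refine SimpleGraph.Reachable.trans (SimpleGraph.Adj.reachable ?_) h1
      apply hadj
      right; right; right
      exact ⟨by omega, hvm, lo_lt D s m k hs1 hs v (by omega) hvm⟩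
    · by_cases hvh : v = m - 1
      · subst hvh
        exact SimpleGraph.Reachable.refl _
      · have capadj : ∀ u w, u < m → w < m → A u w → Ad D s m k A u w := by
          intro u w hu hw h
          rcases lt_trichotomy u w with h2 | h2 | h2
          · exact Or.inl ⟨h2, hw, h⟩
          · subst h2; exact absurd h (hcap.irr _)
          · exact Or.inr (Or.inl ⟨h2, hu, h⟩)
        rcases hcap.conn v (by omega) with h1 | ⟨h1, h2⟩
        · exact SimpleGraph.Adj.reachable (hadj _ _ _ _ (capadj _ _ (by omega) (by omega) h1))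
        · exact SimpleGraph.Reachable.trans
            (SimpleGraph.Adj.reachable (hadj v 0 hv hn0 (capadj _ _ (by omega) (by omega) h1)))
            (SimpleGraph.Adj.reachable (hadj 0 (m - 1) hn0 (by omega) (capadj _ _ (by omega) (by omega) h2)))
  have : Nonempty (Fin n) := ⟨⟨0, hn0⟩⟩
  refine SimpleGraph.Connected.mk ?_
  intro u v
  exact (hreach u u.2).trans (hreach v v.2).symm

end main

end Pool.Agent.Helper951.Lg
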