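import Pool.Agent.Helper951.LgQ

set_option autoImplicit false
set_option linter.unusedSectionVars false

open Finset

namespace Pool.Agent.Helper951.Lg

open Pool.Agent.Helper951.Spec

section main
variable {D s m k n : ℕ} {A : ℕ → ℕ → Prop} (hs1 : 1 ≤ s) (hs : s + 1 ≤ D) 
  (hcap : Cap D s m A)
  (hn : m + k * (D + 1) < n) (c : ℕ → ℝ) (hk : 1 ≤ k) (hck : c k = 0)
include hs1 hs hcap hn hk hck

open Classical in
lemma g_cap (v : ℕ) (hv : v < m) :
    (D : ℝ) * yv D s m k c v - ∑ u ∈ (range n).filter (Ad D s m k A v), yv D s m k c u = 0 := by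
  have hd := deg_body hs1 hs hcap hn hk v (by omega)
  have hmm := hcap.hm
  have h1 := nb_cap (A := A) hs1 hs (by omega) hn hcap.symm hcap.irr v hv
  have h2 : ∀ u ∈ (range n).filter (Ad D s m k A v), yv D s m k c u = c 0 := by
    intro u hu
    rw [h1, mem_union, mem_filter, mem_range] at hu
    rcases hu with hu | hu
    · exact y_cap D s m k c u hu.1
    · split_ifs at hu
      · rw [mem_singleton] at hu
        subst hu
        have := y_q D s u k c hck 0 (Nat.zero_le k)
        rwa [Nat.zero_mul, Nat.add_zero] at this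
      · simp at hu
  rw [Finset.sum_congr rfl h2, Finset.sum_const, hd, y_cap D s m k c v hv, nsmul_eq_mul]
  ring

open Classical in
lemma g_Z (i j : ℕ) (hi : i < k) (hj : 1 ≤ j) (hj2 : j + s < D + 1) :
    (D : ℝ) * yv D s m k c (m + i * (D + 1) + j) -
      ∑ u ∈ (range n).filter (Ad D s m k A (m + i * (D + 1) + j)), yv D s m k c u = 0 := by
  have hmm := hcap.hm
  have hD : (D : ℝ) + 1 ≠ 0 := by positivity
  rw [nb_Z (A := A) hs1 hs (by omega) hn i j hi hj hj2,
    nbsum_Z hs1 hs (yv D s m k c) (m + i * (D + 1)) (c i - s * ((c i - c (i + 1)) / (D + 1)))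
      (c i - (s + 1) * ((c i - c (i + 1)) / (D + 1)))
      (fun j h1 h2 => y_Z D s m k c i j hi h1 h2)
      (fun j h1 h2 => y_P D s m k c i j hi (by omega) h1 h2) j hj hj2,
    y_Z D s m k c i j hi hj hj2, y_q D s m k c hck i hi.le]
  ring

open Classical in
lemma g_P (i j : ℕ) (hi : i < k) (hj1 : j < D + 1) (hj2 : D + 1 ≤ j + s) :
    (D : ℝ) * yv D s m k c (m + i * (D + 1) + j) -
      ∑ u ∈ (range n).filter (Ad D s m k A (m + i * (D + 1) + j)), yv D s m k c u = 0 := by
  have hmm := hcap.hm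
  have hD : (D : ℝ) + 1 ≠ 0 := by positivity
  have e1 : m + i * (D + 1) + (D + 1) = m + (i + 1) * (D + 1) := by ring
  rw [nb_P (A := A) hs1 hs (by omega) hn i j hi hj1 hj2,
    nbsum_P hs1 hs (yv D s m k c) (m + i * (D + 1)) (c i - s * ((c i - c (i + 1)) / (D + 1)))
      (c i - (s + 1) * ((c i - c (i + 1)) / (D + 1)))
      (fun j h1 h2 => y_Z D s m k c i j hi h1 h2)
      (fun j h1 h2 => y_P D s m k c i j hi (by omega) h1 h2) j hj1 hj2,
    y_P D s m k c i j hi (by omega) hj1 hj2, e1, y_q D s m k c hck (i + 1) hi]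
  field_simp
  ring

open Classical in
lemma g_q0 : (D : ℝ) * yv D s m k c (m + 0 * (D + 1)) -
      ∑ u ∈ (range n).filter (Ad D s m k A (m + 0 * (D + 1))), yv D s m k c u =
      (s : ℝ) * (D - s) / (D + 1) * (c 0 - c 1) := by
  have hmm := hcap.hm
  have hD : (D : ℝ) + 1 ≠ 0 := by positivity
  have h0 : ∑ u ∈ Ico (m + 0 * (D + 1) - s) (m + 0 * (D + 1)), yv D s m k c u = s * c 0 := by
    rw [sum_Ico_const_of (t := c 0) _ (by omega)]
    · rw [Nat.cast_sub (by omega)]
      push_cast; ring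
    · intro u hu
      rw [mem_Ico] at hu
      exact y_cap D s m k c u (by omega)
  rw [nb_q (A := A) hs1 hs (by omega) hn 0 (by omega),
    nbsum_q hs1 hs (yv D s m k c) (m + 0 * (D + 1)) (c 0 - s * ((c 0 - c (0 + 1)) / (D + 1)))
      (c 0 - (s + 1) * ((c 0 - c (0 + 1)) / (D + 1)))
      (fun j h1 h2 => y_Z D s m k c 0 j (by omega) h1 h2)
      (fun j h1 h2 => y_P D s m k c 0 j (by omega) (by omega) h1 h2) (by omega),
    y_q D s m k c hck 0 (by omega), h0]
  field_simp
  ring

open Classical in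
lemma g_q (i : ℕ) (hi : i + 1 < k) : (D : ℝ) * yv D s m k c (m + (i + 1) * (D + 1)) -
      ∑ u ∈ (range n).filter (Ad D s m k A (m + (i + 1) * (D + 1))), yv D s m k c u =
      (s : ℝ) * (D - s) / (D + 1) * (2 * c (i + 1) - c i - c (i + 2)) := by
  have hmm := hcap.hm
  have hD : (D : ℝ) + 1 ≠ 0 := by positivity
  have e1 : m + (i + 1) * (D + 1) = m + i * (D + 1) + (D + 1) := by ring
  have h0 : ∑ u ∈ Ico (m + (i + 1) * (D + 1) - s) (m + (i + 1) * (D + 1)), yv D s m k c u =
      s * (c i - (s + 1) * ((c i - c (i + 1)) / (D + 1))) := by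
    rw [sum_Ico_const_of (t := c i - (s + 1) * ((c i - c (i + 1)) / (D + 1))) _ (by omega)]
    · rw [Nat.cast_sub (by omega)]
      push_cast; ring
    · intro u hu
      rw [mem_Ico, e1] at hu
      rw [show u = m + i * (D + 1) + (u - (m + i * (D + 1))) by omega]
      exact y_P D s m k c i _ (by omega) (by omega) (by omega) (by omega)
  rw [nb_q (A := A) hs1 hs (by omega) hn (i + 1) hi,
    nbsum_q hs1 hs (yv D s m k c) (m + (i + 1) * (D + 1))
      (c (i + 1) - s * ((c (i + 1) - c (i + 1 + 1)) / (D + 1)))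
      (c (i + 1) - (s + 1) * ((c (i + 1) - c (i + 1 + 1)) / (D + 1)))
      (fun j h1 h2 => y_Z D s m k c (i + 1) j hi h1 h2)
      (fun j h1 h2 => y_P D s m k c (i + 1) j hi (by omega) h1 h2) (by omega),
    y_q D s m k c hck (i + 1) hi.le, h0]
  field_simp
  ring

theorem gph_rayleigh (κ : ℝ) (hc0 : c 0 = 1) (hanti : ∀ i, i < k → c (i + 1) ≤ c i)
    (hpos : ∀ i, i ≤ k → 0 ≤ c i)
    (hrec : ∀ i, i + 1 < k → 2 * c (i + 1) - c i - c (i + 2) ≤ κ * c (i + 1))
    (h01 : c 0 - c 1 ≤ κ * c 0) :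
    ((D : ℝ) - specRad (gph D s m k n A hcap.symm)) * (D + 1) ^ 2 ≤ s * (D - s) * κ := by
  classical
  have hmm := hcap.hm
  have hn0 : 0 < n := by omega
  have : Nonempty (Fin n) := ⟨⟨0, hn0⟩⟩
  set G := gph D s m k n A hcap.symm with hG
  set y := yv D s m k c with hy
  set ρ := specRad G with hρ
  have hDpos : (0 : ℝ) < (D : ℝ) + 1 := by positivity
  have hsD : (0 : ℝ) ≤ (D : ℝ) - s := by
    have : (s : ℝ) + 1 ≤ D := by exact_mod_cast hs
    linarith
  have hray := rayleigh_le G (fun v => y v)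
  have hAy : (fun v : Fin n => y v) ⬝ᵥ (G.adjMatrix ℝ).mulVec (fun v => y v) =
      ∑ v ∈ range n, y v * ∑ u ∈ (range n).filter (Ad D s m k A v), y u := by
    rw [Finset.sum_range]
    unfold dotProduct
    apply Finset.sum_congr rfl
    intro v _
    rw [SimpleGraph.adjMatrix_mulVec_apply, ← gph_sum hs1 hs hcap hn y v]
  have hyy : (fun v : Fin n => y v) ⬝ᵥ (fun v : Fin n => y v) = ∑ v ∈ range n, y v * y v := by
    rw [Finset.sum_range]
    rfl
  rw [hAy, hyy] at hray
  set g : ℕ → ℝ := fun v => y v * ((D : ℝ) * y v - ∑ u ∈ (range n).filter (Ad D s m k A v), y u)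
    with hg
  have hgsum : ∑ v ∈ range n, g v = D * ∑ v ∈ range n, y v * y v -
      ∑ v ∈ range n, y v * ∑ u ∈ (range n).filter (Ad D s m k A v), y u := by
    rw [Finset.mul_sum, ← Finset.sum_sub_distrib]
    apply Finset.sum_congr rfl
    intro v _
    rw [hg]; ring
  -- g is supported on the q's
  set γ : ℝ := (s : ℝ) * (D - s) / (D + 1) with hγ
  have hγ0 : 0 ≤ γ := by positivity
  have hgle : ∑ v ∈ range n, g v ≤ γ * κ * ∑ i ∈ range k, c i ^ 2 := by
    rw [← Finset.sum_range_add_sum_Ico g hn.le]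
    have ht : ∑ v ∈ Ico (m + k * (D + 1)) n, g v = 0 := by
      apply Finset.sum_eq_zero
      intro v hv
      rw [mem_Ico] at hv
      rw [hg]
      simp only
      rw [hy, y_tail D s m k c v hv.1, zero_mul]
    rw [ht, add_zero, sum_blocks]
    have hc : ∑ v ∈ range m, g v = 0 := by
      apply Finset.sum_eq_zero
      intro v hv
      rw [mem_range] at hv
      rw [hg]
      simp only
      rw [g_cap hs1 hs hcap hn c hk hck v hv, mul_zero]
    rw [hc, zero_add, Finset.mul_sum]
    apply Finset.sum_le_sum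
    intro i hi
    rw [mem_range] at hi
    rw [Finset.sum_eq_single 0]
    · change g (m + i * (D + 1)) ≤ _
      have hci := hpos i hi.le
      rw [hg]
      simp only
      rcases Nat.eq_zero_or_pos i with h0 | h0
      · subst h0
        rw [g_q0 hs1 hs hcap hn c hk hck, hy, y_q D s m k c hck 0 (by omega)]
        have : c 0 * (γ * (c 0 - c 1)) ≤ c 0 * (γ * (κ * c 0)) :=
          mul_le_mul_of_nonneg_left (mul_le_mul_of_nonneg_left h01 hγ0) hci
        refine this.trans (le_of_eq ?_)
        ring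
      · obtain ⟨i', rfl⟩ : ∃ i', i = i' + 1 := ⟨i - 1, by omega⟩
        rw [g_q hs1 hs hcap hn c hk hck i' hi, hy, y_q D s m k c hck (i' + 1) hi.le]
        have : c (i' + 1) * (γ * (2 * c (i' + 1) - c i' - c (i' + 2))) ≤
            c (i' + 1) * (γ * (κ * c (i' + 1))) :=
          mul_le_mul_of_nonneg_left (mul_le_mul_of_nonneg_left (hrec i' hi) hγ0) hci
        refine this.trans (le_of_eq ?_)
        ring
    · intro j hj hj0
      rw [mem_range] at hj
      rw [hg]
      simp only
      by_cases hj2 : j + s < D + 1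
      · rw [g_Z hs1 hs hcap hn c hk hck i j hi (by omega) hj2, mul_zero]
      · rw [g_P hs1 hs hcap hn c hk hck i j hi hj (by omega), mul_zero]
    · intro h
      exact absurd (mem_range.2 (Nat.succ_pos D)) h
  -- lower bound of the norm
  have hnorm : ((D : ℝ) + 1) * ∑ i ∈ range k, c i ^ 2 ≤ ∑ v ∈ range n, y v * y v := by
    rw [← Finset.sum_range_add_sum_Ico (fun v => y v * y v) hn.le, sum_blocks]
    have h1 : (0 : ℝ) ≤ ∑ v ∈ Ico (m + k * (D + 1)) n, y v * y v :=
      Finset.sum_nonneg (fun v _ => mul_self_nonneg _)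
    have h2 : ∑ v ∈ range m, y v * y v = m := by
      rw [Finset.sum_congr rfl (fun v hv => by
        rw [hy, y_cap D s m k c v (mem_range.1 hv), hc0])]
      simp
    have h3 : ((D : ℝ) + 1) * ∑ i ∈ range k, c (i + 1) ^ 2 ≤
        ∑ i ∈ range k, ∑ j ∈ range (D + 1), y (m + i * (D + 1) + j) * y (m + i * (D + 1) + j) := by
      rw [Finset.mul_sum]
      apply Finset.sum_le_sum
      intro i hi
      rw [mem_range] at hi
      have hlow : ∀ j ∈ range (D + 1), c (i + 1) ^ 2 ≤
          y (m + i * (D + 1) + j) * y (m + i * (D + 1) + j) := by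
        intro j hj
        rw [mem_range] at hj
        have hd0 : 0 ≤ (c i - c (i + 1)) / ((D : ℝ) + 1) :=
          div_nonneg (by linarith [hanti i hi]) hDpos.le
        have hd1 : (c i - c (i + 1)) / ((D : ℝ) + 1) * (D + 1) = c i - c (i + 1) := by field_simp
        have hge : c (i + 1) ≤ y (m + i * (D + 1) + j) := by
          by_cases hj0 : j = 0
          · subst hj0
            change _ ≤ y (m + i * (D + 1))
            rw [hy, y_q D s m k c hck i hi.le]
            exact hanti i hi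
          · by_cases hj2 : j + s < D + 1
            · rw [hy, y_Z D s m k c i j hi (by omega) hj2]
              nlinarith
            · rw [hy, y_P D s m k c i j hi (by omega) hj (by omega)]
              nlinarith
        have := hpos (i + 1) hi
        nlinarith
      have := Finset.card_nsmul_le_sum (range (D + 1)) _ (c (i + 1) ^ 2) hlow
      rw [card_range, nsmul_eq_mul] at this
      push_cast at this
      exact this
    have h4 : ∑ i ∈ range k, c (i + 1) ^ 2 + 1 = ∑ i ∈ range k, c i ^ 2 := by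
      have e1 := Finset.sum_range_succ (fun i => c i ^ 2) k
      have e2 := Finset.sum_range_succ' (fun i => c i ^ 2) k
      rw [hck] at e1
      rw [hc0] at e2
      linarith
    have h5 : (D : ℝ) + 1 ≤ m := by exact_mod_cast hmm
    rw [← h4, h2]
    nlinarith
  set Sg := ∑ i ∈ range k, c i ^ 2 with hSg
  set Y := ∑ v ∈ range n, y v * y v with hY
  have hSg1 : 1 ≤ Sg := by
    have : c 0 ^ 2 ≤ Sg := Finset.single_le_sum (f := fun i => c i ^ 2) (fun i _ => sq_nonneg _)
      (mem_range.2 (by omega))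
    rw [hc0] at this
    linarith
  have hYpos : 0 < Y := by nlinarith
  have hmain : ((D : ℝ) - ρ) * Y ≤ γ * κ * Sg := by linarith
  have hκ0 : 0 ≤ κ := by
    have := hanti 0 (by omega)
    rw [hc0] at this h01
    rw [mul_one] at h01
    rw [show (0 : ℕ) + 1 = 1 from rfl] at this
    linarith
  have hγκ : 0 ≤ γ * κ := mul_nonneg hγ0 hκ0
  have h6 : ((D : ℝ) - ρ) * Y * (D + 1) ≤ γ * κ * Y := by
    calc ((D : ℝ) - ρ) * Y * (D + 1) ≤ γ * κ * Sg * (D + 1) :=
          mul_le_mul_of_nonneg_right hmain hDpos.le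
      _ = γ * κ * ((D + 1) * Sg) := by ring
      _ ≤ γ * κ * Y := mul_le_mul_of_nonneg_left hnorm hγκ
  have h7 : ((D : ℝ) - ρ) * (D + 1) ≤ γ * κ := by
    apply le_of_mul_le_mul_right _ hYpos
    linarith
  have h8 : ((D : ℝ) - ρ) * (D + 1) * (D + 1) ≤ γ * κ * (D + 1) :=
    mul_le_mul_of_nonneg_right h7 hDpos.le
  have h9 : γ * κ * ((D : ℝ) + 1) = s * (D - s) * κ := by
    rw [hγ]; field_simp
  linarith

end main

end Pool.Agent.Helper951.Lg
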