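import Pool.Agent.Helper951.LgR
import Pool.Agent.Helper951.LgO

set_option autoImplicit false
set_option linter.unusedSectionVars false

open Finset

namespace Pool.Agent.Helper951.Lg

open Pool.Agent.Helper951.Spec

/-- odd cap -/
def capO (D : ℕ) (u v : ℕ) : Prop :=
  u ≠ v ∧ ¬ ((u = D + 1 ∧ D ≤ v + 1) ∨ (v = D + 1 ∧ D ≤ u + 1) ∨
    (u + 2 ≤ D ∧ v + 2 ≤ D ∧ u / 2 = v / 2))

/-- even cap -/
def capE (D : ℕ) (u v : ℕ) : Prop := u ≠ v ∧ ¬ (D ≤ u + 1 ∧ D ≤ v + 1)

lemma capO_spec (D : ℕ) (hodd : D % 2 = 1) (hD : 3 ≤ D) : Cap D 1 (D + 2) (capO D) := by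
  refine ⟨?_, ?_, ?_, ?_, ?_, by omega, by omega⟩
  · intro u v h
    unfold capO at *
    omega
  · intro v hv _
    rcases (show v = D ∨ v + 1 = D ∨ v + 2 ≤ D by omega) with h | h | h
    · have : (range (D + 2)).filter (capO D v) = range D := by
        ext u
        rw [mem_filter, mem_range, mem_range]
        unfold capO
        omega
      rw [this, card_range]
    · have : (range (D + 2)).filter (capO D v) = (range (D + 2)) \ {v, D + 1} := by
        ext u
        rw [mem_filter, mem_range, mem_sdiff, mem_range, mem_insert, mem_singleton]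
        unfold capO
        omega
      rw [this, Finset.card_sdiff_of_subset, card_range, Finset.card_pair (by omega)]
      · omega
      · intro u hu
        rw [mem_insert, mem_singleton] at hu
        rw [mem_range]; omega
    · obtain ⟨p, hp1, hp2, hp3⟩ : ∃ p, p / 2 = v / 2 ∧ p ≠ v ∧ p + 2 ≤ D := by
        by_cases hev : v % 2 = 0
        · exact ⟨v + 1, by omega, by omega, by omega⟩
        · exact ⟨v - 1, by omega, by omega, by omega⟩
      have : (range (D + 2)).filter (capO D v) = (range (D + 2)) \ {v, p} := by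
        ext u
        rw [mem_filter, mem_range, mem_sdiff, mem_range, mem_insert, mem_singleton]
        unfold capO
        omega
      rw [this, Finset.card_sdiff_of_subset, card_range, Finset.card_pair (Ne.symm hp2)]
      · omega
      · intro u hu
        rw [mem_insert, mem_singleton] at hu
        rw [mem_range]; omega
  · intro v hv hv2 _
    have : (range (D + 2)).filter (capO D v) = range (D - 1) := by
      ext u
      rw [mem_filter, mem_range, mem_range]
      unfold capO
      omega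
    rw [this, card_range]; omega
  · intro v h
    exact h.1 rfl
  · intro v hv
    unfold capO
    by_cases h : v + 2 ≤ D
    · left; omega
    · right; omega

lemma capE_spec (D : ℕ) (hD : 4 ≤ D) : Cap D 2 (D + 1) (capE D) := by
  refine ⟨?_, ?_, ?_, ?_, ?_, by omega, by omega⟩
  · intro u v h
    unfold capE at *
    omega
  · intro v hv _
    have : (range (D + 1)).filter (capE D v) = (range (D + 1)).erase v := by
      ext u
      rw [mem_filter, mem_erase, mem_range]
      unfold capE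
      omega
    rw [this, Finset.card_erase_of_mem (mem_range.2 (by omega)), card_range]; omega
  · intro v hv hv2 _
    have : (range (D + 1)).filter (capE D v) = range (D - 1) := by
      ext u
      rw [mem_filter, mem_range, mem_range]
      unfold capE
      omega
    rw [this, card_range]; omega
  · intro v h
    exact h.1 rfl
  · intro v hv
    unfold capE
    by_cases h : v + 2 ≤ D
    · left; omega
    · right; omega

/-- the extremal candidate -/
theorem candidate (D s m n k : ℕ) (A : ℕ → ℕ → Prop) (hs1 : 1 ≤ s) (hs : s + 1 ≤ D)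
    (hcap : Cap D s m A) (hn : m + k * (D + 1) < n) (hk : 1 ≤ k) :
    ((D : ℝ) - specRad (gph D s m k n A hcap.symm)) * ((k : ℝ) * (D + 1)) ^ 2 ≤
      s * (D - s) * Real.pi ^ 2 / 4 := by
  have hpi := Real.pi_pos
  have hkr : (1 : ℝ) ≤ k := by exact_mod_cast hk
  have hkpos : (0 : ℝ) < k := by linarith
  set φ : ℝ := Real.pi / (2 * k) with hφ
  have hφpos : 0 < φ := by positivity
  have hφk : φ * k = Real.pi / 2 := by rw [hφ]; field_simp
  have hsD : (0 : ℝ) ≤ (D : ℝ) - s := by
    have : (s : ℝ) + 1 ≤ D := by exact_mod_cast hs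
    linarith
  have hcos1 : Real.cos φ ≤ 1 := Real.cos_le_one φ
  have hle : ∀ i : ℕ, i ≤ k → φ * i ≤ Real.pi / 2 := by
    intro i hi
    rw [← hφk]
    exact mul_le_mul_of_nonneg_left (by exact_mod_cast hi) hφpos.le
  have key := gph_rayleigh hs1 hs hcap hn (fun i => Real.cos (φ * i)) hk
    (by rw [hφk, Real.cos_pi_div_two]) (2 - 2 * Real.cos φ)
    (by simp)
    (by
      intro i hi
      apply Real.cos_le_cos_of_nonneg_of_le_pi
      · positivity
      · have := hle (i + 1) hi; linarith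
      · push_cast; nlinarith)
    (by
      intro i hi
      apply Real.cos_nonneg_of_neg_pi_div_two_le_of_le
      · have : 0 ≤ φ * i := by positivity
        linarith
      · exact hle i hi)
    (by
      intro i _
      have e1 : φ * (i : ℝ) = φ * ((i + 1 : ℕ) : ℝ) - φ := by push_cast; ring
      have e2 : φ * ((i + 2 : ℕ) : ℝ) = φ * ((i + 1 : ℕ) : ℝ) + φ := by push_cast; ring
      rw [e1, e2, Real.cos_sub, Real.cos_add]
      apply le_of_eq
      ring)
    (by
      simp only [Nat.cast_zero, mul_zero, Real.cos_zero, Nat.cast_one, mul_one]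
      linarith)
  have hκ : 2 - 2 * Real.cos φ ≤ φ ^ 2 := by
    have := Real.one_sub_sq_div_two_le_cos (x := φ)
    linarith
  have h1 : ((D : ℝ) - specRad (gph D s m k n A hcap.symm)) * (D + 1) ^ 2 ≤ s * (D - s) * φ ^ 2 :=
    key.trans (mul_le_mul_of_nonneg_left hκ (by positivity))
  have h2 := mul_le_mul_of_nonneg_right h1 (sq_nonneg (k : ℝ))
  have h3 : (s : ℝ) * (D - s) * φ ^ 2 * k ^ 2 = s * (D - s) * Real.pi ^ 2 / 4 := by
    have : φ ^ 2 * k ^ 2 = Real.pi ^ 2 / 4 := by
      rw [← mul_pow, hφk]; ring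
    rw [mul_assoc, this]; ring
  rw [h3] at h2
  refine le_trans (le_of_eq ?_) h2
  ring

open Classical in
/-- upper bound for the minimal gap -/
theorem upper (D : ℕ) (hD : 3 ≤ D) (η : ℝ) (hη : 0 < η) : ∃ n0 : ℕ, ∀ n : ℕ, n0 ≤ n →
    ∃ G : SimpleGraph (Fin n), G.Connected ∧ (∀ v, G.degree v ≤ D) ∧ (∃ v, G.degree v = D) ∧
      (∃ v, G.degree v < D) ∧
      (n : ℝ) ^ 2 * ((D : ℝ) - specRad G) ≤ cst D * Real.pi ^ 2 / 4 + η := by
  have hpi := Real.pi_pos
  obtain ⟨s, m, A, hs1, hs2, hcap, hcst⟩ : ∃ (s m : ℕ) (A : ℕ → ℕ → Prop), 1 ≤ s ∧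
      s + 2 ≤ D ∧ Cap D s m A ∧ cst D = s * (D - s) := by
    unfold cst
    by_cases hodd : D % 2 = 1
    · refine ⟨1, D + 2, capO D, le_rfl, by omega, capO_spec D hodd hD, ?_⟩
      rw [if_pos hodd]; push_cast; ring
    · refine ⟨2, D + 1, capE D, by omega, by omega, capE_spec D (by omega), ?_⟩
      rw [if_neg hodd]; push_cast; ring
  have hs : s + 1 ≤ D := by omega
  set M : ℝ := cst D * Real.pi ^ 2 / 4 with hM
  have hcp := cst_pos hD
  have hMpos : 0 < M := by positivity
  set g : ℝ := m + (D + 1) with hg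
  have hg0 : 0 < g := by positivity
  obtain ⟨n1, hn1⟩ := exists_nat_gt (2 * g * (M + η) / η)
  obtain ⟨n2, hn2⟩ := exists_nat_gt g
  refine ⟨n1 + n2 + m + 2 * (D + 1) + 1, ?_⟩
  intro n hn
  have hnr : (n1 : ℝ) ≤ n := by
    have : n1 ≤ n := by omega
    exact_mod_cast this
  have hnr2 : (n2 : ℝ) ≤ n := by
    have : n2 ≤ n := by omega
    exact_mod_cast this
  set k := (n - m - 1) / (D + 1) with hk
  have hkle : k * (D + 1) ≤ n - m - 1 := Nat.div_mul_le_self _ _
  have hkge : n - m - 1 < k * (D + 1) + (D + 1) := Nat.lt_div_mul_add (by omega)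
  have hk1 : 1 ≤ k := by
    rw [hk, Nat.one_le_div_iff (by omega)]; omega
  have hmk : m + k * (D + 1) < n := by omega
  have hcand := candidate D s m n k A hs1 hs hcap hmk hk1
  refine ⟨gph D s m k n A hcap.symm, gph_conn hs1 hs hcap hmk, ?_, ?_, ?_, ?_⟩
  · intro v
    rw [gph_deg hs1 hs hcap hmk v]
    by_cases hv : (v : ℕ) < m + k * (D + 1)
    · rw [deg_body hs1 hs hcap hmk hk1 v hv]
    · refine (deg_tail hs1 hs hcap hmk v (by omega) v.2).trans ?_
      split_ifs <;> omega
  · refine ⟨⟨0, by omega⟩, ?_⟩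
    rw [gph_deg hs1 hs hcap hmk]
    have := hcap.hm
    exact deg_body hs1 hs hcap hmk hk1 0 (by omega)
  · refine ⟨⟨n - 1, by omega⟩, ?_⟩
    rw [gph_deg hs1 hs hcap hmk]
    refine lt_of_le_of_lt (deg_tail hs1 hs hcap hmk (n - 1) (by omega) (by omega)) ?_
    rw [if_neg (by omega)]
    omega
  · set ρ := specRad (gph D s m k n A hcap.symm) with hρ
    rw [← hcst, ← hM] at hcand
    -- n - g ≤ k (D+1)
    have hkl : (n : ℝ) - g ≤ (k : ℝ) * (D + 1) := by
      have h1 : n ≤ k * (D + 1) + (D + 1) + m := by omega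
      have h2 : (n : ℝ) ≤ (k : ℝ) * (D + 1) + (D + 1) + m := by exact_mod_cast h1
      rw [hg]; linarith
    have hng : 0 < (n : ℝ) - g := by linarith
    by_cases hneg : (D : ℝ) - ρ ≤ 0
    · have : (n : ℝ) ^ 2 * ((D : ℝ) - ρ) ≤ 0 := mul_nonpos_of_nonneg_of_nonpos (sq_nonneg _) hneg
      linarith
    · push Not at hneg
      have h3 : ((D : ℝ) - ρ) * ((n : ℝ) - g) ^ 2 ≤ M := by
        refine le_trans ?_ hcand
        apply mul_le_mul_of_nonneg_left _ hneg.le
        exact pow_le_pow_left₀ hng.le hkl 2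
      have h4 : M * (n : ℝ) ^ 2 ≤ (M + η) * ((n : ℝ) - g) ^ 2 := by
        have h5 : 2 * g * (M + η) / η < n := by linarith
        rw [div_lt_iff₀ hη] at h5
        have h6 : (2 * g * (M + η)) * n ≤ (n * η) * n :=
          mul_le_mul_of_nonneg_right h5.le (by linarith)
        have h7 : (M + η) * ((n : ℝ) - g) ^ 2 = M * n ^ 2 + (n * η) * n - (2 * g * (M + η)) * n +
          (M + η) * g ^ 2 := by ring
        have h8 : 0 ≤ (M + η) * g ^ 2 := by positivity
        linarith
      -- multiply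
      have h9 : (n : ℝ) ^ 2 * ((D : ℝ) - ρ) * ((n : ℝ) - g) ^ 2 ≤ (M + η) * ((n : ℝ) - g) ^ 2 := by
        calc (n : ℝ) ^ 2 * ((D : ℝ) - ρ) * ((n : ℝ) - g) ^ 2 =
            (n : ℝ) ^ 2 * (((D : ℝ) - ρ) * ((n : ℝ) - g) ^ 2) := by ring
          _ ≤ (n : ℝ) ^ 2 * M := mul_le_mul_of_nonneg_left h3 (sq_nonneg _)
          _ = M * (n : ℝ) ^ 2 := by ring
          _ ≤ _ := h4
      exact le_of_mul_le_mul_right h9 (by positivity)

end Pool.Agent.Helper951.Lg
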