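import Mathlib
import Pool.Agent.Helper951.Defs

set_option autoImplicit false

namespace Pool.Agent.Helper951.WheelCE

open Pool.Agent.Helper951.Defs Pool.Agent.Helper951.Spec Finset

/-- a maximum matching on `s` vertices: `0-1`, `2-3`, ... -/
def mat (s : ℕ) : SimpleGraph (Fin s) where
  Adj i j := i ≠ j ∧ i.val / 2 = j.val / 2
  symm := ⟨fun _ _ h => ⟨h.1.symm, h.2.symm⟩⟩
  loopless := ⟨fun _ h => h.1 rfl⟩

/-- the join of two maximum matchings -/
def JM (s t : ℕ) : SimpleGraph (Fin s ⊕ Fin t) := join (mat s) (mat t)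

lemma JM_ll {s t : ℕ} (i j : Fin s) :
    (JM s t).Adj (Sum.inl i) (Sum.inl j) ↔ i.val ≠ j.val ∧ i.val / 2 = j.val / 2 := by
  change (i ≠ j ∧ _) ↔ _
  rw [Ne, Fin.ext_iff]

lemma JM_rr {s t : ℕ} (i j : Fin t) :
    (JM s t).Adj (Sum.inr i) (Sum.inr j) ↔ i.val ≠ j.val ∧ i.val / 2 = j.val / 2 := by
  change (i ≠ j ∧ _) ↔ _
  rw [Ne, Fin.ext_iff]

lemma JM_lr {s t : ℕ} (i : Fin s) (j : Fin t) : (JM s t).Adj (Sum.inl i) (Sum.inr j) := trivial

lemma JM_rl {s t : ℕ} (i : Fin s) (j : Fin t) : (JM s t).Adj (Sum.inr j) (Sum.inl i) := trivial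

instance (s t : ℕ) : DecidableRel (JM s t).Adj := fun x y =>
  match x, y with
  | Sum.inl a, Sum.inl b => decidable_of_iff _ (JM_ll a b).symm
  | Sum.inr a, Sum.inr b => decidable_of_iff _ (JM_rr a b).symm
  | Sum.inl a, Sum.inr b => isTrue (JM_lr a b)
  | Sum.inr a, Sum.inl b => isTrue (JM_rl b a)

/-- The join of two matchings contains no `W_5`. -/
lemma JM_free (s t : ℕ) : ¬ (wheel 5).IsContained (JM s t) := by
  rintro ⟨f⟩
  have hinj := f.injective
  have hadj : ∀ i j, (wheel 5).Adj i j → (JM s t).Adj (f.toHom i) (f.toHom j) :=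
    fun i j h => f.toHom.map_adj h
  generalize f.toHom = g at hinj hadj
  have h0 : ∀ i : Fin 4, (JM s t).Adj (g (Sum.inl 0)) (g (Sum.inr i)) :=
    fun i => hadj _ _ trivial
  have hc : ∀ i j : Fin 4, (SimpleGraph.cycleGraph 4).Adj i j →
      (JM s t).Adj (g (Sum.inr i)) (g (Sum.inr j)) := fun i j h => hadj _ _ h
  have h01 := hc 0 1 (by decide)
  have h12 := hc 1 2 (by decide)
  have h23 := hc 2 3 (by decide)
  have h30 := hc 3 0 (by decide)
  have n02 : g (Sum.inr 0) ≠ g (Sum.inr 2) := fun h => by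
    have := Sum.inr_injective (hinj h); revert this; decide
  have n13 : g (Sum.inr 1) ≠ g (Sum.inr 3) := fun h => by
    have := Sum.inr_injective (hinj h); revert this; decide
  have a0 := h0 0
  have a1 := h0 1
  have a2 := h0 2
  have a3 := h0 3
  rcases hg : g (Sum.inl 0) with c | c <;> rcases hg0 : g (Sum.inr 0) with c0 | c0 <;>
    rcases hg1 : g (Sum.inr 1) with c1 | c1 <;> rcases hg2 : g (Sum.inr 2) with c2 | c2 <;>
    rcases hg3 : g (Sum.inr 3) with c3 | c3 <;>
    simp only [hg, hg0, hg1, hg2, hg3, JM_ll, JM_rr, ne_eq, Sum.inl.injEq, Sum.inr.injEq,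
      Fin.ext_iff] at h01 h12 h23 h30 n02 n13 a0 a1 a2 a3 <;> omega

/-- partner in the matching -/
lemma mat_count {s : ℕ} (i : Fin s) :
    (Finset.univ.filter (fun j : Fin s => i.val ≠ j.val ∧ i.val / 2 = j.val / 2)).card =
      if 2 * (i.val / 2) + 1 < s then 1 else 0 := by
  have hi := i.isLt
  split_ifs with h
  · rw [Finset.card_eq_one]
    refine ⟨⟨4 * (i.val / 2) + 1 - i.val, by omega⟩, ?_⟩
    ext j
    simp only [Finset.mem_filter, Finset.mem_univ, true_and, Finset.mem_singleton, Fin.ext_iff]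
    omega
  · rw [Finset.card_eq_zero, Finset.filter_eq_empty_iff]
    intro j _
    have hj := j.isLt
    omega

lemma JM_nbr_l {s t : ℕ} (i : Fin s) : (JM s t).neighborFinset (Sum.inl i) =
    (Finset.univ.filter (fun j : Fin s => i.val ≠ j.val ∧ i.val / 2 = j.val / 2)).map
      Function.Embedding.inl ∪ (Finset.univ : Finset (Fin t)).map Function.Embedding.inr := by
  ext x
  rw [SimpleGraph.mem_neighborFinset]
  rcases x with j | j
  · rw [JM_ll]; simp
  · simp [JM_lr]

lemma JM_nbr_r {s t : ℕ} (i : Fin t) : (JM s t).neighborFinset (Sum.inr i) =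
    (Finset.univ : Finset (Fin s)).map Function.Embedding.inl ∪
    (Finset.univ.filter (fun j : Fin t => i.val ≠ j.val ∧ i.val / 2 = j.val / 2)).map
      Function.Embedding.inr := by
  ext x
  rw [SimpleGraph.mem_neighborFinset]
  rcases x with j | j
  · simp [JM_rl]
  · rw [JM_rr]; simp

lemma disj_map {s t : ℕ} (A : Finset (Fin s)) (B : Finset (Fin t)) :
    Disjoint (A.map (Function.Embedding.inl : Fin s ↪ Fin s ⊕ Fin t))
      (B.map (Function.Embedding.inr : Fin t ↪ Fin s ⊕ Fin t)) := by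
  rw [Finset.disjoint_left]
  intro x hx hx'
  rw [Finset.mem_map] at hx hx'
  obtain ⟨a, _, rfl⟩ := hx
  obtain ⟨b, _, hb⟩ := hx'
  cases hb

lemma JM_sum_l {s t : ℕ} (i : Fin s) (y : Fin s ⊕ Fin t → ℝ) :
    ∑ u ∈ (JM s t).neighborFinset (Sum.inl i), y u =
      ∑ j ∈ (Finset.univ.filter (fun j : Fin s => i.val ≠ j.val ∧ i.val / 2 = j.val / 2)),
        y (Sum.inl j) + ∑ j : Fin t, y (Sum.inr j) := by
  rw [JM_nbr_l, Finset.sum_union (disj_map _ _), Finset.sum_map, Finset.sum_map]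
  rfl

lemma JM_sum_r {s t : ℕ} (i : Fin t) (y : Fin s ⊕ Fin t → ℝ) :
    ∑ u ∈ (JM s t).neighborFinset (Sum.inr i), y u =
      ∑ j : Fin s, y (Sum.inl j) +
      ∑ j ∈ (Finset.univ.filter (fun j : Fin t => i.val ≠ j.val ∧ i.val / 2 = j.val / 2)),
        y (Sum.inr j) := by
  rw [JM_nbr_r, Finset.sum_union (disj_map _ _), Finset.sum_map, Finset.sum_map]
  rfl

lemma JM_deg_l {s t : ℕ} (i : Fin s) : (JM s t).degree (Sum.inl i) =
    (if 2 * (i.val / 2) + 1 < s then 1 else 0) + t := by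
  rw [← SimpleGraph.card_neighborFinset_eq_degree, JM_nbr_l,
    Finset.card_union_of_disjoint (disj_map _ _), Finset.card_map, Finset.card_map, mat_count]
  simp

lemma JM_deg_r {s t : ℕ} (i : Fin t) : (JM s t).degree (Sum.inr i) =
    s + (if 2 * (i.val / 2) + 1 < t then 1 else 0) := by
  rw [← SimpleGraph.card_neighborFinset_eq_degree, JM_nbr_r,
    Finset.card_union_of_disjoint (disj_map _ _), Finset.card_map, Finset.card_map, mat_count]
  simp

lemma sum_matched_even (r : ℕ) :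
    ∑ i : Fin (2 * r), (if 2 * (i.val / 2) + 1 < 2 * r then 1 else 0) = 2 * r := by
  have : ∀ i : Fin (2 * r), (if 2 * (i.val / 2) + 1 < 2 * r then 1 else 0) = 1 := by
    intro i
    have := i.isLt
    rw [if_pos (by omega)]
  simp [this]

lemma sum_matched_odd (r : ℕ) :
    ∑ i : Fin (2 * r + 1), (if 2 * (i.val / 2) + 1 < 2 * r + 1 then 1 else 0) = 2 * r := by
  rw [Fin.sum_univ_castSucc]
  have h1 : ∀ i : Fin (2 * r),
      (if 2 * (i.castSucc.val / 2) + 1 < 2 * r + 1 then 1 else 0) = 1 := by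
    intro i
    have := i.isLt
    rw [if_pos (by simp only [Fin.val_castSucc]; omega)]
  have h2 : (if 2 * ((Fin.last (2 * r)).val / 2) + 1 < 2 * r + 1 then 1 else 0) = 0 := by
    rw [if_neg (by simp only [Fin.val_last]; omega)]
  simp only [h1, h2]
  simp

/-- number of edges, both sides even and equal -/
lemma JM_edges_even (r : ℕ) : (JM (2 * r) (2 * r)).edgeFinset.card = 2 * r * (2 * r + 1) := by
  have h := (JM (2 * r) (2 * r)).sum_degrees_eq_twice_card_edges
  rw [Fintype.sum_sum_type] at h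
  simp only [JM_deg_l, JM_deg_r] at h
  rw [Finset.sum_add_distrib, Finset.sum_add_distrib, sum_matched_even] at h
  simp only [Finset.sum_const, Finset.card_univ, Fintype.card_fin, smul_eq_mul] at h
  nlinarith

/-- number of edges, sides `2r+1` and `2r+2` -/
lemma JM_edges_odd (r : ℕ) :
    (JM (2 * r + 1) (2 * (r + 1))).edgeFinset.card = (2 * r + 2) * (2 * r + 2) - 1 := by
  have h := (JM (2 * r + 1) (2 * (r + 1))).sum_degrees_eq_twice_card_edges
  rw [Fintype.sum_sum_type] at h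
  simp only [JM_deg_l, JM_deg_r] at h
  rw [Finset.sum_add_distrib, Finset.sum_add_distrib, sum_matched_even, sum_matched_odd] at h
  simp only [Finset.sum_const, Finset.card_univ, Fintype.card_fin, smul_eq_mul] at h
  have h2 : (2 * r + 2) * (2 * r + 2) = 4 * (r * r) + 8 * r + 4 := by ring
  have h3 : 2 * r + (2 * r + 1) * (2 * (r + 1)) + (2 * (r + 1) * (2 * r + 1) + 2 * (r + 1)) =
      8 * (r * r) + 16 * r + 6 := by ring
  rw [h3] at h
  rw [h2]
  omega

end Pool.Agent.Helper951.WheelCE
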